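import Pool.Agent.P.MP_3fb035_pr.QDef

-- part Pool.Agent.P.MP_3fb035_pr.QG0
section

/-! Connectivity: basic facts. -/

set_option autoImplicit false

open MeasureTheory Set
open scoped ENNReal symmDiff

namespace Pool.Agent.P3fb035

open Pool.Agent.Lib.GRW

variable {V : Type} {G : SimpleGraph V}

variable {S S' W F A B : Set V} {a b c v : V}

theorem Cn.rfl : Cn G S a a := Relation.ReflTransGen.refl

theorem Cn.trans (h : Cn G S a b) (h' : Cn G S b c) : Cn G S a c :=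
  Relation.ReflTransGen.trans h h'

theorem Cn.single (h : G.Adj a b) (hb : b ∈ S) : Cn G S a b :=
  Relation.ReflTransGen.single ⟨h, hb⟩

theorem Cn.mono (h : Cn G S a b) (hS : S ⊆ S') : Cn G S' a b := by
  induction h with
  | refl => exact Cn.rfl
  | tail _ h2 ih => exact Cn.trans ih (Cn.single h2.1 (hS h2.2))

theorem Cn.mem (h : Cn G S a b) : b = a ∨ b ∈ S := by
  induction h with
  | refl => exact Or.inl (Eq.refl _)
  | tail _ h2 _ => exact Or.inr h2.2

theorem Cn.symm (h : Cn G S a b) (ha : a ∈ S) : Cn G S b a := by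
  induction h with
  | refl => exact Cn.rfl
  | tail h1 h2 ih =>
    refine Cn.trans (Cn.single h2.1.symm ?_) ih
    rcases Cn.mem h1 with e | e
    · exact e ▸ ha
    · exact e

theorem cn_univ (hc : G.Preconnected) (a b : V) : Cn G univ a b := by
  obtain ⟨p⟩ := hc a b
  induction p with
  | nil => exact Cn.rfl
  | cons h _ ih => exact Cn.trans (Cn.single h (mem_univ _)) ih

theorem Cn.map (φ : G ≃g G) (h : Cn G (φ ⁻¹' S) a b) : Cn G S (φ a) (φ b) := by
  induction h with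
  | refl => exact Cn.rfl
  | tail _ h2 ih => exact Cn.trans ih (Cn.single (φ.map_adj_iff.2 h2.1) h2.2)

theorem Cn.pre (φ : G ≃g G) (h : Cn G S (φ a) (φ b)) : Cn G (φ ⁻¹' S) a b := by
  have e : φ.symm ⁻¹' (φ ⁻¹' S) = S := by
    ext x
    simp
  have := Cn.map (S := φ ⁻¹' S) φ.symm (e.symm ▸ h)
  simpa using this

theorem Con.pre (φ : G ≃g G) (h : Con G S) : Con G (φ ⁻¹' S) := by
  exact fun a ha b hb => Cn.pre φ (h _ ha _ hb)

theorem Clo.pre (φ : G ≃g G) (h : Clo G F W) : Clo G (φ ⁻¹' F) (φ ⁻¹' W) := by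
  exact fun a ha b hb => h _ ha _ (φ.map_adj_iff.2 hb)

theorem cp_pre (φ : G ≃g G) (W : Set V) (a : V) :
    φ ⁻¹' Cp G W (φ a) = Cp G (φ ⁻¹' W) a := by
  ext b
  exact ⟨fun h => Cn.pre φ h, fun h => Cn.map φ h⟩

theorem con_of_base (hv : v ∈ S) (h : ∀ a ∈ S, Cn G S v a) : Con G S := by
  exact fun a ha b hb => ((h a ha).symm hv).trans (h b hb)

theorem con_singleton (v : V) : Con G {v} := by
  rintro a rfl b rfl
  exact Cn.rfl

theorem Con.insert (h : Con G S) (ha : a ∈ S) (hv : G.Adj a v) : Con G (insert v S) := by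
  refine con_of_base (mem_insert_of_mem _ ha) ?_
  rintro b (rfl | hb)
  · exact Cn.single hv (mem_insert _ _)
  · exact (h a ha b hb).mono (subset_insert _ _)

theorem Two.con (h : Two G) (v : V) : Con G {v}ᶜ := fun a ha b hb => h v a b ha hb

theorem mem_cp (W : Set V) (a : V) : a ∈ Cp G W a := Cn.rfl

theorem cp_disj (ha : a ∉ W) : Disjoint (Cp G W a) W := by
  refine disjoint_left.2 fun b hb => ?_
  rcases Cn.mem hb with e | e
  · exact e ▸ ha
  · exact e

theorem cp_con (ha : a ∉ W) : Con G (Cp G W a) := by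
  refine con_of_base (mem_cp W a) fun b hb => ?_
  induction hb with
  | refl => exact Cn.rfl
  | tail h1 h2 ih => exact Cn.trans ih (Cn.single h2.1 (Relation.ReflTransGen.tail h1 h2))

theorem cp_clo (W : Set V) (a : V) : Clo G (Cp G W a) W := by
  intro b hb c hc
  by_cases h : c ∈ W
  · exact Or.inr h
  · exact Or.inl (Cn.trans hb (Cn.single hc h))

theorem cp_eq (ha : a ∉ W) (hb : b ∈ Cp G W a) : Cp G W b = Cp G W a := by
  ext c
  exact ⟨fun h => Cn.trans hb h, fun h => Cn.trans (Cn.symm hb ha) h⟩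

theorem cp_disj_cp (ha : a ∉ W) (hb : b ∉ W) (h : b ∉ Cp G W a) :
    Disjoint (Cp G W a) (Cp G W b) := by
  refine disjoint_left.2 fun c h1 h2 => h ?_
  exact Cn.trans h1 (Cn.symm h2 hb)

theorem clo_cn (hF : Clo G F W) (h : Cn G S a b) (hS : Disjoint S W) (ha : a ∈ F) : b ∈ F := by
  induction h with
  | refl => exact ha
  | tail _ h2 ih => exact (hF _ ih _ h2.1).resolve_right (disjoint_left.1 hS h2.2)

theorem Con.sub_cp (h : Con G S) (hS : Disjoint S W) (ha : a ∈ S) : S ⊆ Cp G W a := by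
  exact fun b hb => (h a ha b hb).mono (disjoint_left.1 hS)

theorem Clo.compl (hF : Clo G F W) : Clo G (F ∪ W)ᶜ W := by
  intro a ha b hb
  by_cases h : b ∈ W
  · exact Or.inr h
  · refine Or.inl fun hb' => ha ?_
    exact hF b (hb'.resolve_right h) a hb.symm

theorem Clo.mono (hF : Clo G F W) (hW : W ⊆ A) : Clo G F A := by
  exact fun a ha b hb => (hF a ha b hb).imp_right fun h => hW h

end Pool.Agent.P3fb035
end

-- part Pool.Agent.P.MP_3fb035_pr.QG1
section

/-! Connectivity. -/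

set_option autoImplicit false

open MeasureTheory Set
open scoped ENNReal symmDiff

namespace Pool.Agent.P3fb035

open Pool.Agent.Lib.GRW

variable {V : Type} {G : SimpleGraph V}

variable {S S' W F A B : Set V} {a b c v : V}

theorem exit_edge (h : Cn G S a b) (ha : a ∈ A) (hb : b ∉ A) :
    ∃ p q, p ∈ A ∧ q ∉ A ∧ q ∈ S ∧ (p = a ∨ p ∈ S) ∧ G.Adj p q := by
  induction h with
  | refl => exact absurd ha hb
  | @tail p q h1 h2 ih =>
    by_cases hp : p ∈ A
    · exact ⟨p, q, hp, hb, h2.2, Cn.mem h1, h2.1⟩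
    · exact ih hp

theorem to_sep (hc : G.Preconnected) (hF : Clo G F W) (hW : W.Nonempty) (ha : a ∈ F) :
    ∃ w ∈ W, Cn G (F ∪ W) a w := by
  obtain ⟨w, hw⟩ := hW
  have h : Cn G univ a w := cn_univ hc a w
  induction h using Relation.ReflTransGen.head_induction_on with
  | refl => exact ⟨w, hw, Cn.rfl⟩
  | @head p q h1 h2 ih =>
    rcases hF p ha q h1.1 with h3 | h3
    · obtain ⟨u, hu, h4⟩ := ih h3
      exact ⟨u, hu, (Cn.single h1.1 (Or.inl h3)).trans h4⟩
    · exact ⟨q, h3, Cn.single h1.1 (Or.inr h3)⟩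

theorem qg1_path (h : Cn G S a b) (ha : a ∈ S) :
    ∃ B : Set V, B.Finite ∧ a ∈ B ∧ b ∈ B ∧ B ⊆ S ∧ ∀ c ∈ B, Cn G B a c := by
  induction h with
  | refl => exact ⟨{a}, finite_singleton a, rfl, rfl, singleton_subset_iff.mpr ha,
      fun c hc => (show c = a from hc) ▸ Cn.rfl⟩
  | @tail p q h1 h2 ih =>
    obtain ⟨B, b1, b2, b3, b4, b5⟩ := ih
    refine ⟨insert q B, b1.insert q, Or.inr b2, Or.inl rfl, insert_subset h2.2 b4, ?_⟩
    rintro c (rfl | hc)
    · exact ((b5 p b3).mono (subset_insert _ _)).trans (Cn.single h2.1 (Or.inl rfl))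
    · exact (b5 c hc).mono (subset_insert _ _)

theorem fin_sup (hS : Con G S) (hA : A.Finite) (hAS : A ⊆ S) :
    ∃ B : Set V, B.Finite ∧ A ⊆ B ∧ B ⊆ S ∧ Con G B := by
  rcases A.eq_empty_or_nonempty with rfl | ⟨v, hv⟩
  · exact ⟨∅, finite_empty, subset_rfl, empty_subset _, fun a ha => absurd ha (notMem_empty a)⟩
  have h1 : ∀ a : A, ∃ B : Set V, B.Finite ∧ v ∈ B ∧ a.1 ∈ B ∧ B ⊆ S ∧ ∀ c ∈ B, Cn G B v c :=
    fun a => qg1_path (hS v (hAS hv) a (hAS a.2)) (hAS hv)
  choose B h2 h3 h4 h5 h6 using h1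
  have := hA.to_subtype
  refine ⟨⋃ a, B a, finite_iUnion h2, fun a ha => mem_iUnion.mpr ⟨⟨a, ha⟩, h4 _⟩,
    iUnion_subset h5, con_of_base (v := v) (mem_iUnion.mpr ⟨⟨v, hv⟩, h3 _⟩) fun c hc => ?_⟩
  obtain ⟨a, ha⟩ := mem_iUnion.mp hc
  exact (h6 a c ha).mono (subset_iUnion B a)

theorem con_diff (hS : Con G S) (hv : v ∈ S) (hvB : v ∉ B)
    (hB : ∀ a ∈ B, ∀ b ∈ S, G.Adj a b → b ∈ B ∨ b = v) : Con G (S \ B) := by
  refine con_of_base (v := v) ⟨hv, hvB⟩ fun q hq => ?_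
  have h : Cn G S v q := hS v hv q hq.1
  have hq2 := hq.2
  clear hq
  induction h with
  | refl => exact Cn.rfl
  | @tail p q h1 h2 ih =>
    by_cases hp : p ∈ B
    · rcases hB p hp q h2.2 h2.1 with h3 | h3
      · exact absurd h3 hq2
      · rw [h3]; exact Cn.rfl
    · exact (ih hp).trans (Cn.single h2.1 ⟨h2.2, hq2⟩)

theorem con_punct (hS : Con G S) (hv : v ∈ S) (hA : A ⊆ S) (hvA : v ∉ A) (hcA : Con G A)
    (hN : ∀ b, G.Adj v b → b ∈ A) : Con G (S \ {v}) := by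
  have hAS : A ⊆ S \ {v} := fun a ha => ⟨hA ha, fun e => hvA ((show a = v from e) ▸ ha)⟩
  have key : ∀ q, Cn G S q v → q ≠ v → ∃ z ∈ A, Cn G (S \ {v}) q z := by
    intro q h
    induction h using Relation.ReflTransGen.head_induction_on with
    | refl => exact fun h => absurd rfl h
    | @head p q h1 h2 ih =>
      intro _
      by_cases hq : q = v
      · exact ⟨p, hN p (hq ▸ h1.1.symm), Cn.rfl⟩
      · obtain ⟨z, hz, h3⟩ := ih hq
        exact ⟨z, hz, (Cn.single h1.1 (show q ∈ S \ {v} from ⟨h1.2, hq⟩)).trans h3⟩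
  intro a ha b hb
  obtain ⟨z, hz, h1⟩ := key a (hS a ha.1 v hv) ha.2
  obtain ⟨z', hz', h2⟩ := key b (hS b hb.1 v hv) hb.2
  exact (h1.trans ((hcA z hz z' hz').mono hAS)).trans (h2.symm hb)

theorem Con.exists_adj (hS : Con G S) (hn : S.Nontrivial) (ha : a ∈ S) : ∃ b ∈ S, G.Adj a b := by
  obtain ⟨b, hb, hba⟩ := hn.exists_ne a
  obtain ⟨p, q, h1, -, h3, -, h5⟩ := exit_edge (A := {a}) (hS a ha b hb) rfl hba
  exact ⟨q, h3, (show p = a from h1) ▸ h5⟩

theorem nb_fin (hl : LF G) (hA : A.Finite) : {b | ∃ a ∈ A, G.Adj a b}.Finite := by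
  refine (hA.biUnion fun a _ => hl a).subset ?_
  rintro b ⟨a, ha, h⟩
  exact mem_biUnion ha h

theorem st_fin (hl : LF G) (hA : A.Finite) (B : Set V) : (St G A B).Finite := by
  refine (hA.biUnion fun a _ => (hl a).image fun b => s(a, b)).subset ?_
  rintro e ⟨a, ha, b, -, h, rfl⟩
  exact mem_biUnion ha ⟨b, h, rfl⟩

theorem mem_st : s(a, b) ∈ St G A B ↔ G.Adj a b ∧ ((a ∈ A ∧ b ∈ B) ∨ (b ∈ A ∧ a ∈ B)) := by
  constructor
  · rintro ⟨p, hp, q, hq, h, e⟩
    rcases Sym2.eq_iff.mp e with ⟨rfl, rfl⟩ | ⟨rfl, rfl⟩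
    · exact ⟨h, Or.inl ⟨hp, hq⟩⟩
    · exact ⟨h.symm, Or.inr ⟨hp, hq⟩⟩
  · rintro ⟨h, ⟨h1, h2⟩ | ⟨h1, h2⟩⟩
    · exact ⟨a, h1, b, h2, h, rfl⟩
    · exact ⟨b, h1, a, h2, h.symm, Sym2.eq_swap⟩

theorem vx_fin {H : Set (Sym2 V)} (hH : H.Finite) : {a | ∃ b, s(a, b) ∈ H}.Finite := by
  have h1 : ∀ e : Sym2 V, {a | a ∈ e}.Finite := fun e => by
    induction e using Sym2.ind with
    | h p q =>
      refine (toFinite ({p, q} : Set V)).subset fun a ha => ?_
      exact Sym2.mem_iff.mp ha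
  refine (hH.biUnion fun e _ => h1 e).subset ?_
  rintro a ⟨b, hb⟩
  exact mem_biUnion hb (Sym2.mem_mk_left a b)

theorem ball_fin (hl : LF G) (hA : A.Finite) (m : ℕ) :
    {a | ∃ (x : ℕ → V) (t : ℕ), t ≤ m ∧ x 0 = a ∧ x t ∈ A ∧
      ∀ s < t, G.Adj (x s) (x (s + 1))}.Finite := by
  induction m with
  | zero =>
    refine hA.subset ?_
    rintro a ⟨x, t, h1, h2, h3, -⟩
    obtain rfl : t = 0 := by omega
    exact h2 ▸ h3
  | succ m ih =>
    refine (hA.union (nb_fin hl ih)).subset ?_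
    rintro a ⟨x, t, h1, h2, h3, h4⟩
    rcases t with _ | t
    · exact Or.inl (h2 ▸ h3)
    · refine Or.inr ⟨x 1, ⟨fun s => x (s + 1), t, by omega, rfl, h3, fun s hs => h4 _ (by omega)⟩, ?_⟩
      exact h2 ▸ (h4 0 (by omega)).symm

theorem stay (hF : Clo G F W) {y : ℕ → V} (ha : ∀ s, G.Adj (y s) (y (s + 1))) (hW : y ∈ Ev W) :
    y ∈ Ev F ∨ y ∈ Ev Fᶜ := by
  obtain ⟨T, hT⟩ := hW
  by_cases h : ∃ s > T, y s ∈ F
  · obtain ⟨s, hs, h1⟩ := h
    refine Or.inr ⟨s, fun t ht => not_not.mpr ?_⟩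
    have ht' : s ≤ t := le_of_lt ht
    clear ht
    induction t, ht' using Nat.le_induction with
    | base => exact h1
    | succ t ht ih => exact (hF _ ih _ (ha t)).resolve_right (hT _ (by omega))
  · exact Or.inl ⟨T, fun s hs h1 => h ⟨s, hs, h1⟩⟩

theorem qg1_of {y : ℕ → V} (h : y ∉ Of a) : ∃ T, ∀ s > T, y s ≠ a := by
  by_contra h1
  refine h fun N => ?_
  by_contra h2
  exact h1 ⟨N, fun s hs e => h2 ⟨s, le_of_lt hs, e⟩⟩

theorem ev_fin {y : ℕ → V} (hA : A.Finite) (hy : ∀ a ∈ A, y ∉ Of a) : y ∈ Ev A := by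
  induction A, hA using Set.Finite.induction_on with
  | empty => exact ⟨0, fun s _ => notMem_empty _⟩
  | @insert a A _ _ ih =>
    obtain ⟨T, hT⟩ := ih fun b hb => hy b (Or.inr hb)
    obtain ⟨T', hT'⟩ := qg1_of (hy a (Or.inl rfl))
    refine ⟨max T T', fun s hs => ?_⟩
    rintro (h | h)
    · exact hT' s (lt_of_le_of_lt (le_max_right _ _) hs) h
    · exact hT s (lt_of_le_of_lt (le_max_left _ _) hs) h

theorem Ev.union {y : ℕ → V} (hA : y ∈ Ev A) (hB : y ∈ Ev B) : y ∈ Ev (A ∪ B) := by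
  obtain ⟨T, hT⟩ := hA
  obtain ⟨T', hT'⟩ := hB
  refine ⟨max T T', fun s hs => ?_⟩
  rintro (h | h)
  · exact hT s (lt_of_le_of_lt (le_max_left _ _) hs) h
  · exact hT' s (lt_of_le_of_lt (le_max_right _ _) hs) h

theorem Ev.anti {y : ℕ → V} (hA : y ∈ Ev A) (hB : B ⊆ A) : y ∈ Ev B := by
  obtain ⟨T, hT⟩ := hA
  exact ⟨T, fun s hs h => hT s hs (hB h)⟩

theorem Ev.not_of {y : ℕ → V} (hA : y ∈ Ev A) (ha : a ∈ A) : y ∉ Of a := by
  obtain ⟨T, hT⟩ := hA
  intro h
  obtain ⟨n, hn, e⟩ := h (T + 1)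
  exact hT n hn (e ▸ ha)

end Pool.Agent.P3fb035
end

-- part Pool.Agent.P.MP_3fb035_pr.QH1
section

/-! Components of the complement of a finite set. -/

set_option autoImplicit false

open MeasureTheory Set
open scoped ENNReal symmDiff

namespace Pool.Agent.P3fb035

open Pool.Agent.Lib.GRW

variable {V : Type} {G : SimpleGraph V}

variable {W P : Set V} {a : V}

theorem qh1_exit (hc : G.Preconnected) (hne : W.Nonempty) (ha : a ∉ W) :
    ∃ v ∈ Cp G W a, ∃ w ∈ W, G.Adj w v := by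
  obtain ⟨w, hw⟩ := hne
  obtain ⟨p, q, hp, hq, -, -, hpq⟩ := exit_edge (cn_univ hc a w) (mem_cp W a)
    (disjoint_right.1 (cp_disj ha) hw)
  exact ⟨p, hp, q, (cp_clo W a p hp q hpq).resolve_left hq, hpq.symm⟩

theorem qh1_not {v b : V} (ha : a ∉ W) (hb : b ∈ Cp G W a) (hbv : b ≠ v) : b ∉ insert v W := by
  rintro (e | e)
  · exact hbv e
  · exact disjoint_left.1 (cp_disj ha) hb e

theorem qh1_sub {v b : V} (ha : a ∉ W) (hb : b ∈ Cp G W a) (hbv : b ≠ v) :
    Cp G (insert v W) b ⊆ Cp G W a \ {v} := fun x hx =>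
  ⟨Cn.trans hb (Cn.mono hx (compl_subset_compl.2 (subset_insert v W))), fun e =>
    disjoint_left.1 (cp_disj (qh1_not ha hb hbv)) hx (Or.inl e)⟩

theorem qh1_meet {v b : V} (h2 : Two G) (hne : W.Nonempty) (ha : a ∉ W) (hv : v ∈ Cp G W a)
    (hb : b ∈ Cp G W a) (hbv : b ≠ v) : ∃ u ∈ Cp G (insert v W) b, ∃ w ∈ W, G.Adj w u := by
  obtain ⟨w, hw⟩ := hne
  have hwv : w ≠ v := fun e => disjoint_left.1 (cp_disj ha) hv (e ▸ hw)
  obtain ⟨p, q, hp, hq, hq', -, hpq⟩ := exit_edge (h2 v b w hbv hwv) (mem_cp (insert v W) b)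
    (disjoint_right.1 (cp_disj (qh1_not ha hb hbv)) (Or.inr hw))
  exact ⟨p, hp, q, ((cp_clo _ b p hp q hpq).resolve_left hq).resolve_left hq', hpq.symm⟩

theorem noncut (hl : LF G) (hc : G.Preconnected) (h2 : Two G) (hW : W.Finite) (hne : W.Nonempty)
    (ha : a ∉ W) : ∃ v ∈ Cp G W a, (∃ w ∈ W, G.Adj w v) ∧ Con G (Cp G W a \ {v}) := by
  by_contra h
  push Not at h
  have hA : {u | ∃ w ∈ W, G.Adj w u}.Finite := nb_fin hl hW
  have key : ∀ n : ℕ, ∀ v ∈ Cp G W a, ∀ b ∈ Cp G W a, b ≠ v →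
      ({u | ∃ w ∈ W, G.Adj w u} ∩ Cp G (insert v W) b).ncard = n → False := by
    intro n
    induction n using Nat.strong_induction_on with
    | _ n ih =>
      intro v hv b hb hbv hn
      obtain ⟨u, hu, hw⟩ := qh1_meet h2 hne ha hv hb hbv
      have s1 := qh1_sub ha hb hbv
      have huv : v ≠ u := fun e => (s1 hu).2 e.symm
      have hvW : v ∉ insert u W := qh1_not ha hv huv
      obtain ⟨b', hb', hb''⟩ : ∃ b' ∈ Cp G W a \ {u}, b' ∉ Cp G (insert u W) v := by
        by_contra h'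
        push Not at h'
        refine h u (s1 hu).1 hw ?_
        rw [show Cp G W a \ {u} = Cp G (insert u W) v from Subset.antisymm h' (qh1_sub ha hv huv)]
        exact cp_con hvW
      have d1 := cp_disj_cp hvW (qh1_not ha hb'.1 hb'.2) hb''
      have c1 : Con G (Cp G W a \ Cp G (insert v W) b) := by
        refine con_diff (cp_con ha) hv (fun e => (s1 e).2 rfl) fun x hx y hy hxy => ?_
        rcases cp_clo _ _ x hx y hxy with e | e | e
        · exact Or.inl e
        · exact Or.inr e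
        · exact absurd e (disjoint_left.1 (cp_disj ha) hy)
      have s2 : Cp G W a \ Cp G (insert v W) b ⊆ Cp G (insert u W) v := by
        refine c1.sub_cp (disjoint_left.2 ?_) ⟨hv, fun e => (s1 e).2 rfl⟩
        rintro x ⟨hx, hx'⟩ (rfl | e)
        · exact hx' hu
        · exact disjoint_left.1 (cp_disj ha) hx e
      have s3 := qh1_sub ha hb'.1 hb'.2
      refine ih _ ?_ u (s1 hu).1 b' hb'.1 hb'.2 rfl
      rw [← hn]
      refine ncard_lt_ncard ⟨fun x hx => ⟨hx.1, ?_⟩, fun e => ?_⟩ (hA.inter_of_left _)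
      · by_contra hx'
        exact disjoint_left.1 d1 (s2 ⟨(s3 hx.2).1, hx'⟩) hx.2
      · exact (s3 (e ⟨hw, hu⟩).2).2 rfl
  obtain ⟨v, hv, hw⟩ := qh1_exit hc hne ha
  by_cases e : (Cp G W a \ {v}).Nonempty
  · obtain ⟨b, hb, hbv⟩ := e
    exact key _ v hv b hb hbv rfl
  · exact h v hv hw fun x hx => absurd ⟨x, hx⟩ e

theorem absorb (hl : LF G) (hc : G.Preconnected) (hW : W.Finite) (hne : W.Nonempty)
    (hcon : Con G W) (hP : Clo G P W) (hPW : Disjoint P W) :
    ∃ W₁ : Set V, W ⊆ W₁ ∧ W₁.Finite ∧ Con G W₁ ∧ Disjoint P W₁ ∧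
      ∀ u, u ∉ W₁ → u ∉ P → (Cp G W₁ u).Infinite := by
  have hsub : ∀ a, a ∉ W → a ∉ P → (Cp G W a).Finite →
      Cp G W a ⊆ W ∪ {a | a ∉ W ∧ a ∉ P ∧ (Cp G W a).Finite} := by
    intro a h1 h2 h3 x hx
    refine Or.inr ⟨disjoint_left.1 (cp_disj h1) hx, fun e => h2 ?_, by rwa [cp_eq h1 hx]⟩
    exact clo_cn hP (Cn.symm hx h1) disjoint_compl_left e
  refine ⟨W ∪ {a | a ∉ W ∧ a ∉ P ∧ (Cp G W a).Finite}, subset_union_left, hW.union ?_, ?_, ?_, ?_⟩
  · have f1 : {z | (∃ w ∈ W, G.Adj w z) ∧ (Cp G W z).Finite}.Finite :=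
      (nb_fin hl hW).subset fun z hz => hz.1
    refine (f1.biUnion (t := fun z => Cp G W z) fun z hz => hz.2).subset ?_
    rintro a ⟨h1, -, h3⟩
    obtain ⟨v, hv, hw⟩ := qh1_exit hc hne h1
    refine mem_biUnion (x := v) ⟨hw, by rwa [cp_eq h1 hv]⟩ ?_
    rw [cp_eq h1 hv]
    exact mem_cp W a
  · obtain ⟨w0, hw0⟩ := id hne
    refine con_of_base (v := w0) (Or.inl hw0) ?_
    rintro a (h1 | ⟨h1, h2, h3⟩)
    · exact (hcon w0 hw0 a h1).mono subset_union_left
    · obtain ⟨v, hv, w, hw, e⟩ := qh1_exit hc hne h1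
      exact (((hcon w0 hw0 w hw).mono subset_union_left).trans
        (Cn.single e (hsub a h1 h2 h3 hv))).trans
        ((cp_con h1 v hv a (mem_cp W a)).mono (hsub a h1 h2 h3))
  · exact disjoint_union_right.2 ⟨hPW, disjoint_left.2 fun x hx e => e.2.1 hx⟩
  · intro u h1 h2
    have huW : u ∉ W := fun e => h1 (Or.inl e)
    have hi : (Cp G W u).Infinite := fun e => h1 (Or.inr ⟨huW, h2, e⟩)
    refine hi.mono ((cp_con huW).sub_cp (disjoint_left.2 ?_) (mem_cp W u))
    rintro x hx (e | e)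
    · exact disjoint_left.1 (cp_disj huW) hx e
    · exact hi (by rw [← cp_eq huW hx]; exact e.2.2)

theorem fb (hl : LF G) (hc : G.Preconnected) (a b y : V) :
    {c | ∃ φ : G ≃g G, φ a = b ∧ φ y = c}.Finite := by
  have h := cn_univ hc a y
  unfold Cn at h
  induction h with
  | refl =>
    refine (finite_singleton b).subset ?_
    rintro c ⟨φ, h1, h2⟩
    exact h2.symm.trans h1
  | @tail p q _ hpq ih =>
    refine (nb_fin hl ih).subset ?_
    rintro c ⟨φ, h1, rfl⟩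
    exact ⟨φ p, ⟨φ, h1, rfl⟩, φ.map_adj_iff.2 hpq.1⟩

end Pool.Agent.P3fb035
end

-- part Pool.Agent.P.MP_3fb035_pr.QGa
section

/-! Parity of finite edge sets: basic facts. -/

set_option autoImplicit false

open MeasureTheory Set
open scoped ENNReal symmDiff

namespace Pool.Agent.P3fb035

open Pool.Agent.Lib.GRW

variable {V : Type} {G : SimpleGraph V}

variable {A B H X : Set (Sym2 V)} {S : Set V} {a b v : V} {d : ℕ}

theorem qga_ncard {T T' : Set V} (hT : T.Finite) (hT' : T'.Finite) :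
    (T ∆ T').ncard + 2 * (T ∩ T').ncard = T.ncard + T'.ncard := by
  have h1 := ncard_inter_add_ncard_sdiff_eq_ncard T T' hT
  have h2 := ncard_inter_add_ncard_sdiff_eq_ncard T' T hT'
  rw [inter_comm] at h2
  rw [Set.symmDiff_def, ncard_union_eq disjoint_sdiff_sdiff hT.sdiff hT'.sdiff]
  omega

theorem dg_fin (hH : H.Finite) (v : V) : {w | G.Adj v w ∧ s(v, w) ∈ H}.Finite :=
  (hH.preimage (f := fun w => s(v, w)) fun _ _ _ _ h => Sym2.congr_right.1 h).subset
    fun _ h => h.2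

theorem dg_congr (h : ∀ b, G.Adj v b → (s(v, b) ∈ A ↔ s(v, b) ∈ B)) : dg G A v = dg G B v :=
  congrArg ncard (Set.ext fun b => and_congr_right (h b))

theorem dg_zero (h : ∀ b, G.Adj v b → s(v, b) ∉ A) : dg G A v = 0 := by
  rw [dg, eq_empty_of_forall_notMem (s := {w | G.Adj v w ∧ s(v, w) ∈ A}) fun b hb => h b hb.1 hb.2,
    ncard_empty]

theorem dg_pos (h : dg G A v ≠ 0) : ∃ b, G.Adj v b ∧ s(v, b) ∈ A :=
  nonempty_of_ncard_ne_zero h

theorem dg_exh (hr : Reg G d) (h : Exh G A v) : dg G A v = d :=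
  (congrArg ncard (Set.ext fun b => and_iff_left_of_imp (h b))).trans (hr v).2

theorem dg_symmDiff (hA : A.Finite) (hB : B.Finite) (v : V) :
    dg G (A ∆ B) v % 2 = (dg G A v + dg G B v) % 2 := by
  have h := qga_ncard (dg_fin (G := G) hA v) (dg_fin (G := G) hB v)
  have h1 : {w | G.Adj v w ∧ s(v, w) ∈ A} ∆ {w | G.Adj v w ∧ s(v, w) ∈ B} =
      {w | G.Adj v w ∧ s(v, w) ∈ A ∆ B} := by
    ext w
    simp only [mem_symmDiff, mem_ofPred_eq]
    tauto
  rw [h1] at h
  unfold dg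
  omega

theorem qga_erase (hH : H.Finite) (hab : G.Adj a b) (he : s(a, b) ∈ H) :
    dg G H a = dg G (H \ {s(a, b)}) a + 1 := by
  have h1 : {w | G.Adj a w ∧ s(a, w) ∈ H \ {s(a, b)}} = {w | G.Adj a w ∧ s(a, w) ∈ H} \ {b} := by
    ext w
    simp only [mem_sdiff, mem_ofPred_eq, mem_singleton_iff, Sym2.congr_right, and_assoc]
  rw [dg, dg, h1]
  exact (ncard_sdiff_singleton_add_one (s := {w | G.Adj a w ∧ s(a, w) ∈ H}) ⟨hab, he⟩
    (dg_fin hH a)).symm

open Classical in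
theorem dg_erase (hH : H.Finite) (hab : G.Adj a b) (he : s(a, b) ∈ H) (v : V) :
    dg G H v = dg G (H \ {s(a, b)}) v + if v = a ∨ v = b then 1 else 0 := by
  split_ifs with h
  · rcases h with rfl | rfl
    · exact qga_erase hH hab he
    · rw [Sym2.eq_swap] at he ⊢
      exact qga_erase hH hab.symm he
  · refine dg_congr fun w _ => (and_iff_left fun h1 => h ?_).symm
    rcases Sym2.eq_iff.1 h1 with h2 | h2
    · exact Or.inl h2.1
    · exact Or.inr h2.1

theorem odd_fin (hH : H.Finite) : {v | Odd (dg G H v)}.Finite :=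
  (vx_fin hH).subset fun _ hv => by
    obtain ⟨b, hb⟩ := dg_pos (Odd.pos hv).ne'
    exact ⟨b, hb.2⟩

theorem handshake (hH : H.Finite) : Even {v | Odd (dg G H v)}.ncard := by
  classical
  induction H, hH using Set.Finite.induction_on with
  | empty =>
    rw [eq_empty_of_forall_notMem (s := {v | Odd (dg G ∅ v)}) fun v hv => by
      rw [mem_ofPred_eq, dg_zero fun _ _ => notMem_empty _] at hv
      exact Nat.not_odd_zero hv, ncard_empty]
    exact Even.zero
  | @insert e H he hH ih =>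
    induction e using Sym2.ind with
    | h a b =>
      by_cases hab : G.Adj a b
      · have h1 : {v | Odd (dg G (insert s(a, b) H) v)} = {v | Odd (dg G H v)} ∆ {a, b} := by
          ext v
          rw [mem_ofPred_eq, dg_erase (hH.insert _) hab (mem_insert _ _),
            insert_sdiff_self_of_notMem he, mem_symmDiff, mem_ofPred_eq, mem_insert_iff,
            mem_singleton_iff]
          split_ifs with h
          · simp only [h, Nat.odd_add_one, not_true, and_false, true_and, false_or]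
          · simp only [h, add_zero, not_false_iff, and_true, false_and, or_false]
        have h2 := qga_ncard (odd_fin (G := G) hH) (toFinite {a, b})
        rw [ncard_pair hab.ne, ← h1] at h2
        rw [Nat.even_iff] at ih ⊢
        omega
      · have h1 : ∀ v, dg G (insert s(a, b) H) v = dg G H v := fun v =>
          dg_congr fun w hw => or_iff_right fun h => hab (by
            rw [← SimpleGraph.mem_edgeSet, ← h]
            exact hw)
        simpa only [h1] using ih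

theorem pair_odd (hH : H.Finite) (hab : a ≠ b) (h : ∀ u, u ≠ a → u ≠ b → Even (dg G H u))
    (ha : Odd (dg G H a)) : Odd (dg G H b) := by
  by_contra hb
  have _ := hab
  have h1 : {v | Odd (dg G H v)} = {a} := by
    refine eq_singleton_iff_unique_mem.2 ⟨ha, fun u hu => by_contra fun hua => ?_⟩
    refine Nat.not_odd_iff_even.2 (h u hua ?_) hu
    rintro rfl
    exact hb hu
  have h2 := handshake (G := G) hH
  rw [h1, ncard_singleton] at h2
  exact Nat.not_even_one h2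

end Pool.Agent.P3fb035
end

-- part Pool.Agent.P.MP_3fb035_pr.QG2
section

/-! Parity of finite edge sets. -/

set_option autoImplicit false

open MeasureTheory Set
open scoped ENNReal symmDiff

namespace Pool.Agent.P3fb035

open Pool.Agent.Lib.GRW

variable {V : Type} {G : SimpleGraph V}

variable {A B H X : Set (Sym2 V)} {S : Set V} {a b v : V} {d : ℕ}

theorem qg2_odd (hA : A.Finite) (hB : B.Finite) (u : V) :
    Odd (dg G (A ∆ B) u) ↔ (Odd (dg G A u) ↔ ¬ Odd (dg G B u)) := by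
  have h := dg_symmDiff (G := G) hA hB u
  simp only [Nat.odd_iff]
  omega

theorem qg2_fin (hA : A.Finite) (hB : B.Finite) : (A ∆ B).Finite :=
  (hA.union hB).subset symmDiff_subset_union

theorem qg2_edge (hab : G.Adj a b) (u : V) :
    Odd (dg G ({s(a, b)} : Set (Sym2 V)) u) ↔ u = a ∨ u = b := by
  have h := dg_erase (G := G) (finite_singleton s(a, b)) hab (mem_singleton _) u
  have h0 : dg G (({s(a, b)} : Set (Sym2 V)) \ {s(a, b)}) u = 0 :=
    dg_zero fun z _ hz => hz.2 hz.1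
  rw [h, h0]
  by_cases hu : u = a ∨ u = b
  · rw [if_pos hu]
    exact ⟨fun _ => hu, fun _ => odd_one⟩
  · rw [if_neg hu]
    exact ⟨fun h1 => absurd h1 (by decide), fun h1 => absurd h1 hu⟩

theorem qg2_ins (hA : Ins S A) (hB : Ins S B) : Ins S (A ∆ B) := fun x y hxy => by
  rcases symmDiff_subset_union hxy with h | h
  · exact hA x y h
  · exact hB x y h

theorem qg2_nil : ∀ u, ¬ Odd (dg G (∅ : Set (Sym2 V)) u) := fun u => by
  rw [dg_zero (G := G) (A := ∅) fun z _ hz => hz]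
  decide

theorem join (h : Cn G S a b) (ha : a ∈ S) :
    ∃ J : Set (Sym2 V), J.Finite ∧ Ins S J ∧
      ∀ u, Odd (dg G J u) ↔ (u = a ∨ u = b) ∧ a ≠ b := by
  induction h with
  | refl =>
    exact ⟨∅, finite_empty, fun _ _ h => h.elim,
      fun u => ⟨fun h => absurd h (qg2_nil u), fun h => absurd rfl h.2⟩⟩
  | @tail p q hp hpq ih =>
    obtain ⟨J, hJ, hI, hO⟩ := ih
    have hpS : p ∈ S := by
      rcases Cn.mem hp with h | h
      · rw [h]; exact ha
      · exact h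
    refine ⟨J ∆ {s(p, q)}, qg2_fin hJ (finite_singleton _), qg2_ins hI fun x y hxy => ?_,
      fun u => ?_⟩
    · rcases Sym2.eq_iff.1 (mem_singleton_iff.1 hxy) with h | h
      · rw [h.1]; exact hpS
      · rw [h.1]; exact hpq.2
    · rw [qg2_odd hJ (finite_singleton _), hO u, qg2_edge hpq.1 u]
      have hne : p ≠ q := hpq.1.ne
      by_cases h1 : u = a <;> by_cases h2 : u = p <;> by_cases h3 : u = q <;>
        by_cases h4 : a = p <;> by_cases h5 : a = q <;> simp_all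

theorem qg2_set (hS : Con G S) (hb : b ∈ S) {T : Set V} (hT : T.Finite)
    (hTS : ∀ u ∈ T, u ∈ S ∧ u ≠ b) :
    ∃ J : Set (Sym2 V), J.Finite ∧ Ins S J ∧ ∀ u, u ≠ b → (Odd (dg G J u) ↔ u ∈ T) := by
  induction T, hT using Set.Finite.induction_on with
  | empty =>
    exact ⟨∅, finite_empty, fun _ _ h => h.elim,
      fun u _ => ⟨fun h => absurd h (qg2_nil u), fun h => h.elim⟩⟩
  | @insert x T hx _ ih =>
    obtain ⟨J, hJ, hI, hO⟩ := ih fun u hu => hTS u (mem_insert_of_mem _ hu)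
    obtain ⟨hxS, hxb⟩ := hTS x (mem_insert _ _)
    obtain ⟨J0, hJ0, hI0, hO0⟩ := join (hS x hxS b hb) hxS
    refine ⟨J ∆ J0, qg2_fin hJ hJ0, qg2_ins hI hI0, fun u hu => ?_⟩
    rw [qg2_odd hJ hJ0, hO u hu, hO0 u, mem_insert_iff]
    by_cases h1 : u = x
    · subst h1
      simp [hx, hxb]
    · simp [h1, hu]

theorem fix (hS : Con G S) (hb : b ∈ S) (hX : X.Finite) :
    ∃ J : Set (Sym2 V), J.Finite ∧ Ins S J ∧ ∀ u ∈ S, u ≠ b → Even (dg G (X ∆ J) u) := by
  obtain ⟨J, hJ, hI, hO⟩ := qg2_set (G := G) hS hb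
    (T := {u | Odd (dg G X u) ∧ u ∈ S ∧ u ≠ b}) ((odd_fin hX).subset fun u hu => hu.1)
    fun u hu => hu.2
  refine ⟨J, hJ, hI, fun u hu hub => ?_⟩
  rw [← Nat.not_odd_iff_even, qg2_odd hX hJ, hO u hub]
  simp only [mem_ofPred_eq]
  tauto

theorem flip (hr : Reg G d) (hd : Odd d) (hX : X.Finite) (hv : v ∉ S) (hS : Con G S) (hb : b ∈ S)
    (hN : ∀ z, G.Adj v z → z ∉ S → s(v, z) ∈ X) (hev : Even (dg G X v))
    (he : ∀ u ∈ S, u ≠ b → Even (dg G X u)) :
    ∃ X' : Set (Sym2 V), X'.Finite ∧ Exh G X' v ∧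
      (∀ a c, a ∉ S → a ≠ v → G.Adj a c → (s(a, c) ∈ X' ↔ s(a, c) ∈ X)) ∧
      (∀ a c, s(a, c) ∈ X' → s(a, c) ∈ X ∨ a ∈ S ∨ a = v) ∧
      (∀ u ∈ S, u ≠ b → Even (dg G X' u)) ∧ (Odd (dg G X' b) ↔ Even (dg G X b)) := by
  have hl : LF G := fun w => (hr w).1
  have hX1 : (X ∪ St G {v} univ).Finite := hX.union (st_fin hl (finite_singleton v) univ)
  obtain ⟨J, hJ, hI, hE⟩ := fix hS hb hX1
  have hX' := qg2_fin hX1 hJ
  have hst : ∀ a c, a ∉ S → a ≠ v → s(a, c) ∈ St G {v} univ → s(a, c) ∈ X := by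
    intro a c haS hav h
    obtain ⟨hac, h | h⟩ := mem_st.1 h
    · exact absurd h.1 hav
    · have e : c = v := h.1
      subst e
      rw [Sym2.eq_swap]
      exact hN a hac.symm haS
  have hexh : Exh G ((X ∪ St G {v} univ) ∆ J) v := fun z hz =>
    mem_symmDiff.2 (Or.inl ⟨Or.inr (mem_st.2 ⟨hz, Or.inl ⟨rfl, mem_univ z⟩⟩),
      fun h => hv (hI v z h)⟩)
  have hout : ∀ a c, a ∉ S → a ≠ v → G.Adj a c →
      (s(a, c) ∈ (X ∪ St G {v} univ) ∆ J ↔ s(a, c) ∈ X) := by
    intro a c haS hav _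
    have hn : s(a, c) ∉ J := fun h => haS (hI a c h)
    constructor
    · intro h
      rcases mem_symmDiff.1 h with h | h
      · rcases h.1 with h | h
        · exact h
        · exact hst a c haS hav h
      · exact absurd h.1 hn
    · exact fun h => mem_symmDiff.2 (Or.inl ⟨Or.inl h, hn⟩)
  refine ⟨(X ∪ St G {v} univ) ∆ J, hX', hexh, hout, fun a c h => ?_, hE, ?_⟩
  · by_cases haS : a ∈ S
    · exact Or.inr (Or.inl haS)
    by_cases hav : a = v
    · exact Or.inr (Or.inr hav)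
    rcases symmDiff_subset_union h with (h | h) | h
    · exact Or.inl h
    · exact Or.inl (hst a c haS hav h)
    · exact absurd (hI a c h) haS
  · have hvb : v ≠ b := fun e => hv (e ▸ hb)
    have h := pair_odd (G := G) (qg2_fin hX' hX) hvb (fun u huv hub => ?_) ?_
    · rw [qg2_odd hX' hX, Nat.not_odd_iff_even] at h
      exact h
    · rw [← Nat.not_odd_iff_even, qg2_odd hX' hX]
      by_cases hu : u ∈ S
      · have h1 := Nat.not_odd_iff_even.2 (hE u hu hub)
        have h2 := Nat.not_odd_iff_even.2 (he u hu hub)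
        tauto
      · rw [dg_congr fun c hc => hout u c hu huv hc]
        tauto
    · rw [qg2_odd hX' hX, dg_exh hr hexh]
      exact ⟨fun _ => Nat.not_odd_iff_even.2 hev, fun _ => hd⟩

end Pool.Agent.P3fb035
end

-- part Pool.Agent.P.MP_3fb035_pr.QG3
section

/-! A separator with an even completion. -/

set_option autoImplicit false

open MeasureTheory Set
open scoped ENNReal symmDiff

namespace Pool.Agent.P3fb035

open Pool.Agent.Lib.GRW

variable {V : Type} {G : SimpleGraph V}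

/-- everything but evenness -/
def Qg3Inv (G : SimpleGraph V) (W₀ P W : Set V) (X : Set (Sym2 V)) : Prop :=
  W₀ ⊆ W ∧ W.Finite ∧ Con G W ∧ Disjoint P W ∧ X.Finite ∧ (∀ a ∈ W, Exh G X a) ∧
    (∀ a ∈ P, ∀ b, G.Adj a b → s(a, b) ∈ X → b ∈ W) ∧ ∀ u, u ∉ W → u ∉ P → (Cp G W u).Infinite

theorem qg3_step {d : ℕ} (hr : Reg G d) (hd : Odd d) (hc : G.Preconnected) (h2 : Two G)
    {W₀ P W : Set V} {X : Set (Sym2 V)} (hne : W₀.Nonempty) (hP : Clo G P W₀)
    (h : Qg3Inv G W₀ P W X) {a : V} (ha : a ∉ W) (haP : a ∉ P) :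
    ∃ W' X', Qg3Inv G W₀ P W' X' ∧ ∀ u, u ∉ W' → Odd (dg G X' u) →
      u ∉ W ∧ u ∉ Cp G W a ∧ Odd (dg G X u) := by
  obtain ⟨i1, i2, i3, i4, i5, i6, i7, i8⟩ := h
  have g1 : ∀ u ∈ W, u ∉ Cp G W a := fun u hu => disjoint_right.1 (cp_disj ha) hu
  have g2 : ∀ u ∈ P, u ∉ Cp G W a := fun u hu h =>
    haP (clo_cn (hP.mono i1) (Cn.symm h ha) disjoint_compl_left hu)
  obtain ⟨v, hv, ⟨w, hw, hwv⟩, hS⟩ := noncut hr.lf hc h2 i2 (hne.mono i1) ha
  have hinf := (i8 a ha haP).sdiff (finite_singleton v)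
  obtain ⟨b, hb⟩ := hinf.nonempty
  obtain ⟨J, j1, j2, j3⟩ := fix (cp_con ha) hb.1 i5
  have g3 : ∀ u, u ∉ Cp G W a → ∀ z, s(u, z) ∈ X ∆ J ↔ s(u, z) ∈ X := fun u hu z => by
    have : s(u, z) ∉ J := fun h => hu (j2 u z h)
    simp [mem_symmDiff, this]
  have g4 : (X ∆ J).Finite := (i5.union j1).subset symmDiff_subset_union
  rcases Nat.even_or_odd (dg G (X ∆ J) b) with hb' | hb'
  · refine ⟨W, X ∆ J, ⟨i1, i2, i3, i4, g4, fun u hu z hz => (g3 u (g1 u hu) z).2 (i6 u hu z hz),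
      fun u hu z hz e => i7 u hu z hz ((g3 u (g2 u hu) z).1 e), i8⟩, fun u hu ho => ?_⟩
    have h1 : u ∉ Cp G W a := fun h1 => Nat.not_even_iff_odd.2 ho (by
      by_cases e : u = b
      · exact e ▸ hb'
      · exact j3 u h1 e)
    exact ⟨hu, h1, dg_congr (fun z _ => g3 u h1 z) ▸ ho⟩
  · obtain ⟨X', k1, k2, k3, -, k5, k6⟩ := flip hr hd g4 (v := v) (fun h => h.2 rfl) hS hb
      (fun z hz hz' => by
        have h1 : z ∈ W := (cp_clo W a v hv z hz).resolve_left fun h => hz' ⟨h, hz.ne'⟩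
        rw [Sym2.eq_swap]
        exact (g3 z (g1 z h1) v).2 (i6 z h1 v hz.symm))
      (j3 v hv fun e => hb.2 e.symm) fun u hu => j3 u hu.1
    have g5 : ∀ u, u ∉ Cp G W a → ∀ z, G.Adj u z → (s(u, z) ∈ X' ↔ s(u, z) ∈ X) :=
      fun u hu z hz => (k3 u z (fun h => hu h.1) (fun e => hu (e ▸ hv)) hz).trans (g3 u hu z)
    refine ⟨insert v W, X', ⟨i1.trans (subset_insert _ _), i2.insert v, i3.insert hw hwv,
      disjoint_insert_right.2 ⟨fun h => g2 v h hv, i4⟩, k1, ?_,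
      fun u hu z hz e => Or.inr (i7 u hu z hz ((g5 u (g2 u hu) z hz).1 e)), fun u hu hu' => ?_⟩,
      fun u hu ho => ?_⟩
    · rintro u (rfl | hu)
      · exact k2
      · exact fun z hz => (g5 u (g1 u hu) z hz).2 (i6 u hu z hz)
    · have h1 : u ∉ W := fun h => hu (Or.inr h)
      by_cases h3 : u ∈ Cp G W a
      · exact hinf.mono (hS.sub_cp (disjoint_insert_right.2 ⟨fun h => h.2 rfl,
          (cp_disj ha).mono_left sdiff_subset⟩) ⟨h3, fun e => hu (Or.inl e)⟩)
      · exact (i8 u h1 hu').mono ((cp_con h1).sub_cp (disjoint_insert_right.2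
          ⟨disjoint_left.1 (cp_disj_cp ha h1 h3) hv, cp_disj h1⟩) (mem_cp W u))
    · have h1 : u ∉ Cp G W a := fun h1 => by
        by_cases e : u = b
        · exact Nat.not_even_iff_odd.2 hb' (k6.1 (e ▸ ho))
        · exact Nat.not_even_iff_odd.2 ho (k5 u ⟨h1, fun e => hu (Or.inl e)⟩ e)
      exact ⟨fun h => hu (Or.inr h), h1, dg_congr (g5 u h1) ▸ ho⟩

theorem adjust {d : ℕ} (hr : Reg G d) (hd : Odd d) (hc : G.Preconnected) (h2 : Two G)
    {W₀ P : Set V} (hW : W₀.Finite) (hne : W₀.Nonempty) (hcon : Con G W₀) (hP : Clo G P W₀)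
    (hPW : Disjoint P W₀) :
    ∃ (W : Set V) (X : Set (Sym2 V)), W₀ ⊆ W ∧ W.Finite ∧ Con G W ∧ Disjoint P W ∧ X.Finite ∧
      (∀ a ∈ W, Exh G X a) ∧ (∀ a ∈ P, ∀ b, G.Adj a b → s(a, b) ∈ X → b ∈ W) ∧
      ∀ u, u ∉ W → u ∉ P → Even (dg G X u) ∧ (Cp G W u).Infinite := by
  obtain ⟨W₁, a1, a2, a3, a4, a5⟩ := absorb hr.lf hc hW hne hcon hP hPW
  obtain ⟨⟨W, X⟩, h, hm⟩ := exists_minimalFor_of_wellFoundedLT
    (fun z : Set V × Set (Sym2 V) => Qg3Inv G W₀ P z.1 z.2)
    (fun z => {u | u ∉ z.1 ∧ Odd (dg G z.2 u)}.ncard)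
    ⟨(W₁, St G W₁ univ), a1, a2, a3, a4, st_fin hr.lf a2 _,
      fun a ha z hz => mem_st.2 ⟨hz, Or.inl ⟨ha, trivial⟩⟩,
      fun a ha b _ e => ((mem_st.1 e).2.resolve_left fun h => disjoint_left.1 a4 ha h.1).1, a5⟩
  obtain ⟨i1, i2, i3, i4, i5, i6, i7, i8⟩ := id h
  refine ⟨W, X, i1, i2, i3, i4, i5, i6, i7, fun a ha haP => ⟨?_, i8 a ha haP⟩⟩
  by_contra ho
  obtain ⟨W', X', h1, h3⟩ := qg3_step hr hd hc h2 hne hP h ha haP
  refine (show MinimalFor _ _ (W, X) from ⟨h, hm⟩).not_prop_of_lt (j := (W', X'))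
    (ncard_lt_ncard ⟨fun u hu =>
    ⟨(h3 u hu.1 hu.2).1, (h3 u hu.1 hu.2).2.2⟩, fun e => ?_⟩
    ((odd_fin i5).subset fun u hu => hu.2)) h1
  have h4 := e ⟨ha, Nat.not_even_iff_odd.1 ho⟩
  exact (h3 a h4.1 h4.2).2.1 (mem_cp W a)

end Pool.Agent.P3fb035
end

-- part Pool.Agent.P.MP_3fb035_pr.QA0
section

/-! Cylinders. -/

set_option autoImplicit false

open MeasureTheory Set
open scoped ENNReal symmDiff

namespace Pool.Agent.P3fb035

open Pool.Agent.Lib.GRW

variable {V : Type} {G : SimpleGraph V}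
variable [Countable V] [MeasurableSpace V] [DiscreteMeasurableSpace V]
  {Ω : Type} [MeasurableSpace Ω] {P : Measure Ω} {X : ℕ → Ω → V}

variable {k : (ℕ → V) → ℕ → V → ℝ≥0∞} {v₀ : V}

omit [Countable V] [MeasurableSpace V] [DiscreteMeasurableSpace V] in
theorem IsWalk.meas_cyl (h : IsWalk k v₀ P X) (t : ℕ) (x : ℕ → V) : MeasurableSet (cyl X t x) := by
  have e : cyl X t x = ⋂ s, ⋂ (_ : s ≤ t), {ω | X s ω = x s} := by
    ext ω; simp [cyl]
  rw [e]
  exact MeasurableSet.iInter fun s => MeasurableSet.iInter fun _ => h.2.1 s _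

omit [Countable V] [MeasurableSpace V] [DiscreteMeasurableSpace V] in
theorem IsWalk.cyl_succ (h : IsWalk k v₀ P X) (t : ℕ) (x : ℕ → V) :
    P (cyl X (t + 1) x) = P (cyl X t x) * k x t (x (t + 1)) := h.2.2.2 t x

omit [Countable V] [MeasurableSpace V] [DiscreteMeasurableSpace V] in
theorem IsWalk.cyl_start (h : IsWalk k v₀ P X) : P (cyl X 0 fun _ => v₀) = 1 := by
  have e : (cyl X 0 fun _ => v₀) = {ω | X 0 ω = v₀} := by
    ext ω; simp [cyl]
  rw [e, h.2.2.1]

omit [DiscreteMeasurableSpace V] in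
theorem IsWalk.meas_pre (h : IsWalk k v₀ P X) {H : Set (ℕ → V)} (hH : MeasurableSet H) :
    MeasurableSet (pth X ⁻¹' H) := h.measurable hH

omit [Countable V] [MeasurableSpace V] [DiscreteMeasurableSpace V] [MeasurableSpace Ω] in
theorem cyl_congr {t : ℕ} {x y : ℕ → V} (h : ∀ s ≤ t, x s = y s) : cyl X t x = cyl X t y := by
  ext ω
  exact forall₂_congr fun s hs => by rw [h s hs]

theorem Adp.meas {E : ℕ → (ℕ → V) → Prop} (hE : Adp E) (t : ℕ) : MeasurableSet {y | E t y} := by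
  have h1 : ∀ y : ℕ → V, ∀ s ≤ t, y s = Lib.GRW.ext t (fun i => y i) s := fun y s hs => by
    simp [Lib.GRW.ext, min_eq_left hs]
  have e : {y | E t y} =
      (fun (y : ℕ → V) (i : Fin (t + 1)) => y i) ⁻¹' {a | E t (Lib.GRW.ext t a)} :=
    Set.ext fun y => ⟨hE t _ _ (h1 y), hE t _ _ fun s hs => (h1 y s hs).symm⟩
  rw [e]
  exact (measurable_pi_lambda _ fun i : Fin (t + 1) => measurable_pi_apply (i : ℕ))
    (Set.to_countable _).measurableSet

omit [MeasurableSpace V] [DiscreteMeasurableSpace V] in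
open Classical in
/-- decomposition according to the next step -/
theorem IsWalk.cyl_step (h : IsWalk k v₀ P X) (t : ℕ) (x : ℕ → V) {A : Set Ω}
    (hA : MeasurableSet A) :
    P (cyl X t x ∩ A) = ∑' w, P (cyl X (t + 1) (Function.update x (t + 1) w) ∩ A) := by
  have hU : cyl X t x ∩ A = ⋃ w, cyl X (t + 1) (Function.update x (t + 1) w) ∩ A := by
    ext ω
    simp only [mem_iUnion, mem_inter_iff]
    constructor
    · rintro ⟨hω, hA⟩
      refine ⟨X (t + 1) ω, fun s hs => ?_, hA⟩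
      rcases Nat.lt_or_eq_of_le hs with hs | rfl
      · rw [Function.update_of_ne (by omega)]; exact hω s (by omega)
      · rw [Function.update_self]
    · rintro ⟨w, hw, hA⟩
      refine ⟨fun s hs => ?_, hA⟩
      have := hw s (by omega)
      rwa [Function.update_of_ne (by omega)] at this
  rw [hU, measure_iUnion _ fun w => (h.meas_cyl _ _).inter hA]
  intro a b hab
  refine disjoint_left.2 fun ω ha hb => hab ?_
  have h1 := ha.1 (t + 1) le_rfl
  have h2 := hb.1 (t + 1) le_rfl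
  rw [Function.update_self] at h1 h2
  exact h1.symm.trans h2

omit [MeasurableSpace V] [DiscreteMeasurableSpace V] in
theorem cyl_split {t T : ℕ} (htT : t ≤ T) {x : ℕ → V} {A : Set Ω} (hA : P (cyl X t x ∩ A) ≠ 0) :
    ∃ y : ℕ → V, (∀ s ≤ t, y s = x s) ∧ P (cyl X T y ∩ A) ≠ 0 := by
  by_contra h
  refine hA (measure_mono_null (t := ⋃ a : {a : Fin (T + 1) → V // ∀ s ≤ t, Lib.GRW.ext T a s = x s},
    cyl X T (Lib.GRW.ext T a.1) ∩ A) (fun ω hω => ?_) (measure_iUnion_null fun a =>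
      by_contra fun h1 => h ⟨_, a.2, h1⟩))
  have h1 : ∀ s ≤ T, X s ω = Lib.GRW.ext T (fun i => X i ω) s := fun s hs => by
    simp [Lib.GRW.ext, min_eq_left hs]
  exact mem_iUnion.2 ⟨⟨fun i => X i ω, fun s hs => (h1 s (hs.trans htT)).symm.trans (hω.1 s hs)⟩,
    h1, hω.2⟩

end Pool.Agent.P3fb035
end

-- part Pool.Agent.P.MP_3fb035_pr.QA1
section

/-! Cylinders, stopping decomposition, existence of walks. -/

set_option autoImplicit false

open MeasureTheory Set
open scoped ENNReal symmDiff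

namespace Pool.Agent.P3fb035

open Pool.Agent.Lib.GRW

variable {V : Type} {G : SimpleGraph V}
variable [Countable V] [MeasurableSpace V] [DiscreteMeasurableSpace V]
  {Ω : Type} [MeasurableSpace Ω] {P : Measure Ω} {X : ℕ → Ω → V}

variable {k : (ℕ → V) → ℕ → V → ℝ≥0∞} {v₀ : V}

/-- stopping decomposition -/
theorem sd (h : IsWalk k v₀ P X) {E : ℕ → (ℕ → V) → Prop} (hE : Adp E) {H : Set (ℕ → V)}
    (hH : MeasurableSet H) {c : ℝ≥0∞}
    (hb : ∀ t x, E t x → c * P (cyl X t x) ≤ P (cyl X t x ∩ pth X ⁻¹' H)) :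
    c * P (pth X ⁻¹' {y | ∃ t, E t y}) ≤ P (pth X ⁻¹' ({y | ∃ t, E t y} ∩ H)) := by
  classical
  let I : Type := {p : Σ t : ℕ, Fin (t + 1) → V //
    E p.1 (ext p.1 p.2) ∧ ∀ s < p.1, ¬ E s (ext p.1 p.2)}
  let C : I → Set Ω := fun p => cyl X p.1.1 (ext p.1.1 p.1.2)
  have hU : pth X ⁻¹' {y | ∃ t, E t y} = ⋃ p, C p := by
    ext ω
    simp only [mem_preimage, mem_ofPred_eq, mem_iUnion]
    constructor
    · intro hω
      have e : ∀ s ≤ Nat.find hω, pth X ω s = ext (Nat.find hω) (fun i => X i ω) s :=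
        fun s hs => by simp [Lib.GRW.ext, pth, min_eq_left hs]
      refine ⟨⟨⟨Nat.find hω, fun i => X i ω⟩, hE _ _ _ e (Nat.find_spec hω), fun s hs h' => ?_⟩, e⟩
      exact Nat.find_min hω hs (hE _ _ _ (fun r hr => (e r (hr.trans hs.le)).symm) h')
    · rintro ⟨p, hp⟩
      exact ⟨p.1.1, hE _ _ _ (fun s hs => (hp s hs).symm) p.2.1⟩
  have hlt : ∀ p q : I, ∀ ω, ω ∈ C p → ω ∈ C q → ¬ p.1.1 < q.1.1 := fun p q ω hp hq hl =>
    q.2.2 _ hl (hE _ _ _ (fun s hs => (hp s hs).symm.trans (hq s (hs.trans hl.le))) p.2.1)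
  have hD : Pairwise (Function.onFun Disjoint C) := by
    intro p q hpq
    rw [Function.onFun, Set.disjoint_left]
    intro ω hp hq
    have e : p.1.1 = q.1.1 := le_antisymm (not_lt.1 (hlt q p ω hq hp)) (not_lt.1 (hlt p q ω hp hq))
    obtain ⟨⟨t, a⟩, ha⟩ := p
    obtain ⟨⟨t', b⟩, hb'⟩ := q
    obtain rfl : t = t' := e
    have hab : a ≠ b := fun e' => hpq (by subst e'; rfl)
    exact Set.disjoint_left.1 (pairwise_cyl X t hab) hp hq
  have hm : ∀ p, MeasurableSet (C p) := fun p => h.meas_cyl _ _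
  have hD' : Pairwise (Function.onFun Disjoint fun p => C p ∩ pth X ⁻¹' H) :=
    fun p q hpq => (hD hpq).mono inter_subset_left inter_subset_left
  rw [preimage_inter, hU, iUnion_inter, measure_iUnion hD hm,
    measure_iUnion hD' fun p => (hm p).inter (h.meas_pre hH), ← ENNReal.tsum_mul_left]
  exact ENNReal.tsum_le_tsum fun p => hb _ _ p.2.1

omit [MeasurableSpace V] [DiscreteMeasurableSpace V] in
/-- a choice of data that depends on the history only -/
theorem ae_pick {I : Type} {D : I → ℕ → (ℕ → V) → Prop} (hD : ∀ i, Adp (D i))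
    {B : I → Set (ℕ → V)} (hb : ∀ i T x, D i T x → P (cyl X T x ∩ pth X ⁻¹' B i) = 0) :
    ∀ᵐ ω ∂P, ∀ T, (∃ i, D i T (pth X ω)) → ∃ i, D i T (pth X ω) ∧ pth X ω ∉ B i := by
  rw [ae_all_iff]
  intro T
  have h1 : ∀ a : Fin (T + 1) → V, ∀ᵐ ω ∂P, ω ∈ cyl X T (ext T a) →
      (∃ i, D i T (pth X ω)) → ∃ i, D i T (pth X ω) ∧ pth X ω ∉ B i := fun a => by
    by_cases ha : ∃ i, D i T (ext T a)
    · obtain ⟨i, hi⟩ := ha
      refine (measure_eq_zero_iff_ae_notMem.1 (hb i T _ hi)).mono fun ω hω hc _ => ?_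
      exact ⟨i, hD i _ _ _ (fun s hs => (hc s hs).symm) hi, fun hB => hω ⟨hc, hB⟩⟩
    · exact Filter.Eventually.of_forall fun ω hc ⟨i, hi⟩ => (ha ⟨i, hD i _ _ _ hc hi⟩).elim
  refine (ae_all_iff.2 h1).mono fun ω hω => ?_
  obtain ⟨a, ha⟩ := mem_iUnion.1 ((iUnion_cyl X T).ge (mem_univ ω))
  exact hω a ha

omit [MeasurableSpace V] [DiscreteMeasurableSpace V] in
open ProbabilityTheory Preorder in
theorem exists_walk (hk : ∀ (t : ℕ) (x y : ℕ → V), (∀ s ≤ t, x s = y s) → k x t = k y t)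
    (h1 : ∀ x t, ∑' w, k x t w = 1) (v₀ : V) :
    ∃ (Ω : Type) (_ : MeasurableSpace Ω) (P : Measure Ω) (X : ℕ → Ω → V), IsWalk k v₀ P X := by
  let : MeasurableSpace V := ⊤
  have : MeasurableSingletonClass V := ⟨fun _ => trivial⟩
  let eI : (n : ℕ) → (Π _ : Finset.Iic n, V) → ℕ → V := fun n h s =>
    h ⟨min s n, Finset.mem_Iic.2 (min_le_right _ _)⟩
  let p : (n : ℕ) → (Π _ : Finset.Iic n, V) → PMF V := fun n h =>
    ⟨k (eI n h) n, by
      have := h1 (eI n h) n
      exact this ▸ ENNReal.summable.hasSum⟩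
  let κ : (n : ℕ) → Kernel (Π _ : Finset.Iic n, V) V := fun n =>
    ⟨fun h => (p n h).toMeasure, measurable_of_countable _⟩
  have : ∀ n, IsMarkovKernel (κ n) := fun n => ⟨fun h => PMF.toMeasure.isProbabilityMeasure _⟩
  let P : Measure (ℕ → V) := Kernel.trajMeasure (X := fun _ => V) (Measure.dirac v₀) κ
  have hP : IsProbabilityMeasure P := inferInstance
  refine ⟨ℕ → V, inferInstance, P, fun t ω => ω t, hP, fun t v => ?_, ?_, fun t x => ?_⟩
  · exact (measurable_pi_apply (X := fun _ : ℕ => V) t) (measurableSet_singleton v)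
  · have h1 : P.map (frestrictLe 0) =
        (Measure.dirac v₀).map (MeasurableEquiv.piUnique (fun _ : Finset.Iic 0 => V)).symm := by
      simp only [P, Kernel.trajMeasure]
      rw [Measure.map_comp _ _ (measurable_frestrictLe 0), Kernel.traj_map_frestrictLe,
        Kernel.partialTraj_self, Measure.id_comp]
    have h2 : {ω : ℕ → V | ω 0 = v₀} =
        frestrictLe 0 ⁻¹' {h | h ⟨0, Finset.mem_Iic.2 le_rfl⟩ = v₀} := rfl
    rw [h2, ← Measure.map_apply (measurable_frestrictLe 0) (Set.to_countable _).measurableSet, h1,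
      Measure.map_dirac' (MeasurableEquiv.measurable _), Measure.dirac_apply_of_mem]
    rfl
  · have key := Kernel.map_frestrictLe_trajMeasure_compProd_eq_map_trajMeasure
      (X := fun _ => V) (μ₀ := Measure.dirac v₀) (κ := κ) (a := t)
    have h1 : {ω : ℕ → V | ∀ s ≤ t + 1, ω s = x s} =
        (fun ω : ℕ → V => (frestrictLe t ω, ω (t + 1))) ⁻¹'
          ({frestrictLe t x} ×ˢ {x (t + 1)}) := by
      ext ω
      simp only [Set.mem_ofPred_eq, Set.mem_preimage, Set.mem_prod, Set.mem_singleton_iff]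
      constructor
      · intro h
        exact ⟨funext fun i => h i ((Finset.mem_Iic.1 i.2).trans (Nat.le_succ _)), h _ le_rfl⟩
      · rintro ⟨h, h'⟩ s hs
        rcases Nat.lt_or_eq_of_le hs with hs | rfl
        · exact congrFun h ⟨s, Finset.mem_Iic.2 (by omega)⟩
        · exact h'
    have h2 : {ω : ℕ → V | ∀ s ≤ t, ω s = x s} =
        frestrictLe (π := fun _ : ℕ => V) t ⁻¹' {frestrictLe (π := fun _ : ℕ => V) t x} := by
      ext ω
      simp only [Set.mem_ofPred_eq, Set.mem_preimage, Set.mem_singleton_iff]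
      constructor
      · intro h
        exact funext fun i => h i (Finset.mem_Iic.1 i.2)
      · intro h s hs
        exact congrFun h ⟨s, Finset.mem_Iic.2 hs⟩
    have hm : MeasurableSet
        (({frestrictLe t x} : Set (Π _ : Finset.Iic t, V)) ×ˢ ({x (t + 1)} : Set V)) :=
      (measurableSet_singleton _).prod (measurableSet_singleton _)
    rw [h1, h2, ← Measure.map_apply (by fun_prop) hm,
      ← Measure.map_apply (measurable_frestrictLe t) (measurableSet_singleton _)]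
    show (Kernel.trajMeasure (X := fun _ => V) (Measure.dirac v₀) κ).map _ _ = _
    rw [← key, Measure.compProd_apply_prod (measurableSet_singleton _) (measurableSet_singleton _),
      lintegral_singleton, mul_comm]
    congr 1
    show (p t (frestrictLe t x)).toMeasure {x (t + 1)} = _
    rw [PMF.toMeasure_apply_singleton _ _ (measurableSet_singleton _)]
    show k (eI t (frestrictLe t x)) t (x (t + 1)) = _
    refine congrFun (hk t _ _ fun s hs => ?_) _
    simp [eI, min_eq_left hs]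

end Pool.Agent.P3fb035
end

-- part Pool.Agent.P.MP_3fb035_pr.QB0
section

/-! The kernel of the greedy walk: basic facts. -/

set_option autoImplicit false

open MeasureTheory Set
open scoped ENNReal symmDiff

namespace Pool.Agent.P3fb035

open Pool.Agent.Lib.GRW

variable {V : Type} {G : SimpleGraph V}
variable [Countable V] [MeasurableSpace V] [DiscreteMeasurableSpace V]
  {Ω : Type} [MeasurableSpace Ω] {P : Measure Ω} {X : ℕ → Ω → V}

section
omit [Countable V] [MeasurableSpace V] [DiscreteMeasurableSpace V]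

theorem us_zero (x : ℕ → V) : us x 0 = ∅ := by
  ext e
  simp [us]

theorem us_succ (x : ℕ → V) (t : ℕ) : us x (t + 1) = insert s(x t, x (t + 1)) (us x t) := by
  ext e
  simp only [us, mem_ofPred_eq, mem_insert_iff]
  constructor
  · rintro ⟨s, hs, rfl⟩
    rcases Nat.lt_succ_iff_lt_or_eq.1 hs with h | rfl
    · exact Or.inr ⟨s, h, rfl⟩
    · exact Or.inl rfl
  · rintro (rfl | ⟨s, hs, rfl⟩)
    · exact ⟨t, Nat.lt_succ_self t, rfl⟩
    · exact ⟨s, Nat.lt_succ_of_lt hs, rfl⟩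

theorem us_congr {x y : ℕ → V} {t : ℕ} (h : ∀ s ≤ t, x s = y s) : us x t = us y t := by
  ext e
  simp only [us, mem_ofPred_eq]
  constructor
  · rintro ⟨s, hs, rfl⟩
    exact ⟨s, hs, by rw [h s hs.le, h (s + 1) hs]⟩
  · rintro ⟨s, hs, rfl⟩
    exact ⟨s, hs, by rw [h s hs.le, h (s + 1) hs]⟩

theorem us_mono (x : ℕ → V) {s t : ℕ} (h : s ≤ t) : us x s ⊆ us x t := by
  rintro e ⟨r, hr, rfl⟩
  exact ⟨r, lt_of_lt_of_le hr h, rfl⟩

theorem us_finite (x : ℕ → V) (t : ℕ) : (us x t).Finite := by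
  induction t with
  | zero => rw [us_zero]; exact finite_empty
  | succ t ih => rw [us_succ]; exact ih.insert _

theorem us_mem {x : ℕ → V} {t : ℕ} {a b : V} (h : s(a, b) ∈ us x t) : ∃ s ≤ t, x s = a := by
  obtain ⟨s, hs, e⟩ := h
  rcases Sym2.eq_iff.1 e with ⟨h1, _⟩ | ⟨_, h2⟩
  · exact ⟨s, hs.le, h1⟩
  · exact ⟨s + 1, hs, h2⟩

theorem Exh.mono {U U' : Set (Sym2 V)} {v : V} (h : Exh G U v) (hU : U ⊆ U') : Exh G U' v :=
  fun z hz => hU (h z hz)

theorem nx_nonempty {U : Set (Sym2 V)} {v : V} (h : (G.neighborSet v).Nonempty) :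
    (nx G U v).Nonempty := by
  by_cases hE : Exh G U v
  · obtain ⟨w, hw⟩ := h
    exact ⟨w, hw, Or.inr hE⟩
  · simp only [Exh, not_forall] at hE
    obtain ⟨w, hw, hn⟩ := hE
    exact ⟨w, hw, Or.inl hn⟩

theorem nx_congr {G' : SimpleGraph V} {U U' : Set (Sym2 V)} {v : V}
    (hG : ∀ b, G.Adj v b ↔ G'.Adj v b) (hU : ∀ b, G.Adj v b → (s(v, b) ∈ U ↔ s(v, b) ∈ U')) :
    nx G U v = nx G' U' v := by
  have hE : Exh G U v ↔ Exh G' U' v :=
    ⟨fun h z hz => (hU z ((hG z).2 hz)).1 (h z ((hG z).2 hz)),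
      fun h z hz => (hU z hz).2 (h z ((hG z).1 hz))⟩
  ext w
  simp only [nx, mem_ofPred_eq]
  constructor
  · rintro ⟨h1, h2⟩
    exact ⟨(hG w).1 h1, by rw [← hU w h1, ← hE]; exact h2⟩
  · rintro ⟨h1, h2⟩
    exact ⟨(hG w).2 h1, by rw [hU w ((hG w).2 h1), hE]; exact h2⟩

theorem ker_congr (U : Set (Sym2 V)) {t : ℕ} {x y : ℕ → V} (h : ∀ s ≤ t, x s = y s) :
    ker G U x t = ker G U y t := by
  funext w
  unfold ker
  rw [us_congr h, h t le_rfl]

theorem tsum_ker {d : ℕ} (hb : Bd G d) (U : Set (Sym2 V)) (x : ℕ → V) (t : ℕ) :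
    ∑' w, ker G U x t w = 1 := by
  classical
  set S := nx G (U ∪ us x t) (x t) with hS
  have hfin : S.Finite := (hb (x t)).1.subset fun w hw => hw.1
  have hne : S.Nonempty := nx_nonempty (hb (x t)).2.2
  have hc : S.ncard ≠ 0 := (ncard_pos hfin).2 hne |>.ne'
  rw [tsum_eq_sum (s := hfin.toFinset) (fun w hw => by
    rw [Finite.mem_toFinset] at hw
    simp only [ker, ← hS, if_neg hw])]
  rw [Finset.sum_congr rfl (g := fun _ => (S.ncard : ℝ≥0∞)⁻¹) (fun w hw => by
    rw [Finite.mem_toFinset] at hw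
    simp only [ker, ← hS, if_pos hw])]
  rw [Finset.sum_const, nsmul_eq_mul, ← ncard_eq_toFinset_card S hfin]
  exact ENNReal.mul_inv_cancel (by exact_mod_cast hc) (ENNReal.natCast_ne_top _)

theorem ker_ge {d : ℕ} (hb : Bd G d) {U : Set (Sym2 V)} {x : ℕ → V} {t : ℕ} {w : V}
    (hw : w ∈ nx G (U ∪ us x t) (x t)) : (d : ℝ≥0∞)⁻¹ ≤ ker G U x t w := by
  simp only [ker, if_pos hw]
  refine ENNReal.inv_le_inv.2 ?_
  have : (nx G (U ∪ us x t) (x t)).ncard ≤ d :=
    (ncard_le_ncard (fun w hw => hw.1) (hb (x t)).1).trans (hb (x t)).2.1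
  exact_mod_cast this

theorem Val.congr {U : Set (Sym2 V)} {v₀ : V} {t : ℕ} {x y : ℕ → V} (h : Val G U v₀ t x)
    (hxy : ∀ s ≤ t, x s = y s) : Val G U v₀ t y := by
  refine ⟨(hxy 0 (Nat.zero_le t)).symm.trans h.1, fun s hs => ?_⟩
  have e : us y s = us x s := (us_congr fun r hr => hxy r (hr.trans hs.le)).symm
  rw [e, ← hxy s hs.le, ← hxy (s + 1) hs]
  exact h.2 s hs

end

end Pool.Agent.P3fb035
end

-- part Pool.Agent.P.MP_3fb035_pr.QB1
section

/-! The kernel of the greedy walk. -/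

set_option autoImplicit false

open MeasureTheory Set
open scoped ENNReal symmDiff

namespace Pool.Agent.P3fb035

open Pool.Agent.Lib.GRW

variable {V : Type} {G : SimpleGraph V}
variable [Countable V] [MeasurableSpace V] [DiscreteMeasurableSpace V]
  {Ω : Type} [MeasurableSpace Ω] {P : Measure Ω} {X : ℕ → Ω → V}

section
omit [Countable V] [MeasurableSpace V] [DiscreteMeasurableSpace V]

omit [MeasurableSpace Ω] in
theorem qb1_next [G.LocallyFinite] (x : ℕ → V) (t : ℕ) :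
    nx G (∅ ∪ us x t) (x t) = (nextSet G x t : Set V) := by
  have e : ∀ u, u ∈ freshNbrs G x t ↔ G.Adj (x t) u ∧ s(x t, u) ∉ us x t := fun u => by
    rw [mem_freshNbrs]
    exact and_congr_right fun _ => ⟨fun h ⟨s, hs, e⟩ => h s hs e, fun h s hs e => h ⟨s, hs, e⟩⟩
  ext w
  rw [empty_union, nextSet, Finset.mem_coe]
  split_ifs with h
  · obtain ⟨u, hu⟩ := h
    rw [e] at hu ⊢
    exact ⟨fun h => ⟨h.1, h.2.resolve_right fun k => hu.2 (k u hu.1)⟩, fun h => ⟨h.1, Or.inl h.2⟩⟩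
  · rw [SimpleGraph.mem_neighborFinset]
    exact ⟨fun k => k.1, fun k => ⟨k, Or.inr fun z hz => by_contra fun c => h ⟨z, (e z).2 ⟨hz, c⟩⟩⟩⟩

omit [MeasurableSpace Ω] in
theorem qb1_map (φ : G ≃g G) (x : ℕ → V) (t : ℕ) :
    nx G (∅ ∪ us (fun s => φ (x s)) t) (φ (x t)) = φ '' nx G (∅ ∪ us x t) (x t) := by
  have e : ∀ u, s(φ (x t), φ u) ∈ us (fun s => φ (x s)) t ↔ s(x t, u) ∈ us x t := fun u =>
    exists_congr fun s => and_congr_right fun _ => by simp
  ext w
  obtain ⟨w, rfl⟩ := φ.surjective w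
  rw [φ.injective.mem_set_image, empty_union, empty_union]
  refine and_congr φ.map_adj_iff (or_congr (e w).not ?_)
  unfold Exh
  rw [φ.surjective.forall]
  exact forall_congr' fun z => imp_congr φ.map_adj_iff (e z)

theorem isWalk_of_grw [G.LocallyFinite] {o : V} (h : IsGRW G o P X) : IsWalk (ker G ∅) o P X := by
  refine ⟨h.1, h.2.1, h.2.2.1, fun t x => ?_⟩
  rw [h.2.2.2, stepProb_eq, ker, qb1_next, ncard_coe_finset]
  by_cases c : x (t + 1) ∈ nextSet G x t
  · rw [if_pos c, if_pos (Finset.mem_coe.2 c)]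
  · rw [if_neg c, if_neg fun k => c (Finset.mem_coe.1 k)]

theorem walk_map {o : V} (φ : G ≃g G) (h : IsWalk (ker G ∅) o P X) :
    IsWalk (ker G ∅) (φ o) P fun t ω => φ (X t ω) := by
  refine ⟨h.1, fun t v => ?_, by simpa using h.2.2.1, fun t y => ?_⟩
  · obtain ⟨v, rfl⟩ := φ.surjective v
    simpa using h.2.1 t v
  · obtain ⟨x, rfl⟩ : ∃ x : ℕ → V, y = fun s => φ (x s) := ⟨fun s => φ.symm (y s), by simp⟩
    have h1 : ker G ∅ (fun s => φ (x s)) t (φ (x (t + 1))) = ker G ∅ x t (x (t + 1)) := by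
      unfold ker
      rw [qb1_map, ncard_image_of_injective _ φ.injective]
      by_cases c : x (t + 1) ∈ nx G (∅ ∪ us x t) (x t)
      · rw [if_pos c, if_pos (mem_image_of_mem _ c)]
      · rw [if_neg c, if_neg fun k => c (φ.injective.mem_set_image.1 k)]
    rw [h1]
    simpa using h.2.2.2 t x

theorem val_of_ne_zero {U : Set (Sym2 V)} {v₀ : V} (h : IsWalk (ker G U) v₀ P X) {t : ℕ}
    {x : ℕ → V} (hx : P (cyl X t x) ≠ 0) : Val G U v₀ t x := by
  classical
  induction t with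
  | zero =>
    refine ⟨by_contra fun c => hx ?_, fun s hs => absurd hs (Nat.not_lt_zero s)⟩
    exact (h.cyl_zero x).trans (if_neg c)
  | succ t ih =>
    rw [h.cyl_succ, mul_ne_zero_iff] at hx
    refine ⟨(ih hx.1).1, fun s hs => ?_⟩
    rcases (Nat.lt_succ_iff.1 hs).lt_or_eq with k | rfl
    · exact (ih hx.1).2 s k
    · exact by_contra fun c => hx.2 (if_neg c)

theorem cyl_ge {d : ℕ} (hb : Bd G d) {U : Set (Sym2 V)} {v₀ : V} (h : IsWalk (ker G U) v₀ P X)
    {t n : ℕ} {y : ℕ → V} (hy : ∀ s, t ≤ s → s < t + n → y (s + 1) ∈ nx G (U ∪ us y s) (y s)) :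
    (d : ℝ≥0∞)⁻¹ ^ n * P (cyl X t y) ≤ P (cyl X (t + n) y) := by
  induction n with
  | zero => simp
  | succ n ih =>
    rw [← add_assoc, h.cyl_succ, pow_succ, mul_right_comm]
    exact mul_le_mul' (ih fun s h1 h2 => hy s h1 (by omega))
      (ker_ge hb (hy (t + n) (by omega) (by omega)))

theorem cyl_ne_zero {d : ℕ} (hb : Bd G d) {U : Set (Sym2 V)} {v₀ : V}
    (h : IsWalk (ker G U) v₀ P X) {t : ℕ} {x : ℕ → V} (hx : Val G U v₀ t x) :
    P (cyl X t x) ≠ 0 := by
  classical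
  have h1 := cyl_ge hb h (t := 0) (n := t) (y := x) fun s _ hs => hx.2 s (by omega)
  have h2 : P (cyl X 0 x) = 1 := (h.cyl_zero x).trans (if_pos hx.1)
  rw [h2, mul_one, zero_add] at h1
  exact fun c => pow_ne_zero t (ENNReal.inv_ne_zero.2 (ENNReal.natCast_ne_top d))
    (le_zero_iff.1 (c ▸ h1))

end

omit [MeasurableSpace V] [DiscreteMeasurableSpace V] in
theorem ae_val {U : Set (Sym2 V)} {v₀ : V} (h : IsWalk (ker G U) v₀ P X) :
    ∀ᵐ ω ∂P, ∀ t, Val G U v₀ t (pth X ω) := by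
  rw [ae_all_iff]
  intro t
  rw [ae_iff]
  have : {ω | ¬ Val G U v₀ t (pth X ω)} ⊆
      ⋃ a : {a : Fin (t + 1) → V // ¬ Val G U v₀ t (ext t a)}, cyl X t (ext t a.1) := by
    intro ω hω
    have hmem : ω ∈ cyl X t (ext t fun i => X i ω) := fun s hs => by
      simp [Lib.GRW.ext, min_eq_left hs]
    exact mem_iUnion.2 ⟨⟨fun i => X i ω, fun hv => hω (hv.congr fun s hs => (hmem s hs).symm)⟩, hmem⟩
  exact measure_mono_null this
    (measure_iUnion_null fun a => by_contra fun c => a.2 (val_of_ne_zero h c))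

omit [MeasurableSpace V] [DiscreteMeasurableSpace V] in
theorem ae_adj {U : Set (Sym2 V)} {v₀ : V} (h : IsWalk (ker G U) v₀ P X) :
    ∀ᵐ ω ∂P, pth X ω 0 = v₀ ∧ ∀ s, G.Adj (pth X ω s) (pth X ω (s + 1)) := by
  filter_upwards [ae_val h] with ω hω
  exact ⟨(hω 0).1, fun s => ((hω (s + 1)).2 s (Nat.lt_succ_self s)).1⟩

omit [MeasurableSpace V] [DiscreteMeasurableSpace V] in
theorem exists_ker {d : ℕ} (hb : Bd G d) (U : Set (Sym2 V)) (v₀ : V) :
    ∃ (Ω : Type) (_ : MeasurableSpace Ω) (P : Measure Ω) (X : ℕ → Ω → V),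
      IsWalk (ker G U) v₀ P X :=
  exists_walk (k := ker G U) (fun _ _ _ h => ker_congr U h) (tsum_ker hb U) v₀

theorem law_tr (ht : Tr G) {o o' : V} (h : IsWalk (ker G ∅) o P X) {Ω' : Type}
    [MeasurableSpace Ω'] {P' : Measure Ω'} {X' : ℕ → Ω' → V} (h' : IsWalk (ker G ∅) o' P' X') :
    P (pth X ⁻¹' Of o) = P' (pth X' ⁻¹' Of o') ∧ P (pth X ⁻¹' Nv o) = P' (pth X' ⁻¹' Nv o') := by
  obtain ⟨φ, rfl⟩ := ht o o'
  have h1 := (walk_map φ h).law h' (meas_Of (φ o))
  have h2 := (walk_map φ h).law h' (meas_Nv (φ o))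
  refine ⟨Eq.trans (congrArg P ?_) h1, Eq.trans (congrArg P ?_) h2⟩
  · ext ω
    simp [Of, pth]
  · ext ω
    simp [Nv, pth]

end Pool.Agent.P3fb035
end

-- part Pool.Agent.P.MP_3fb035_pr.QR0
section

/-! Runs: basic facts. -/

set_option autoImplicit false

open MeasureTheory Set
open scoped ENNReal symmDiff

namespace Pool.Agent.P3fb035

open Pool.Agent.Lib.GRW

variable {V : Type} {G : SimpleGraph V}

variable {S S' K : Set V} {n m : ℕ} {U U' U'' E E' : Set (Sym2 V)} {v p q u : V}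

theorem Ag.rfl : Ag G S U U := fun _ _ _ _ => Iff.rfl

theorem Ag.symm (h : Ag G S U U') : Ag G S U' U := fun a ha b hb => (h a ha b hb).symm

theorem Ag.trans (h : Ag G S U U') (h' : Ag G S U' U'') : Ag G S U U'' :=
  fun a ha b hb => (h a ha b hb).trans (h' a ha b hb)

theorem Ag.mono (h : Ag G S U U') (hS : S' ⊆ S) : Ag G S' U U' := fun a ha => h a (hS ha)

theorem Ag.union (h : Ag G S U U') (h' : Ag G S E E') : Ag G S (U ∪ E) (U' ∪ E') :=
  fun a ha b hb => or_congr (h a ha b hb) (h' a ha b hb)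

theorem Ag.sup (h : Ag G S U U') (h' : Ag G S' U U') : Ag G (S ∪ S') U U' :=
  fun a ha => ha.elim (h a) (h' a)

theorem ag_of_exh (h : ∀ a ∈ S, Exh G U a) (h' : ∀ a ∈ S, Exh G U' a) : Ag G S U U' :=
  fun a ha b hb => iff_of_true (h a ha b hb) (h' a ha b hb)

theorem Run.one (hw : p ∈ nx G U v) (hS : p ∈ S) : Run G S 1 U v {s(v, p)} p := by
  have := Run.cons hw hS (Run.nil (G := G) (S := S) (insert s(v, p) U) p)
  rwa [insert_empty_eq] at this

theorem Run.trans (h : Run G S n U v E p) (h' : Run G S m (U ∪ E) p E' q) :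
    Run G S (n + m) U v (E ∪ E') q := by
  induction h with
  | nil U v => simpa only [union_empty, empty_union, Nat.zero_add] using h'
  | @cons n U E v w v' hw hS _ ih =>
    rw [Nat.add_right_comm, insert_union]
    refine Run.cons hw hS (ih ?_)
    rwa [insert_union, ← union_insert]

theorem Run.mono (h : Run G S n U v E p) (hS : S ⊆ S') : Run G S' n U v E p := by
  induction h with
  | nil U v => exact Run.nil U v
  | cons hw hS' _ ih => exact Run.cons hw (hS hS') ih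

theorem Run.end_mem (h : Run G S n U v E p) : p = v ∨ p ∈ S := by
  induction h with
  | nil U v => exact Or.inl rfl
  | cons hw hS _ ih => exact Or.inr (ih.elim (fun e => e ▸ hS) id)

theorem Run.edge (h : Run G S n U v E p) {a b : V} (he : s(a, b) ∈ E) :
    G.Adj a b ∧ (a = v ∨ a ∈ S) := by
  induction h with
  | nil U v => exact he.elim
  | @cons n U E v w v' hw hS _ ih =>
    rcases he with he | he
    · rcases Sym2.eq_iff.1 he with ⟨rfl, rfl⟩ | ⟨rfl, rfl⟩
      · exact ⟨hw.1, Or.inl rfl⟩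
      · exact ⟨hw.1.symm, Or.inr hS⟩
    · exact ⟨(ih he).1, Or.inr ((ih he).2.elim (fun e => e ▸ hS) id)⟩

theorem Run.finite (h : Run G S n U v E p) : E.Finite := by
  induction h with
  | nil U v => exact finite_empty
  | cons _ _ _ ih => exact ih.insert _

theorem Run.lift (h : Run G S n U v E p) (h1 : U ⊆ U') (h2 : E ∩ U' ⊆ U) :
    Run G S n U' v E p := by
  induction h generalizing U' with
  | nil U v => exact Run.nil U' v
  | @cons n U E v w v' hw hS _ ih =>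
    refine Run.cons ⟨hw.1, hw.2.imp (fun h3 h4 => h3 (h2 ⟨mem_insert _ _, h4⟩)) fun h3 => h3.mono h1⟩
      hS (ih (insert_subset_insert h1) ?_)
    rintro e ⟨he, he' | he'⟩
    · exact Or.inl he'
    · exact Or.inr (h2 ⟨Or.inr he, he'⟩)

theorem Run.loc {G' : SimpleGraph V} (h : Run G S n U v E p) (hv : v ∈ S)
    (hG : ∀ a ∈ S, ∀ b, G.Adj a b ↔ G'.Adj a b) (hU : Ag G S U U') : Run G' S n U' v E p := by
  induction h generalizing U' with
  | nil U v => exact Run.nil U' v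
  | @cons n U E v w v' hw hS _ ih =>
    refine Run.cons (nx_congr (hG v hv) (hU v hv) ▸ hw) hS (ih hS ?_)
    exact fun a ha b hb => or_congr Iff.rfl (hU a ha b hb)

end Pool.Agent.P3fb035
end

-- part Pool.Agent.P.MP_3fb035_pr.QR1
section

/-! Runs. -/

set_option autoImplicit false

open MeasureTheory Set
open scoped ENNReal symmDiff

namespace Pool.Agent.P3fb035

open Pool.Agent.Lib.GRW

variable {V : Type} {G : SimpleGraph V}

variable {S S' K : Set V} {n m : ℕ} {U U' U'' E E' : Set (Sym2 V)} {v p q u : V}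

theorem Run.split (h : Run G S n U v E p) (hu : u = v ∨ ∃ b, s(u, b) ∈ E) :
    ∃ n₁ n₂ E₁ E₂, Run G S n₁ U v E₁ u ∧ Run G S n₂ (U ∪ E₁) u E₂ p ∧ E = E₁ ∪ E₂ := by
  induction h with
  | nil U v =>
    obtain rfl : u = v := hu.resolve_right fun ⟨_, hb⟩ => hb
    exact ⟨0, 0, ∅, ∅, Run.nil _ _, Run.nil _ _, (union_empty _).symm⟩
  | @cons n U E v w v' hw hS hr ih =>
    by_cases huv : u = v
    · subst huv
      refine ⟨0, n + 1, ∅, insert s(u, w) E, Run.nil _ _, ?_, (empty_union _).symm⟩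
      rw [union_empty]
      exact Run.cons hw hS hr
    · obtain ⟨b, hb⟩ := hu.resolve_left huv
      have hu' : u = w ∨ ∃ b, s(u, b) ∈ E := by
        rcases hb with hb | hb
        · rcases Sym2.eq_iff.1 hb with h1 | h1
          · exact absurd h1.1 huv
          · exact Or.inl h1.1
        · exact Or.inr ⟨b, hb⟩
      obtain ⟨n₁, n₂, E₁, E₂, h1, h2, rfl⟩ := ih hu'
      refine ⟨n₁ + 1, n₂, insert s(v, w) E₁, E₂, Run.cons hw hS h1, ?_, insert_union.symm⟩
      rw [union_insert, ← insert_union]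
      exact h2

theorem Run.restrict (h : Run G S n U v E p) (hv : v ∈ S')
    (hS : ∀ a ∈ S', ∀ b, G.Adj a b → b ∈ S') : Run G S' n U v E p := by
  induction h with
  | nil U v => exact Run.nil _ _
  | cons hw _ _ ih =>
    have hw' := hS _ hv _ hw.1
    exact Run.cons hw hw' (ih hw')

theorem Run.sub {G' : SimpleGraph V} (h : Run G' S n U v E p) (hle : G' ≤ G)
    (hx : ∀ a b, G.Adj a b → ¬G'.Adj a b → s(a, b) ∈ U) : Run G S n U v E p := by
  induction h with
  | nil U v => exact Run.nil _ _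
  | @cons n U E v w v' hw hS _ ih =>
    refine Run.cons ⟨hle hw.1, hw.2.imp_right fun he z hz => ?_⟩ hS
      (ih fun a b h1 h2 => mem_insert_of_mem _ (hx a b h1 h2))
    by_cases hz' : G'.Adj v z
    · exact he z hz'
    · exact hx v z hz hz'

theorem run_exh (h : Cn G S v p) (hv : Exh G U v) (hS : ∀ c ∈ S, Exh G U c) :
    ∃ n E, E ⊆ U ∧ Run G S n U v E p := by
  induction h using Relation.ReflTransGen.head_induction_on with
  | refl => exact ⟨0, ∅, empty_subset _, Run.nil _ _⟩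
  | @head a c hac _ ih =>
    obtain ⟨n, E, hE, hr⟩ := ih (hS c hac.2)
    have he : s(a, c) ∈ U := hv c hac.1
    refine ⟨n + 1, insert s(a, c) E, insert_subset he hE,
      Run.cons ⟨hac.1, Or.inr hv⟩ hac.2 ?_⟩
    rw [insert_eq_of_mem he]
    exact hr

theorem Qe_le_one : Qe G K U v ≤ 1 := by
  refine (iInf_le _ 0).trans ?_
  rw [qn]

theorem Qe_loc {G' : SimpleGraph V} (hv : v ∉ K) (hG : ∀ a ∉ K, ∀ b, G.Adj a b ↔ G'.Adj a b)
    (hU : Ag G Kᶜ U U') : Qe G K U v = Qe G' K U' v := by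
  have key : ∀ (n : ℕ) (U U' : Set (Sym2 V)) (v : V), v ∉ K → Ag G Kᶜ U U' →
      qn G K n U v = qn G' K n U' v := by
    intro n
    induction n with
    | zero => intro U U' v _ _; rw [qn, qn]
    | succ n ih =>
      intro U U' v hv hU
      rw [qn, qn, nx_congr (hG v hv) (hU v hv)]
      refine tsum_congr fun w => ?_
      by_cases hw : w ∈ nx G' U' v ∧ w ∉ K
      · rw [if_pos hw, if_pos hw, ih (insert s(v, w) U) (insert s(v, w) U') w hw.2
          fun a ha b hb => or_congr_right (hU a ha b hb)]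
      · rw [if_neg hw, if_neg hw]
  exact iInf_congr fun n => key n U U' v hv hU

end Pool.Agent.P3fb035
end

-- part Pool.Agent.P.MP_3fb035_pr.QE1
section

/-! Burning a finite set of edges. -/

set_option autoImplicit false

open MeasureTheory Set
open scoped ENNReal symmDiff

namespace Pool.Agent.P3fb035

open Pool.Agent.Lib.GRW

variable {V : Type} {G : SimpleGraph V}

/-- walking inside `W` on old edges to a vertex that has an edge of `H` -/
theorem qe1_walk {S W : Set V} (hWS : W ⊆ S) {H U : Set (Sym2 V)}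
    (hx : ∀ a ∈ W, Exh G (U ∪ H) a) {v a : V} (h : Cn G W v a) (ha : a ∈ W)
    (hb : ∃ b, G.Adj a b ∧ s(a, b) ∈ H) (hv : v ∈ W) :
    ∃ n E p, Run G S n U v E p ∧ E ⊆ U ∧ p ∈ W ∧ ∃ b, G.Adj p b ∧ s(p, b) ∈ H := by
  induction h using Relation.ReflTransGen.head_induction_on with
  | refl => exact ⟨0, ∅, a, Run.nil U a, empty_subset _, ha, hb⟩
  | @head p q hpq _ ih =>
    by_cases hp : ∃ b, G.Adj p b ∧ s(p, b) ∈ H
    · exact ⟨0, ∅, p, Run.nil U p, empty_subset _, hv, hp⟩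
    · have hex : Exh G U p := fun z hz => (hx p hv z hz).elim id fun h' => (hp ⟨z, hz, h'⟩).elim
      obtain ⟨n, E, r, hr, hE, hrW, hrb⟩ := ih hpq.2
      have he : s(p, q) ∈ U := hex q hpq.1
      have hi : insert s(p, q) U = U := insert_eq_of_mem he
      refine ⟨n + 1, insert s(p, q) E, r, Run.cons ⟨hpq.1, Or.inr hex⟩ (hWS hpq.2) ?_,
        insert_subset he hE, hrW, hrb⟩
      rw [hi]
      exact hr

/-- the conclusion of `eb0` -/
def qe1_C (G : SimpleGraph V) (S W : Set V) (H U : Set (Sym2 V)) (v : V) : Prop :=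
  ∃ n E w, Run G S n U v E w ∧ w ∈ W ∧ E ⊆ U ∪ H ∧ (∀ u ∉ W, Even (dg G (H \ E) u)) ∧
    ∀ a ∈ W, ∀ b, G.Adj a b → s(a, b) ∈ H → s(a, b) ∈ E

theorem qe1_par {W : Set V} {H : Set (Sym2 V)} (hH : H.Finite) {v z : V} (hz : G.Adj v z)
    (he : s(v, z) ∈ H) (hp : ∀ u ∉ W, Odd (dg G H u) ↔ u = v) :
    ∀ u ∉ W, Odd (dg G (H \ {s(v, z)}) u) ↔ u = z := by
  intro u hu
  have h1 := dg_erase hH hz he u
  have h2 := hp u hu
  have hne : v ≠ z := hz.ne
  rw [Nat.odd_iff] at h2 ⊢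
  by_cases huv : u = v
  · rw [if_pos (Or.inl huv)] at h1
    have h3 := h2.2 huv
    have h4 : u ≠ z := fun h => hne (huv.symm.trans h)
    constructor
    · intro h5
      omega
    · intro h5
      exact (h4 h5).elim
  · by_cases huz : u = z
    · rw [if_pos (Or.inr huz)] at h1
      have h3 : ¬dg G H u % 2 = 1 := fun h => huv (h2.1 h)
      constructor
      · intro _
        exact huz
      · intro _
        omega
    · rw [if_neg (not_or.2 ⟨huv, huz⟩)] at h1
      have h3 : ¬dg G H u % 2 = 1 := fun h => huv (h2.1 h)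
      constructor
      · intro h5
        omega
      · intro h5
        exact (huz h5).elim

theorem qe1_step {S W : Set V} {H U : Set (Sym2 V)} {v z : V} (hd : Disjoint H U)
    (hz : G.Adj v z) (he : s(v, z) ∈ H) (hzS : z ∈ S)
    (h : qe1_C G S W (H \ {s(v, z)}) (insert s(v, z) U) z) : qe1_C G S W H U v := by
  obtain ⟨n, E, w, hr, hw, hE, hev, hall⟩ := h
  have heU : s(v, z) ∉ U := fun h' => disjoint_left.1 hd he h'
  refine ⟨n + 1, insert s(v, z) E, w, Run.cons ⟨hz, Or.inl heU⟩ hzS hr, hw, ?_, ?_, ?_⟩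
  · refine insert_subset (Or.inr he) fun e hE' => ?_
    rcases hE hE' with h1 | h1
    · rcases h1 with h1 | h1
      · exact Or.inr (h1 ▸ he)
      · exact Or.inl h1
    · exact Or.inr h1.1
  · have h1 : H \ insert s(v, z) E = (H \ {s(v, z)}) \ E := by
      ext e
      simp only [mem_sdiff, mem_insert_iff, mem_singleton_iff, not_or, and_assoc]
    rw [h1]
    exact hev
  · intro a ha b hab hH'
    by_cases h1 : s(a, b) = s(v, z)
    · exact Or.inl h1
    · exact Or.inr (hall a ha b hab ⟨hH', h1⟩)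

theorem qe1_main {S W : Set V} (hW : Con G W) (hWS : W ⊆ S) (k : ℕ) :
    ∀ (H : Set (Sym2 V)) (U : Set (Sym2 V)) (v : V), H.Finite → H.ncard = k → Disjoint H U →
      (∀ a b, G.Adj a b → s(a, b) ∈ H → a ∈ S) →
      (W.Subsingleton ∨ ∀ a ∈ W, Exh G (U ∪ H) a) →
      (∀ u ∉ W, Odd (dg G H u) ↔ u = v) → qe1_C G S W H U v := by
  induction k using Nat.strong_induction_on with
  | _ k ih =>
    intro H U v hH hk hd hS hx hp
    have step : ∀ p, (∀ u ∉ W, Odd (dg G H u) ↔ u = p) → (∃ z, G.Adj p z ∧ s(p, z) ∈ H) →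
        qe1_C G S W H U p := by
      rintro p hp' ⟨z, hz, he⟩
      have hzS : z ∈ S := hS z p hz.symm (by rw [Sym2.eq_swap]; exact he)
      refine qe1_step hd hz he hzS ?_
      have hun : insert s(p, z) U ∪ (H \ {s(p, z)}) = U ∪ H := by
        ext e
        simp only [mem_union, mem_insert_iff, mem_sdiff, mem_singleton_iff]
        constructor
        · rintro ((h1 | h1) | h1)
          · exact Or.inr (h1 ▸ he)
          · exact Or.inl h1
          · exact Or.inr h1.1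
        · rintro (h1 | h1)
          · exact Or.inl (Or.inr h1)
          · by_cases h2 : e = s(p, z)
            · exact Or.inl (Or.inl h2)
            · exact Or.inr ⟨h1, h2⟩
      refine ih (H \ {s(p, z)}).ncard ?_ _ _ z (hH.subset sdiff_subset) rfl ?_ ?_ ?_
        (qe1_par hH hz he hp')
      · rw [← hk]
        exact ncard_sdiff_singleton_lt_of_mem he hH
      · refine disjoint_left.2 fun e h1 h2 => ?_
        rcases h2 with h2 | h2
        · exact h1.2 h2
        · exact disjoint_left.1 hd h1.1 h2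
      · exact fun a b hab h1 => hS a b hab h1.1
      · rw [hun]
        exact hx
    by_cases hv : v ∈ W
    · by_cases hex : ∃ a ∈ W, ∃ b, G.Adj a b ∧ s(a, b) ∈ H
      · obtain ⟨a, ha, hb⟩ := hex
        rcases hx with hx | hx
        · have h1 : a = v := hx ha hv
          exact step v hp (h1 ▸ hb)
        · obtain ⟨n, E, p, hr, hE, hpW, hpb⟩ := qe1_walk hWS hx (hW v hv a ha) ha hb hv
          have hp' : ∀ u ∉ W, Odd (dg G H u) ↔ u = p := fun u hu =>
            iff_of_false (fun h => hu ((hp u hu).1 h ▸ hv)) fun h => hu (h ▸ hpW)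
          obtain ⟨m, E', w, hr', hw, hE', hev, hall⟩ := step p hp' hpb
          have hUE : U ∪ E = U := union_eq_self_of_subset_right hE
          refine ⟨n + m, E ∪ E', w, hr.trans (by rw [hUE]; exact hr'), hw,
            union_subset (hE.trans subset_union_left) hE', ?_,
            fun c hc b hcb h1 => Or.inr (hall c hc b hcb h1)⟩
          have h1 : H \ (E ∪ E') = H \ E' := by
            ext e
            simp only [mem_sdiff, mem_union, not_or]
            exact ⟨fun h => ⟨h.1, h.2.2⟩,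
              fun h => ⟨h.1, fun h2 => disjoint_left.1 hd h.1 (hE h2), h.2⟩⟩
          rw [h1]
          exact hev
      · refine ⟨0, ∅, v, Run.nil U v, hv, empty_subset _, fun u hu => ?_,
          fun a ha b hab h1 => (hex ⟨a, ha, b, hab, h1⟩).elim⟩
        rw [sdiff_empty, ← Nat.not_odd_iff_even]
        exact fun h => hu ((hp u hu).1 h ▸ hv)
    · refine step v hp (dg_pos fun h => ?_)
      have h1 := (hp v hv).2 rfl
      rw [h] at h1
      exact Nat.not_odd_zero h1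

theorem eb0 {S W : Set V} (hW : Con G W) (hWS : W ⊆ S) {H : Set (Sym2 V)} (hH : H.Finite)
    {U : Set (Sym2 V)} {v : V} (hd : Disjoint H U)
    (hS : ∀ a b, G.Adj a b → s(a, b) ∈ H → a ∈ S)
    (hx : W.Subsingleton ∨ ∀ a ∈ W, Exh G (U ∪ H) a)
    (hp : ∀ u ∉ W, Odd (dg G H u) ↔ u = v) :
    ∃ n E w, Run G S n U v E w ∧ w ∈ W ∧ E ⊆ U ∪ H ∧ (∀ u ∉ W, Even (dg G (H \ E) u)) ∧
      ∀ a ∈ W, ∀ b, G.Adj a b → s(a, b) ∈ H → s(a, b) ∈ E := by
  exact qe1_main hW hWS H.ncard H U v hH rfl hd hS hx hp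

end Pool.Agent.P3fb035
end

-- part Pool.Agent.P.MP_3fb035_pr.QE3
section

/-! Burning a finite set of edges exactly: minimal leftover. -/

set_option autoImplicit false

open MeasureTheory Set
open scoped ENNReal symmDiff

namespace Pool.Agent.P3fb035

open Pool.Agent.Lib.GRW

variable {V : Type} {G : SimpleGraph V}

theorem qe3_aux {S W : Set V} {H : Set (Sym2 V)} (hH : H.Finite)
    {U : Set (Sym2 V)} {v : V} (hd : Disjoint H U)
    (hS : ∀ a b, G.Adj a b → s(a, b) ∈ H → a ∈ S) (k : ℕ) : ∀ n E w, (H \ E).ncard = k →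
      Run G S n U v E w → w ∈ W → E ⊆ U ∪ H → (∀ u ∉ W, Even (dg G (H \ E) u)) →
      (∀ a ∈ W, ∀ b, G.Adj a b → s(a, b) ∈ H → s(a, b) ∈ E) →
    ∃ n E w, Run G S n U v E w ∧ w ∈ W ∧ E ⊆ U ∪ H ∧
      ∀ a, (a ∈ W ∨ a = v ∨ ∃ b, s(a, b) ∈ E) → ∀ b, G.Adj a b → s(a, b) ∈ H → s(a, b) ∈ E := by
  induction k using Nat.strong_induction_on with
  | _ k ih =>
  intro n E w hk hr hw hE hev hall
  by_cases hc : ∀ a, (a ∈ W ∨ a = v ∨ ∃ b, s(a, b) ∈ E) → ∀ b, G.Adj a b → s(a, b) ∈ H →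
      s(a, b) ∈ E
  · exact ⟨n, E, w, hr, hw, hE, hc⟩
  push Not at hc
  obtain ⟨a, ha, b, hab, hb, hbE⟩ := hc
  have haW : a ∉ W := fun h => hbE (hall a h b hab hb)
  obtain ⟨n₁, n₂, E₁, E₂, r1, r2, rfl⟩ := hr.split (ha.resolve_left haW)
  obtain ⟨n', E', w', r3, hw', hE', hev', hall'⟩ := eb0 (G := G) (S := S) (W := {a})
    (H := H \ (E₁ ∪ E₂)) (U := U ∪ E₁) (v := a) (con_singleton a)
    (singleton_subset_iff.2 (hS a b hab hb)) hH.sdiff
    (disjoint_left.2 fun e he h => h.elim (disjoint_left.1 hd he.1) fun h => he.2 (Or.inl h))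
    (fun a b h h' => hS a b h h'.1) (Or.inl subsingleton_singleton) fun u hu => by
      refine iff_of_false (Nat.not_odd_iff_even.2 ?_) hu
      by_cases huW : u ∈ W
      · rw [dg_zero fun b h h' => h'.2 (hall u huW b h h'.1)]
        exact Even.zero
      · exact hev u huW
  obtain rfl : w' = a := hw'
  have r4 : Run G S n₂ (U ∪ (E₁ ∪ E')) w' E₂ w := by
    rw [← union_assoc]
    refine r2.lift subset_union_left fun e he => he.2.elim id fun h => (hE' h).elim id fun h => ?_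
    exact absurd (Or.inr he.1) h.2
  have e : H \ (E₁ ∪ E' ∪ E₂) = (H \ (E₁ ∪ E₂)) \ E' := by
    ext e
    simp only [mem_sdiff, mem_union]
    tauto
  refine ih _ ?_ _ _ w rfl ((r1.trans r3).trans r4) hw ?_ (fun u hu => ?_) fun c hc d h h' => ?_
  · rw [← hk, e]
    refine ncard_lt_ncard ⟨sdiff_subset, fun h => ?_⟩ hH.sdiff
    exact (h ⟨hb, hbE⟩).2 (hall' w' rfl b hab ⟨hb, hbE⟩)
  · refine union_subset (union_subset (subset_union_left.trans hE) fun e he => ?_)
      (subset_union_right.trans hE)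
    exact (hE' he).elim (fun h => h.elim Or.inl fun h => hE (Or.inl h)) fun h => Or.inr h.1
  · rw [e]
    by_cases hu' : u = w'
    · rw [dg_zero fun b h h' => h'.2 (hall' u hu' b h h'.1)]
      exact Even.zero
    · exact hev' u hu'
  · exact (hall c hc d h h').elim (fun h => Or.inl (Or.inl h)) Or.inr

theorem eb {S W : Set V} (hW : Con G W) (hWS : W ⊆ S) {H : Set (Sym2 V)} (hH : H.Finite)
    {U : Set (Sym2 V)} {v : V} (hd : Disjoint H U)
    (hS : ∀ a b, G.Adj a b → s(a, b) ∈ H → a ∈ S)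
    (hx : W.Subsingleton ∨ ∀ a ∈ W, Exh G (U ∪ H) a)
    (hp : ∀ u ∉ W, Odd (dg G H u) ↔ u = v) :
    ∃ n E w, Run G S n U v E w ∧ w ∈ W ∧ E ⊆ U ∪ H ∧
      ∀ a, (a ∈ W ∨ a = v ∨ ∃ b, s(a, b) ∈ E) → ∀ b, G.Adj a b → s(a, b) ∈ H → s(a, b) ∈ E := by
  obtain ⟨n, E, w, h1, h2, h3, h4, h5⟩ := eb0 hW hWS hH hd hS hx hp
  exact qe3_aux hH hd hS _ n E w rfl h1 h2 h3 h4 h5

end Pool.Agent.P3fb035
end

-- part Pool.Agent.P.MP_3fb035_pr.QE2
section

/-! Burning a finite set of edges exactly. -/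

set_option autoImplicit false

open MeasureTheory Set
open scoped ENNReal symmDiff

namespace Pool.Agent.P3fb035

open Pool.Agent.Lib.GRW

variable {V : Type} {G : SimpleGraph V}

theorem ebl {S W : Set V} (hW : Con G W) (hWS : W ⊆ S) {H : Set (Sym2 V)} (hH : H.Finite)
    {U : Set (Sym2 V)} {v : V} (hd : Disjoint H U)
    (hS : ∀ a b, G.Adj a b → s(a, b) ∈ H → a ∈ S)
    (hx : W.Subsingleton ∨ ∀ a ∈ W, Exh G (U ∪ H) a)
    (hp : ∀ u ∉ W, Odd (dg G H u) ↔ u = v) :
    ∃ n E w, Run G S n U v E w ∧ w ∈ W ∧ E ⊆ U ∪ H ∧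
      ∀ a, (a ∈ W ∨ a = v ∨ Lk G H W a) → ∀ b, G.Adj a b → s(a, b) ∈ H → s(a, b) ∈ E := by
  obtain ⟨n, E, w, h1, h2, h3, h4⟩ := eb hW hWS hH hd hS hx hp
  refine ⟨n, E, w, h1, h2, h3, fun a ha => ?_⟩
  rcases ha with ha | ha | ⟨w₀, hw, h⟩
  · exact h4 a (Or.inl ha)
  · exact h4 a (Or.inr (Or.inl ha))
  · induction h with
    | refl => exact h4 _ (Or.inl hw)
    | tail _ h5 ih => exact h4 _ (Or.inr (Or.inr ⟨_, Sym2.eq_swap ▸ ih _ h5.1 h5.2.1⟩))

theorem Lk.loc {X H : Set (Sym2 V)} {W W' F : Set V} {a : V} (h : Lk G X W' a) (ha : a ∈ F)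
    (hF : Clo G F W') (hW : W' ⊆ W) (hd : Disjoint F W) (hA : Ag G F X H) : Lk G H W a := by
  obtain ⟨w, hw, h⟩ := h
  induction h with
  | refl => exact ⟨w, hW hw, .refl⟩
  | @tail p q _ h5 ih =>
    have h1 : G.Adj p q ∧ s(p, q) ∈ H ∧ q ∉ W :=
      ⟨h5.1, Sym2.eq_swap ▸ (hA q ha p h5.1.symm).1 (Sym2.eq_swap ▸ h5.2.1), disjoint_left.1 hd ha⟩
    rcases hF q ha p h5.1.symm with hp | hp
    · obtain ⟨w', h2, h3⟩ := ih hp
      exact ⟨w', h2, h3.tail h1⟩
    · exact ⟨p, hW hp, .single h1⟩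

theorem prune {X : Set (Sym2 V)} {W : Set V} (hx : ∀ a ∈ W, Exh G X a)
    (he : ∀ u ∉ W, Even (dg G X u)) :
    ∃ X₁ ⊆ X, (∀ a ∈ W, Exh G X₁ a) ∧ (∀ u ∉ W, Even (dg G X₁ u)) ∧
      ∀ a ∉ W, ∀ b, G.Adj a b → s(a, b) ∈ X₁ → Lk G X₁ W a := by
  have k1 : ∀ a ∉ W, ∀ b, G.Adj a b → s(a, b) ∈ {e | e ∈ X ∧ ∃ c ∈ e, Lk G X W c} →
      Lk G X W a := by
    rintro a ha b hab ⟨h1, c, h2, h3⟩
    rcases Sym2.mem_iff.1 h2 with rfl | rfl
    · exact h3
    · obtain ⟨w, h4, h5⟩ := h3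
      exact ⟨w, h4, h5.tail ⟨hab.symm, Sym2.eq_swap ▸ h1, ha⟩⟩
  have k2 : ∀ a, Lk G X W a → Lk G {e | e ∈ X ∧ ∃ c ∈ e, Lk G X W c} W a := by
    rintro a ⟨w, hw, h⟩
    refine ⟨w, hw, ?_⟩
    induction h with
    | refl => exact .refl
    | tail h4 h5 ih => exact ih.tail ⟨h5.1, ⟨h5.2.1, _, Sym2.mem_mk_left _ _, w, hw, h4⟩, h5.2.2⟩
  refine ⟨{e | e ∈ X ∧ ∃ c ∈ e, Lk G X W c}, fun e h => h.1,
    fun a ha z hz => ⟨hx a ha z hz, a, Sym2.mem_mk_left _ _, a, ha, .refl⟩, fun u hu => ?_,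
    fun a ha b hab h => k2 a (k1 a ha b hab h)⟩
  by_cases h : Lk G X W u
  · rw [dg_congr (A := {e | e ∈ X ∧ ∃ c ∈ e, Lk G X W c}) (B := X) fun b _ =>
      ⟨fun h1 => h1.1, fun h1 => ⟨h1, u, Sym2.mem_mk_left _ _, h⟩⟩]
    exact he u hu
  · rw [dg_zero fun b hb h1 => h (k1 u hu b hb h1)]
    exact Even.zero

end Pool.Agent.P3fb035
end

-- part Pool.Agent.P.MP_3fb035_pr.QG4
section

/-! Construction of cuts. -/

set_option autoImplicit false

open MeasureTheory Set
open scoped ENNReal symmDiff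

namespace Pool.Agent.P3fb035

open Pool.Agent.Lib.GRW

variable {V : Type} {G : SimpleGraph V}

theorem mk_cut {d : ℕ} (hr : Reg G d) (hd : Odd d) (hc : G.Preconnected) (h2 : Two G)
    {W : Set V} {X : Set (Sym2 V)} (hW : W.Finite) (hne : W.Nonempty) (hcon : Con G W)
    (hX : X.Finite) (hx : ∀ a ∈ W, Exh G X a) (he : ∀ u ∉ W, Even (dg G X u))
    (hk : ∀ a ∉ W, ∀ b, G.Adj a b → s(a, b) ∈ X → Lk G X W a) {a : V} (ha : a ∉ W)
    (hi : (Cp G W a).Infinite) :
    ∃ C : Cut G, C.F = (Cp G W a ∪ W)ᶜ ∧ C.X = X ∧ W ⊆ C.W ∧ C.N.Infinite ∧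
      Cp G W a ⊆ C.N ∪ C.W := by
  have hl := hr.lf
  obtain ⟨v, hvΓ, ⟨w0, hw0, hadj⟩, hN⟩ := noncut hl hc h2 hW hne ha
  have hdis : Disjoint (Cp G W a) W := cp_disj ha
  have hclo : Clo G (Cp G W a) W := cp_clo W a
  have hvW : v ∉ W := fun h => Set.disjoint_left.1 hdis hvΓ h
  have hW' : (insert v W).Finite := hW.insert v
  have hZ : (insert v W ∪ {b | ∃ a ∈ insert v W, G.Adj a b} ∪ {p | ∃ q, s(p, q) ∈ X}).Finite :=
    (hW'.union (nb_fin hl hW')).union (vx_fin hX)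
  set Z := insert v W ∪ {b | ∃ a ∈ insert v W, G.Adj a b} ∪ {p | ∃ q, s(p, q) ∈ X} with hZdef
  obtain ⟨B, hB, hZB, hBN, hBc⟩ := fin_sup hN (hZ.subset (inter_subset_left (t := Cp G W a \ {v})))
    inter_subset_right
  have hcon' : Con G (insert v W) := hcon.insert hw0 hadj
  have hsub : insert v W ⊆ Z ∪ B := fun c hc => Or.inl (Or.inl (Or.inl hc))
  have hFW : Disjoint (Cp G W a ∪ W)ᶜ (insert v W) := by
    refine Set.disjoint_left.2 fun c hc hc' => hc ?_
    rcases hc' with rfl | hc'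
    · exact Or.inl hvΓ
    · exact Or.inr hc'
  have hBW : ∀ u ∈ B, u ∉ W := fun u hu h => Set.disjoint_left.1 hdis (hBN hu).1 h
  have hvB : v ∉ B := fun h => (hBN h).2 rfl
  refine ⟨⟨insert v W, Cp G W a \ {v}, (Cp G W a ∪ W)ᶜ, Z ∪ B, X, hZ.union hB, hsub,
    fun c hc b hb => Or.inl (Or.inl (Or.inr ⟨c, hc, hb⟩)), insert_nonempty v W, hcon', ?_,
    hclo.compl.mono (subset_insert v W), ?_, hFW, ?_, ?_⟩, rfl, rfl, subset_insert v W,
    hi.sdiff (finite_singleton v), ?_⟩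
  · intro c hc b hb
    rcases hclo c hc.1 b hb with h | h
    · by_cases hbv : b = v
      · exact Or.inr (Or.inl hbv)
      · exact Or.inl ⟨h, hbv⟩
    · exact Or.inr (Or.inr h)
  · refine Set.disjoint_left.2 fun c hc hc' => ?_
    rcases hc' with h | h
    · exact hc.2 h
    · exact Set.disjoint_left.1 hdis hc.1 h
  · exact Set.disjoint_left.2 fun c hc hc' => hc' (Or.inl hc.1)
  · intro x hxN hxY
    have hxB : x ∈ B := hxY.elim (fun h => hZB ⟨h, hxN⟩) id
    have hnb : ∀ z, G.Adj v z → z ∉ B → s(v, z) ∈ X := by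
      intro z hz hzB
      rcases hclo v hvΓ z hz with h | h
      · exact (hzB (hZB ⟨Or.inl (Or.inr ⟨v, mem_insert v W, hz⟩), h, hz.ne'⟩)).elim
      · rw [Sym2.eq_swap]
        exact hx z h v hz.symm
    obtain ⟨H, hH, hHv, h3, h4, h5, h6⟩ := flip hr hd hX hvB hBc hxB hnb (he v hvW)
      (fun u hu _ => he u (hBW u hu))
    have hexh : ∀ c ∈ insert v W, Exh G H c := by
      intro c hc
      rcases hc with rfl | hc
      · exact hHv
      · intro z hz
        exact (h3 c z (fun h => hBW c h hc) (fun h => hvW (h ▸ hc)) hz).2 (hx c hc z hz)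
    have hpar : ∀ u ∉ insert v W, Odd (dg G H u) ↔ u = x := by
      intro u hu
      have huv : u ≠ v := fun h => hu (Or.inl h)
      have huW : u ∉ W := fun h => hu (Or.inr h)
      constructor
      · intro ho
        by_contra hux
        by_cases huB : u ∈ B
        · exact (Nat.not_even_iff_odd.2 ho) (h5 u huB hux)
        · rw [dg_congr (fun b hb => h3 u b huB huv hb)] at ho
          exact (Nat.not_even_iff_odd.2 ho) (he u huW)
      · rintro rfl
        exact h6.2 (he u huW)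
    have hS : ∀ c b, G.Adj c b → s(c, b) ∈ H → c ∈ Z ∪ B := by
      intro c b _ hcb
      rcases h4 c b hcb with h | h | h
      · exact Or.inl (Or.inr ⟨b, h⟩)
      · exact Or.inr h
      · exact hsub (Or.inl h)
    obtain ⟨n, E, w, hrun, hw, hE, hall⟩ := ebl (S := Z ∪ B) (U := ∅) (v := x) hcon' hsub hH
      (disjoint_empty H) hS (Or.inr fun c hc z hz => Or.inr (hexh c hc z hz)) hpar
    have hag : Ag G (Cp G W a ∪ W)ᶜ X H := fun c hc b hb =>
      (h3 c b (fun h => hc (Or.inl (hBN h).1)) (fun h => hc (Or.inl (h ▸ hvΓ))) hb).symm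
    refine ⟨n, E, w, hrun, hw, fun c hc z hz => hall c (Or.inl hc) z hz (hexh c hc z hz), ?_⟩
    intro c hc b hb
    constructor
    · intro h
      rcases hE h with h | h
      · exact h.elim
      · exact (hag c hc b hb).2 h
    · intro h
      have hcW : c ∉ W := fun h => hc (Or.inr h)
      exact hall c (Or.inr (Or.inr ((hk c hcW b hb h).loc hc hclo.compl (subset_insert v W) hFW
        hag))) b hb ((hag c hc b hb).1 h)
  · intro c hc
    by_cases hcv : c = v
    · exact Or.inr (Or.inl hcv)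
    · exact Or.inl ⟨hc, hcv⟩

end Pool.Agent.P3fb035
end

-- part Pool.Agent.P.MP_3fb035_pr.QH3
section

/-! Cut vertices. -/

set_option autoImplicit false

open MeasureTheory Set
open scoped ENNReal symmDiff

namespace Pool.Agent.P3fb035

open Pool.Agent.Lib.GRW

variable {V : Type} {G : SimpleGraph V}

variable {W F F' : Set V} {d : ℕ}

theorem cp_nb (hc : G.Preconnected) {v a : V} (ha : a ≠ v) : ∃ b ∈ Cp G {v} a, G.Adj v b := by
  have hv : v ∉ Cp G {v} a := fun h => disjoint_left.1 (cp_disj (W := {v}) ha) h rfl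
  obtain ⟨p, q, hp, hq, -, -, hpq⟩ := exit_edge (cn_univ hc a v) (mem_cp {v} a) hv
  rcases cp_clo {v} a p hp q hpq with h | h
  · exact absurd h hq
  · rw [mem_singleton_iff] at h
    exact ⟨p, hp, h ▸ hpq.symm⟩

theorem nofin [Infinite V] (hc : G.Preconnected) (ht : Tr G) {v a : V} (ha : a ≠ v) :
    (Cp G {v} a).Infinite := by
  intro hfin
  obtain ⟨φ, hφ⟩ := ht v a
  have hne : φ a ≠ a := fun e => ha (φ.injective (e.trans hφ.symm))
  have hpre : φ ⁻¹' ({a} : Set V) = {v} := by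
    ext z
    rw [mem_preimage, mem_singleton_iff, mem_singleton_iff]
    exact ⟨fun e => φ.injective (e.trans hφ.symm), fun e => e ▸ hφ⟩
  have himg : φ '' Cp G {v} a = Cp G {a} (φ a) := by
    rw [← hpre, ← cp_pre, image_preimage_eq _ φ.surjective]
  have hcard : (Cp G {a} (φ a)).ncard = (Cp G {v} a).ncard := by
    rw [← himg, ncard_image_of_injective _ φ.injective]
  have hv : v ∉ Cp G {v} a := fun h => disjoint_left.1 (cp_disj (W := {v}) ha) h rfl
  have ha' : a ∉ Cp G {a} (φ a) := fun h => disjoint_left.1 (cp_disj (W := {a}) hne) h rfl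
  by_cases h : v ∈ Cp G {a} (φ a)
  · have h1 : Con G (univ \ Cp G {v} a) :=
      con_diff (fun x _ y _ => cn_univ hc x y) (mem_univ v) hv
        fun x hx y _ hxy => cp_clo {v} a x hx y hxy
    have h2 : univ \ Cp G {v} a ⊆ Cp G {a} v :=
      h1.sub_cp (disjoint_singleton_right.2 fun e => e.2 (mem_cp _ _)) ⟨mem_univ v, hv⟩
    rw [cp_eq (W := {a}) hne h, ← himg] at h2
    exact infinite_univ.sdiff hfin ((hfin.image φ).subset h2)
  · obtain ⟨b, hb, hab⟩ := cp_nb hc hne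
    have hb' : b ∈ Cp G {v} a := (cp_clo {v} a a (mem_cp _ _) b hab).resolve_right fun e =>
      h (mem_singleton_iff.1 e ▸ hb)
    have hsub : Cp G {a} (φ a) ⊆ Cp G {v} a := fun c hc' =>
      clo_cn (cp_clo {v} a) (cp_con (W := {a}) hne b hb c hc') (disjoint_singleton_right.2 h) hb'
    have := ncard_lt_ncard ⟨hsub, fun e => ha' (e (mem_cp _ _))⟩ hfin
    exact this.ne hcard

theorem cut_all (hc : G.Preconnected) (ht : Tr G) (h2 : ¬Two G) (v : V) :
    ∃ a b, G.Adj v a ∧ G.Adj v b ∧ b ∉ Cp G {v} a := by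
  obtain ⟨w, a, b, ha, hb, hab⟩ : ∃ w a b : V, a ≠ w ∧ b ≠ w ∧ ¬ Cn G {w}ᶜ a b := by
    by_contra hn
    exact h2 fun w a b ha hb => by_contra fun e => hn ⟨w, a, b, ha, hb, e⟩
  obtain ⟨φ, hφ⟩ := ht v w
  obtain ⟨a, rfl⟩ := φ.surjective a
  obtain ⟨b, rfl⟩ := φ.surjective b
  subst hφ
  have ha0 : a ≠ v := fun e => ha (by rw [e])
  have hb0 : b ≠ v := fun e => hb (by rw [e])
  have hpre : φ ⁻¹' ({φ v} : Set V)ᶜ = {v}ᶜ := by
    ext z
    rw [mem_preimage, mem_compl_singleton_iff, mem_compl_singleton_iff]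
    exact φ.injective.ne_iff
  have h0 : b ∉ Cp G {v} a := fun e => hab (Cn.map φ (hpre ▸ e))
  obtain ⟨p, hp, hvp⟩ := cp_nb hc ha0
  obtain ⟨q, hq, hvq⟩ := cp_nb hc hb0
  refine ⟨p, q, hvp, hvq, ?_⟩
  rw [cp_eq (W := {v}) ha0 hp]
  exact fun e => disjoint_left.1 (cp_disj_cp (W := {v}) ha0 hb0 h0) e hq

/-- a branch at `v` that does not contain `a` -/
theorem other_branch (hc : G.Preconnected) (ht : Tr G) (h2 : ¬Two G) {v a : V} (ha : a ≠ v) :
    ∃ b, G.Adj v b ∧ a ∉ Cp G {v} b ∧ b ∉ Cp G {v} a := by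
  obtain ⟨p, q, hp, hq, hpq⟩ := cut_all hc ht h2 v
  have key : ∀ b, a ∉ Cp G {v} b → b ∉ Cp G {v} a := fun b hb e =>
    hb (cp_eq (W := {v}) ha e ▸ mem_cp _ _)
  by_cases h : a ∈ Cp G {v} p
  · have h' : a ∉ Cp G {v} q :=
      disjoint_left.1 (cp_disj_cp (W := {v}) hp.ne' hq.ne' hpq) h
    exact ⟨q, hq, h', key q h'⟩
  · exact ⟨p, hp, h, key p h⟩

theorem not_two (h : ∃ v a b : V, a ≠ v ∧ b ≠ v ∧ ∀ p : G.Walk a b, v ∈ p.support) : ¬Two G := by
  obtain ⟨v, a, b, ha, hb, hp⟩ := h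
  intro h2
  have key : ∀ c, Cn G {v}ᶜ a c → ∃ p : G.Walk a c, v ∉ p.support := by
    intro c hc
    induction hc with
    | refl => exact ⟨.nil, by simpa using ha.symm⟩
    | tail _ hq ih =>
      obtain ⟨p, hp⟩ := ih
      refine ⟨p.concat hq.1, ?_⟩
      rw [SimpleGraph.Walk.support_concat]
      simp only [List.mem_append, List.mem_singleton, not_or]
      exact ⟨hp, fun e => hq.2 e.symm⟩
  obtain ⟨p, hp'⟩ := key b (h2 v a b ha hb)
  exact hp' (hp p)

theorem odd_branch (hr : Reg G d) (hd : Odd d) (u : V) :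
    ∃ b, G.Adj u b ∧ Odd {z | G.Adj u z ∧ z ∈ Cp G {u} b}.ncard := by
  classical
  by_contra hn
  push Not at hn
  have hfin := (hr u).1
  have hcard : hfin.toFinset.card = d := by rw [← (hr u).2, ncard_eq_toFinset_card _ hfin]
  rw [← hcard, Finset.card_eq_sum_card_image (fun z => Cp G {u} z)] at hd
  refine (Nat.not_even_iff_odd.2 hd) (Finset.even_sum _ fun C hC => ?_)
  obtain ⟨b, hb, rfl⟩ := Finset.mem_image.1 hC
  have hb' : G.Adj u b := by simpa using hb
  have e : {z | G.Adj u z ∧ z ∈ Cp G {u} b} =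
      ↑(hfin.toFinset.filter fun z => Cp G {u} z = Cp G {u} b) := by
    ext z
    simp only [mem_ofPred_eq, Finset.coe_filter, Finite.mem_toFinset, SimpleGraph.mem_neighborSet]
    exact and_congr_right fun _ => ⟨fun h => cp_eq (W := {u}) hb'.ne' h, fun h => h ▸ mem_cp _ _⟩
  have := hn b hb'
  rw [e, ncard_coe_finset] at this
  exact Nat.not_odd_iff_even.1 this

end Pool.Agent.P3fb035
end

-- part Pool.Agent.P.MP_3fb035_pr.QH2
section

/-! Cut vertices and ends. -/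

set_option autoImplicit false

open MeasureTheory Set
open scoped ENNReal symmDiff

namespace Pool.Agent.P3fb035

open Pool.Agent.Lib.GRW

variable {V : Type} {G : SimpleGraph V}

variable {W F F' : Set V} {d : ℕ}

theorem ends_two (h : Ends G 2) : ∃ S : Set V, S.Finite ∧ ∀ W : Set V, S ⊆ W → W.Finite →
    ∃ a b, a ∉ W ∧ b ∉ W ∧ b ∉ Cp G W a := by
  obtain ⟨S, c, h1, h2⟩ := h
  refine ⟨S, S.finite_toSet, fun W hS hW => ?_⟩
  obtain ⟨a, ha, ha'⟩ := ((h2 0).sdiff hW).nonempty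
  obtain ⟨b, hb, hb'⟩ := ((h2 1).sdiff hW).nonempty
  refine ⟨a, b, ha', hb', fun h3 => ?_⟩
  have h4 : ∀ z, Cn G Wᶜ a z → z ∉ W ∧ c z = 0 := fun z hz => by
    induction hz with
    | refl => exact ⟨ha', ha.2⟩
    | tail _ h5 ih => exact ⟨h5.2, (h1 _ _ (fun e => ih.1 (hS e)) (fun e => h5.2 (hS e)) h5.1).symm.trans ih.2⟩
  exact absurd ((h4 b h3).2.symm.trans hb.2) (by decide)

theorem ends_of_two (hW : W.Finite) (hF : Clo G F W) (h1 : F.Infinite) (h2 : Fᶜ.Infinite) :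
    Ends G 2 := by
  classical
  refine ⟨hW.toFinset, fun v => if v ∈ F then 0 else 1, fun u v hu hv huv => ?_, fun i => ?_⟩
  · rw [hW.mem_toFinset] at hu hv
    have e : u ∈ F ↔ v ∈ F := ⟨fun h => (hF u h v huv).resolve_right hv,
      fun h => (hF v h u huv.symm).resolve_right hu⟩
    simp only [e]
  · fin_cases i
    · refine (h1.sdiff hW).mono fun v hv => ⟨by simpa using hv.2, by simp [hv.1]⟩
    · refine (h2.sdiff hW).mono fun v hv => ⟨by simpa using hv.2, by simp [show v ∉ F from hv.1]⟩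

theorem ends_of_three (hW : W.Finite) (hF : Clo G F W) (hF' : Clo G F' W) (hd : Disjoint F F')
    (h1 : F.Infinite) (h2 : F'.Infinite) (h3 : (F ∪ F')ᶜ.Infinite) : Ends G 3 := by
  classical
  refine ⟨hW.toFinset, fun v => if v ∈ F then 0 else if v ∈ F' then 1 else 2,
    fun u v hu hv huv => ?_, fun i => ?_⟩
  · rw [hW.mem_toFinset] at hu hv
    have e : u ∈ F ↔ v ∈ F := ⟨fun h => (hF u h v huv).resolve_right hv,
      fun h => (hF v h u huv.symm).resolve_right hu⟩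
    have e' : u ∈ F' ↔ v ∈ F' := ⟨fun h => (hF' u h v huv).resolve_right hv,
      fun h => (hF' v h u huv.symm).resolve_right hu⟩
    simp only [e, e']
  · fin_cases i
    · refine (h1.sdiff hW).mono fun v hv => ⟨by simpa using hv.2, by simp [hv.1]⟩
    · refine (h2.sdiff hW).mono fun v hv => ⟨by simpa using hv.2, by
        simp [hv.1, disjoint_right.1 hd hv.1]⟩
    · refine (h3.sdiff hW).mono fun v hv => ⟨by simpa using hv.2, by
        simp [show v ∉ F from fun h => hv.1 (Or.inl h), show v ∉ F' from fun h => hv.1 (Or.inr h)]⟩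

end Pool.Agent.P3fb035
end

-- part Pool.Agent.P.MP_3fb035_pr.QG5
section

/-! A pair of opposite cuts. -/

set_option autoImplicit false

open MeasureTheory Set
open scoped ENNReal symmDiff

namespace Pool.Agent.P3fb035

open Pool.Agent.Lib.GRW

variable {V : Type} {G : SimpleGraph V}

theorem cuts2 {d : ℕ} (hr : Reg G d) (hd : Odd d) (hc : G.Preconnected) (h2 : Two G)
    (hE : Ends G 2) :
    ∃ (W : Set V) (C₁ C₂ : Cut G) (w₀ : V), W.Finite ∧ w₀ ∈ W ∧ (W ⊆ C₁.W ∧ W ⊆ C₂.W) ∧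
      (Clo G C₁.F W ∧ Clo G C₂.F W) ∧ (C₁.N.Infinite ∧ C₂.N.Infinite) ∧
      (C₁.F.Infinite ∧ C₂.F.Infinite) ∧ (∀ v ∉ W, v ∈ C₁.F ∨ v ∈ C₂.F) ∧
      (∃ n E w, Run G univ n ∅ w₀ E w ∧ w ∈ W ∧ (∀ a ∈ W, Exh G E a) ∧ Ag G C₁.F E C₁.X ∧
        Ag G C₂.F E C₂.X) ∧
      (¬Ends G 3 → ∀ v, v ∉ C₁.Y → v ∉ C₂.Y → v ∈ C₁.N ∨ v ∈ C₂.N) := by
  obtain ⟨S, hSf, hS⟩ := ends_two hE
  obtain ⟨w₀, -⟩ := hS S subset_rfl hSf
  obtain ⟨W₀, hW0f, hW01, -, hW0c⟩ := fin_sup (G := G) (S := univ)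
    (fun a _ b _ => cn_univ hc a b) (hSf.insert w₀) (subset_univ _)
  obtain ⟨W, X, hW1, hWf, hWc, -, hXf, hx, -, hev⟩ := adjust (P := ∅) hr hd hc h2 hW0f
    ⟨w₀, hW01 (mem_insert _ _)⟩ hW0c (fun _ h => h.elim) (empty_disjoint _)
  have hw : w₀ ∈ W := hW1 (hW01 (mem_insert _ _))
  have hinf : ∀ u ∉ W, (Cp G W u).Infinite := fun u hu => (hev u hu (notMem_empty u)).2
  obtain ⟨X₁, hX1, hx1, he1, hk1⟩ := prune hx fun u hu => (hev u hu (notMem_empty u)).1
  have hX1f : X₁.Finite := hXf.subset hX1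
  obtain ⟨a, b, ha, hb, hab⟩ := hS W (((subset_insert _ _).trans hW01).trans hW1) hWf
  obtain ⟨C₁, hF1, hC1, hs1, hN1, hp1⟩ :=
    mk_cut hr hd hc h2 hWf ⟨w₀, hw⟩ hWc hX1f hx1 he1 hk1 ha (hinf a ha)
  obtain ⟨C₂, hF2, hC2, hs2, hN2, hp2⟩ :=
    mk_cut hr hd hc h2 hWf ⟨w₀, hw⟩ hWc hX1f hx1 he1 hk1 hb (hinf b hb)
  have hdis : Disjoint (Cp G W a) (Cp G W b) := cp_disj_cp ha hb hab
  refine ⟨W, C₁, C₂, w₀, hWf, hw, ⟨hs1, hs2⟩, ⟨hF1 ▸ (cp_clo W a).compl, hF2 ▸ (cp_clo W b).compl⟩,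
    ⟨hN1, hN2⟩, ⟨?_, ?_⟩, fun v hv => ?_, ?_, fun h3 v hv1 hv2 => ?_⟩
  · rw [hF1]
    exact (hinf b hb).mono (disjoint_union_right.2 ⟨hdis.symm, cp_disj hb⟩).subset_compl_right
  · rw [hF2]
    exact (hinf a ha).mono (disjoint_union_right.2 ⟨hdis, cp_disj ha⟩).subset_compl_right
  · rw [hF1, hF2]
    by_cases h : v ∈ Cp G W a
    · exact Or.inr fun h' => h'.elim (disjoint_left.1 hdis h) hv
    · exact Or.inl fun h' => h'.elim h hv
  · obtain ⟨n, E, w, hrun, hwW, hE1, hE2⟩ := ebl (U := ∅) (v := w₀) hWc (subset_univ W) hX1f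
      (disjoint_empty _) (fun _ _ _ _ => mem_univ _) (Or.inr (by rw [empty_union]; exact hx1))
      fun u hu => iff_of_false (Nat.not_odd_iff_even.2 (he1 u hu)) fun e => hu (e ▸ hw)
    rw [empty_union] at hE1
    have hA : Ag G univ E X₁ := fun p _ q hpq => ⟨fun h => hE1 h, fun h => by
      by_cases hp : p ∈ W
      · exact hE2 p (Or.inl hp) q hpq h
      · exact hE2 p (Or.inr (Or.inr (hk1 p hp q hpq h))) q hpq h⟩
    exact ⟨n, E, w, hrun, hwW, fun p hp q hpq => hE2 p (Or.inl hp) q hpq (hx1 p hp q hpq),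
      hC1 ▸ hA.mono (subset_univ _), hC2 ▸ hA.mono (subset_univ _)⟩
  · have hv : v ∉ W := fun h => hv1 (C₁.sub (hs1 h))
    by_cases h : v ∈ Cp G W a
    · exact Or.inl ((hp1 h).resolve_right fun h' => hv1 (C₁.sub h'))
    by_cases h' : v ∈ Cp G W b
    · exact Or.inr ((hp2 h').resolve_right fun h'' => hv2 (C₂.sub h''))
    exact absurd (ends_of_three hWf (cp_clo W a) (cp_clo W b) hdis (hinf a ha) (hinf b hb)
      ((hinf v hv).mono (disjoint_union_left.2
        ⟨cp_disj_cp ha hv h, cp_disj_cp hb hv h'⟩).subset_compl_left)) h3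

end Pool.Agent.P3fb035
end

-- part Pool.Agent.P.MP_3fb035_pr.QG6
section

/-! An odd pocket in a graph with one end. -/

set_option autoImplicit false

open MeasureTheory Set
open scoped ENNReal symmDiff

namespace Pool.Agent.P3fb035

open Pool.Agent.Lib.GRW

variable {V : Type} {G : SimpleGraph V}

theorem pocket0 [Infinite V] (hl : LF G) (hc : G.Preconnected) (h2 : Two G) (h1 : ¬Ends G 2)
    (o : V) : ∃ P : Set V, P.Finite ∧ o ∈ P ∧ Odd P.ncard ∧ Con G (P \ {o}) ∧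
      (∀ b, G.Adj o b → b ∈ P) ∧ Con G Pᶜ := by
  obtain ⟨N, hNf, hN1, hN2, hNc⟩ := fin_sup (h2.con o) (hl o) (fun b hb => hb.ne')
  have hoN : o ∉ N := fun h => hN2 h rfl
  obtain ⟨z, -, hz⟩ := Con.exists_adj (G := G) (S := univ) (fun a _ b _ => cn_univ hc a b)
    nontrivial_univ (mem_univ o)
  obtain ⟨W, hW1, hWf, hWc, -, hinf⟩ := absorb (P := ∅) hl hc (hNf.insert o) (insert_nonempty _ _)
    (hNc.insert (hN1 hz) hz.symm) (fun _ h => h.elim) (empty_disjoint _)
  have hoW : o ∈ W := hW1 (mem_insert _ _)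
  have hNW : N ⊆ W := (subset_insert _ _).trans hW1
  have hcc : Con G Wᶜ := fun a ha b hb => by
    by_contra h
    exact h1 (ends_of_two hWf (cp_clo W a) (hinf a ha (notMem_empty a))
      ((hinf b hb (notMem_empty b)).mono (cp_disj_cp ha hb h).subset_compl_left))
  have hpu : Con G (W \ {o}) := con_punct hWc hoW hNW hoN hNc fun b hb => hN1 hb
  by_cases hodd : Odd W.ncard
  · exact ⟨W, hWf, hoW, hodd, hpu, fun b hb => hNW (hN1 hb), hcc⟩
  obtain ⟨a, ha⟩ := hWf.exists_notMem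
  obtain ⟨v, hv, ⟨w, hw, hwv⟩, hcv⟩ := noncut hl hc h2 hWf ⟨o, hoW⟩ ha
  have hvW : v ∉ W := disjoint_left.1 (cp_disj ha) hv
  have hwo : w ≠ o := fun e => hvW (hNW (hN1 (show G.Adj o v from e ▸ hwv)))
  have hvo : v ≠ o := fun e => hvW (e ▸ hoW)
  have e1 : Cp G W a = Wᶜ := (cp_disj ha).subset_compl_right.antisymm fun b hb => hcc a ha b hb
  refine ⟨insert v W, hWf.insert v, mem_insert_of_mem _ hoW, ?_, ?_,
    fun b hb => mem_insert_of_mem _ (hNW (hN1 hb)), ?_⟩
  · rw [ncard_insert_of_notMem hvW hWf]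
    exact (Nat.not_odd_iff_even.1 hodd).add_one
  · rw [← insert_sdiff_singleton_comm hvo]
    exact hpu.insert ⟨hw, hwo⟩ hwv
  · have e2 : (insert v W)ᶜ = Cp G W a \ {v} := by
      rw [e1]; ext x; simp [and_comm]
    rw [e2]; exact hcv

end Pool.Agent.P3fb035
end

-- part Pool.Agent.P.MP_3fb035_pr.QG7
section

/-! Leaving the pocket. -/

set_option autoImplicit false

open MeasureTheory Set
open scoped ENNReal symmDiff

namespace Pool.Agent.P3fb035

open Pool.Agent.Lib.GRW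

variable {V : Type} {G : SimpleGraph V}

theorem pocket [Infinite V] {d : ℕ} (hr : Reg G d) (hd : Odd d) (hc : G.Preconnected) (h2 : Two G)
    (h1 : ¬Ends G 2) (o : V) :
    ∃ (W F : Set V) (n : ℕ) (E : Set (Sym2 V)) (w : V), Con G W ∧ Clo G F W ∧ Fᶜ.Finite ∧ o ∉ W ∧
      o ∉ F ∧ Run G {o}ᶜ n ∅ o E w ∧ w ∈ W ∧ w ∉ F ∧ ∀ a ∈ W, Exh G E a := by
  have hl := hr.lf
  obtain ⟨P, hPf, hoP, hPo, hPc, hoN, hPc'⟩ := pocket0 hl hc h2 h1 o
  obtain ⟨W₀, hW₀, hAW, hW₀P, hW₀c⟩ := fin_sup (A := {b | b ∉ P ∧ ∃ a ∈ P, G.Adj a b}) hPc'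
    ((nb_fin hl hPf).subset fun _ h => h.2) fun _ h => h.1
  have hclo : Clo G P W₀ := fun a ha b hab => by
    by_cases hb : b ∈ P
    · exact Or.inl hb
    · exact Or.inr (hAW ⟨hb, a, ha, hab⟩)
  obtain ⟨b₀, hb₀⟩ := hPf.infinite_compl.nonempty
  obtain ⟨p, q, hp, hq, -, -, hpq⟩ := exit_edge (cn_univ hc o b₀) hoP hb₀
  obtain ⟨W, X, hWW, hWf, hWc, hPW, hXf, hXe, hXP, hXo⟩ := adjust hr hd hc h2 hW₀
    ⟨q, hAW ⟨hq, p, hp, hpq⟩⟩ hW₀c hclo (disjoint_left.2 fun _ h h' => hW₀P h' h)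
  have hdis : ∀ a ∈ P, a ∉ W := fun a ha => disjoint_left.1 hPW ha
  obtain ⟨v, hv⟩ := (hr.bd (by rintro rfl; exact absurd hd (by decide)) o).2.2
  have hov : G.Adj o v := hv
  have hvP : v ∈ P := hoN v hov
  obtain ⟨J, hJf, hJ, hJe⟩ := fix hPc (show v ∈ P \ {o} from ⟨hvP, hov.ne'⟩) hXf
  have hHf : (X ∆ J).Finite := (hXf.union hJf).subset symmDiff_le_sup
  have ho : ∀ b, G.Adj o b → s(o, b) ∉ X ∆ J := fun b hb h => by
    rcases mem_symmDiff.1 h with h | h
    · exact hdis b (hoN b hb) (hXP o hoP b hb h.1)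
    · exact (hJ _ _ h.1).2 rfl
  have hWH : ∀ a ∈ W, ∀ b, G.Adj a b → s(a, b) ∈ X ∆ J := fun a ha b hb =>
    mem_symmDiff.2 (Or.inl ⟨hXe a ha b hb, fun h => hdis a (hJ _ _ h).1 ha⟩)
  have hev : ∀ u ∈ P, u ≠ v → Even (dg G (X ∆ J) u) := fun u hu huv => by
    by_cases h : u = o
    · rw [h, dg_zero ho]; exact Even.zero
    · exact hJe u ⟨hu, h⟩ huv
  have hvo : Odd (dg G (X ∆ J) v) := by
    by_contra hcon
    have hSf : (St G P P).Finite := st_fin hl hPf P
    have hk := handshake (G := G) (H := St G P P ∆ J) ((hSf.union hJf).subset symmDiff_le_sup)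
    have e : {u | Odd (dg G (St G P P ∆ J) u)} = P := by
      ext u
      constructor
      · intro h
        by_contra hu
        have h0 : dg G (St G P P ∆ J) u = 0 := dg_zero fun b _ h' => by
          rcases mem_symmDiff.1 h' with h' | h'
          · rcases (mem_st.1 h'.1).2 with h'' | h''
            exacts [hu h''.1, hu h''.2]
          · exact hu (hJ _ _ h'.1).1
        rw [mem_ofPred_eq, h0] at h
        exact absurd h (by decide)
      · intro hu
        have e1 : Even (dg G (X ∆ J) u) := by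
          by_cases h : u = v
          · rw [h]; exact Nat.not_odd_iff_even.1 hcon
          · exact hev u hu h
        have e2 : dg G (St G P P ∆ X) u = d := dg_exh hr fun z hz => by
          by_cases hzP : z ∈ P
          · exact mem_symmDiff.2 (Or.inl ⟨mem_st.2 ⟨hz, Or.inl ⟨hu, hzP⟩⟩,
              fun h => hdis z hzP (hXP u hu z hz h)⟩)
          · refine mem_symmDiff.2 (Or.inr ⟨?_, fun h => ?_⟩)
            · rw [Sym2.eq_swap]
              exact hXe z (hWW (hAW ⟨hzP, u, hu, hz⟩)) u hz.symm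
            · rcases (mem_st.1 h).2 with h | h
              exacts [hzP h.2, hzP h.1]
        have e3 := dg_symmDiff (G := G) hSf hXf u
        have e4 := dg_symmDiff (G := G) hSf hJf u
        have e5 := dg_symmDiff (G := G) hXf hJf u
        rw [e2] at e3
        rw [Nat.even_iff] at e1
        rw [Nat.odd_iff] at hd
        rw [mem_ofPred_eq, Nat.odd_iff]
        omega
    rw [e] at hk
    exact Nat.not_odd_iff_even.2 hk hPo
  have r1 : Run G {o}ᶜ 1 ∅ o {s(o, v)} v :=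
    Run.one ⟨hov, Or.inl (notMem_empty _)⟩ hov.ne'
  obtain ⟨n, E, w, r2, hw, -, -, hE⟩ := eb0 (G := G) (S := {o}ᶜ) hWc
    (fun a ha h => hdis a (by rw [mem_singleton_iff.1 h]; exact hoP) ha) hHf
    (U := ∅ ∪ {s(o, v)}) (v := v)
    (by rw [empty_union, disjoint_singleton_right]; exact ho v hov)
    (fun a b hab h h' => by
      rw [mem_singleton_iff.1 h'] at hab h
      exact ho b hab h)
    (Or.inr fun a ha b hb => Or.inr (hWH a ha b hb))
    (fun u hu => by
      refine ⟨fun h => ?_, fun h => h ▸ hvo⟩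
      by_contra huv
      refine Nat.not_odd_iff_even.2 ?_ h
      by_cases huP : u ∈ P
      · exact hev u huP huv
      · rw [dg_congr (B := X) fun b _ => ?_]
        · exact (hXo u hu huP).1
        · have : s(u, b) ∉ J := fun h' => huP (hJ _ _ h').1
          simp [mem_symmDiff, this])
  refine ⟨W, (P ∪ W)ᶜ, 1 + n, {s(o, v)} ∪ E, w, hWc, (hclo.mono hWW).compl, ?_, hdis o hoP,
    fun h => h (Or.inl hoP), r1.trans r2, hw, fun h => h (Or.inr hw),
    fun a ha b hb => Or.inr (hE a ha b hb (hWH a ha b hb))⟩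
  rw [compl_compl]
  exact hPf.union hWf

end Pool.Agent.P3fb035
end

-- part Pool.Agent.P.MP_3fb035_pr.QB2
section

/-! Runs and histories; escape probabilities. -/

set_option autoImplicit false

open MeasureTheory Set
open scoped ENNReal symmDiff

namespace Pool.Agent.P3fb035

open Pool.Agent.Lib.GRW

variable {V : Type} {G : SimpleGraph V}
variable [Countable V] [MeasurableSpace V] [DiscreteMeasurableSpace V]
  {Ω : Type} [MeasurableSpace Ω] {P : Measure Ω} {X : ℕ → Ω → V}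

variable {U : Set (Sym2 V)} {v₀ : V} {d : ℕ}

omit [Countable V] [MeasurableSpace V] [DiscreteMeasurableSpace V] in
open Classical in
theorem qb2_us (x : ℕ → V) (t : ℕ) (w : V) :
    us (Function.update x (t + 1) w) (t + 1) = insert s(x t, w) (us x t) := by
  have hx : ∀ s ≤ t, Function.update x (t + 1) w s = x s := fun s hs =>
    Function.update_of_ne (by omega) _ _
  rw [us_succ, us_congr hx, hx t le_rfl, Function.update_self]

omit [Countable V] [MeasurableSpace V] [DiscreteMeasurableSpace V] in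
theorem qb2_hist {S : Set V} {n : ℕ} {U0 E : Set (Sym2 V)} {v p : V}
    (hr : Run G S n U0 v E p) : ∀ (t : ℕ) (x : ℕ → V), U ∪ us x t = U0 → x t = v →
    ∃ y : ℕ → V, (∀ s ≤ t, y s = x s) ∧ y (t + n) = p ∧ us y (t + n) = us x t ∪ E ∧
      ∀ s, t ≤ s → s < t + n → y (s + 1) ∈ nx G (U ∪ us y s) (y s) ∧ y (s + 1) ∈ S := by
  classical
  induction hr with
  | nil U0 v =>
    intro t x _ hv
    exact ⟨x, fun _ _ => rfl, hv, (union_empty _).symm, fun s h1 h2 => absurd h2 (by omega)⟩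
  | @cons n U0 E v w v' hw hS _ ih =>
    intro t x hU hv
    have hx : ∀ s ≤ t, Function.update x (t + 1) w s = x s := fun s hs =>
      Function.update_of_ne (by omega) _ _
    have hus := qb2_us x t w
    rw [hv] at hus
    obtain ⟨y, h1, h2, h3, h4⟩ := ih (t + 1) (Function.update x (t + 1) w)
      (by rw [hus, union_insert, hU]) (Function.update_self ..)
    have e : t + (n + 1) = t + 1 + n := by omega
    have h5 : ∀ s ≤ t, y s = x s := fun s hs => (h1 s (by omega)).trans (hx s hs)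
    refine ⟨y, h5, by rw [e, h2], by rw [e, h3, hus, insert_union, union_insert],
      fun s hs hs' => ?_⟩
    rcases hs.eq_or_lt with rfl | hs
    · have h6 : y (t + 1) = w := (h1 _ le_rfl).trans (Function.update_self ..)
      rw [h6, us_congr h5, h5 t le_rfl, hU, hv]
      exact ⟨hw, hS⟩
    · exact h4 s hs (by omega)

omit [Countable V] [MeasurableSpace V] [DiscreteMeasurableSpace V] in
theorem hist_of {S : Set V} {n t : ℕ} {x : ℕ → V} {E : Set (Sym2 V)} {p : V}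
    (hr : Run G S n (U ∪ us x t) (x t) E p) :
    ∃ y : ℕ → V, (∀ s ≤ t, y s = x s) ∧ y (t + n) = p ∧ us y (t + n) = us x t ∪ E ∧
      ∀ s, t ≤ s → s < t + n → y (s + 1) ∈ nx G (U ∪ us y s) (y s) ∧ y (s + 1) ∈ S := by
  exact qb2_hist hr t x rfl rfl

omit [Countable V] [MeasurableSpace V] [DiscreteMeasurableSpace V] in
theorem run_of {S : Set V} {n t : ℕ} {y : ℕ → V}
    (hy : ∀ s, t ≤ s → s < t + n → y (s + 1) ∈ nx G (U ∪ us y s) (y s) ∧ y (s + 1) ∈ S) :
    ∃ E, Run G S n (U ∪ us y t) (y t) E (y (t + n)) ∧ us y (t + n) = us y t ∪ E := by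
  induction n generalizing t with
  | zero => exact ⟨∅, Run.nil _ _, (union_empty _).symm⟩
  | succ n ih =>
    obtain ⟨E, h1, h2⟩ := ih (t := t + 1) fun s hs hs' => hy s (by omega) (by omega)
    have e : t + (n + 1) = t + 1 + n := by omega
    have h3 := hy t le_rfl (by omega)
    rw [us_succ, union_insert] at h1
    refine ⟨insert s(y t, y (t + 1)) E, ?_, ?_⟩
    · rw [e]
      exact Run.cons h3.1 h3.2 h1
    · rw [e, h2, us_succ, insert_union, union_insert]

omit [Countable V] in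
theorem qb2_meas (K : Set V) (t n : ℕ) :
    MeasurableSet {y : ℕ → V | ∀ s, t < s → s ≤ t + n → y s ∉ K} :=
  measurableSet_setOfPred.2 (.forall fun s => measurable_const.imp (measurable_const.imp
    ((Measurable.of_discrete (f := fun v : V => v ∉ K)).comp (measurable_pi_apply s))))

theorem qb2_qn (h : IsWalk (ker G U) v₀ P X) (K : Set V) (n : ℕ) : ∀ (t : ℕ) (x : ℕ → V),
    P (cyl X t x ∩ pth X ⁻¹' {y | ∀ s, t < s → s ≤ t + n → y s ∉ K}) =
      P (cyl X t x) * qn G K n (U ∪ us x t) (x t) := by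
  classical
  induction n with
  | zero =>
    intro t x
    have : pth X ⁻¹' {y | ∀ s, t < s → s ≤ t + 0 → y s ∉ K} = univ :=
      eq_univ_of_forall fun ω s h1 h2 => absurd h1 (by omega)
    rw [this, inter_univ, qn, mul_one]
  | succ n ih =>
    intro t x
    rw [h.cyl_step t x (h.meas_pre (qb2_meas K t (n + 1))), qn, ← ENNReal.tsum_mul_left]
    refine tsum_congr fun w => ?_
    have hx : ∀ s ≤ t, Function.update x (t + 1) w s = x s := fun s hs =>
      Function.update_of_ne (by omega) _ _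
    by_cases hw : w ∈ K
    · have : cyl X (t + 1) (Function.update x (t + 1) w) ∩
          pth X ⁻¹' {y | ∀ s, t < s → s ≤ t + (n + 1) → y s ∉ K} = ∅ := by
        refine eq_empty_of_forall_notMem fun ω hω => hω.2 (t + 1) (by omega) (by omega) ?_
        have h1 : pth X ω (t + 1) = w := (hω.1 (t + 1) le_rfl).trans (Function.update_self ..)
        rwa [h1]
      rw [this, measure_empty, if_neg fun h1 => h1.2 hw, mul_zero]
    · have : cyl X (t + 1) (Function.update x (t + 1) w) ∩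
          pth X ⁻¹' {y | ∀ s, t < s → s ≤ t + (n + 1) → y s ∉ K} =
          cyl X (t + 1) (Function.update x (t + 1) w) ∩
          pth X ⁻¹' {y | ∀ s, t + 1 < s → s ≤ t + 1 + n → y s ∉ K} := by
        ext ω
        refine and_congr_right fun hω => ⟨fun h1 s h2 h3 => h1 s (by omega) (by omega),
          fun h1 s h2 h3 => ?_⟩
        rcases (Nat.succ_le_of_lt h2).eq_or_lt with rfl | h4
        · have h5 : pth X ω (t + 1) = w :=
            (hω (t + 1) le_rfl).trans (Function.update_self ..)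
          exact h5 ▸ hw
        · exact h1 s h4 (by omega)
      rw [this, ih, h.cyl_succ, cyl_congr hx, ker_congr U hx, Function.update_self, qb2_us,
        union_insert, mul_assoc, ker]
      by_cases h1 : w ∈ nx G (U ∪ us x t) (x t)
      · rw [if_pos h1, if_pos ⟨h1, hw⟩]
      · rw [if_neg h1, if_neg fun h2 => h1 h2.1, zero_mul]

theorem q_cyl (h : IsWalk (ker G U) v₀ P X) (K : Set V) (t : ℕ) (x : ℕ → V) :
    P (cyl X t x ∩ pth X ⁻¹' {y | ∀ s > t, y s ∉ K}) =
      P (cyl X t x) * Qe G K (U ∪ us x t) (x t) := by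
  have := h.1
  have h1 : cyl X t x ∩ pth X ⁻¹' {y | ∀ s > t, y s ∉ K} =
      ⋂ n : ℕ, cyl X t x ∩ pth X ⁻¹' {y | ∀ s, t < s → s ≤ t + n → y s ∉ K} := by
    ext ω
    rw [mem_iInter]
    exact ⟨fun h1 n => ⟨h1.1, fun s h2 _ => h1.2 s h2⟩,
      fun h1 => ⟨(h1 0).1, fun s h2 => (h1 s).2 s h2 (by omega)⟩⟩
  have h2 : Antitone fun n : ℕ =>
      cyl X t x ∩ pth X ⁻¹' {y | ∀ s, t < s → s ≤ t + n → y s ∉ K} :=
    fun m n hmn ω hω => ⟨hω.1, fun s h2 h3 => hω.2 s h2 (by omega)⟩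
  rw [h1, h2.measure_iInter
    (fun n => ((h.meas_cyl t x).inter (h.meas_pre (qb2_meas K t n))).nullMeasurableSet)
    ⟨0, measure_ne_top _ _⟩, Qe, ENNReal.mul_iInf fun h3 => absurd h3 (measure_ne_top _ _)]
  exact iInf_congr fun n => qb2_qn h K n t x

theorem p3 (hb : Bd G d) (h : IsWalk (ker G U) v₀ P X) {S K : Set V} {t : ℕ} {x : ℕ → V}
    {c : ℝ≥0∞} (he : Es G d S K (U ∪ us x t) (x t) c) :
    c * P (cyl X t x) ≤
      P (cyl X t x ∩ pth X ⁻¹' ({y | ∀ s > t, y s ∈ S ∨ y s ∉ K} ∩ Ev K)) := by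
  obtain ⟨n, E, v', hr, hv', hc⟩ := he
  obtain ⟨y, h1, h2, h3, h4⟩ := hist_of hr
  have h5 : cyl X (t + n) y ∩ pth X ⁻¹' {z | ∀ s > t + n, z s ∉ K} ⊆
      cyl X t x ∩ pth X ⁻¹' ({y | ∀ s > t, y s ∈ S ∨ y s ∉ K} ∩ Ev K) := by
    intro ω hω
    refine ⟨fun s hs => (hω.1 s (by omega)).trans (h1 s hs), fun s hs => ?_, t + n, hω.2⟩
    rcases le_or_gt s (t + n) with h6 | h6
    · obtain ⟨s, rfl⟩ : ∃ s', s = s' + 1 := ⟨s - 1, by omega⟩
      have h7 : pth X ω (s + 1) = y (s + 1) := hω.1 _ h6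
      exact Or.inl (h7 ▸ (h4 s (by omega) (by omega)).2)
    · exact Or.inr (hω.2 s h6)
  refine le_trans ?_ (measure_mono h5)
  rw [q_cyl h, h2, h3, ← union_assoc, ← cyl_congr h1]
  calc c * P (cyl X t y) ≤ (d : ℝ≥0∞)⁻¹ ^ n * Qe G K (U ∪ us x t ∪ E) v' * P (cyl X t y) :=
        mul_le_mul_left hc _
    _ = (d : ℝ≥0∞)⁻¹ ^ n * P (cyl X t y) * Qe G K (U ∪ us x t ∪ E) v' := mul_right_comm _ _ _
    _ ≤ _ := mul_le_mul_left (cyl_ge hb h fun s h6 h7 => (h4 s h6 h7).1) _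

theorem n3 (h : IsWalk (ker G U) v₀ P X) (d : ℕ) {K : Set V} {t : ℕ} {x : ℕ → V}
    (hp : P (cyl X t x ∩ pth X ⁻¹' Ev K) ≠ 0) :
    ∃ c ≠ 0, Es G d univ K (U ∪ us x t) (x t) c := by
  have h1 : ∃ T, P (cyl X t x ∩ pth X ⁻¹' {y | ∀ s > T, y s ∉ K}) ≠ 0 := by
    by_contra h1
    push Not at h1
    refine hp (measure_mono_null ?_ (measure_iUnion_null h1))
    rintro ω ⟨h2, T, h3⟩
    exact mem_iUnion.2 ⟨T, h2, h3⟩
  obtain ⟨T, hT⟩ := h1
  obtain ⟨n, hn⟩ : ∃ n, T < t + n := ⟨T + 1, by omega⟩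
  obtain ⟨y, h2, h3⟩ := cyl_split (Nat.le_add_right t n) hT
  obtain ⟨ω, hω⟩ := nonempty_of_measure_ne_zero h3
  have h4 : y (t + n) ∉ K := by
    have h5 : pth X ω (t + n) = y (t + n) := hω.1 _ le_rfl
    exact h5 ▸ hω.2 _ hn
  have h5 : P (cyl X (t + n) y ∩ pth X ⁻¹' {z | ∀ s > t + n, z s ∉ K}) ≠ 0 := fun h5 =>
    h3 (measure_mono_null (inter_subset_inter_right _ fun ω' hω' s hs => hω' s (hn.trans hs)) h5)
  rw [q_cyl h, mul_ne_zero_iff] at h5
  have h6 := val_of_ne_zero h h5.1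
  obtain ⟨E, h7, h8⟩ := run_of (G := G) (U := U) (S := univ) (n := n) (t := t) (y := y)
    fun s _ hs => ⟨h6.2 s hs, mem_univ _⟩
  rw [h8, us_congr h2, ← union_assoc] at h5
  rw [us_congr h2, h2 t le_rfl] at h7
  exact ⟨_, mul_ne_zero (pow_ne_zero n (ENNReal.inv_ne_zero.2 (ENNReal.natCast_ne_top d))) h5.2,
    n, E, _, h7, h4, le_rfl⟩

/-- escape from the start -/
theorem nv_of_es (hb : Bd G d) {o : V} (h : IsWalk (ker G ∅) o P X) {S K : Set V} {c : ℝ≥0∞}
    (hc : c ≠ 0) (he : Es G d S K ∅ o c) (hS : o ∉ S) (hK : o ∈ K) :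
    P (pth X ⁻¹' Nv o) ≠ 0 := by
  have h1 : Es G d S K (∅ ∪ us (fun _ => o) 0) ((fun _ : ℕ => o) 0) c := by
    rwa [us_zero, union_empty]
  have h2 := p3 hb h h1
  rw [h.cyl_start, mul_one] at h2
  refine fun h3 => hc (le_antisymm (h2.trans (le_of_eq (measure_mono_null ?_ h3))) zero_le)
  rintro ω ⟨-, h4, -⟩ m hm h5
  rcases h4 m hm with h6 | h6
  · exact hS (h5 ▸ h6)
  · exact h6 (h5 ▸ hK)

end Pool.Agent.P3fb035
end

-- part Pool.Agent.P.MP_3fb035_pr.QR2
section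

/-! The cut lemma. -/

set_option autoImplicit false

open MeasureTheory Set
open scoped ENNReal symmDiff

namespace Pool.Agent.P3fb035

open Pool.Agent.Lib.GRW

variable {V : Type} {G : SimpleGraph V}

variable {S S' K W F : Set V} {d n : ℕ} {U U' E : Set (Sym2 V)} {v p p' w : V} {c c' : ℝ≥0∞}

theorem Es.pre (h : Run G S n U v E p) (he : Es G d S K (U ∪ E) p c) :
    Es G d S K U v ((d : ℝ≥0∞)⁻¹ ^ n * c) := by
  obtain ⟨m, E', v', hr, hv, hc⟩ := he
  refine ⟨n + m, E ∪ E', v', h.trans hr, hv, ?_⟩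
  rw [pow_add, mul_assoc, ← union_assoc]
  exact mul_le_mul_right hc _

theorem Es.mono (he : Es G d S K U v c) (hS : S ⊆ S') (hc : c' ≤ c) : Es G d S' K U v c' := by
  obtain ⟨m, E', v', hr, hv, h⟩ := he
  exact ⟨m, E', v', hr.mono hS, hv, hc.trans h⟩

theorem Es.loc {G' : SimpleGraph V} (he : Es G d S K U v c) (hv : v ∈ S) (hK : Kᶜ ⊆ S)
    (hG : ∀ a ∈ S, ∀ b, G.Adj a b ↔ G'.Adj a b) (hU : Ag G S U U') : Es G' d S K U' v c := by
  obtain ⟨m, E', v', hr, hv', h⟩ := he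
  refine ⟨m, E', v', hr.loc hv hG hU, hv', ?_⟩
  rw [← Qe_loc hv' (fun a ha => hG a (hK ha)) ((hU.mono hK).union Ag.rfl)]
  exact h

theorem cut_run (hW : Con G W) (hF : Clo G F W) (h : Run G S n U p E p')
    (hx : ∀ a ∈ W, Exh G U' a) (hU : Ag G F U U') (h1 : p ∈ F → w = p) (h2 : p ∉ F → w ∈ W) :
    ∃ n' E' w', Run G (W ∪ F) n' U' w E' w' ∧ Ag G F (U ∪ E) (U' ∪ E') ∧
      (p' ∈ F → w' = p') ∧ (p' ∉ F → w' ∈ W) := by
  induction h generalizing U' w with
  | nil U v => exact ⟨0, ∅, w, Run.nil _ _, hU.union Ag.rfl, h1, h2⟩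
  | @cons n U E v z v' hz hS hr ih =>
    have hi : ∀ U'', Ag G F U U'' → Ag G F (insert s(v, z) U) (insert s(v, z) U'') :=
      fun U'' h a ha b hb => or_congr Iff.rfl (h a ha b hb)
    have hxi : ∀ a ∈ W, Exh G (insert s(v, z) U') a :=
      fun a ha => (hx a ha).mono (subset_insert _ _)
    by_cases hv : v ∈ F
    · obtain rfl := h1 hv
      have hz' : z ∈ nx G U' w := by
        rw [← nx_congr (G := G) (G' := G) (fun _ => Iff.rfl) (hU w hv)]; exact hz
      have hzF := hF w hv z hz.1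
      obtain ⟨n', E', w', r, a, b⟩ := ih hxi (hi U' hU) (fun _ => rfl) hzF.resolve_left
      refine ⟨n' + 1, _, w', Run.cons hz' hzF.symm r, ?_, b⟩
      rw [union_insert, union_insert, ← insert_union, ← insert_union]
      exact a
    · by_cases hzF : z ∈ F
      · have hvW : v ∈ W := (hF z hzF v hz.1.symm).resolve_left hv
        obtain ⟨m, E₀, e0, r0⟩ := run_exh (hW w (h2 hv) v hvW) (hx w (h2 hv)) hx
        have e1 : U' ∪ E₀ = U' := union_eq_self_of_subset_right e0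
        obtain ⟨n', E', w', r, a, b⟩ := ih hxi (hi U' hU) (fun _ => rfl) (fun h => absurd hzF h)
        have r1 : Run G (W ∪ F) (n' + 1) (U' ∪ E₀) v (insert s(v, z) E') w' := by
          rw [e1]
          exact Run.cons ⟨hz.1, Or.inr (hx v hvW)⟩ (Or.inr hzF) r
        refine ⟨_, _, w', (r0.mono subset_union_left).trans r1, ?_, b⟩
        rw [← union_assoc, e1, union_insert, union_insert, ← insert_union, ← insert_union]
        exact a
      · have hA : Ag G F (insert s(v, z) U) U' := by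
          intro a ha b hb
          rw [← hU a ha b hb, mem_insert_iff, or_iff_right]
          intro e
          rcases Sym2.eq_iff.1 e with e | e
          · exact hv (e.1 ▸ ha)
          · exact hzF (e.1 ▸ ha)
        obtain ⟨n', E', w', r, a, b⟩ := ih hx hA (fun h => absurd h hzF) (fun _ => h2 hv)
        refine ⟨n', E', w', r, ?_, b⟩
        rw [union_insert, ← insert_union]
        exact a

theorem es_cut (hW : Con G W) (hF : Clo G F W) (he : Es G d S Fᶜ U p c) (hc : c ≠ 0)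
    (hp : p ∉ F) (hx : ∀ a ∈ W, Exh G U' a) (hU : Ag G F U U') (hw : w ∈ W) :
    ∃ c' ≠ 0, Es G d (W ∪ F) Fᶜ U' w c' := by
  obtain ⟨m, E, v', hr, hv, h⟩ := he
  have hvF : v' ∈ F := not_not.1 hv
  obtain ⟨n', E', w', r, a, b, -⟩ := cut_run hW hF hr hx hU (fun h => absurd h hp) fun _ => hw
  obtain rfl := b hvF
  have e : Qe G Fᶜ (U ∪ E) w' = Qe G Fᶜ (U' ∪ E') w' :=
    Qe_loc hv (fun _ _ _ => Iff.rfl) (by rw [compl_compl]; exact a)
  refine ⟨_, ?_, n', E', w', r, hv, le_rfl⟩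
  refine mul_ne_zero (pow_ne_zero _ (ENNReal.inv_ne_zero.2 (ENNReal.natCast_ne_top d))) ?_
  rw [← e]
  intro h0
  rw [h0, mul_zero] at h
  exact hc (le_zero_iff.1 h)

theorem good_of (C : Cut G) (hW : W ⊆ C.W) (hF : Clo G C.F W) (hx : ∀ a ∈ W, Exh G U a)
    (hU : Ag G C.F U C.X) (hp : p ∉ C.F) (he : Es G d S C.Fᶜ U p c) (hc : c ≠ 0) :
    Good G d C := by
  have hX : ∀ a ∈ C.W, Exh G (U ∪ St G C.W univ) a :=
    fun a ha z hz => Or.inr ⟨a, ha, z, trivial, hz, rfl⟩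
  have hA : Ag G C.F U (U ∪ St G C.W univ) := by
    intro a ha b hb
    refine ⟨Or.inl, fun h => h.elim id ?_⟩
    rintro ⟨a', ha', b', -, -, e⟩
    have hn : a ∉ C.W := fun h => disjoint_left.1 C.dFW ha h
    rcases Sym2.eq_iff.1 e with e | e
    · exact absurd (e.1 ▸ ha') hn
    · have hb' : b ∈ C.W := e.2 ▸ ha'
      have hbW : b ∈ W := (hF a ha b hb).resolve_left fun h => disjoint_left.1 C.dFW h hb'
      rw [Sym2.eq_swap]
      exact hx b hbW a hb.symm
  have H : ∀ w ∈ C.W, ∃ c' ≠ 0, Es G d (C.W ∪ C.F) C.Fᶜ (U ∪ St G C.W univ) w c' :=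
    fun w hw => es_cut C.con C.cloF he hc hp hX hA hw
  choose! f hf0 hf using H
  obtain ⟨w₀, hw₀, hm⟩ := exists_min_image C.W f (C.fin.subset C.sub) C.ne
  refine ⟨f w₀, hf0 w₀ hw₀, fun U' w hw hx' hU' => ?_⟩
  refine ((hf w hw).mono Subset.rfl (hm w hw)).loc (Or.inl hw)
    (by rw [compl_compl]; exact subset_union_right) (fun _ _ _ => Iff.rfl) ?_
  exact (ag_of_exh hX hx').sup (hA.symm.trans (hU.trans hU'.symm))

end Pool.Agent.P3fb035
end

-- part Pool.Agent.P.MP_3fb035_pr.QK1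
section

/-! Creation of the standard state. -/

set_option autoImplicit false

open MeasureTheory Set
open scoped ENNReal symmDiff

namespace Pool.Agent.P3fb035

open Pool.Agent.Lib.GRW

variable {V : Type} {G : SimpleGraph V}
variable [Countable V] [MeasurableSpace V] [DiscreteMeasurableSpace V]
  {Ω : Type} [MeasurableSpace Ω] {P : Measure Ω} {X : ℕ → Ω → V}

variable {d : ℕ}

section
omit [Countable V] [MeasurableSpace V] [DiscreteMeasurableSpace V]

theorem ent_adp (C : Cut G) : Adp (Ent G C) := by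
  rintro t x y hxy ⟨h0, h1, h2, h3, h4⟩
  refine ⟨hxy 0 (Nat.zero_le _) ▸ h0, hxy 0 (Nat.zero_le _) ▸ h1, fun s hs => hxy s hs.le ▸ h2 s hs,
    hxy t le_rfl ▸ h3, fun s hs => ?_⟩
  rw [← hxy s hs.le, ← hxy (s + 1) hs]
  exact h4 s hs

theorem ent_near {C : Cut G} {t : ℕ} {x : ℕ → V} (h : Ent G C t x) : ∀ s ≤ t, x s ∈ C.N := by
  obtain ⟨h0, -, h2, -, h4⟩ := h
  intro s
  induction s with
  | zero => exact fun _ => h0
  | succ s ih =>
    intro hs
    rcases C.cloN _ (ih (Nat.le_of_succ_le hs)) _ (h4 s hs) with h | h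
    · exact h
    · exact absurd (C.nb _ h _ (h4 s hs).symm) (h2 s hs)

theorem ent_exists {C : Cut G} {y : ℕ → V} (h0 : y 0 ∈ C.N) (h1 : y 0 ∉ C.Y)
    (ha : ∀ s, G.Adj (y s) (y (s + 1))) {T : ℕ} (hT : y T ∈ C.Y) : ∃ t ≤ T, Ent G C t y := by
  classical
  have he : ∃ t, y t ∈ C.Y := ⟨T, hT⟩
  exact ⟨Nat.find he, Nat.find_min' he hT, h0, h1, fun s hs => Nat.find_min he hs,
    Nat.find_spec he, fun s _ => ha s⟩

theorem k0 (C : Cut G) : ∃ n₀ : ℕ, ∀ t x, Ent G C t x → ∃ n ≤ n₀, ∃ E w,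
    Run G C.Y n (us x t) (x t) E w ∧ w ∈ C.W ∧ (∀ a ∈ C.W, Exh G (us x t ∪ E) a) ∧
      Ag G C.F (us x t ∪ E) C.X := by
  have hm : ∀ v, ∃ n, v ∈ C.N → v ∈ C.Y → ∃ E w, Run G C.Y n ∅ v E w ∧ w ∈ C.W ∧
      (∀ a ∈ C.W, Exh G E a) ∧ Ag G C.F E C.X := by
    intro v
    by_cases hv : v ∈ C.N ∧ v ∈ C.Y
    · obtain ⟨n, hn⟩ := C.make v hv.1 hv.2
      exact ⟨n, fun _ _ => hn⟩
    · exact ⟨0, fun h1 h2 => absurd ⟨h1, h2⟩ hv⟩
  choose f hf using hm
  obtain ⟨n₀, hn₀⟩ := (C.fin.image f).bddAbove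
  refine ⟨n₀, fun t x h => ?_⟩
  have hN := ent_near h
  obtain ⟨-, -, h2, h3, -⟩ := h
  obtain ⟨E, w, hr, hw, hx, ha⟩ := hf (x t) (hN t le_rfl) h3
  refine ⟨f (x t), hn₀ (mem_image_of_mem f h3), E, w, hr.lift (empty_subset _) ?_, hw,
    fun a haW => (hx a haW).mono subset_union_right, fun a haF b hb => ?_⟩
  · rintro e ⟨he, s, hs, rfl⟩
    rcases (hr.edge he).2 with h | h
    · exact h2 s hs (h ▸ h3)
    · exact h2 s hs h
  · rw [← ha a haF b hb]
    refine ⟨fun h => h.resolve_left fun hu => ?_, Or.inr⟩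
    obtain ⟨s, hs, rfl⟩ := us_mem hu
    exact Set.disjoint_left.1 C.dNF (hN s hs) haF

theorem k1 (hd : d ≠ 0) {C : Cut G} (hg : Good G d C) :
    ∃ c ≠ 0, ∀ t x, Ent G C t x → Es G d (C.Y ∪ C.F) C.Fᶜ (us x t) (x t) c := by
  obtain ⟨n₀, hn₀⟩ := k0 C
  obtain ⟨c₀, hc₀, hE⟩ := hg
  have h1 : (d : ℝ≥0∞)⁻¹ ≤ 1 := ENNReal.inv_le_one.2 (by exact_mod_cast Nat.one_le_iff_ne_zero.2 hd)
  refine ⟨(d : ℝ≥0∞)⁻¹ ^ n₀ * c₀, mul_ne_zero (pow_ne_zero _
    (ENNReal.inv_ne_zero.2 (ENNReal.natCast_ne_top d))) hc₀, fun t x h => ?_⟩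
  obtain ⟨n, hn, E, w, hr, hw, hx, ha⟩ := hn₀ t x h
  have he := (hE _ w hw hx ha).mono (union_subset_union_left C.F C.sub) le_rfl
  exact (Es.pre (hr.mono subset_union_left) he).mono subset_rfl
    (mul_le_mul_left (pow_le_pow_right_of_le_one' h1 hn) _)

end

theorem b1 (hb : Bd G d) (hc : G.Preconnected) (ht : Tr G) {C : Cut G} (hg : Good G d C)
    (hN : C.N.Infinite) {o : V} (h : IsWalk (ker G ∅) o P X) : P (pth X ⁻¹' Nv o) ≠ 0 := by
  have hd : d ≠ 0 := by
    have := (Set.ncard_pos (hb o).1).2 (hb o).2.2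
    have := (hb o).2.1
    omega
  obtain ⟨c, hc0, hE⟩ := k1 hd hg
  obtain ⟨a, ha⟩ := (hN.sdiff C.fin).nonempty
  obtain ⟨w, hw⟩ := C.ne
  obtain ⟨p, q, hp, hq, -, -, hpq⟩ := exit_edge (cn_univ hc a w) ha fun h => h.2 (C.sub hw)
  have hqY : q ∈ C.Y := by
    rcases C.cloN p hp.1 q hpq with h | h
    · by_contra hn
      exact hq ⟨h, hn⟩
    · exact C.sub h
  have hpF : p ∉ C.F := Set.disjoint_left.1 C.dNF hp.1
  have hen : Ent G C 1 fun s => if s = 0 then p else q := by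
    refine ⟨hp.1, hp.2, fun s hs => ?_, hqY, fun s hs => ?_⟩
    · obtain rfl : s = 0 := by omega
      exact hp.2
    · obtain rfl : s = 0 := by omega
      exact hpq
  have he := hE 1 _ hen
  rw [us_succ, us_zero] at he
  have he' : Es G d (C.Y ∪ C.F) C.Fᶜ (∅ ∪ {s(p, q)}) q c := by
    rw [empty_union, ← insert_empty_eq]
    exact he
  have hr : Run G (C.Y ∪ C.F) 1 ∅ p {s(p, q)} q :=
    Run.one ⟨hpq, Or.inl (notMem_empty _)⟩ (Or.inl hqY)
  obtain ⟨Ω', m', P', X', h'⟩ := exists_ker hb ∅ p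
  rw [(law_tr ht h h').2]
  exact nv_of_es hb h' (mul_ne_zero (pow_ne_zero _
    (ENNReal.inv_ne_zero.2 (ENNReal.natCast_ne_top d))) hc0) (Es.pre hr he')
    (fun h => h.elim hp.2 hpF) hpF

end Pool.Agent.P3fb035
end

-- part Pool.Agent.P.MP_3fb035_pr.QA2
section

/-! Conditional Borel-Cantelli lemma. -/

set_option autoImplicit false

open MeasureTheory Set
open scoped ENNReal symmDiff

namespace Pool.Agent.P3fb035

open Pool.Agent.Lib.GRW

variable {V : Type} {G : SimpleGraph V}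
variable [Countable V] [MeasurableSpace V] [DiscreteMeasurableSpace V]
  {Ω : Type} [MeasurableSpace Ω] {P : Measure Ω} {X : ℕ → Ω → V}

variable {k : (ℕ → V) → ℕ → V → ℝ≥0∞} {v₀ : V}

theorem qa2_approx (μ : Measure (ℕ → V)) [IsFiniteMeasure μ] {H : Set (ℕ → V)}
    (hH : MeasurableSet H) {ε : ℝ≥0∞} (hε : 0 < ε) :
    ∃ (n : ℕ) (A : Set (ℕ → V)), MeasurableSet A ∧
      (∀ x y : ℕ → V, (∀ s ≤ n, x s = y s) → x ∈ A → y ∈ A) ∧ μ (A ∆ H) < ε := by
  have hm : ∀ (n : ℕ) (A : Set (ℕ → V)),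
      (∀ x y : ℕ → V, (∀ s ≤ n, x s = y s) → x ∈ A → y ∈ A) → MeasurableSet A := by
    intro n A hA
    have h1 : Adp fun t (y : ℕ → V) => n ≤ t ∧ y ∈ A := fun t x y hxy hx =>
      ⟨hx.1, hA x y (fun s hs => hxy s (hs.trans hx.1)) hx.2⟩
    simpa using h1.meas n
  have hC : IsSetRing {A : Set (ℕ → V) | ∃ n : ℕ, ∀ x y : ℕ → V,
      (∀ s ≤ n, x s = y s) → x ∈ A → y ∈ A} := by
    refine ⟨⟨0, fun _ _ _ hx => hx⟩, ?_, ?_⟩
    · rintro A B ⟨n, hA⟩ ⟨m, hB⟩
      refine ⟨max n m, fun x y hxy hx => hx.imp (hA x y fun s hs => hxy s ?_)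
        (hB x y fun s hs => hxy s ?_)⟩
      · exact hs.trans (le_max_left _ _)
      · exact hs.trans (le_max_right _ _)
    · rintro A B ⟨n, hA⟩ ⟨m, hB⟩
      refine ⟨max n m, fun x y hxy hx => ⟨hA x y (fun s hs => hxy s ?_) hx.1,
        fun hy => hx.2 (hB y x (fun s hs => (hxy s ?_).symm) hy)⟩⟩
      · exact hs.trans (le_max_left _ _)
      · exact hs.trans (le_max_right _ _)
  obtain ⟨A, ⟨n, hA⟩, h1⟩ := exists_measure_symmDiff_lt_of_generateFrom_isSetRing (μ := μ) hC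
    ⟨{univ}, countable_singleton _, singleton_subset_iff.2 ⟨0, fun _ _ _ hx => hx⟩, by simp⟩
    (le_antisymm (iSup_le fun a => by
        rintro _ ⟨B, -, rfl⟩
        refine MeasurableSpace.measurableSet_generateFrom ⟨a, fun x y hxy hx => ?_⟩
        show y a ∈ B
        rw [← hxy a le_rfl]
        exact hx)
      (MeasurableSpace.generateFrom_le fun B ⟨m, hB⟩ => hm m B hB)) hH hε
  exact ⟨n, A, hm n A hA, hA, h1⟩

theorem bc (h : IsWalk k v₀ P X) {E : ℕ → (ℕ → V) → Prop} (hE : Adp E) {H : Set (ℕ → V)}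
    (hH : MeasurableSet H) {c : ℝ≥0∞} (hc : c ≠ 0)
    (hb : ∀ t x, E t x → c * P (cyl X t x) ≤ P (cyl X t x ∩ pth X ⁻¹' H)) :
    ∀ᵐ ω ∂P, (∀ m, ∃ t ≥ m, E t (pth X ω)) → pth X ω ∈ H := by
  have := h.1
  have hX : Measurable (pth X) := h.measurable
  have hc0 : min c 1 ≠ 0 := (lt_min (pos_iff_ne_zero.2 hc) zero_lt_one).ne'
  have key : ∀ ε : ℝ≥0∞, 0 < ε →
      min c 1 * P {ω | ¬ ((∀ m, ∃ t ≥ m, E t (pth X ω)) → pth X ω ∈ H)} ≤ ε + ε := by
    intro ε hε
    obtain ⟨n, A, hAm, hA, h1⟩ := qa2_approx (P.map (pth X)) hH hε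
    rw [Measure.map_apply hX (hAm.symmDiff hH)] at h1
    have hE' : Adp fun t x => n ≤ t ∧ E t x ∧ x ∉ A := fun t x y hxy hx =>
      ⟨hx.1, hE t x y hxy hx.2.1,
        fun hy => hx.2.2 (hA y x (fun s hs => (hxy s (hs.trans hx.1)).symm) hy)⟩
    have h2 := sd h hE' hH (c := min c 1) fun t x hx =>
      (mul_le_mul_left (min_le_left c 1) _).trans (hb t x hx.2.1)
    have h3 : P (pth X ⁻¹' ({y | ∃ t, n ≤ t ∧ E t y ∧ y ∉ A} ∩ H)) ≤ P (pth X ⁻¹' (A ∆ H)) := by
      refine measure_mono (preimage_mono ?_)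
      rintro y ⟨⟨t, -, -, hy⟩, hyH⟩
      exact Or.inr ⟨hyH, hy⟩
    have h4 : {ω | ¬ ((∀ m, ∃ t ≥ m, E t (pth X ω)) → pth X ω ∈ H)} ⊆
        pth X ⁻¹' {y | ∃ t, n ≤ t ∧ E t y ∧ y ∉ A} ∪ pth X ⁻¹' (A ∆ H) := by
      intro ω hω
      obtain ⟨h5, h6⟩ := Classical.not_imp.1 hω
      by_cases h7 : pth X ω ∈ A
      · exact Or.inr (Or.inl ⟨h7, h6⟩)
      · obtain ⟨t, ht, h8⟩ := h5 n
        exact Or.inl ⟨t, ht, h8, h7⟩
    refine (mul_le_mul_right ((measure_mono h4).trans (measure_union_le _ _)) _).trans ?_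
    rw [mul_add]
    refine add_le_add (h2.trans (h3.trans h1.le)) ?_
    exact (mul_le_of_le_one_left' (min_le_right c 1)).trans h1.le
  rw [ae_iff]
  refine (mul_eq_zero.1 (le_antisymm ?_ zero_le)).resolve_left hc0
  refine le_of_forall_pos_le_add fun ε hε => ?_
  rw [zero_add, ← ENNReal.add_halves ε]
  exact key _ (ENNReal.half_pos hε.ne')

end Pool.Agent.P3fb035
end

-- part Pool.Agent.P.MP_3fb035_pr.QC
section

/-! Recurrence spreads to all vertices. -/

set_option autoImplicit false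

open MeasureTheory Set
open scoped ENNReal symmDiff

namespace Pool.Agent.P3fb035

open Pool.Agent.Lib.GRW

variable {V : Type} {G : SimpleGraph V}
variable [Countable V] [MeasurableSpace V] [DiscreteMeasurableSpace V]
  {Ω : Type} [MeasurableSpace Ω] {P : Measure Ω} {X : ℕ → Ω → V}

variable {U : Set (Sym2 V)} {v₀ : V} {d : ℕ}

omit [Countable V] [MeasurableSpace V] [DiscreteMeasurableSpace V] in
theorem exh_of_often (hl : LF G) {y : ℕ → V} (hv : ∀ t, Val G U v₀ t y) {a : V} (ha : y ∈ Of a) :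
    ∃ T, ∀ t ≥ T, Exh G (U ∪ us y t) a := by
  by_contra hn
  have h0 : ∀ t, ¬ Exh G (U ∪ us y t) a := fun T e =>
    hn ⟨T, fun t ht => e.mono (union_subset_union_right _ (us_mono y ht))⟩
  have hi : {t | y t = a}.Infinite := Set.infinite_of_forall_exists_gt fun N => by
    obtain ⟨n, h1, h2⟩ := ha (N + 1)
    exact ⟨n, h2, h1⟩
  have key : ∀ s t, y s = a → y t = a → s < t → y (s + 1) ≠ y (t + 1) := by
    intro s t hs ht hst e
    have h1 := (hv (t + 1)).2 t (Nat.lt_succ_self t)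
    rw [ht] at h1
    refine h1.2.elim (fun h2 => h2 (Or.inr ⟨s, hst, ?_⟩)) (h0 t)
    rw [hs, e]
  refine hi (Finite.of_injOn (f := fun t => y (t + 1)) (fun t ht => ?_) ?_ (hl a))
  · have h1 := (hv (t + 1)).2 t (Nat.lt_succ_self t)
    rw [show y t = a from ht] at h1
    exact h1.1
  · intro s hs t ht e
    rcases lt_trichotomy s t with h1 | h1 | h1
    · exact absurd e (key s t hs ht h1)
    · exact h1
    · exact absurd e.symm (key t s ht hs h1)

theorem qc_step (hb : Bd G d) (h : IsWalk (ker G U) v₀ P X) {a b : V} (hab : G.Adj a b) (m : ℕ) :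
    ∀ᵐ ω ∂P, (∀ m', ∃ t ≥ m', m ≤ t ∧ pth X ω t = a ∧ Exh G (U ∪ us (pth X ω) t) a) →
      pth X ω ∈ {y : ℕ → V | ∃ s ≥ m, y s = b} := by
  classical
  refine bc h (E := fun t x => m ≤ t ∧ x t = a ∧ Exh G (U ∪ us x t) a) (c := (d : ℝ≥0∞)⁻¹) ?_ ?_
    (ENNReal.inv_ne_zero.2 (ENNReal.natCast_ne_top d)) ?_
  · rintro t x y e ⟨h1, h2, h3⟩
    exact ⟨h1, e t le_rfl ▸ h2, us_congr e ▸ h3⟩
  · exact measurableSet_setOfPred.2 (.exists fun s => measurable_const.and
      ((Measurable.of_discrete (f := fun v : V => v = b)).comp (measurable_pi_apply s)))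
  · rintro t x ⟨h1, h2, h3⟩
    have e : ∀ s ≤ t, Function.update x (t + 1) b s = x s := fun s hs =>
      Function.update_of_ne (by omega) _ _
    have h4 := cyl_ge hb h (t := t) (n := 1) (y := Function.update x (t + 1) b) fun s hs hs' => by
      obtain rfl : s = t := by omega
      rw [Function.update_self, us_congr e, e s le_rfl, h2]
      exact ⟨hab, Or.inr h3⟩
    rw [pow_one, cyl_congr e] at h4
    refine h4.trans (measure_mono fun ω hω => ⟨fun s hs => ?_, t + 1, by omega, ?_⟩)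
    · rw [hω s (by omega), e s hs]
    · exact (hω (t + 1) le_rfl).trans (Function.update_self ..)

theorem often_adj (hb : Bd G d) (h : IsWalk (ker G U) v₀ P X) :
    ∀ᵐ ω ∂P, ∀ a b, G.Adj a b → pth X ω ∈ Of a → pth X ω ∈ Of b := by
  have main : ∀ (a b : V) (m : ℕ), ∀ᵐ ω ∂P, G.Adj a b →
      (∀ m', ∃ t ≥ m', m ≤ t ∧ pth X ω t = a ∧ Exh G (U ∪ us (pth X ω) t) a) →
        ∃ s ≥ m, pth X ω s = b := by
    intro a b m
    by_cases hab : G.Adj a b
    · filter_upwards [qc_step hb h hab m] with ω hω _ using hω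
    · exact Filter.Eventually.of_forall fun ω e => absurd e hab
  have main' := ae_all_iff.2 fun a => ae_all_iff.2 fun b => ae_all_iff.2 (main a b)
  filter_upwards [main', ae_val h] with ω h1 h2 a b hab ha m
  obtain ⟨T, hT⟩ := exh_of_often hb.lf h2 ha
  refine h1 a b m hab fun m' => ?_
  obtain ⟨t, ht, e⟩ := ha (m' + m + T)
  exact ⟨t, by omega, by omega, e, hT t (by omega)⟩

theorem often_cn (hb : Bd G d) (h : IsWalk (ker G U) v₀ P X) :
    ∀ᵐ ω ∂P, ∀ a b, Cn G univ a b → pth X ω ∈ Of a → pth X ω ∈ Of b := by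
  filter_upwards [often_adj hb h] with ω hω a b hab ha
  unfold Cn at hab
  induction hab with
  | refl => exact ha
  | tail _ e ih => exact hω _ _ e.1 ih

theorem ae_ev (hb : Bd G d) (hc : G.Preconnected) (h : IsWalk (ker G U) v₀ P X) (o : V) :
    ∀ᵐ ω ∂P, pth X ω ∉ Of o → ∀ K : Set V, K.Finite → pth X ω ∈ Ev K := by
  filter_upwards [often_cn hb h] with ω hω ho K hK
  exact ev_fin hK fun a _ ha => ho (hω a o (cn_univ hc a o) ha)

end Pool.Agent.P3fb035
end

-- part Pool.Agent.P.MP_3fb035_pr.QK3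
section

/-! A good cut forces transience. -/

set_option autoImplicit false

open MeasureTheory Set
open scoped ENNReal symmDiff

namespace Pool.Agent.P3fb035

open Pool.Agent.Lib.GRW

variable {V : Type} {G : SimpleGraph V}
variable [Countable V] [MeasurableSpace V] [DiscreteMeasurableSpace V]
  {Ω : Type} [MeasurableSpace Ω] {P : Measure Ω} {X : ℕ → Ω → V}

variable {d : ℕ}

theorem a0 (hb : Bd G d) (hc : G.Preconnected) (ht : Tr G) {C : Cut G} (hg : Good G d C)
    (hN : C.N.Infinite) {o : V} (h : IsWalk (ker G ∅) o P X) : P (pth X ⁻¹' Of o) = 0 := by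
  have hd : d ≠ 0 := by
    obtain ⟨h1, h2, h3⟩ := hb o
    have := (Set.ncard_pos h1).2 h3
    omega
  obtain ⟨c, hc0, hk⟩ := k1 hd hg
  have hE : Adp fun t (x : ℕ → V) => ∃ φ : G ≃g G, Ent G C t fun s => φ (x s) := by
    rintro t x y hxy ⟨φ, hφ⟩
    exact ⟨φ, ent_adp C t _ _ (fun s hs => congrArg φ (hxy s hs)) hφ⟩
  have key := bc h hE (meas_Of o).compl hc0 (by
    rintro t x ⟨φ, hφ⟩
    by_cases h0 : P (cyl X t x) = 0
    · rw [h0, mul_zero]
      exact zero_le
    have hx0 : x 0 = o := (val_of_ne_zero h h0).1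
    have h1 := p3 hb (walk_map φ h) (S := C.Y ∪ C.F) (K := C.Fᶜ) (t := t) (x := fun s => φ (x s))
      (c := c) (by rw [empty_union]; exact hk t _ hφ)
    have h2 : cyl (fun t ω => φ (X t ω)) t (fun s => φ (x s)) = cyl X t x := by
      ext ω
      exact forall₂_congr fun s _ => φ.injective.eq_iff
    rw [h2] at h1
    refine h1.trans (measure_mono (inter_subset_inter_right _ fun ω hω hO => ?_))
    have h3 : φ o ∈ C.Fᶜ := by
      have : φ (x 0) ∈ C.N := hφ.1
      rw [hx0] at this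
      exact Set.disjoint_left.1 C.dNF this
    refine Ev.not_of hω.2 h3 fun N => ?_
    obtain ⟨n, hn, e⟩ := hO N
    exact ⟨n, hn, congrArg φ e⟩)
  refine measure_eq_zero_iff_ae_notMem.2 ?_
  filter_upwards [key, often_cn hb h, ae_adj h] with ω h1 h2 h3 hO
  refine h1 (fun m => ?_) hO
  obtain ⟨a, haN, ha⟩ := hN.exists_notMem_finite (ball_fin hb.lf C.fin m)
  obtain ⟨φ, rfl⟩ := ht o a
  obtain ⟨w, hw⟩ := C.ne
  obtain ⟨T, -, hT⟩ := h2 o (φ.symm w) (cn_univ hc _ _) hO 0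
  have e0 : φ (pth X ω 0) = φ o := congrArg φ h3.1
  have hadj : ∀ s, G.Adj (φ (pth X ω s)) (φ (pth X ω (s + 1))) := fun s =>
    φ.map_adj_iff.2 (h3.2 s)
  obtain ⟨t, -, hE⟩ := ent_exists (C := C) (y := fun s => φ (pth X ω s)) (T := T)
    (e0 ▸ haN) (fun hY => ha ⟨fun s => φ (pth X ω s), 0, Nat.zero_le _, e0, hY,
      fun s _ => hadj s⟩) hadj (by
        show φ (pth X ω T) ∈ C.Y
        rw [hT, RelIso.apply_symm_apply]
        exact C.sub hw)
  refine ⟨t, ?_, φ, hE⟩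
  by_contra hlt
  exact ha ⟨fun s => φ (pth X ω s), t, (not_le.1 hlt).le, e0, hE.2.2.2.1, fun s _ => hadj s⟩

end Pool.Agent.P3fb035
end

-- part Pool.Agent.P.MP_3fb035_pr.QK2
section

/-! A good cut forces transience; escape from a pocket. -/

set_option autoImplicit false

open MeasureTheory Set
open scoped ENNReal symmDiff

namespace Pool.Agent.P3fb035

open Pool.Agent.Lib.GRW

variable {V : Type} {G : SimpleGraph V}
variable [Countable V] [MeasurableSpace V] [DiscreteMeasurableSpace V]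
  {Ω : Type} [MeasurableSpace Ω] {P : Measure Ω} {X : ℕ → Ω → V}

variable {d : ℕ}

omit [Countable V] [MeasurableSpace V] [DiscreteMeasurableSpace V] in
theorem qk2_start (hb : Bd G d) {S : Set V} {n : ℕ} {E : Set (Sym2 V)} {o w : V}
    (hr : Run G S n ∅ o E w) (h : IsWalk (ker G ∅) o P X) :
    ∃ y : ℕ → V, P (cyl X n y) ≠ 0 ∧ y n = w ∧ ∅ ∪ us y n = E := by
  have hr' : Run G S n (∅ ∪ us (fun _ => o) 0) ((fun _ : ℕ => o) 0) E w := by
    rw [us_zero, union_empty]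
    exact hr
  obtain ⟨y, h1, h2, h3, h4⟩ := hist_of hr'
  rw [zero_add] at h2 h3
  refine ⟨y, cyl_ne_zero hb h ⟨h1 0 le_rfl, fun s hs => (h4 s (Nat.zero_le s) (by omega)).1⟩, h2, ?_⟩
  rw [h3, us_zero, empty_union, empty_union]

omit [Countable V] [MeasurableSpace V] [DiscreteMeasurableSpace V] in
theorem qk2_or {C A B : Set Ω} (hC : P C ≠ 0) (h : ∀ᵐ ω ∂P, ω ∈ A ∨ ω ∈ B) :
    P (C ∩ A) ≠ 0 ∨ P (C ∩ B) ≠ 0 := by
  by_contra hc
  rw [not_or, not_not, not_not, measure_eq_zero_iff_ae_notMem, measure_eq_zero_iff_ae_notMem] at hc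
  refine hC (measure_eq_zero_iff_ae_notMem.2 ?_)
  filter_upwards [h, hc.1, hc.2] with ω h1 h2 h3 h4
  exact h1.elim (fun e => h2 ⟨h4, e⟩) fun e => h3 ⟨h4, e⟩

theorem qk2_ev (hb : Bd G d) (hc : G.Preconnected) {o : V} (h : IsWalk (ker G ∅) o P X)
    (h0 : P (pth X ⁻¹' Of o) = 0) {K : Set V} (hK : K.Finite) : ∀ᵐ ω ∂P, pth X ω ∈ Ev K := by
  filter_upwards [ae_ev hb hc h o, measure_eq_zero_iff_ae_notMem.1 h0] with ω h1 h2
  exact h1 h2 K hK

theorem b2 (hb : Bd G d) (hc : G.Preconnected) {W F : Set V} {n : ℕ} {E : Set (Sym2 V)} {o w : V}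
    (hW : Con G W) (hF : Clo G F W) (hf : Fᶜ.Finite) (hoW : o ∉ W) (hoF : o ∉ F)
    (hr : Run G {o}ᶜ n ∅ o E w) (hw : w ∈ W) (hwF : w ∉ F) (hx : ∀ a ∈ W, Exh G E a)
    (h : IsWalk (ker G ∅) o P X) (h0 : P (pth X ⁻¹' Of o) = 0) : P (pth X ⁻¹' Nv o) ≠ 0 := by
  obtain ⟨y, h1, h2, h3⟩ := qk2_start hb hr h
  have h4 : P (cyl X n y ∩ pth X ⁻¹' Ev Fᶜ) ≠ 0 :=
    (qk2_or h1 ((qk2_ev hb hc h h0 hf).mono fun _ e => Or.inl e)).elim id id
  obtain ⟨c, c0, he⟩ := n3 h d h4
  rw [h2, h3] at he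
  obtain ⟨c', c1, he'⟩ := es_cut hW hF he c0 hwF hx Ag.rfl hw
  have h5 : W ∪ F ⊆ {o}ᶜ := by
    rintro a (ha | ha) rfl
    · exact hoW ha
    · exact hoF ha
  have h6 : Es G d {o}ᶜ Fᶜ (∅ ∪ E) w c' := by
    rw [empty_union]
    exact he'.mono h5 le_rfl
  refine nv_of_es hb h (mul_ne_zero (pow_ne_zero n ?_) c1) (Es.pre hr h6) (fun e => e rfl) hoF
  exact ENNReal.inv_ne_zero.2 (ENNReal.natCast_ne_top d)

theorem t2m (hb : Bd G d) (hc : G.Preconnected) {W : Set V} {C₁ C₂ : Cut G} {o w : V} {n : ℕ}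
    {E : Set (Sym2 V)} (hW : W.Finite) (hs : W ⊆ C₁.W ∧ W ⊆ C₂.W)
    (hF : Clo G C₁.F W ∧ Clo G C₂.F W) (hv : ∀ v ∉ W, v ∈ C₁.F ∨ v ∈ C₂.F)
    (hr : Run G univ n ∅ o E w) (hw : w ∈ W) (hx : ∀ a ∈ W, Exh G E a) (h1 : Ag G C₁.F E C₁.X)
    (h2 : Ag G C₂.F E C₂.X) (h : IsWalk (ker G ∅) o P X) (h0 : P (pth X ⁻¹' Of o) = 0) :
    Good G d C₁ ∨ Good G d C₂ := by
  obtain ⟨y, k1, k2, k3⟩ := qk2_start hb hr h
  have k4 : ∀ᵐ ω ∂P, ω ∈ pth X ⁻¹' Ev C₁.Fᶜ ∨ ω ∈ pth X ⁻¹' Ev C₂.Fᶜ := by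
    filter_upwards [qk2_ev hb hc h h0 hW, ae_adj h] with ω a1 a2
    rcases stay hF.1 a2.2 a1 with a3 | a3
    · refine Or.inr (Ev.anti (Ev.union a3 a1) fun v hv' => ?_)
      by_cases e : v ∈ W
      · exact Or.inr e
      · exact Or.inl ((hv v e).resolve_right hv')
    · exact Or.inl a3
  rcases qk2_or k1 k4 with k5 | k5
  · obtain ⟨c, c0, he⟩ := n3 h d k5
    rw [k2, k3] at he
    exact Or.inl (good_of C₁ hs.1 hF.1 hx h1
      (fun e => disjoint_left.1 C₁.dFW e (hs.1 hw)) he c0)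
  · obtain ⟨c, c0, he⟩ := n3 h d k5
    rw [k2, k3] at he
    exact Or.inr (good_of C₂ hs.2 hF.2 hx h2
      (fun e => disjoint_left.1 C₂.dFW e (hs.2 hw)) he c0)

end Pool.Agent.P3fb035
end

-- part Pool.Agent.P.MP_3fb035_pr.QT0
section

/-! Entries happen at arbitrarily late times. -/

set_option autoImplicit false

open MeasureTheory Set
open scoped ENNReal symmDiff

namespace Pool.Agent.P3fb035

open Pool.Agent.Lib.GRW

variable {V : Type} {G : SimpleGraph V}

/-- the standard state of `C` is present at time `T`, after a first entry at a time `≥ m` -/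
def Cre (G : SimpleGraph V) (C : Cut G) (m T : ℕ) (x : ℕ → V) : Prop :=
  ∃ t, m ≤ t ∧ t ≤ T ∧ Ent G C t x ∧ x T ∈ C.W ∧ (∀ a ∈ C.W, Exh G (us x T) a) ∧
    Ag G C.F (us x T) C.X

theorem cre_adp (C : Cut G) (m : ℕ) : Adp (Cre G C m) := by
  rintro T x y h ⟨t, h1, h2, h3, h4, h5, h6⟩
  rw [us_congr h] at h5 h6
  exact ⟨t, h1, h2, ent_adp C t x y (fun s hs => h s (hs.trans h2)) h3, h T le_rfl ▸ h4, h5, h6⟩

theorem ent_io (hl : LF G) (hc : G.Preconnected) (ht : Tr G) {C₁ C₂ : Cut G} {w₀ : V}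
    (h1 : w₀ ∈ C₁.W) (h2 : w₀ ∈ C₂.W) (hv : ∀ v, v ∉ C₁.Y → v ∉ C₂.Y → v ∈ C₁.N ∨ v ∈ C₂.N)
    {y : ℕ → V} (ha : ∀ s, G.Adj (y s) (y (s + 1))) (hy : ∀ K : Set V, K.Finite → y ∈ Ev K)
    (m : ℕ) : ∃ t ≥ m, ∃ (C : Cut G) (φ : G ≃g G), (C = C₁ ∨ C = C₂) ∧
      Ent G C t fun s => φ (y s) := by
  have hB : (⋃ a ∈ C₁.Y ∪ C₂.Y, ⋃ s ∈ Iic m,
      {c | ∃ ψ : G ≃g G, ψ a = y s ∧ ψ w₀ = c}).Finite :=
    (C₁.fin.union C₂.fin).biUnion fun a _ => (finite_Iic m).biUnion fun s _ => fb hl hc a (y s) w₀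
  obtain ⟨T, hT⟩ := hy _ hB
  obtain ⟨φ, hφ⟩ := ht (y (T + 1)) w₀
  have hout : ∀ s ≤ m, φ (y s) ∉ C₁.Y ∪ C₂.Y := fun s hs hY =>
    hT (T + 1) (Nat.lt_succ_self T) (mem_biUnion hY (mem_biUnion (mem_Iic.2 hs)
      ⟨φ.symm, φ.symm_apply_apply _, by rw [← hφ]; exact φ.symm_apply_apply _⟩))
  have key : ∀ C : Cut G, (C = C₁ ∨ C = C₂) → φ (y 0) ∈ C.N → ∃ t ≥ m, ∃ (C : Cut G)
      (φ : G ≃g G), (C = C₁ ∨ C = C₂) ∧ Ent G C t fun s => φ (y s) := by
    intro C hC hN
    have hY : C.Y ⊆ C₁.Y ∪ C₂.Y := by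
      rcases hC with rfl | rfl
      · exact subset_union_left
      · exact subset_union_right
    have hw : w₀ ∈ C.Y := by
      rcases hC with rfl | rfl
      · exact C.sub h1
      · exact C.sub h2
    obtain ⟨t, -, hE⟩ := ent_exists (C := C) (y := fun s => φ (y s)) hN
      (fun h => hout 0 (Nat.zero_le m) (hY h)) (fun s => φ.map_adj_iff.2 (ha s)) (T := T + 1)
      (by rw [← hφ] at hw; exact hw)
    refine ⟨t, ?_, C, φ, hC, hE⟩
    by_contra hlt
    exact hout t (not_le.1 hlt).le (hY hE.2.2.2.1)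
  have h0 := hout 0 (Nat.zero_le m)
  rcases hv _ (fun h => h0 (Or.inl h)) (fun h => h0 (Or.inr h)) with h | h
  · exact key C₁ (Or.inl rfl) h
  · exact key C₂ (Or.inr rfl) h

end Pool.Agent.P3fb035
end

-- part Pool.Agent.P.MP_3fb035_pr.QT1
section

/-! Two creations give three ends. -/

set_option autoImplicit false

open MeasureTheory Set
open scoped ENNReal symmDiff

namespace Pool.Agent.P3fb035

open Pool.Agent.Lib.GRW

variable {V : Type} {G : SimpleGraph V}

theorem qt1_ev {y : ℕ → V} (ha : ∀ s, G.Adj (y s) (y (s + 1)))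
    (hy : ∀ K : Set V, K.Finite → y ∈ Ev K) (C : Cut G) (φ : G ≃g G)
    (hn : (fun s => φ (y s)) ∉ Ev C.Fᶜ) : y ∈ Ev (φ ⁻¹' C.F ∪ φ ⁻¹' C.W) := by
  have hW := hy _ ((C.fin.subset C.sub).preimage φ.injective.injOn)
  exact Ev.union ((stay (C.cloF.pre φ) ha hW).resolve_right hn) hW

theorem three (hc : G.Preconnected) {y : ℕ → V} (ha : ∀ s, G.Adj (y s) (y (s + 1)))
    (hy : ∀ K : Set V, K.Finite → y ∈ Ev K)
    (h : ∀ m, ∃ (C : Cut G) (φ : G ≃g G) (T : ℕ), C.F.Infinite ∧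
      Cre G C m T (fun s => φ (y s)) ∧ (fun s => φ (y s)) ∉ Ev C.Fᶜ) : Ends G 3 := by
  obtain ⟨C, φ, T, hi, ⟨t, -, -, -, hT, hE, -⟩, hn⟩ := h 0
  obtain ⟨T₁, h1⟩ := qt1_ev ha hy C φ hn
  obtain ⟨C', ψ, T', hi', ⟨t', m1, m2, hent, hT', -, -⟩, hn'⟩ := h (max T T₁ + 1)
  have h2 := qt1_ev ha hy C' ψ hn'
  have hWN : φ ⁻¹' C.W ⊆ ψ ⁻¹' C'.N := by
    intro a haW
    have : Nontrivial V := nontrivial_of_nontrivial hi.nontrivial
    obtain ⟨z, hz⟩ := hc.exists_adj_of_nontrivial (φ a)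
    obtain ⟨s, hs, e⟩ := us_mem (hE _ haW z hz)
    obtain rfl : y s = a := φ.injective e
    exact ent_near hent s (by have := le_max_left T T₁; omega)
  have hWW : Disjoint (ψ ⁻¹' C'.W) (φ ⁻¹' C.W) :=
    Set.disjoint_left.2 fun a h3 h4 => Set.disjoint_left.1 C'.dNW (hWN h4) h3
  have hFW : Disjoint (φ ⁻¹' C.F ∪ φ ⁻¹' C.W) (ψ ⁻¹' C'.W) := by
    refine Set.disjoint_union_left.2 ⟨Set.disjoint_left.2 fun b h3 h4 => ?_, hWW.symm⟩
    exact h1 T' (by have := le_max_right T T₁; omega)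
      (Or.inl (clo_cn (C.cloF.pre φ) (C'.con.pre ψ b h4 (y T') hT') hWW h3))
  have hFN : φ ⁻¹' C.F ⊆ ψ ⁻¹' C'.N := by
    intro a haF
    obtain ⟨w, hw, hp⟩ := to_sep hc (C.cloF.pre φ) ⟨y T, hT⟩ haF
    exact clo_cn (C'.cloN.pre ψ) (hp.symm (Or.inl haF)) hFW (hWN hw)
  refine ends_of_three (W := φ ⁻¹' C.W ∪ ψ ⁻¹' C'.W) (F := φ ⁻¹' C.F) (F' := ψ ⁻¹' C'.F)
    (((C.fin.subset C.sub).preimage φ.injective.injOn).union
      ((C'.fin.subset C'.sub).preimage ψ.injective.injOn))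
    ((C.cloF.pre φ).mono subset_union_left) ((C'.cloF.pre ψ).mono subset_union_right)
    (Set.disjoint_left.2 fun a h3 h4 => Set.disjoint_left.1 C'.dNF (hFN h3) h4)
    (hi.preimage (by rw [φ.surjective.range_eq]; exact subset_univ _))
    (hi'.preimage (by rw [ψ.surjective.range_eq]; exact subset_univ _)) fun hf => ?_
  obtain ⟨T₂, h3⟩ := Ev.union (Ev.union ⟨T₁, h1⟩ h2) (hy _ hf)
  refine h3 (T₂ + 1) (Nat.lt_succ_self _) ?_
  by_cases h4 : y (T₂ + 1) ∈ φ ⁻¹' C.F ∪ ψ ⁻¹' C'.F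
  · exact Or.inl (h4.imp Or.inl Or.inl)
  · exact Or.inr h4

end Pool.Agent.P3fb035
end

-- part Pool.Agent.P.MP_3fb035_pr.QT2
section

/-! Graphs with two ends. -/

set_option autoImplicit false

open MeasureTheory Set
open scoped ENNReal symmDiff

namespace Pool.Agent.P3fb035

open Pool.Agent.Lib.GRW

variable {V : Type} {G : SimpleGraph V}
variable [Countable V] [MeasurableSpace V] [DiscreteMeasurableSpace V]
  {Ω : Type} [MeasurableSpace Ω] {P : Measure Ω} {X : ℕ → Ω → V}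

variable {d : ℕ}

omit [Countable V] [MeasurableSpace V] [DiscreteMeasurableSpace V] [MeasurableSpace Ω] in
theorem qt2_cyl (φ : G ≃g G) (t : ℕ) (x : ℕ → V) :
    cyl (fun t ω => φ (X t ω)) t (fun s => φ (x s)) = cyl X t x := by
  ext ω
  simp only [cyl, mem_ofPred_eq, EmbeddingLike.apply_eq_iff_eq]

omit [Countable V] [MeasurableSpace V] [DiscreteMeasurableSpace V] in
theorem qt2_adp {E : ℕ → (ℕ → V) → Prop} (hE : Adp E) (φ : G ≃g G) {t : ℕ} {x y : ℕ → V}
    (h : ∀ s ≤ t, x s = y s) (hx : E t fun s => φ (x s)) : E t fun s => φ (y s) :=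
  hE t _ _ (fun s hs => congrArg φ (h s hs)) hx

theorem cre_prob (hb : Bd G d) (C : Cut G) : ∃ c ≠ 0, ∀ (o : V) (X : ℕ → Ω → V),
    IsWalk (ker G ∅) o P X → ∀ m t x, m ≤ t → Ent G C t x →
      c * P (cyl X t x) ≤ P (cyl X t x ∩ pth X ⁻¹' {y | ∃ T, Cre G C m T y}) := by
  obtain ⟨n₀, hn₀⟩ := k0 C
  refine ⟨(d : ℝ≥0∞)⁻¹ ^ n₀, pow_ne_zero _ (ENNReal.inv_ne_zero.2 (ENNReal.natCast_ne_top d)),
    fun o X h m t x hm hx => ?_⟩
  obtain ⟨n, hn, E, w, hr, hw, he, ha⟩ := hn₀ t x hx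
  rw [← empty_union (us x t)] at hr
  obtain ⟨y, hy, hyw, hyE, hys⟩ := hist_of hr
  have hd : 1 ≤ d := ((Set.ncard_pos (hb o).1).2 (hb o).2.2).trans_le (hb o).2.1
  have hd' : (d : ℝ≥0∞)⁻¹ ≤ 1 := ENNReal.inv_le_one.2 (by exact_mod_cast hd)
  have hC : Cre G C m (t + n) y := by
    refine ⟨t, hm, Nat.le_add_right _ _, ent_adp C t x y (fun s hs => (hy s hs).symm) hx, ?_⟩
    rw [hyw, hyE]
    exact ⟨hw, he, ha⟩
  calc (d : ℝ≥0∞)⁻¹ ^ n₀ * P (cyl X t x) ≤ (d : ℝ≥0∞)⁻¹ ^ n * P (cyl X t y) := by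
        rw [cyl_congr hy]
        exact mul_le_mul_left (pow_le_pow_right_of_le_one' hd' hn) _
    _ ≤ P (cyl X (t + n) y) := cyl_ge hb h fun s h1 h2 => (hys s h1 h2).1
    _ ≤ _ := by
        refine measure_mono fun ω hω => ?_
        exact ⟨fun s hs => (hω s (by omega)).trans (hy s hs),
          t + n, cre_adp C m _ y _ (fun s hs => (hω s hs).symm) hC⟩

theorem cre_null {C : Cut G} (hg : ¬Good G d C) {o : V} (h : IsWalk (ker G ∅) o P X) {m T : ℕ}
    {x : ℕ → V} (hx : Cre G C m T x) : P (cyl X T x ∩ pth X ⁻¹' Ev C.Fᶜ) = 0 := by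
  by_contra hp
  obtain ⟨c, hc, he⟩ := n3 h d hp
  obtain ⟨t, -, -, -, hw, hx, ha⟩ := hx
  rw [empty_union] at he
  exact hg (good_of C subset_rfl C.cloF hx ha (disjoint_right.1 C.dFW hw) he hc)

theorem t3 (hb : Bd G d) (hc : G.Preconnected) (ht : Tr G) (h3 : ¬Ends G 3) {C₁ C₂ : Cut G}
    {w₀ : V} (h1 : w₀ ∈ C₁.W) (h2 : w₀ ∈ C₂.W) (hF : C₁.F.Infinite ∧ C₂.F.Infinite)
    (hv : ∀ v, v ∉ C₁.Y → v ∉ C₂.Y → v ∈ C₁.N ∨ v ∈ C₂.N) {o : V}
    (h : IsWalk (ker G ∅) o P X) (h0 : P (pth X ⁻¹' Of o) ≠ 1) : Good G d C₁ ∨ Good G d C₂ := by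
  by_contra hg
  rw [not_or] at hg
  have := h.1
  obtain ⟨c₁, hc₁, p₁⟩ := cre_prob (P := P) hb C₁
  obtain ⟨c₂, hc₂, p₂⟩ := cre_prob (P := P) hb C₂
  let D : ℕ → Cut G × (G ≃g G) → ℕ → (ℕ → V) → Prop := fun m i T y =>
    (i.1 = C₁ ∨ i.1 = C₂) ∧ Cre G i.1 m T fun s => i.2 (y s)
  have hD : ∀ m i, Adp (D m i) := fun m i t x y hxy hx =>
    ⟨hx.1, qt2_adp (cre_adp i.1 m) i.2 hxy hx.2⟩
  have a1 : ∀ m, ∀ᵐ ω ∂P, (∀ m', ∃ t ≥ m', m ≤ t ∧ ∃ (C : Cut G) (φ : G ≃g G),
      (C = C₁ ∨ C = C₂) ∧ Ent G C t fun s => φ (pth X ω s)) →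
      pth X ω ∈ {y | ∃ T, ∃ i, D m i T y} := by
    intro m
    refine bc h (E := fun t y => m ≤ t ∧ ∃ (C : Cut G) (φ : G ≃g G),
      (C = C₁ ∨ C = C₂) ∧ Ent G C t fun s => φ (y s)) ?_ ?_ (c := min c₁ c₂) ?_ ?_
    · rintro t x y hxy ⟨hm, C, φ, hC, hx⟩
      exact ⟨hm, C, φ, hC, qt2_adp (ent_adp C) φ hxy hx⟩
    · rw [ofPred_exists]
      exact MeasurableSet.iUnion fun T => Adp.meas (E := fun T y => ∃ i, D m i T y)
        (fun t x y hxy hx => hx.imp fun i hi => hD m i t x y hxy hi) T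
    · exact (lt_min (pos_iff_ne_zero.2 hc₁) (pos_iff_ne_zero.2 hc₂)).ne'
    · rintro t x ⟨hm, C, φ, hC, hx⟩
      have key : min c₁ c₂ * P (cyl (fun t ω => φ (X t ω)) t fun s => φ (x s)) ≤
          P (cyl (fun t ω => φ (X t ω)) t (fun s => φ (x s)) ∩
            pth (fun t ω => φ (X t ω)) ⁻¹' {y | ∃ T, Cre G C m T y}) := by
        rcases hC with rfl | rfl
        · exact (mul_le_mul_left (min_le_left _ _) _).trans (p₁ _ _ (walk_map φ h) m t _ hm hx)
        · exact (mul_le_mul_left (min_le_right _ _) _).trans (p₂ _ _ (walk_map φ h) m t _ hm hx)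
      rw [qt2_cyl] at key
      refine key.trans (measure_mono (inter_subset_inter_right _ ?_))
      rintro ω ⟨T, hT⟩
      exact ⟨T, (C, φ), hC, hT⟩
  have a2 : ∀ m, ∀ᵐ ω ∂P, ∀ T, (∃ i, D m i T (pth X ω)) → ∃ i, D m i T (pth X ω) ∧
      pth X ω ∉ {y : ℕ → V | (fun s => i.2 (y s)) ∈ Ev i.1.Fᶜ} := by
    intro m
    refine ae_pick (hD m) (B := fun i => {y : ℕ → V | (fun s => i.2 (y s)) ∈ Ev i.1.Fᶜ}) ?_
    rintro ⟨C, φ⟩ T x ⟨hC, hx⟩
    have hn : ¬Good G d C := by
      rcases hC with rfl | rfl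
      · exact hg.1
      · exact hg.2
    have key := cre_null hn (walk_map φ h) hx
    rw [qt2_cyl] at key
    exact key
  refine h0 ((prob_compl_eq_zero_iff (h.meas_pre (meas_Of o))).1 ?_)
  have a3 : ∀ᵐ ω ∂P, pth X ω ∈ Of o := by
    filter_upwards [ae_all_iff.2 a1, ae_all_iff.2 a2, ae_ev hb hc h o, ae_adj h] with ω b1 b2 b3 b4
    by_contra hn
    refine h3 (three hc b4.2 (b3 hn) fun m => ?_)
    obtain ⟨T, hT⟩ := b1 m fun m' => by
      obtain ⟨t, ht', h'⟩ := ent_io hb.lf hc ht h1 h2 hv b4.2 (b3 hn) (max m m')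
      exact ⟨t, le_of_max_le_right ht', le_of_max_le_left ht', h'⟩
    obtain ⟨⟨C, φ⟩, ⟨hC, hx⟩, hB⟩ := b2 m T hT
    refine ⟨C, φ, T, ?_, hx, hB⟩
    rcases hC with rfl | rfl
    · exact hF.1
    · exact hF.2
  exact a3

end Pool.Agent.P3fb035
end

-- part Pool.Agent.P.MP_3fb035_pr.QV0
section

/-! The run induced on a branch. -/

set_option autoImplicit false

open MeasureTheory Set
open scoped ENNReal symmDiff

namespace Pool.Agent.P3fb035

open Pool.Agent.Lib.GRW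

variable {V : Type} {G : SimpleGraph V}
variable [Countable V] [MeasurableSpace V] [DiscreteMeasurableSpace V]
  {Ω : Type} [MeasurableSpace Ω] {P : Measure Ω} {X : ℕ → Ω → V}

variable {d : ℕ} {β : Set V} {v : V}

omit [Countable V] [MeasurableSpace V] [DiscreteMeasurableSpace V] in
theorem qv0_ag {U U' : Set (Sym2 V)} (hU : Ag G β U U') {a b : V} (h : G.Adj a b)
    (hab : a ∈ β ∨ b ∈ β) : s(a, b) ∈ U ↔ s(a, b) ∈ U' := by
  rcases hab with ha | hb
  · exact hU a ha b h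
  · rw [Sym2.eq_swap]; exact hU b hb a h.symm

omit [Countable V] [MeasurableSpace V] [DiscreteMeasurableSpace V] in
theorem qv0_ins {U U' : Set (Sym2 V)} (hU : Ag G β U U') {q w : V} (hq : q ∉ β) (hw : w ∉ β) :
    Ag G β (insert s(q, w) U) U' := fun a ha b hb => by
  rw [← hU a ha b hb, mem_insert_iff]
  refine or_iff_right fun e => ?_
  rcases Sym2.eq_iff.1 e with ⟨rfl, -⟩ | ⟨rfl, -⟩
  · exact hq ha
  · exact hw ha

omit [Countable V] [MeasurableSpace V] [DiscreteMeasurableSpace V] in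
theorem ind_run (hβ : Clo G β {v}) (hv : v ∉ β) {n : ℕ} {U U' E : Set (Sym2 V)} {q q' p : V}
    (h : Run G univ n U q E p) (hU : Ag G β U U') (h1 : q ∈ β → q' = q) (h2 : q ∉ β → q' = v) :
    ∃ n' E' p', Run (rs G β) univ n' U' q' E' p' ∧ Ag G β (U ∪ E) (U' ∪ E') ∧
      (p ∈ β → p' = p) ∧ (p ∉ β → p' = v) := by
  induction h generalizing U' q' with
  | nil U q => exact ⟨0, ∅, q', Run.nil _ _, hU.union Ag.rfl, h1, h2⟩
  | @cons n U E q w p hw _ _ ih =>
    by_cases hc : q ∈ β ∨ w ∈ β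
    · have e : q' = q := by
        by_cases hq : q ∈ β
        · exact h1 hq
        · rw [h2 hq]
          exact ((hβ w (hc.resolve_left hq) q hw.1.symm).resolve_left hq).symm
      subst e
      have hw' : w ∈ nx (rs G β) U' q' := ⟨⟨hw.1, hc⟩, hw.2.imp
        (fun h3 h4 => h3 ((qv0_ag hU hw.1 hc).2 h4))
        fun h3 z hz => (qv0_ag hU hz.1 hz.2).1 (h3 z hz.1)⟩
      obtain ⟨n', E', p', r, a, b1, b2⟩ := ih (U' := insert s(q', w) U') (q' := w)
        (fun a ha b hb => or_congr Iff.rfl (hU a ha b hb)) (fun _ => rfl)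
        (fun h3 => (hβ q' (hc.resolve_right h3) w hw.1).resolve_left h3)
      refine ⟨n' + 1, insert s(q', w) E', p', Run.cons hw' trivial r, ?_, b1, b2⟩
      rwa [union_insert, union_insert, ← insert_union, ← insert_union]
    · rw [not_or] at hc
      obtain ⟨n', E', p', r, a, b1, b2⟩ := ih (U' := U') (q' := q') (qv0_ins hU hc.1 hc.2)
        (fun h3 => absurd h3 hc.2) (fun _ => h2 hc.1)
      refine ⟨n', E', p', r, ?_, b1, b2⟩
      rwa [union_insert, ← insert_union]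

omit [Countable V] [MeasurableSpace V] [DiscreteMeasurableSpace V] in
/-- a walker outside `β` that never gets the chance to take the next step of the induced run -/
theorem no_chance (hl : LF G) (hβ : Clo G β {v}) (hv : v ∉ β) {U U' : Set (Sym2 V)} {v₀ w : V}
    {y : ℕ → V} (hy : ∀ t, Val G U v₀ t y) {t : ℕ} (hU : Ag G β (U ∪ us y t) U') (ht : y t ∉ β)
    (hw : w ∈ nx (rs G β) U' v)
    (hn : ∀ T ≥ t, (∀ s, t ≤ s → s ≤ T → y s ∉ β) → y T = v → w ∉ nx G (U ∪ us y T) v) :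
    y ∉ Of v := by
  have hwβ : w ∈ β := hw.1.2.resolve_left hv
  have key : ∀ T, t ≤ T → (∀ s, t ≤ s → s ≤ T → y s ∉ β) ∧ Ag G β (U ∪ us y T) U' := by
    intro T hT
    induction T, hT using Nat.le_induction with
    | base => exact ⟨fun s h1 h2 => by rwa [le_antisymm h2 h1], hU⟩
    | succ T hT ih =>
      obtain ⟨i1, i2⟩ := ih
      have hT' : y T ∉ β := i1 T hT le_rfl
      have st := (hy (T + 1)).2 T (Nat.lt_succ_self T)
      have hnew : y (T + 1) ∉ β := fun hb => by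
        have e : y T = v := (hβ _ hb _ st.1.symm).resolve_left hT'
        have h3 := hn T hT i1 e
        rw [e] at st
        have h4 : ¬ (s(v, w) ∉ U ∪ us y T ∨ Exh G (U ∪ us y T) v) := fun h => h3 ⟨hw.1.1, h⟩
        rw [not_or, not_not] at h4
        have h5 : Exh (rs G β) U' v :=
          hw.2.resolve_left fun h => h ((qv0_ag i2 hw.1.1 (Or.inr hwβ)).1 h4.1)
        exact st.2.elim
          (fun h => h ((qv0_ag i2 st.1 (Or.inr hb)).2 (h5 _ ⟨st.1, Or.inr hb⟩))) h4.2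
      refine ⟨fun s h1 h2 => ?_, ?_⟩
      · rcases Nat.le_succ_iff.1 h2 with h | rfl
        · exact i1 s h1 h
        · exact hnew
      · rw [us_succ, union_insert]
        exact qv0_ins i2 hT' hnew
  intro ho
  obtain ⟨T₀, hT₀⟩ := exh_of_often hl hy ho
  obtain ⟨n, hn1, hn2⟩ := ho (max T₀ t)
  have h1 : t ≤ n := (le_max_right _ _).trans hn1
  exact hn n h1 (key n h1).1 hn2 ⟨hw.1.1, Or.inr (hT₀ n ((le_max_left _ _).trans hn1))⟩

end Pool.Agent.P3fb035
end

-- part Pool.Agent.P.MP_3fb035_pr.QV1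
section

/-! The walk induced on a branch. -/

set_option autoImplicit false

open MeasureTheory Set
open scoped ENNReal symmDiff

namespace Pool.Agent.P3fb035

open Pool.Agent.Lib.GRW

variable {V : Type} {G : SimpleGraph V}
variable [Countable V] [MeasurableSpace V] [DiscreteMeasurableSpace V]
  {Ω : Type} [MeasurableSpace Ω] {P : Measure Ω} {X : ℕ → Ω → V}

variable {d : ℕ} {β : Set V} {v : V}

omit [Countable V] [MeasurableSpace V] [DiscreteMeasurableSpace V] in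
theorem qv1_inv_le (hb : Bd G d) (v : V) : (d : ℝ≥0∞)⁻¹ ≤ 1 := by
  obtain ⟨h1, h2, h3⟩ := hb v
  have h4 : 1 ≤ d := le_trans ((Set.ncard_pos h1).2 h3) h2
  exact ENNReal.inv_le_one.2 (by exact_mod_cast h4)

omit [Countable V] [MeasurableSpace V] [DiscreteMeasurableSpace V] in
theorem qv1_ag {U U' : Set (Sym2 V)} {t T : ℕ} {x y : ℕ → V} (hU : Ag G β (U ∪ us x t) U')
    (htT : t ≤ T) (hyx : ∀ s ≤ t, y s = x s) (hout : ∀ s, t ≤ s → s ≤ T → y s ∉ β) :
    Ag G β (U ∪ us y T) U' := by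
  intro a ha b hab
  rw [← hU a ha b hab, ← us_congr hyx]
  refine or_congr Iff.rfl ⟨?_, fun h => us_mono y htT h⟩
  rintro ⟨s, hs, he⟩
  by_cases hst : s < t
  · exact ⟨s, hst, he⟩
  · exfalso
    have h1 := hout s (not_lt.1 hst) hs.le
    have h2 := hout (s + 1) (Nat.le_succ_of_le (not_lt.1 hst)) hs
    rcases Sym2.eq_iff.1 he with ⟨h3, -⟩ | ⟨-, h3⟩
    · exact h1 (h3 ▸ ha)
    · exact h2 (h3 ▸ ha)

theorem cvl (hb : Bd G d) (hβ : Clo G β {v}) (hv : v ∉ β) {U : Set (Sym2 V)} {v₀ : V}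
    (h : IsWalk (ker G U) v₀ P X) {n : ℕ} {U' E' : Set (Sym2 V)} {q' p : V}
    (hr : Run (rs G β) univ n U' q' E' p) (hp : p ∈ β) (t : ℕ) (x : ℕ → V)
    (hU : Ag G β (U ∪ us x t) U') (h1 : x t ∈ β → q' = x t) (h2 : x t ∉ β → q' = v) :
    (d : ℝ≥0∞)⁻¹ ^ n * Qe (rs G β) βᶜ (U' ∪ E') p * P (cyl X t x) ≤
      P (cyl X t x ∩ pth X ⁻¹' (Of v)ᶜ) := by
  classical
  have hP : IsProbabilityMeasure P := h.1
  have hH : MeasurableSet (Of v)ᶜ := (meas_Of v).compl
  induction hr generalizing t x with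
  | nil U' q' =>
    have hx : x t ∈ β := by
      by_contra hx
      exact hv (h2 hx ▸ hp)
    obtain rfl := h1 hx
    have e1 : Qe G βᶜ (U ∪ us x t) (x t) = Qe (rs G β) βᶜ U' (x t) :=
      Qe_loc (not_not.2 hx)
        (fun a ha b => ⟨fun hab => ⟨hab, Or.inl (not_not.1 ha)⟩, fun hab => hab.1⟩)
        (by rwa [compl_compl])
    rw [pow_zero, one_mul, union_empty, ← e1, mul_comm, ← q_cyl h βᶜ t x]
    refine measure_mono (inter_subset_inter_right _ fun ω hω hO => ?_)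
    obtain ⟨m, hm, hmv⟩ := hO (t + 1)
    exact hω m hm (hmv ▸ hv)
  | @cons n U' E' q' w p hw _ hr ih =>
    have eU : U' ∪ insert s(q', w) E' = insert s(q', w) U' ∪ E' := by
      rw [union_insert, insert_union]
    set c : ℝ≥0∞ := (d : ℝ≥0∞)⁻¹ ^ (n + 1) * Qe (rs G β) βᶜ (U' ∪ insert s(q', w) E') p with hc
    have step : ∀ (T : ℕ) (y : ℕ → V), Ag G β (U ∪ us y T) U' → y T = q' →
        w ∈ nx G (U ∪ us y T) (y T) → c * P (cyl X T y) ≤ P (cyl X T y ∩ pth X ⁻¹' (Of v)ᶜ) := by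
      intro T y hA hy hwy
      set y' := Function.update y (T + 1) w with hy'
      have hyy : ∀ s ≤ T, y' s = y s := fun s hs =>
        Function.update_of_ne (by omega) _ _
      have hyw : y' (T + 1) = w := Function.update_self _ _ _
      have hA' : Ag G β (U ∪ us y' (T + 1)) (insert s(q', w) U') := by
        rw [us_succ, hyw, hyy T le_rfl, hy, us_congr hyy, union_insert]
        intro a ha b hab
        exact or_congr Iff.rfl (hA a ha b hab)
      have h3 : y' (T + 1) ∉ β → w = v := by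
        rw [hyw]
        intro hwβ
        have hq : q' ∈ β := hw.1.2.resolve_right hwβ
        exact (hβ q' hq w hw.1.1).resolve_left hwβ
      have i1 := ih hp (T + 1) y' hA' (fun _ => hyw.symm) h3
      have i2 : (d : ℝ≥0∞)⁻¹ ^ 1 * P (cyl X T y') ≤ P (cyl X (T + 1) y') := by
        refine cyl_ge hb h fun s hs hs' => ?_
        obtain rfl : s = T := by omega
        rw [hyw, hyy s le_rfl, us_congr hyy]
        exact hwy
      rw [cyl_congr hyy, pow_one] at i2
      have i3 : cyl X (T + 1) y' ⊆ cyl X T y := fun ω hω s hs =>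
        (hω s (Nat.le_succ_of_le hs)).trans (hyy s hs)
      calc c * P (cyl X T y)
          = (d : ℝ≥0∞)⁻¹ ^ n * Qe (rs G β) βᶜ (insert s(q', w) U' ∪ E') p *
              ((d : ℝ≥0∞)⁻¹ * P (cyl X T y)) := by
            rw [hc, eU, pow_succ]; ring
        _ ≤ (d : ℝ≥0∞)⁻¹ ^ n * Qe (rs G β) βᶜ (insert s(q', w) U' ∪ E') p *
              P (cyl X (T + 1) y') := by gcongr
        _ ≤ _ := i1
        _ ≤ _ := measure_mono (inter_subset_inter_left _ i3)
    by_cases hx : x t ∈ β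
    · refine step t x hU (h1 hx).symm ?_
      rw [nx_congr (G' := rs G β) (U' := U') (fun b => ⟨fun hab => ⟨hab, Or.inl hx⟩, fun hab => hab.1⟩)
        (hU _ hx), ← h1 hx]
      exact hw
    · obtain rfl := h2 hx
      let E : ℕ → (ℕ → V) → Prop := fun T y => t ≤ T ∧ (∀ s ≤ t, y s = x s) ∧
        (∀ s, t ≤ s → s ≤ T → y s ∉ β) ∧ y T = q' ∧ w ∈ nx G (U ∪ us y T) q'
      have hE : Adp E := by
        rintro T y z hyz ⟨a1, a2, a3, a4, a5⟩
        refine ⟨a1, fun s hs => (hyz s (hs.trans a1)).symm.trans (a2 s hs),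
          fun s hs hs' => hyz s hs' ▸ a3 s hs hs', (hyz T le_rfl).symm.trans a4, ?_⟩
        rwa [← us_congr hyz]
      have i1 := sd h hE hH (c := c) fun T y hy =>
        step T y (qv1_ag hU hy.1 hy.2.1 hy.2.2.1) hy.2.2.2.1 (by rw [hy.2.2.2.1]; exact hy.2.2.2.2)
      set A : Set Ω := pth X ⁻¹' {y | ∃ T, E T y} with hA
      have hAm : MeasurableSet A := by
        refine h.meas_pre ?_
        rw [ofPred_exists]
        exact MeasurableSet.iUnion fun T => hE.meas T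
      have hAc : A ⊆ cyl X t x := by
        rintro ω ⟨T, hT⟩
        exact hT.2.1
      have hc1 : c ≤ 1 :=
        mul_le_one' (pow_le_one' (qv1_inv_le hb q') _) Qe_le_one
      have i2 : P (cyl X t x \ A) ≤ P ((cyl X t x ∩ pth X ⁻¹' (Of q')ᶜ) \ A) := by
        refine measure_mono_ae ?_
        filter_upwards [ae_val h] with ω hω hm
        refine ⟨⟨hm.1, ?_⟩, hm.2⟩
        have hyx : ∀ s ≤ t, pth X ω s = x s := hm.1
        refine no_chance hb.lf hβ hv hω (t := t) (U' := U') (w := w) ?_ ?_ hw ?_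
        · rwa [us_congr hyx]
        · rwa [hyx t le_rfl]
        · exact fun T hT a3 a4 a5 => hm.2 ⟨T, hT, hyx, a3, a4, a5⟩
      calc c * P (cyl X t x) = c * P (cyl X t x ∩ A) + c * P (cyl X t x \ A) := by
            rw [← mul_add, measure_inter_add_sdiff _ hAm]
        _ ≤ P ((cyl X t x ∩ pth X ⁻¹' (Of q')ᶜ) ∩ A) +
              P ((cyl X t x ∩ pth X ⁻¹' (Of q')ᶜ) \ A) := by
            refine add_le_add ?_ ((mul_le_of_le_one_left' hc1).trans i2)
            rw [inter_eq_right.2 hAc]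
            refine i1.trans (measure_mono fun ω hω => ⟨⟨hAc hω.1, hω.2⟩, hω.1⟩)
        _ = _ := measure_inter_add_sdiff _ hAm

end Pool.Agent.P3fb035
end

-- part Pool.Agent.P.MP_3fb035_pr.QV2
section

/-! Bad branches. -/

set_option autoImplicit false

open MeasureTheory Set
open scoped ENNReal symmDiff

namespace Pool.Agent.P3fb035

open Pool.Agent.Lib.GRW

variable {V : Type} {G : SimpleGraph V}
variable [Countable V] [MeasurableSpace V] [DiscreteMeasurableSpace V]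
  {Ω : Type} [MeasurableSpace Ω] {P : Measure Ω} {X : ℕ → Ω → V}

variable {d : ℕ} {β N : Set V} {v : V}

theorem qv2_bad {o : V} (h : IsWalk (ker G ∅) o P X) (hβ : Clo G β {o}) (ho : o ∉ β)
    (h0 : P (pth X ⁻¹' Ev βᶜ) ≠ 0) : Bad G β o := by
  have := h.1
  have h1 : P (cyl X 0 (fun _ => o) ∩ pth X ⁻¹' Ev βᶜ) ≠ 0 := by
    rwa [inter_comm, measure_inter_conull ((prob_compl_eq_zero_iff (h.meas_cyl _ _)).2 h.cyl_start)]
  obtain ⟨c, hc, n, E, p, hr, hp, hq⟩ := n3 h 1 h1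
  rw [us_zero, empty_union] at hr hq
  obtain ⟨n', E', p', hr', hA, h2, -⟩ := ind_run hβ ho hr Ag.rfl (fun _ => rfl) (fun _ => rfl)
  obtain rfl := h2 (not_not.1 hp)
  refine ⟨n', E', p', hr', not_not.1 hp, fun h3 => hc (le_antisymm ?_ zero_le)⟩
  rw [Qe_loc (G' := rs G β) (U' := E') hp
    (fun a ha b => ⟨fun h4 => ⟨h4, Or.inl (not_not.1 ha)⟩, fun h4 => h4.1⟩)
    (by simpa using hA), h3, mul_zero] at hq
  exact hq

theorem bad_of {o : V} (h : IsWalk (ker G ∅) o P X) (h0 : P (pth X ⁻¹' Of o) ≠ 1) :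
    ∃ a, a ≠ o ∧ Bad G (Cp G {o} a) o := by
  have := h.1
  by_contra hn
  refine h0 ((prob_compl_eq_zero_iff (h.meas_pre (meas_Of o))).1 ?_)
  have h1 : ∀ᵐ ω ∂P, ∀ a, a ≠ o → pth X ω ∉ Ev (Cp G {o} a)ᶜ := by
    refine ae_all_iff.2 fun a => ?_
    by_cases ha : a = o
    · exact .of_forall fun _ h2 => (h2 ha).elim
    · have h2 : P (pth X ⁻¹' Ev (Cp G {o} a)ᶜ) = 0 := by
        by_contra h3
        exact hn ⟨a, ha, qv2_bad h (cp_clo _ _)
          (fun h4 => disjoint_left.1 (cp_disj (W := {o}) ha) h4 rfl) h3⟩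
      exact (measure_eq_zero_iff_ae_notMem.1 h2).mono fun _ h3 _ => h3
  refine measure_eq_zero_iff_ae_notMem.2 ?_
  filter_upwards [h1, ae_adj h] with ω h2 h3 h4
  have h5 : ¬∀ N, ∃ n ≥ N, pth X ω n = o := h4
  push Not at h5
  obtain ⟨T, hT⟩ := h5
  have h6 : ∀ s, T ≤ s → pth X ω s ∈ Cp G {o} (pth X ω T) := fun s hs => by
    induction s, hs using Nat.le_induction with
    | base => exact mem_cp _ _
    | succ s hs ih => exact Cn.trans ih (Cn.single (h3.2 s) (hT _ (by omega)))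
  exact h2 _ (hT T le_rfl) ⟨T, fun s hs h7 => h7 (h6 s hs.le)⟩

theorem a0cv (hb : Bd G d) (hc : G.Preconnected) (ht : Tr G) (hβ : Clo G β {v}) (hv : v ∉ β)
    (hi : βᶜ.Infinite) (hB : Bad G β v) {o : V} (h : IsWalk (ker G ∅) o P X) :
    P (pth X ⁻¹' Of o) = 0 := by
  classical
  obtain ⟨n, E, p, hr, hp, hq⟩ := hB
  have hA : Adp fun t (x : ℕ → V) => ∃ φ : G ≃g G, φ (x t) = v ∧ ∀ s ≤ t, φ (x s) ∉ β := by
    rintro t x y hxy ⟨φ, h1, h2⟩
    exact ⟨φ, hxy t le_rfl ▸ h1, fun s hs => hxy s hs ▸ h2 s hs⟩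
  have hc0 : (d : ℝ≥0∞)⁻¹ ^ n * Qe (rs G β) βᶜ (∅ ∪ E) p ≠ 0 :=
    mul_ne_zero (pow_ne_zero _ (ENNReal.inv_ne_zero.2 (ENNReal.natCast_ne_top d)))
      (by rwa [empty_union])
  have ho : ∀ᵐ ω ∂P, ∀ φ : G ≃g G, pth X ω ∈ Of o → ∀ M, ∃ t ≥ M, φ (pth X ω t) = v := by
    filter_upwards [often_cn hb h] with ω h1 φ h2 M
    obtain ⟨t, h3, h4⟩ := h1 o (φ.symm v) (cn_univ hc _ _) h2 M
    exact ⟨t, h3, by rw [h4, RelIso.apply_symm_apply]⟩
  have h1 := bc h hA (meas_Of o).compl hc0 (by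
    rintro t x ⟨φ, h1, h2⟩
    have h3 := cvl hb hβ hv (walk_map φ h) hr hp t (fun s => φ (x s))
      (fun a ha b _ => iff_of_false (fun h4 => by
        obtain ⟨s, hs, h5⟩ := us_mem (h4.resolve_left (notMem_empty _))
        exact h2 s hs (h5.symm ▸ ha)) (notMem_empty _)) (fun _ => h1.symm) (fun _ => rfl)
    have h4 : cyl (fun t ω => φ (X t ω)) t (fun s => φ (x s)) = cyl X t x := by
      ext ω
      simp [cyl]
    rw [h4] at h3
    refine h3.trans (measure_mono_ae ?_)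
    filter_upwards [ho] with ω h5 h6
    exact ⟨h6.1, fun h7 => h6.2 (h5 φ h7)⟩)
  refine measure_eq_zero_iff_ae_notMem.2 ?_
  filter_upwards [h1, ho, ae_adj h] with ω h2 h3 h4 h5
  refine h2 (fun m => ?_) h5
  obtain ⟨a, ha, ha'⟩ := (hi.sdiff (ball_fin hb.lf (finite_singleton v) m)).nonempty
  obtain ⟨φ, rfl⟩ := ht o a
  have h6 : ∃ t, φ (pth X ω t) = v := (h3 φ h5 0).imp fun _ h7 => h7.2
  have h7 : ∀ s, G.Adj (φ (pth X ω s)) (φ (pth X ω (s + 1))) := fun s => φ.map_adj_iff.2 (h4.2 s)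
  refine ⟨Nat.find h6, le_of_not_ge fun h8 => ha' ⟨fun s => φ (pth X ω s), _, h8, congrArg φ h4.1,
    Nat.find_spec h6, fun s _ => h7 s⟩, φ, Nat.find_spec h6, fun s hs => ?_⟩
  induction s with
  | zero => rw [h4.1]; exact ha
  | succ s ih =>
    exact fun h8 => (hβ _ h8 _ (h7 s).symm).elim (ih (by omega)) (Nat.find_min h6 (by omega))

end Pool.Agent.P3fb035
end

-- part Pool.Agent.P.MP_3fb035_pr.QV3
section

/-! The reflecting world. -/

set_option autoImplicit false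

open MeasureTheory Set
open scoped ENNReal symmDiff

namespace Pool.Agent.P3fb035

open Pool.Agent.Lib.GRW

variable {V : Type} {G : SimpleGraph V}
variable [Countable V] [MeasurableSpace V] [DiscreteMeasurableSpace V]
  {Ω : Type} [MeasurableSpace Ω] {P : Measure Ω} {X : ℕ → Ω → V}

variable {d : ℕ} {β N : Set V} {v : V}

omit [Countable V] [MeasurableSpace V] [DiscreteMeasurableSpace V] in
theorem bd_ct (hb : Bd G d) (hN : Con G N) (hN' : Con G Nᶜ) (h1 : N.Nontrivial)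
    (h2 : Nᶜ.Nontrivial) : Bd (ct G N) d := by
  intro a
  have hsub : (ct G N).neighborSet a ⊆ G.neighborSet a := fun b hb => hb.1
  refine ⟨(hb a).1.subset hsub, (ncard_le_ncard hsub (hb a).1).trans (hb a).2.1, ?_⟩
  by_cases ha : a ∈ N
  · obtain ⟨b, hb1, hb2⟩ := hN.exists_adj h1 ha
    exact ⟨b, hb2, iff_of_true ha hb1⟩
  · obtain ⟨b, hb1, hb2⟩ := hN'.exists_adj h2 ha
    exact ⟨b, hb2, iff_of_false ha hb1⟩

theorem refl_world (hb : Bd G d) (hb' : Bd (ct G N) d) (hN' : Con G Nᶜ)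
    (hf : {z | z ∉ N ∧ ∃ a ∈ N, G.Adj z a}.Finite) (hβ : Clo G β {v}) (hv : v ∉ β)
    (hβN : Disjoint β N) (hvN : v ∉ N) (hB : Bad G β v) {y q : V} (hy : y ∈ N) {n : ℕ}
    {E : Set (Sym2 V)} (hr : Run G {y}ᶜ n ∅ y E q) (hq : q ∉ N) (hqβ : q ∉ β)
    (hE : ∀ a ∈ N, ∀ b ∉ N, G.Adj a b → s(a, b) ∈ E) (hEβ : Ag G β E ∅)
    (h : IsWalk (ker G ∅) y P X) : P (pth X ⁻¹' Nv y) ≠ 0 := by
  obtain ⟨Ω', m', P', X', h'⟩ := exists_ker hb' E q
  have hd : (d : ℝ≥0∞)⁻¹ ≠ 0 := ENNReal.inv_ne_zero.2 (ENNReal.natCast_ne_top d)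
  have hin : ∀ a ∈ β, ∀ b, G.Adj a b → (ct G N).Adj a b := by
    intro a ha b hab
    refine ⟨hab, iff_of_false (disjoint_left.1 hβN ha) ?_⟩
    rcases hβ a ha b hab with h1 | h1
    · exact disjoint_left.1 hβN h1
    · rw [mem_singleton_iff.1 h1]
      exact hvN
  have hrs : rs (ct G N) β = rs G β := by
    ext a b
    constructor
    · exact fun h1 => ⟨h1.1.1, h1.2⟩
    · rintro ⟨h1, h2 | h2⟩
      · exact ⟨hin a h2 b h1, Or.inl h2⟩
      · exact ⟨(hin b h2 a h1.symm).symm, Or.inr h2⟩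
  obtain ⟨n₀, E₀, p, r1, r2, r3⟩ := hB
  rw [← hrs] at r1 r3
  have c1 := cvl hb' (β := β) (v := v) (fun a ha b hab => hβ a ha b hab.1) hv h' r1 r2 0
    (fun _ => q) (by
      rw [us_zero, union_empty]
      exact fun a ha b hab => hEβ a ha b hab.1) (fun h1 => absurd h1 hqβ) (fun _ => rfl)
  rw [IsWalk.cyl_start h', mul_one, empty_union] at c1
  have c2 : P' (cyl X' 0 (fun _ => q) ∩ pth X' ⁻¹' (Of v)ᶜ) ≠ 0 := fun h0 => by
    rw [h0, nonpos_iff_eq_zero] at c1
    exact mul_ne_zero (pow_ne_zero _ hd) r3 c1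
  have hcn : ∀ {a b : V}, Cn G Nᶜ a b → a ∉ N → Cn (ct G N) univ a b := by
    intro a b hab ha
    induction hab with
    | refl => exact Cn.rfl
    | @tail b c h1 h2 ih =>
      have hbN : b ∉ N := by
        rcases Cn.mem (G := G) (S := Nᶜ) h1 with h3 | h3
        · rw [h3]
          exact ha
        · exact h3
      exact Cn.trans ih (Cn.single ⟨h2.1, iff_of_false hbN h2.2⟩ (mem_univ _))
  have c3 : P' (cyl X' 0 (fun _ => q) ∩
      pth X' ⁻¹' Ev (N ∪ {z | z ∉ N ∧ ∃ a ∈ N, G.Adj z a})) ≠ 0 := fun h0 => by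
    refine c2 (nonpos_iff_eq_zero.1 (le_trans (measure_mono_ae ?_) h0.le))
    filter_upwards [ae_adj h', often_cn hb' h'] with ω h1 h2 h3
    refine ⟨h3.1, Ev.union ⟨0, fun s _ => ?_⟩ (ev_fin hf fun a ha h4 => ?_)⟩
    · have h5 : ∀ s, pth X' ω s ∉ N := by
        intro s
        induction s with
        | zero =>
          rw [h1.1]
          exact hq
        | succ s ih => exact fun h6 => ih ((h1.2 s).2.2 h6)
      exact h5 _
    · exact h3.2 (h2 a v (hcn (hN' a ha.1 v hvN) ha.1) h4)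
  obtain ⟨c, hc, m, E₁, v', s1, s2, s3⟩ := n3 h' d c3
  rw [us_zero, union_empty] at s1 s3
  have s4 : Run (ct G N) Nᶜ m E q E₁ v' :=
    Run.restrict s1 hq fun a ha b hab h1 => ha (hab.2.2 h1)
  have s5 : Run G Nᶜ m E q E₁ v' := by
    refine Run.sub s4 (fun a b hab => hab.1) fun a b hab hn => ?_
    by_cases ha : a ∈ N
    · exact hE a ha b (fun h1 => hn ⟨hab, iff_of_true ha h1⟩) hab
    · rw [Sym2.eq_swap]
      refine hE b ?_ a ha hab.symm
      by_contra h1
      exact hn ⟨hab, iff_of_false ha h1⟩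
  have s6 : Run G {y}ᶜ m E q E₁ v' := s5.mono fun a ha h1 => ha (mem_singleton_iff.1 h1 ▸ hy)
  rw [Qe_loc (G := ct G N) (G' := G) (U := E ∪ E₁) (U' := E ∪ E₁) s2
    (fun a ha b => ⟨fun h1 => h1.1, fun h1 =>
    ⟨h1, iff_of_false (fun h2 => ha (Or.inl h2))
      fun h2 => ha (Or.inr ⟨fun h3 => ha (Or.inl h3), b, h2, h1⟩)⟩⟩) Ag.rfl] at s3
  have s7 : Es G d {y}ᶜ (N ∪ {z | z ∉ N ∧ ∃ a ∈ N, G.Adj z a}) (∅ ∪ E) q c := by
    rw [empty_union]
    exact ⟨m, E₁, v', s6, s2, s3⟩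
  exact nv_of_es hb h (mul_ne_zero (pow_ne_zero _ hd) hc) (Es.pre hr s7) (fun h1 => h1 rfl)
    (Or.inl hy)

end Pool.Agent.P3fb035
end

-- part Pool.Agent.P.MP_3fb035_pr.QV5
section

/-! Sealing an odd branch from outside. -/

set_option autoImplicit false

open MeasureTheory Set
open scoped ENNReal symmDiff

namespace Pool.Agent.P3fb035

open Pool.Agent.Lib.GRW

variable {V : Type} {G : SimpleGraph V}

variable {d : ℕ}

/-- the data used in the reflecting world -/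
def Seal (G : SimpleGraph V) (β : Set V) (v : V) : Prop :=
  ∃ (N : Set V) (y : V) (n : ℕ) (E : Set (Sym2 V)) (q : V), Con G N ∧ Con G Nᶜ ∧ N.Nontrivial ∧
    Nᶜ.Nontrivial ∧ {z | z ∉ N ∧ ∃ a ∈ N, G.Adj z a}.Finite ∧ Disjoint β N ∧ v ∉ N ∧ y ∈ N ∧
    Run G {y}ᶜ n ∅ y E q ∧ q ∉ N ∧ q ∉ β ∧ (∀ a ∈ N, ∀ b ∉ N, G.Adj a b → s(a, b) ∈ E) ∧
    Ag G β E ∅

theorem seal_out (hl : LF G) (hc : G.Preconnected) {v a u b : V} (ha : a ≠ v) (huv : u ≠ v)
    (hu : u ∉ Cp G {v} a) (hb : G.Adj u b) (ho : Odd {z | G.Adj u z ∧ z ∈ Cp G {u} b}.ncard)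
    (hi : (Cp G {u} b).Infinite) (hv : v ∉ Cp G {u} b) : Seal G (Cp G {v} a) v := by
  have hbu : b ∉ ({u} : Set V) := fun h => hb.ne (mem_singleton_iff.1 h).symm
  have hav : a ∉ ({v} : Set V) := ha
  have hcN : Con G (Cp G {u} b) := cp_con hbu
  have huN : u ∉ Cp G {u} b := fun h => disjoint_left.1 (cp_disj hbu) h rfl
  have hclo : ∀ p ∈ Cp G {u} b, ∀ q, G.Adj p q → q ∈ Cp G {u} b ∨ q = u := cp_clo {u} b
  have hcc : Con G (Cp G {u} b)ᶜ := by
    rw [compl_eq_univ_sdiff]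
    exact con_diff (fun p _ q _ => cn_univ hc p q) (mem_univ u) huN
      fun p hp q _ h => hclo p hp q h
  have hdis : Disjoint (Cp G {v} a) (Cp G {u} b) := by
    refine disjoint_left.2 fun z hz hzN => ?_
    have h1 := (cp_con hav).sub_cp (disjoint_singleton_right.2 hu) hz
    rw [cp_eq hbu hzN] at h1
    obtain ⟨c, hc1, hc2⟩ := cp_nb hc ha
    rcases hclo c (h1 hc1) v hc2.symm with h | h
    · exact hv h
    · exact huv h.symm
  obtain ⟨Y, hYf, hAY, hYN, hYc⟩ := fin_sup (A := Cp G {u} b ∩ G.neighborSet u) hcN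
    ((hl u).inter_of_right _) inter_subset_left
  have hbY : b ∈ Y := hAY ⟨mem_cp _ _, hb⟩
  obtain ⟨y0, hy0, hy0'⟩ := (hi.sdiff hYf).nonempty
  obtain ⟨x, y, hxY, hyY, hyN, -, hxy⟩ := exit_edge (hcN b (mem_cp _ _) y0 hy0) hbY hy0'
  have hXf : (St G {u} (Cp G {u} b)).Finite := st_fin hl (finite_singleton u) _
  obtain ⟨J, hJf, hJ, hev⟩ := fix hYc hxY hXf
  have hHf : (St G {u} (Cp G {u} b) ∆ J).Finite := (hXf.union hJf).subset symmDiff_subset_union
  have huY : u ∉ Y := fun h => huN (hYN h)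
  have hend : ∀ p q, s(p, q) ∈ St G {u} (Cp G {u} b) ∆ J → p ∈ Y ∨ p = u := by
    intro p q h
    rcases symmDiff_subset_union h with h | h
    · obtain ⟨h1, h2 | h2⟩ := mem_st.1 h
      · exact Or.inr h2.1
      · have h3 : q = u := h2.1
        rw [h3] at h1
        exact Or.inl (hAY ⟨h2.2, h1.symm⟩)
    · exact Or.inl (hJ p q h)
  have hatu : ∀ w, G.Adj u w → (s(u, w) ∈ St G {u} (Cp G {u} b) ∆ J ↔ w ∈ Cp G {u} b) := by
    intro w hw
    have h1 : s(u, w) ∉ J := fun h => huY (hJ u w h)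
    rw [mem_symmDiff, mem_st]
    constructor
    · rintro (⟨⟨-, h | h⟩, -⟩ | ⟨h, -⟩)
      · exact h.2
      · exact absurd h.2 huN
      · exact absurd h h1
    · exact fun h => Or.inl ⟨⟨hw, Or.inl ⟨rfl, h⟩⟩, h1⟩
  have hou : Odd (dg G (St G {u} (Cp G {u} b) ∆ J) u) := by
    have : {w | G.Adj u w ∧ s(u, w) ∈ St G {u} (Cp G {u} b) ∆ J}
        = {z | G.Adj u z ∧ z ∈ Cp G {u} b} :=
      Set.ext fun w => and_congr_right (hatu w)
    rw [dg, this]
    exact ho
  have hoth : ∀ w, w ≠ u → w ≠ x → Even (dg G (St G {u} (Cp G {u} b) ∆ J) w) := by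
    intro w h1 h2
    by_cases h : w ∈ Y
    · exact hev w h h2
    · rw [dg_zero fun q _ hq => (hend w q hq).elim h h1]
      exact Even.zero
  have hux : u ≠ x := fun h => huY (h ▸ hxY)
  have hox := pair_odd hHf hux hoth hou
  have hyu : y ≠ u := fun h => huN (h ▸ hyN)
  have hyH : ∀ q, s(y, q) ∉ St G {u} (Cp G {u} b) ∆ J := fun q h => (hend y q h).elim hyY hyu
  have r1 : Run G {y}ᶜ 1 ∅ y {s(y, x)} x :=
    Run.one ⟨hxy.symm, Or.inl (notMem_empty _)⟩ hxy.ne
  obtain ⟨n, E, w, r2, hw, hE, -, hall⟩ := eb0 (G := G) (S := {y}ᶜ) (W := {u})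
    (con_singleton u) (singleton_subset_iff.2 hyu.symm) hHf (U := ∅ ∪ {s(y, x)}) (v := x)
    (by rw [empty_union]; exact disjoint_singleton_right.2 (hyH x))
    (fun p q _ h e => hyH q (by rwa [mem_singleton_iff.1 e] at h))
    (Or.inl subsingleton_singleton) (fun w hw => ⟨fun h => by
      by_contra e
      exact Nat.not_even_iff_odd.2 h (hoth w hw e), fun e => e ▸ hox⟩)
  have hwu : w = u := hw
  refine ⟨Cp G {u} b, y, 1 + n, {s(y, x)} ∪ E, w, hcN, hcc, hi.nontrivial,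
    ⟨u, huN, v, hv, huv⟩, (finite_singleton u).subset ?_, hdis, hv, hyN, r1.trans r2,
    hwu ▸ huN, hwu ▸ hu, ?_, ?_⟩
  · rintro z ⟨hz, p, hp, hzp⟩
    exact (hclo p hp z hzp.symm).resolve_left hz
  · intro p hp q hq hpq
    have h1 : q = u := (hclo p hp q hpq).resolve_left hq
    rw [h1] at hpq ⊢
    have h2 := hall u rfl p hpq.symm ((hatu p hpq.symm).2 hp)
    rw [Sym2.eq_swap] at h2
    exact Or.inr h2
  · intro p hp q _
    refine iff_of_false (fun h => ?_) (notMem_empty _)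
    have hpN : p ∉ Cp G {u} b := disjoint_left.1 hdis hp
    have h1 : s(p, q) = s(y, x) → False := fun e => by
      rcases Sym2.eq_iff.1 e with e | e
      · exact hpN (e.1 ▸ hyN)
      · exact hpN (e.1 ▸ hYN hxY)
    rcases h with h | h
    · exact h1 h
    · rcases hE h with (h | h) | h
      · exact h
      · exact h1 h
      · rcases hend p q h with h | h
        · exact hpN (hYN h)
        · exact hu (h ▸ hp)

end Pool.Agent.P3fb035
end

-- part Pool.Agent.P.MP_3fb035_pr.QV4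
section

/-! Sealing an odd branch. -/

set_option autoImplicit false

open MeasureTheory Set
open scoped ENNReal symmDiff

namespace Pool.Agent.P3fb035

open Pool.Agent.Lib.GRW

variable {V : Type} {G : SimpleGraph V}

variable {d : ℕ}

theorem seal_in (hl : LF G) (hc : G.Preconnected) {v a u b y : V} (ha : a ≠ v) (huv : u ≠ v)
    (hu : u ∉ Cp G {v} a) (hb : G.Adj u b) (ho : Odd {z | G.Adj u z ∧ z ∈ Cp G {u} b}.ncard)
    (hv : v ∈ Cp G {u} b) (hy : G.Adj u y) (hyb : y ∉ Cp G {u} b) : Seal G (Cp G {v} a) v := by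
  have hbu : b ∉ ({u} : Set V) := hb.ne'
  have hav : a ∉ ({v} : Set V) := ha
  have huΓ : u ∉ Cp G {u} b := fun h => disjoint_left.1 (cp_disj hbu) h rfl
  have hvβ : v ∉ Cp G {v} a := fun h => disjoint_left.1 (cp_disj hav) h rfl
  have cΓ := cp_clo (G := G) {u} b
  have cβ := cp_clo (G := G) {v} a
  have hβΓ : Cp G {v} a ⊆ Cp G {u} b := by
    obtain ⟨c, hc1, hc2⟩ := cp_nb hc ha
    have h1 : c ∈ Cp G {u} b := (cΓ v hv c hc2).resolve_right fun h => hu (h ▸ hc1)
    rw [← cp_eq hbu h1]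
    exact (cp_con hav).sub_cp (disjoint_singleton_right.2 hu) hc1
  have huβ : ∀ z ∈ Cp G {v} a, ¬G.Adj z u := fun z hz h => (cβ z hz u h).elim hu huv
  have hS0 : Con G (Cp G {u} b \ Cp G {v} a) :=
    con_diff (cp_con hbu) hv hvβ fun p hp q _ h => cβ p hp q h
  have hX : (St G {u} (Cp G {u} b)).Finite := st_fin hl (finite_singleton u) _
  obtain ⟨J, hJ, hI, hE⟩ := fix hS0 (⟨hv, hvβ⟩ : v ∈ Cp G {u} b \ Cp G {v} a) hX
  have hH : (St G {u} (Cp G {u} b) ∆ J).Finite := (hX.union hJ).subset symmDiff_subset_union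
  have h1 : ∀ p q, s(p, q) ∈ St G {u} (Cp G {u} b) ∆ J →
      p = u ∨ p ∈ Cp G {u} b \ Cp G {v} a := by
    intro p q h
    rcases symmDiff_subset_union h with h | h
    · obtain ⟨h2, h3 | h3⟩ := mem_st.1 h
      · exact Or.inl h3.1
      · refine Or.inr ⟨h3.2, fun h4 => huβ p h4 ?_⟩
        rw [← mem_singleton_iff.1 h3.1]
        exact h2
    · exact Or.inr (hI p q h)
  have h2 : ∀ q, G.Adj u q → (s(u, q) ∈ St G {u} (Cp G {u} b) ∆ J ↔ q ∈ Cp G {u} b) := by
    intro q hq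
    have h3 : s(u, q) ∉ J := fun h => huΓ (hI u q h).1
    rw [mem_symmDiff, mem_st]
    constructor
    · rintro (⟨⟨-, h | h⟩, -⟩ | ⟨h, -⟩)
      · exact h.2
      · exact absurd h.2 huΓ
      · exact absurd h h3
    · exact fun h => Or.inl ⟨⟨hq, Or.inl ⟨rfl, h⟩⟩, h3⟩
  have h3 : ∀ p q, s(p, q) ∈ St G {u} (Cp G {u} b) ∆ J → p ≠ y := by
    rintro p q h rfl
    exact (h1 p q h).elim hy.ne' fun h' => hyb h'.1
  obtain ⟨n, E, w, hr, hw, hsub, hall⟩ := eb (G := G) (S := {y}ᶜ) (con_singleton v)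
    (fun z hz hz' => hyb (by rw [← mem_singleton_iff.1 hz', mem_singleton_iff.1 hz]; exact hv))
    hH (U := ∅ ∪ {s(y, u)}) (v := u)
    (disjoint_right.2 fun e he he' => by
      rw [empty_union, mem_singleton_iff] at he
      rw [he] at he'
      exact h3 y u he' rfl)
    (fun p q _ h => h3 p q h) (Or.inl subsingleton_singleton) (by
      intro z hz
      constructor
      · intro hodd
        by_contra hzu
        by_cases hz0 : z ∈ Cp G {u} b \ Cp G {v} a
        · exact Nat.not_even_iff_odd.2 hodd (hE z hz0 hz)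
        · rw [dg_zero fun q _ h => (h1 z q h).elim hzu hz0] at hodd
          exact Nat.not_odd_zero hodd
      · rintro rfl
        have h4 : {q | G.Adj z q ∧ s(z, q) ∈ St G {z} (Cp G {z} b) ∆ J} =
            {q | G.Adj z q ∧ q ∈ Cp G {z} b} :=
          Set.ext fun q => and_congr_right fun hq => h2 q hq
        rw [dg, h4]
        exact ho)
  rw [mem_singleton_iff.1 hw] at hr
  have h0 : Run G {y}ᶜ 1 ∅ y {s(y, u)} u :=
    Run.one ⟨hy.symm, Or.inl (notMem_empty _)⟩ hy.ne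
  refine ⟨(Cp G {u} b)ᶜ, y, _, _, v, ?_, ?_, ⟨u, huΓ, y, hyb, hy.ne⟩, ?_, ?_,
    disjoint_compl_right.mono_left hβΓ, not_not.2 hv, hyb, h0.trans hr, not_not.2 hv, hvβ, ?_, ?_⟩
  · rw [compl_eq_univ_sdiff]
    exact con_diff (fun p _ q _ => cn_univ hc p q) (mem_univ u) huΓ fun p hp q _ h => cΓ p hp q h
  · rw [compl_compl]
    exact cp_con hbu
  · rw [compl_compl]
    exact ⟨a, hβΓ (mem_cp _ a), v, hv, ha⟩
  · refine (hl u).subset ?_
    rintro z ⟨hz, p, hp, h⟩
    have h4 : p = u := (cΓ z (not_not.1 hz) p h).resolve_left hp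
    rw [h4] at h
    exact h.symm
  · intro p hp q hq h
    have h4 : p = u := (cΓ q (not_not.1 hq) p h.symm).resolve_left hp
    subst h4
    exact Or.inr (hall p (Or.inr (Or.inl rfl)) q h ((h2 q h).2 (not_not.1 hq)))
  · intro p hp q _
    refine iff_of_false (fun h => ?_) (notMem_empty _)
    have h4 : s(p, q) ≠ s(y, u) := by
      intro h5
      rcases Sym2.eq_iff.1 h5 with h6 | h6
      · exact hyb (h6.1 ▸ hβΓ hp)
      · exact hu (h6.1 ▸ hp)
    rcases h with h | h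
    · exact h4 h
    · rcases hsub h with (h | h) | h
      · exact h
      · exact h4 h
      · exact (h1 p q h).elim (fun h5 => hu (h5 ▸ hp)) fun h5 => h5.2 hp

theorem seal_all [Infinite V] (hr : Reg G d) (hd : Odd d) (hc : G.Preconnected) (ht : Tr G)
    (h2 : ¬Two G) {v a : V} (ha : a ≠ v) : Seal G (Cp G {v} a) v := by
  obtain ⟨u, hvu, -, hu⟩ := other_branch hc ht h2 ha
  obtain ⟨b, hb, ho⟩ := odd_branch hr hd u
  by_cases hv : v ∈ Cp G {u} b
  · obtain ⟨y, hy, -, hyb⟩ := other_branch hc ht h2 hb.ne'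
    exact seal_in hr.lf hc ha hvu.ne' hu hb ho hv hy hyb
  · exact seal_out hr.lf hc ha hvu.ne' hu hb ho (nofin hc ht hb.ne') hv

end Pool.Agent.P3fb035
end

-- part Pool.Agent.P.MP_3fb035_pr.QW0
section

/-! Resampling one coordinate. -/

set_option autoImplicit false

open MeasureTheory Set
open scoped ENNReal symmDiff

namespace Pool.Agent.P3fb035

open Pool.Agent.Lib.GRW

variable {V : Type} {G : SimpleGraph V}
variable [G.LocallyFinite]

theorem upd_self (ω : Om G) (w : V) (r : Rk G w) : upd ω w r (0, w) = r := by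
  unfold upd
  exact @Function.update_self _ _ (_) _ _ _

theorem upd_ne (ω : Om G) (w : V) (r : Rk G w) {i : ℕ × V} (h : i ≠ (0, w)) :
    upd ω w r i = ω i := by
  unfold upd
  exact @Function.update_of_ne _ _ (_) _ _ h _ _

theorem meas_upd (w : V) (r : Rk G w) : Measurable fun ω : Om G => upd ω w r := by
  refine measurable_pi_lambda _ fun i => ?_
  by_cases h : i = (0, w)
  · subst h
    simp only [upd_self]
    exact measurable_const
  · simp only [upd_ne _ _ _ h]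
    exact measurable_pi_apply i

theorem qw0_self (ω : Om G) (w : V) : upd ω w (ω (0, w)) = ω := by
  funext i
  by_cases h : i = (0, w)
  · subst h
    exact upd_self ..
  · exact upd_ne _ _ _ h

theorem qw0_coord (w : V) (r : Rk G w) :
    Pm G {ω | ω (0, w) = r} = unif (Rk G w) {r} := by
  have h := (measurePreserving_eval_infinitePi (fun i : ℕ × V => unif (Rk G i.2))
    (0, w)).measure_preimage (s := {r}) (measurableSet_singleton r).nullMeasurableSet
  exact h

theorem qw0_measure (w : V) [Fintype (Rk G w)] :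
    Pm G = ∑ r : Rk G w, unif (Rk G w) {r} • (Pm G).map fun ω => upd ω w r := by
  ext B hB
  have m1 : ∀ r : Rk G w, MeasurableSet {ω : Om G | ω (0, w) = r} := fun r =>
    measurable_pi_apply (X := fun i : ℕ × V => Rk G i.2) (0, w)
      (show MeasurableSet ({r} : Set (Rk G w)) from trivial)
  have h1 : B = ⋃ r : Rk G w, {ω : Om G | ω (0, w) = r} ∩ (fun ω => upd ω w r) ⁻¹' B := by
    ext ω
    simp only [mem_iUnion, mem_inter_iff, mem_ofPred_eq, mem_preimage]
    constructor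
    · exact fun h => ⟨_, rfl, by rwa [qw0_self]⟩
    · rintro ⟨r, rfl, h⟩
      rwa [qw0_self] at h
  rw [Measure.finsetSum_apply]
  conv_lhs => rw [h1]
  rw [measure_iUnion (fun r r' hr => Set.disjoint_left.mpr fun ω h h' =>
    hr (h.1.symm.trans h'.1)) fun r => (m1 r).inter (meas_upd w r hB), tsum_fintype]
  refine Finset.sum_congr rfl fun r _ => ?_
  rw [Measure.smul_apply, Measure.map_apply (meas_upd w r) hB, smul_eq_mul, ← qw0_coord]
  refine dep_inter _ (T := {(0, w)}) (T' := {(0, w)}ᶜ) disjoint_compl_right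
    (fun ω ω' h h' => (h _ rfl).symm.trans h') (fun ω ω' h h' => ?_) (m1 r) (meas_upd w r hB)
  have h2 : upd ω' w r = upd ω w r := by
    funext i
    by_cases hi : i = (0, w)
    · subst hi
      rw [upd_self, upd_self]
    · rw [upd_ne _ _ _ hi, upd_ne _ _ _ hi, h i hi]
  rw [mem_preimage, h2]
  exact h'

theorem resample (w : V) {f : Om G → ℝ≥0∞} (hf : Measurable f) :
    ∫⁻ ω, f ω ∂Pm G = ∫⁻ ω, ∫⁻ r, f (upd ω w r) ∂unif (Rk G w) ∂Pm G := by
  have := Fintype.ofFinite (Rk G w)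
  conv_lhs => rw [qw0_measure w]
  have hm : ∀ r : Rk G w, Measurable fun ω : Om G => f (upd ω w r) := fun r =>
    hf.comp (meas_upd w r)
  rw [lintegral_finsetSum_measure]
  simp only [lintegral_fintype]
  rw [lintegral_finsetSum _ fun r _ => (hm r).mul_const _]
  refine Finset.sum_congr rfl fun r _ => ?_
  rw [lintegral_smul_measure, lintegral_map hf (meas_upd w r),
    lintegral_mul_const _ (hm r), smul_eq_mul, mul_comm]

theorem resample_lb (w : V) {A B : Set (Om G)} (hA : MeasurableSet A) (hB : MeasurableSet B)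
    (hd : ∀ ω r, upd ω w r ∈ A ↔ ω ∈ A) {c : ℝ≥0∞}
    (h : ∀ ω ∈ A, c ≤ unif (Rk G w) {r | upd ω w r ∈ B}) : c * Pm G A ≤ Pm G (A ∩ B) := by
  rw [← lintegral_indicator_one (hA.inter hB),
    resample w (measurable_one.indicator (hA.inter hB)), ← lintegral_indicator_const hA]
  refine lintegral_mono fun ω => ?_
  by_cases hω : ω ∈ A
  · rw [indicator_of_mem hω]
    refine (h ω hω).trans (le_of_eq ?_)
    rw [← lintegral_indicator_one MeasurableSet.of_discrete]
    refine lintegral_congr fun r => ?_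
    by_cases hr : upd ω w r ∈ B
    · rw [indicator_of_mem (show r ∈ {r | upd ω w r ∈ B} from hr),
        indicator_of_mem (show upd ω w r ∈ A ∩ B from ⟨(hd ω r).mpr hω, hr⟩)]
      rfl
    · rw [indicator_of_notMem (show r ∉ {r | upd ω w r ∈ B} from hr),
        indicator_of_notMem (show upd ω w r ∉ A ∩ B from fun h' => hr h'.2)]
  · rw [indicator_of_notMem hω]
    exact zero_le

end Pool.Agent.P3fb035
end

-- part Pool.Agent.P.MP_3fb035_pr.QW1
section

/-! Cycles of two pairings of the neighbours of a vertex. -/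

set_option autoImplicit false

open MeasureTheory Set
open scoped ENNReal symmDiff

namespace Pool.Agent.P3fb035

open Pool.Agent.Lib.GRW

variable {V : Type} {G : SimpleGraph V}
variable [G.LocallyFinite]

variable {w a : V} {π : V → V}

/-- one step of the exit sequence -/
noncomputable def qw1_sg (π : V → V) (r : Rk G w) (x : V) : V := par r (π x)

theorem qw1_adj (hπ : Prs G w π) (r : Rk G w) {x : V} (hx : G.Adj w x) :
    G.Adj w (qw1_sg π r x) := (par_spec r (hπ x hx).1).1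

theorem qw1_it_adj (hπ : Prs G w π) (r : Rk G w) (m : ℕ) {x : V} (hx : G.Adj w x) :
    G.Adj w ((qw1_sg π r)^[m] x) := by
  induction m with
  | zero => exact hx
  | succ m ih =>
    rw [Function.iterate_succ_apply']
    exact qw1_adj hπ r ih

omit [G.LocallyFinite] in
theorem qw1_pi_inj (hπ : Prs G w π) {x y : V} (hx : G.Adj w x) (hy : G.Adj w y)
    (h : π x = π y) : x = y := by
  rw [← (hπ x hx).2.1, h, (hπ y hy).2.1]

theorem qw1_inj (hπ : Prs G w π) (r : Rk G w) {x y : V} (hx : G.Adj w x) (hy : G.Adj w y)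
    (h : qw1_sg π r x = qw1_sg π r y) : x = y := by
  refine qw1_pi_inj hπ hx hy ?_
  rw [← par_par r (hπ x hx).1, ← par_par r (hπ y hy).1]
  exact congrArg (par r) h

theorem qw1_it_inj (hπ : Prs G w π) (r : Rk G w) (m : ℕ) {x y : V} (hx : G.Adj w x)
    (hy : G.Adj w y) (h : (qw1_sg π r)^[m] x = (qw1_sg π r)^[m] y) : x = y := by
  induction m with
  | zero => exact h
  | succ m ih =>
    rw [Function.iterate_succ_apply', Function.iterate_succ_apply'] at h
    exact ih (qw1_inj hπ r (qw1_it_adj hπ r m hx) (qw1_it_adj hπ r m hy) h)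

theorem qw1_dep (hπ : Prs G w π) (ha : G.Adj w a) (r : Rk G w) (j : ℕ) :
    dep π r a j = (qw1_sg π r)^[j + 1] (π a) := by
  induction j with
  | zero =>
    show par r a = par r (π (π a))
    rw [(hπ a ha).2.1]
  | succ j ih =>
    rw [Function.iterate_succ_apply', ← ih]
    rfl

theorem qw1_dep_add (hπ : Prs G w π) (ha : G.Adj w a) (r : Rk G w) (i k : ℕ) :
    dep π r a (i + k) = (qw1_sg π r)^[k] (dep π r a i) := by
  rw [qw1_dep hπ ha, qw1_dep hπ ha, ← Function.iterate_add_apply,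
    show k + (i + 1) = i + k + 1 by omega]

theorem qw1_ne (he : Even (G.degree w)) (hπ : Prs G w π) (r : Rk G w) (m : ℕ) :
    ∀ x, G.Adj w x → (qw1_sg π r)^[m] x ≠ π x := by
  induction m using Nat.twoStepInduction with
  | zero => exact fun x hx => (hπ x hx).2.2.symm
  | one => exact fun x hx => par_ne he r (hπ x hx).1
  | more m ih _ =>
    intro x hx e
    have h1 := qw1_adj hπ r hx
    have h2 := qw1_it_adj hπ r m h1
    rw [Function.iterate_succ_apply', Function.iterate_succ_apply] at e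
    refine ih _ h1 ?_
    have h3 : π ((qw1_sg π r)^[m] (qw1_sg π r x)) = qw1_sg π r x := by
      rw [← par_par r (hπ _ h2).1]
      exact congrArg (par r) e
    rw [← (hπ _ h2).2.1, h3]

theorem dep_adj (hπ : Prs G w π) (ha : G.Adj w a) (r : Rk G w) (j : ℕ) :
    G.Adj w (dep π r a j) := by
  rw [qw1_dep hπ ha]
  exact qw1_it_adj hπ r _ (hπ a ha).1

theorem dep_close (hπ : Prs G w π) (ha : G.Adj w a) (r : Rk G w) : ∃ j, dep π r a j = π a := by
  have hfin : (G.neighborSet w).Finite := toFinite _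
  obtain ⟨i, j, hij, e⟩ := hfin.exists_lt_map_eq_of_forall_mem
    (f := fun n : ℕ => (qw1_sg π r)^[n] (π a)) fun n => qw1_it_adj hπ r n (hπ a ha).1
  obtain ⟨k, rfl⟩ := Nat.exists_eq_add_of_lt hij
  refine ⟨k, ?_⟩
  rw [qw1_dep hπ ha]
  refine qw1_it_inj hπ r i (qw1_it_adj hπ r _ (hπ a ha).1) (hπ a ha).1 ?_
  rw [← Function.iterate_add_apply, ← Nat.add_assoc]
  exact e.symm

theorem dep_pal (he : Even (G.degree w)) (hπ : Prs G w π) (ha : G.Adj w a) (r : Rk G w)
    (i j : ℕ) : dep π r a i ≠ a ∧ dep π r a i ≠ π (dep π r a j) := by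
  constructor
  · have h := qw1_ne he hπ r (i + 1) _ (hπ a ha).1
    rwa [(hπ a ha).2.1, ← qw1_dep hπ ha] at h
  · intro e
    rcases le_total i j with h | h
    · obtain ⟨k, rfl⟩ := Nat.exists_eq_add_of_le h
      refine qw1_ne he hπ r k _ (dep_adj hπ ha r i) ?_
      rw [← qw1_dep_add hπ ha, e, (hπ _ (dep_adj hπ ha r _)).2.1]
    · obtain ⟨k, rfl⟩ := Nat.exists_eq_add_of_le h
      refine qw1_ne he hπ r k _ (dep_adj hπ ha r j) ?_
      rw [← qw1_dep_add hπ ha, e]

theorem dep_inj (hπ : Prs G w π) (ha : G.Adj w a) (r : Rk G w) {i j : ℕ} (hij : i < j)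
    (h : ∀ l < j, dep π r a l ≠ π a) : dep π r a i ≠ dep π r a j := by
  intro e
  obtain ⟨k, rfl⟩ := Nat.exists_eq_add_of_lt hij
  refine h k (by omega) ?_
  refine qw1_it_inj hπ r (i + 1) (dep_adj hπ ha r k) (hπ a ha).1 ?_
  rw [← qw1_dep_add hπ ha, ← qw1_dep hπ ha, e, show k + (i + 1) = i + k + 1 by omega]

theorem arr_card (hπ : Prs G w π) (ha : G.Adj w a) (r : Rk G w) {m : ℕ}
    (hm : dep π r a m = π a) (h : ∀ l < m, dep π r a l ≠ π a) : (Arr π r a).ncard = m + 1 := by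
  have hp : Function.IsPeriodicPt (qw1_sg π r) (m + 1) (dep π r a 0) := by
    have h1 : Function.IsPeriodicPt (qw1_sg π r) (m + 1) (π a) := by
      show (qw1_sg π r)^[m + 1] (π a) = π a
      rw [← qw1_dep hπ ha, hm]
    rw [qw1_dep hπ ha]
    exact h1.apply_iterate _
  have hmod : ∀ j, dep π r a (j % (m + 1)) = dep π r a j := fun j => by
    have h1 := qw1_dep_add hπ ha r 0 j
    have h2 := qw1_dep_add hπ ha r 0 (j % (m + 1))
    rw [Nat.zero_add] at h1 h2
    rw [h1, h2]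
    exact hp.iterate_mod_apply j
  have hA : Arr π r a = (fun j => π (dep π r a j)) '' (Finset.range (m + 1) : Set ℕ) := by
    ext z
    constructor
    · rintro (rfl | ⟨j, rfl⟩)
      · refine ⟨m, by simp, ?_⟩
        show π (dep π r z m) = z
        rw [hm, (hπ z ha).2.1]
      · refine ⟨j % (m + 1), by simpa using Nat.mod_lt j (Nat.succ_pos m), ?_⟩
        show π (dep π r a (j % (m + 1))) = π (dep π r a j)
        rw [hmod]
    · rintro ⟨j, -, rfl⟩
      exact Or.inr ⟨j, rfl⟩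
  rw [hA, InjOn.ncard_image, ncard_coe_finset, Finset.card_range]
  intro i hi j hj e
  have e' := qw1_pi_inj hπ (dep_adj hπ ha r i) (dep_adj hπ ha r j) e
  have hi' : i < m + 1 := by simpa using hi
  have hj' : j < m + 1 := by simpa using hj
  rcases lt_trichotomy i j with c | c | c
  · exact absurd e' (dep_inj hπ ha r c fun l hl => h l (by omega))
  · exact c
  · exact absurd e'.symm (dep_inj hπ ha r c fun l hl => h l (by omega))

open Classical in
theorem par_sw {u u' z : V} (hu : G.Adj w u) (hu' : G.Adj w u') (hz : G.Adj w z) (r : Rk G w) :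
    par (Rk.sw hu hu' r) z = Equiv.swap u u' (par r (Equiv.swap u u' z)) := by
  have h1 := par_spec (Rk.sw hu hu' r) hz
  have h2 := par_spec r ((adj_swap hu hu' z).2 hz)
  have h3 : r.1 (Equiv.swap u u' z) + r.1 (Equiv.swap u u' (par (Rk.sw hu hu' r) z)) + 1 =
      G.degree w := h1.2
  have h4 : Equiv.swap u u' (par (Rk.sw hu hu' r) z) = par r (Equiv.swap u u' z) :=
    r.inj _ _ ((adj_swap hu hu' _).2 h1.1) h2.1 (by omega)
  rw [← h4, Equiv.swap_apply_self]

open Classical in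
theorem dep_sw (hπ : Prs G w π) (ha : G.Adj w a) (r : Rk G w) {u u' : V} (hu : G.Adj w u)
    (hu' : G.Adj w u') {j : ℕ} (h0 : a ≠ u ∧ a ≠ u')
    (h : ∀ i < j, (dep π r a i ≠ u ∧ dep π r a i ≠ u') ∧
      π (dep π r a i) ≠ u ∧ π (dep π r a i) ≠ u') :
    (∀ i < j, dep π (Rk.sw hu hu' r) a i = dep π r a i) ∧
      dep π (Rk.sw hu hu' r) a j = Equiv.swap u u' (dep π r a j) := by
  have key : ∀ i ≤ j, dep π (Rk.sw hu hu' r) a i = Equiv.swap u u' (dep π r a i) := by
    intro i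
    induction i with
    | zero =>
      intro _
      show par (Rk.sw hu hu' r) a = Equiv.swap u u' (par r a)
      rw [par_sw hu hu' ha, Equiv.swap_apply_of_ne_of_ne h0.1 h0.2]
    | succ i ih =>
      intro hi
      obtain ⟨⟨h1, h2⟩, h3, h4⟩ := h i hi
      show par (Rk.sw hu hu' r) (π (dep π (Rk.sw hu hu' r) a i)) =
        Equiv.swap u u' (par r (π (dep π r a i)))
      rw [ih (by omega), Equiv.swap_apply_of_ne_of_ne h1 h2,
        par_sw hu hu' (hπ _ (dep_adj hπ ha r i)).1, Equiv.swap_apply_of_ne_of_ne h3 h4]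
  refine ⟨fun i hi => ?_, key j le_rfl⟩
  rw [key i hi.le, Equiv.swap_apply_of_ne_of_ne (h i hi).1.1 (h i hi).1.2]

end Pool.Agent.P3fb035
end

-- part Pool.Agent.P.MP_3fb035_pr.QX4
section

/-! Trails of the pairing that return to a vertex: basic facts. -/

set_option autoImplicit false

open MeasureTheory Set
open scoped ENNReal symmDiff

namespace Pool.Agent.P3fb035

open Pool.Agent.Lib.GRW

variable {V : Type} {G : SimpleGraph V}
variable [G.LocallyFinite]

variable {ω : Om G} {w a b z z' : V} {L : ℕ}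

theorem orb_rev (hab : G.Adj a b) {K j : ℕ} (hj : j ≤ K) :
    orb ω (orb ω a b K).2 (orb ω a b K).1 j = (orb ω a b (K - j)).swap := by
  induction j with
  | zero => rfl
  | succ j ih =>
    obtain ⟨m, rfl⟩ : ∃ m, K = m + (j + 1) := ⟨K - (j + 1), by omega⟩
    have e1 : m + (j + 1) - j = m + 1 := by omega
    have e2 : m + (j + 1) - (j + 1) = m := by omega
    rw [orb, ih (by omega), e1, e2]
    exact Prod.ext rfl (par_par _ (orb_adj ω hab m).symm)

theorem orb_pal (he : ∀ v, Even (G.degree v)) (hab : G.Adj a b) (j : ℕ) :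
    orb ω a b j ≠ (b, a) := by
  induction j using Nat.twoStepInduction generalizing a b with
  | zero => exact fun h => hab.ne (congrArg Prod.fst h)
  | one => exact fun h => par_ne (he _) _ hab.symm (congrArg Prod.snd h)
  | more j ih _ =>
    intro h
    have h1 := orb_rev (ω := ω) hab (K := j + 2) (j := 1) (by omega)
    rw [h] at h1
    refine ih (orb_adj ω hab 1) ?_
    rw [orb_add, add_comm 1 j]
    have h2 : orb ω a b 1 = (orb ω a b (j + 1)).swap := h1
    rw [h2]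
    rfl

theorem ret_unique {z'' : V} {L' : ℕ} (h : Ret ω w z z' L) (h' : Ret ω w z z'' L') :
    z' = z'' ∧ L = L' := by
  have e : L = L' := by
    rcases lt_trichotomy L L' with hl | hl | hl
    · exact absurd (congrArg Prod.snd h.1) (h'.2 L hl)
    · exact hl
    · exact absurd (congrArg Prod.snd h'.1) (h.2 L' hl)
  subst e
  exact ⟨congrArg Prod.fst (h.1.symm.trans h'.1), rfl⟩

theorem ret_symm (hz : G.Adj w z) (h : Ret ω w z z' L) : G.Adj w z' ∧ Ret ω w z' z L := by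
  have h1 := orb_adj ω hz L
  have h2 := fun j (hj : j ≤ L) => orb_rev (ω := ω) hz hj
  rw [h.1] at h1 h2
  refine ⟨h1.symm, ?_, fun j hj => ?_⟩
  · rw [h2 L le_rfl, Nat.sub_self]
    rfl
  · obtain ⟨m, hm⟩ : ∃ m, L - j = m + 1 := ⟨L - j - 1, by omega⟩
    rw [h2 j hj.le, hm]
    exact h.2 m (by omega)

theorem ret_ne (he : ∀ v, Even (G.degree v)) (hz : G.Adj w z) (h : Ret ω w z z' L) : z' ≠ z := by
  rintro rfl
  exact orb_pal he hz L h.1

theorem orb_upd (r : Rk G w) {K : ℕ} (h : ∀ j < K, (orb ω a b j).2 ≠ w) :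
    ∀ j ≤ K, orb (upd ω w r) a b j = orb ω a b j := by
  intro j hj
  induction j with
  | zero => rfl
  | succ j ih =>
    rw [orb, orb, ih (by omega),
      upd_ne ω w r (i := (0, (orb ω a b j).2)) fun e => h j hj (congrArg Prod.snd e)]

theorem ret_upd (r : Rk G w) : Ret (upd ω w r) w z z' L ↔ Ret ω w z z' L := by
  have key : ∀ (ω : Om G) (r : Rk G w), Ret ω w z z' L → Ret (upd ω w r) w z z' L :=
    fun ω r h => ⟨(orb_upd r h.2 L le_rfl).trans h.1,
      fun j hj => by rw [orb_upd r h.2 j hj.le]; exact h.2 j hj⟩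
  refine ⟨fun h => ?_, key ω r⟩
  have e : upd (upd ω w r) w (ω (0, w)) = ω := by
    funext i
    by_cases hi : i = (0, w)
    · subst hi
      exact upd_self _ _ _
    · rw [upd_ne _ _ _ hi, upd_ne _ _ _ hi]
  exact e ▸ key _ (ω (0, w)) h

theorem fin1_upd (r : Rk G w) : Fin1 (upd ω w r) w ↔ Fin1 ω w := by
  simp only [Fin1, ret_upd]

theorem exists_prs (he : ∀ v, Even (G.degree v)) (h : Fin1 ω w) :
    ∃ π : V → V, Prs G w π ∧ ∀ z, G.Adj w z → ∃ L, Ret ω w z (π z) L := by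
  have h1 : ∀ z, ∃ z', G.Adj w z → ∃ L, Ret ω w z z' L := fun z => by
    by_cases hz : G.Adj w z
    · obtain ⟨z', hz'⟩ := h z hz
      exact ⟨z', fun _ => hz'⟩
    · exact ⟨z, fun h' => absurd h' hz⟩
  choose π hπ using h1
  refine ⟨π, fun z hz => ?_, hπ⟩
  obtain ⟨L, hL⟩ := hπ z hz
  obtain ⟨h2, h3⟩ := ret_symm hz hL
  obtain ⟨L', hL'⟩ := hπ _ h2
  exact ⟨h2, (ret_unique hL' h3).1, ret_ne he hz hL⟩

end Pool.Agent.P3fb035
end

-- part Pool.Agent.P.MP_3fb035_pr.QW4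
section

/-! Trails of the pairing that return to a vertex. -/

set_option autoImplicit false

open MeasureTheory Set
open scoped ENNReal symmDiff

namespace Pool.Agent.P3fb035

open Pool.Agent.Lib.GRW

variable {V : Type} {G : SimpleGraph V}
variable [G.LocallyFinite]

variable {ω : Om G} {w a b z z' : V} {L : ℕ}

theorem qw4_succ {K : ℕ} (h : orb ω a b K = (z, w)) : orb ω a b (K + 1) = (w, par (ω (0, w)) z) := by
  rw [orb, h]

theorem qw4_add {K : ℕ} (h : orb ω a b K = (z, w)) (k : ℕ) : orb ω a b (K + k) = orb ω z w k := by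
  rw [← orb_add, h]

theorem qw4_adj {K : ℕ} (hab : G.Adj a b) (h : orb ω a b K = (z, w)) : G.Adj z w := by
  have := orb_adj ω hab K
  rwa [h] at this

theorem link_dep {π : V → V} (hπ : ∀ z, G.Adj w z → ∃ L, Ret ω w z (π z) L) (ha : G.Adj w a)
    (j : ℕ) : ∃ K ≥ 1, orb ω a w K = (w, dep π (ω (0, w)) a j) := by
  induction j with
  | zero => exact ⟨1, le_rfl, rfl⟩
  | succ j ih =>
    obtain ⟨K, -, h⟩ := ih
    obtain ⟨L, hL⟩ := hπ _ (qw4_adj ha.symm h)
    exact ⟨K + L + 1, by omega, qw4_succ ((qw4_add h L).trans hL.1)⟩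

theorem link_arr {π : V → V} (hπ : ∀ z, G.Adj w z → ∃ L, Ret ω w z (π z) L) (ha : G.Adj w a) :
    {b | (b, w) ∈ Ob ω a w} = Arr π (ω (0, w)) a := by
  classical
  have key : ∀ K, (orb ω a w K).2 = w → (orb ω a w K).1 ∈ Arr π (ω (0, w)) a := fun K => by
    induction K using Nat.strong_induction_on with
    | _ K ih =>
      intro hK
      rcases K with _ | K
      · exact mem_insert _ _
      have h1 : (orb ω a w (Nat.findGreatest (fun k => (orb ω a w k).2 = w) K)).2 = w :=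
        Nat.findGreatest_spec (P := fun k => (orb ω a w k).2 = w) (Nat.zero_le K) rfl
      have h2 := Nat.findGreatest_le (P := fun k => (orb ω a w k).2 = w) K
      have h3 : ∀ k, Nat.findGreatest (fun k => (orb ω a w k).2 = w) K < k → k ≤ K →
          (orb ω a w k).2 ≠ w := fun k => Nat.findGreatest_is_greatest
      generalize Nat.findGreatest (fun k => (orb ω a w k).2 = w) K = M at h1 h2 h3
      have h4 := qw4_succ (Prod.ext rfl h1 : orb ω a w M = ((orb ω a w M).1, w))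
      obtain ⟨j, hj⟩ : ∃ j, par (ω (0, w)) (orb ω a w M).1 = dep π (ω (0, w)) a j := by
        rcases ih M (by omega) h1 with e | ⟨j, e⟩
        · exact ⟨0, by rw [e]; rfl⟩
        · exact ⟨j + 1, by rw [← e]; rfl⟩
      rw [hj] at h4
      obtain ⟨L, hL⟩ := hπ _ (qw4_adj ha.symm h4)
      have h5 : Ret ω w (dep π (ω (0, w)) a j) (orb ω a w (K + 1)).1 (K - M) := by
        refine ⟨?_, fun i hi => ?_⟩
        · rw [← qw4_add h4, show M + 1 + (K - M) = K + 1 by omega]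
          exact Prod.ext rfl hK
        · rw [← qw4_add h4]
          exact h3 _ (by omega) (by omega)
      exact Or.inr ⟨j, (ret_unique hL h5).1⟩
  ext b
  constructor
  · rintro ⟨K, hK⟩
    have := key K (by rw [hK])
    rwa [hK] at this
  · rintro (rfl | ⟨j, rfl⟩)
    · exact ⟨0, rfl⟩
    · obtain ⟨K, -, h⟩ := link_dep hπ ha j
      obtain ⟨L, hL⟩ := hπ _ (qw4_adj ha.symm h)
      exact ⟨K + L, (qw4_add h L).trans hL.1⟩

section
variable [Countable V] [MeasurableSpace V] [DiscreteMeasurableSpace V]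

theorem meas_fin1 (w : V) : MeasurableSet {ω : Om G | Fin1 ω w} := by
  exact measurableSet_setOfPred.2 (.forall fun z => measurable_const.imp (.exists fun z' =>
    .exists fun L => .and
      ((measurable_of_countable fun p : V × V => p = (z', w)).comp (meas_orb w z L))
      (.forall fun j => measurable_const.imp
        ((measurable_of_countable fun p : V × V => p.2 ≠ w).comp (meas_orb w z j)))))

theorem qw4_esc (hG : ∀ v, ∃ w, G.Adj v w) (he : ∀ v, Even (G.degree v)) {v f : V}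
    (h : Pm G {ω | (fun t => Xm v t ω) ∈ Nv v} = 0) (hf : G.Adj v f) : Pm G (Esc v f) = 0 := by
  have h1 := dep_inter (fun i : ℕ × V => unif (Rk G i.2)) (T := {(0, v)}ᶜ) (T' := {(0, v)})
    (E' := {ω | ω (0, v) ∈ {r : Rk G v | r.1 f = 0}}) disjoint_compl_left (dep_esc v f)
    (fun ω ω' e hω => by rwa [mem_ofPred_eq, ← e _ rfl])
    (measurableSet_setOfPred.2 (.forall fun k => measurable_const.imp (meas_orb_ne v f v k)))
    (measurable_pi_apply (0, v) MeasurableSet.of_discrete)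
  have h2 : Pm G (Esc v f ∩ {ω | ω (0, v) ∈ {r : Rk G v | r.1 f = 0}}) = 0 :=
    measure_mono_null (fun ω hω => escape hG he rfl (Xm_nxt hG v ω) hf hω.2 hω.1) h
  have h3 := Pm_coord (G := G) (0, v) {r : Rk G v | r.1 f = 0}
  rw [unif_first hf] at h3
  rw [Pm] at h2 h3
  rw [h2, h3] at h1
  exact (mul_eq_zero.1 h1.symm).resolve_right (by simp)

theorem fin_ae (hG : ∀ v, ∃ w, G.Adj v w) (he : ∀ v, Even (G.degree v))
    (h : ∀ v, Pm G {ω | (fun t => Xm v t ω) ∈ Nv v} = 0) : ∀ᵐ ω ∂Pm G, AllFin ω := by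
  classical
  have h1 : ∀ᵐ ω ∂Pm G, ∀ v f, G.Adj v f → ω ∉ Esc v f :=
    ae_all_iff.2 fun v => ae_all_iff.2 fun f => ae_all_iff.2 fun hf =>
      measure_eq_zero_iff_ae_notMem.1 (qw4_esc hG he (h v) hf)
  filter_upwards [h1] with ω hω v f hf
  have h2 : ∃ m, (orb ω v f m).2 = v := by
    by_contra h3
    refine hω v f hf fun k hk e => h3 ?_
    obtain ⟨m, rfl⟩ := Nat.exists_eq_add_of_le' hk
    exact ⟨m, e⟩
  exact ⟨_, Nat.find h2, Prod.ext rfl (Nat.find_spec h2), fun j hj => Nat.find_min h2 hj⟩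

end

end Pool.Agent.P3fb035
end

-- part Pool.Agent.P.MP_3fb035_pr.QX2
section

/-! Two given pairs lie on one cycle with probability at least two thirds. -/

set_option autoImplicit false

open MeasureTheory Set
open scoped ENNReal symmDiff

namespace Pool.Agent.P3fb035

open Pool.Agent.Lib.GRW

variable {V : Type} {G : SimpleGraph V}
variable [G.LocallyFinite]

variable {w a : V} {π : V → V}

theorem qx2_half (he : Even (G.degree w)) (hπ : Prs G w π) (ha : G.Adj w a) {b : V}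
    (hb : G.Adj w b) (hba : b ≠ a) :
    unif (Rk G w) {r | ∀ j, dep π r a j ≠ b ∧ dep π r a j ≠ π b} ≤
      unif (Rk G w) {r | ∃ m, dep π r a m = b ∧ ∀ i < m, dep π r a i ≠ π b} := by
  classical
  have hc := (hπ a ha).1
  rw [← (unif_preserving (Rk.sw_sw hb hc)).measure_preimage
    (MeasurableSet.of_discrete (s := {r : Rk G w | ∃ m, dep π r a m = b ∧
      ∀ i < m, dep π r a i ≠ π b})).nullMeasurableSet]
  refine measure_mono fun r hr => ?_
  have hex := dep_close hπ ha r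
  obtain ⟨h1, h2⟩ := dep_sw hπ ha r hb hc (j := Nat.find hex) ⟨hba.symm, (hπ a ha).2.2.symm⟩
    fun i hi => ⟨⟨(hr i).1, Nat.find_min hex hi⟩, fun h => (hr i).2 (by
      rw [← h, (hπ _ (dep_adj hπ ha r i)).2.1]), fun h => (dep_pal he hπ ha r i i).1 (by
      rw [← (hπ _ (dep_adj hπ ha r i)).2.1, h, (hπ a ha).2.1])⟩
  refine ⟨Nat.find hex, ?_, fun i hi => ?_⟩
  · rw [h2, Nat.find_spec hex, Equiv.swap_apply_right]
  · rw [h1 i hi]
    exact (hr i).2

theorem two_thirds (he : Even (G.degree w)) (hπ : Prs G w π) (ha : G.Adj w a) {b : V}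
    (hb : G.Adj w b) :
    (2 / 3 : ℝ≥0∞) ≤ unif (Rk G w) {r | ∃ j, dep π r a j = b ∨ dep π r a j = π b} := by
  have one : ∀ S : Set (Rk G w), (∀ r, r ∈ S) → (2 / 3 : ℝ≥0∞) ≤ unif (Rk G w) S := fun S hS => by
    rw [eq_univ_of_forall hS, measure_univ]
    exact ENNReal.div_le_of_le_mul (by norm_num)
  by_cases hba : b = a
  · exact one _ fun r => (dep_close hπ ha r).imp fun j h => Or.inr (by rw [h, hba])
  by_cases hbc : b = π a
  · exact one _ fun r => (dep_close hπ ha r).imp fun j h => Or.inl (by rw [h, hbc])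
  obtain ⟨hb', hbb, hne⟩ := hπ b hb
  have h1 := qx2_half he hπ ha hb hba
  have h2 := qx2_half he hπ ha hb' fun h => hbc (by rw [← h, hbb])
  rw [hbb] at h2
  set S : Set (Rk G w) := {r | ∃ j, dep π r a j = b ∨ dep π r a j = π b} with hS
  have e1 : {r : Rk G w | ∀ j, dep π r a j ≠ b ∧ dep π r a j ≠ π b} = Sᶜ := by
    ext r
    simp only [hS, mem_compl_iff, mem_ofPred_eq, not_exists, not_or]
  have e2 : {r : Rk G w | ∀ j, dep π r a j ≠ π b ∧ dep π r a j ≠ b} = Sᶜ := by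
    rw [← e1]
    simp only [and_comm]
  rw [e1] at h1
  rw [e2] at h2
  have hd : Disjoint {r : Rk G w | ∃ m, dep π r a m = b ∧ ∀ i < m, dep π r a i ≠ π b}
      {r : Rk G w | ∃ m, dep π r a m = π b ∧ ∀ i < m, dep π r a i ≠ b} := by
    refine disjoint_left.2 ?_
    rintro r ⟨m, k1, k2⟩ ⟨m', l1, l2⟩
    rcases lt_trichotomy m m' with h | h | h
    · exact l2 m h k1
    · exact hne (by rw [← l1, ← h, k1])
    · exact k2 m' h l1
  have h3 := add_le_add h1 h2
  rw [← measure_union hd MeasurableSet.of_discrete] at h3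
  have h4 : unif (Rk G w) Sᶜ + unif (Rk G w) Sᶜ ≤ unif (Rk G w) S := by
    refine h3.trans (measure_mono ?_)
    rintro r (⟨m, k, _⟩ | ⟨m, k, _⟩)
    · exact ⟨m, Or.inl k⟩
    · exact ⟨m, Or.inr k⟩
  have h5 : unif (Rk G w) S + unif (Rk G w) Sᶜ = 1 := by
    rw [measure_add_measure_compl MeasurableSet.of_discrete, measure_univ]
  refine ENNReal.div_le_of_le_mul ?_
  calc (2 : ℝ≥0∞) = (unif (Rk G w) S + unif (Rk G w) Sᶜ) + (unif (Rk G w) S + unif (Rk G w) Sᶜ) := by
        rw [h5]; norm_num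
    _ = unif (Rk G w) S * 2 + (unif (Rk G w) Sᶜ + unif (Rk G w) Sᶜ) := by ring
    _ ≤ unif (Rk G w) S * 2 + unif (Rk G w) S := add_le_add le_rfl h4
    _ = unif (Rk G w) S * 3 := by ring

end Pool.Agent.P3fb035
end

-- part Pool.Agent.P.MP_3fb035_pr.QW2
section

/-! Two given pairs lie on one cycle with probability at least two thirds. -/

set_option autoImplicit false

open MeasureTheory Set
open scoped ENNReal symmDiff

namespace Pool.Agent.P3fb035

open Pool.Agent.Lib.GRW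

variable {V : Type} {G : SimpleGraph V}
variable [G.LocallyFinite]

variable {w a : V} {π : V → V}

/-- neighbours that are neither arrivals up to index `j` nor departures before index `j` -/
def qw2_Free (π : V → V) (r : Rk G w) (a : V) (j : ℕ) (u : V) : Prop :=
  a ≠ u ∧ ∀ i < j, dep π r a i ≠ u ∧ π (dep π r a i) ≠ u

theorem qw2_close (he : Even (G.degree w)) (hπ : Prs G w π) (ha : G.Adj w a) (r : Rk G w) {j : ℕ}
    (h : ∀ l < j, dep π r a l ≠ π a) : qw2_Free π r a j (π a) := by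
  refine ⟨(hπ a ha).2.2.symm, fun i hi => ⟨h i hi, fun e => (dep_pal he hπ ha r i i).1 ?_⟩⟩
  rw [← (hπ _ (dep_adj hπ ha r i)).2.1, e, (hπ a ha).2.1]

theorem qw2_next (he : Even (G.degree w)) (hπ : Prs G w π) (ha : G.Adj w a) (r : Rk G w) {j : ℕ}
    (h : ∀ l < j, dep π r a l ≠ π a) : qw2_Free π r a j (dep π r a j) :=
  ⟨(dep_pal he hπ ha r j j).1.symm, fun i hi =>
    ⟨dep_inj hπ ha r hi h, (dep_pal he hπ ha r j i).2.symm⟩⟩

open Classical in
theorem qw2_sw (hπ : Prs G w π) (ha : G.Adj w a) (r : Rk G w) {u u' : V} (hu : G.Adj w u)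
    (hu' : G.Adj w u') {j : ℕ} (h : qw2_Free π r a j u) (h' : qw2_Free π r a j u') :
    (∀ i < j, dep π (Rk.sw hu hu' r) a i = dep π r a i) ∧
      dep π (Rk.sw hu hu' r) a j = Equiv.swap u u' (dep π r a j) :=
  dep_sw hπ ha r hu hu' ⟨h.1, h'.1⟩ fun i hi =>
    ⟨⟨(h.2 i hi).1, (h'.2 i hi).1⟩, (h.2 i hi).2, (h'.2 i hi).2⟩

theorem qw2_exch (he : Even (G.degree w)) (hπ : Prs G w π) (ha : G.Adj w a) (j : ℕ) {u : V}
    (hu : G.Adj w u) :
    unif (Rk G w) {r | (∀ l < j, dep π r a l ≠ π a) ∧ dep π r a j = u} =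
      unif (Rk G w) {r | ((∀ l < j, dep π r a l ≠ π a) ∧ dep π r a j = π a) ∧
        qw2_Free π r a j u} := by
  classical
  have hc := (hπ a ha).1
  rw [← (unif_preserving (Rk.sw_sw hc hu)).measure_preimage
    (s := {r | ((∀ l < j, dep π r a l ≠ π a) ∧ dep π r a j = π a) ∧ qw2_Free π r a j u})
    MeasurableSet.of_discrete.nullMeasurableSet]
  congr 1
  ext r
  simp only [mem_preimage, mem_ofPred_eq]
  constructor
  · rintro ⟨h1, h2⟩
    have h3 := qw2_next he hπ ha r h1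
    rw [h2] at h3
    obtain ⟨h4, h5⟩ := qw2_sw hπ ha r hc hu (qw2_close he hπ ha r h1) h3
    refine ⟨⟨fun l hl => (h4 l hl).symm ▸ h1 l hl, by rw [h5, h2, Equiv.swap_apply_right]⟩,
      h3.1, fun i hi => (h4 i hi).symm ▸ h3.2 i hi⟩
  · rintro ⟨⟨h1, h2⟩, h3⟩
    obtain ⟨h4, h5⟩ := qw2_sw hπ ha _ hc hu (qw2_close he hπ ha _ h1) h3
    rw [Rk.sw_sw hc hu r] at h4 h5
    exact ⟨fun l hl => (h4 l hl).symm ▸ h1 l hl, by rw [h5, h2, Equiv.swap_apply_left]⟩

open Classical in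
theorem qw2_card {k : ℕ} (hk : G.degree w = 2 * k) (hπ : Prs G w π) (ha : G.Adj w a) (r : Rk G w)
    {j : ℕ} (h : ∀ l < j, dep π r a l ≠ π a) :
    ((G.neighborFinset w).filter (qw2_Free π r a j)).card = 2 * (k - j) - 1 := by
  have he : Even (G.degree w) := ⟨k, by omega⟩
  have hinj : Set.InjOn (dep π r a) (Finset.range j : Set ℕ) := by
    intro i hi i' hi' e
    simp only [Finset.coe_range, mem_Iio] at hi hi'
    rcases lt_trichotomy i i' with h1 | h1 | h1
    · exact absurd e (dep_inj hπ ha r h1 fun l hl => h l (by omega))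
    · exact h1
    · exact absurd e.symm (dep_inj hπ ha r h1 fun l hl => h l (by omega))
  have hinj' : Set.InjOn (fun i => π (dep π r a i)) (Finset.range j : Set ℕ) := by
    intro i hi i' hi' e
    refine hinj hi hi' ?_
    rw [← (hπ _ (dep_adj hπ ha r i)).2.1, show π (dep π r a i) = π (dep π r a i') from e,
      (hπ _ (dep_adj hπ ha r i')).2.1]
  let T : Finset V := insert a ((Finset.range j).image (dep π r a) ∪
    (Finset.range j).image fun i => π (dep π r a i))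
  have h1 : T.card = 1 + 2 * j := by
    rw [Finset.card_insert_of_notMem, Finset.card_union_of_disjoint,
      Finset.card_image_of_injOn hinj, Finset.card_image_of_injOn hinj', Finset.card_range]
    · omega
    · refine Finset.disjoint_left.2 fun x h1 h2 => ?_
      obtain ⟨i, -, rfl⟩ := Finset.mem_image.1 h1
      obtain ⟨i', -, e⟩ := Finset.mem_image.1 h2
      exact (dep_pal he hπ ha r i i').2 e.symm
    · intro h1
      rcases Finset.mem_union.1 h1 with h1 | h1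
      · obtain ⟨i, -, e⟩ := Finset.mem_image.1 h1
        exact (dep_pal he hπ ha r i i).1 e
      · obtain ⟨i, hi, e⟩ := Finset.mem_image.1 h1
        refine h i (Finset.mem_range.1 hi) ?_
        rw [← (hπ _ (dep_adj hπ ha r i)).2.1, e]
  have h2 : T ⊆ G.neighborFinset w := by
    intro x hx
    rw [SimpleGraph.mem_neighborFinset]
    rcases Finset.mem_insert.1 hx with rfl | hx
    · exact ha
    rcases Finset.mem_union.1 hx with hx | hx
    · obtain ⟨i, -, rfl⟩ := Finset.mem_image.1 hx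
      exact dep_adj hπ ha r i
    · obtain ⟨i, -, rfl⟩ := Finset.mem_image.1 hx
      exact (hπ _ (dep_adj hπ ha r i)).1
  have h3 : (G.neighborFinset w).filter (qw2_Free π r a j) = G.neighborFinset w \ T := by
    ext x
    simp only [Finset.mem_filter, Finset.mem_sdiff, T, Finset.mem_insert, Finset.mem_union,
      Finset.mem_image, Finset.mem_range, qw2_Free, not_or, not_exists, not_and]
    refine and_congr_right fun _ => ⟨fun h4 => ⟨h4.1.symm, fun i hi => (h4.2 i hi).1,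
      fun i hi => (h4.2 i hi).2⟩, fun h4 => ⟨Ne.symm h4.1, fun i hi => ⟨h4.2.1 i hi, h4.2.2 i hi⟩⟩⟩
  rw [h3, Finset.card_sdiff_of_subset h2, h1, G.card_neighborFinset_eq_degree, hk]
  omega

theorem close_prob {k : ℕ} (hk : G.degree w = 2 * k) (hπ : Prs G w π) (ha : G.Adj w a) {j : ℕ}
    (hj : j < k) :
    unif (Rk G w) {r | ∀ l < j, dep π r a l ≠ π a} = ((2 * (k - j) - 1 : ℕ) : ℝ≥0∞) *
      unif (Rk G w) {r | (∀ l < j, dep π r a l ≠ π a) ∧ dep π r a j = π a} := by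
  classical
  have he : Even (G.degree w) := ⟨k, by omega⟩
  have h1 : {r : Rk G w | ∀ l < j, dep π r a l ≠ π a} = ⋃ u ∈ G.neighborFinset w,
      {r | (∀ l < j, dep π r a l ≠ π a) ∧ dep π r a j = u} := by
    ext r
    simp only [mem_iUnion, mem_ofPred_eq, SimpleGraph.mem_neighborFinset]
    exact ⟨fun h => ⟨_, dep_adj hπ ha r j, h, rfl⟩, fun ⟨_, _, h, _⟩ => h⟩
  rw [h1, measure_biUnion_finset (fun u _ u' _ hne => disjoint_left.2 fun r e e' =>
      hne (e.2.symm.trans e'.2)) fun _ _ => MeasurableSet.of_discrete,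
    Finset.sum_congr rfl fun u hu => qw2_exch he hπ ha j ((G.mem_neighborFinset _ _).1 hu),
    ← lintegral_indicator_const MeasurableSet.of_discrete]
  simp only [← lintegral_indicator_one MeasurableSet.of_discrete]
  rw [← lintegral_finsetSum _ fun _ _ => Measurable.of_discrete]
  refine lintegral_congr fun r => ?_
  by_cases hr : (∀ l < j, dep π r a l ≠ π a) ∧ dep π r a j = π a
  · rw [indicator_of_mem (by exact hr), ← qw2_card hk hπ ha r hr.1, Finset.card_filter]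
    push_cast
    refine Finset.sum_congr rfl fun u _ => ?_
    by_cases hu : qw2_Free π r a j u
    · rw [indicator_of_mem (by exact ⟨hr, hu⟩), if_pos hu]; rfl
    · rw [indicator_of_notMem (by exact fun h => hu h.2), if_neg hu]
  · rw [indicator_of_notMem (by exact hr)]
    exact Finset.sum_eq_zero fun u _ => indicator_of_notMem (by exact fun h => hr h.1) _

end Pool.Agent.P3fb035
end

-- part Pool.Agent.P.MP_3fb035_pr.QX5
section

/-! Deep trails: deterministic part. -/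

set_option autoImplicit false

open MeasureTheory Set
open scoped ENNReal symmDiff

namespace Pool.Agent.P3fb035

open Pool.Agent.Lib.GRW

variable {V : Type} {G : SimpleGraph V}
variable [G.LocallyFinite]

variable {v z : V} {γ δ : Set V} {n : ℕ}

theorem orb_mem {ω : Om G} (hγ : Clo G γ {v}) (hz : z ∈ γ) (hvz : G.Adj v z)
    (h : ∀ j < n, (orb ω v z j).2 ≠ v) : ∀ j < n, (orb ω v z j).2 ∈ γ := by
  intro j
  induction j with
  | zero => exact fun _ => hz
  | succ j ih =>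
    intro hj
    exact (hγ _ (ih (by omega)) _ (orb_adj ω hvz (j + 1))).resolve_right (h _ hj)

theorem ret_mem {ω : Om G} (hγ : Clo G γ {v}) (hz : z ∈ γ) (hvz : G.Adj v z) {z' : V}
    (h : Ret ω v z z' n) : z' ∈ γ := by
  cases n with
  | zero => exact absurd (congrArg Prod.snd h.1).symm hvz.ne
  | succ n =>
    have h1 : (orb ω v z n).2 = z' := congrArg Prod.fst h.1
    exact h1 ▸ orb_mem hγ hz hvz h.2 n (Nat.lt_succ_self n)

theorem deep_dep (hγ : Clo G γ {v}) (n : ℕ) : Dep {i : ℕ × V | i.2 ∈ γ} (Deep G n v γ) := by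
  rintro ω ω' h ⟨z, hz, hvz, hn⟩
  have hm := orb_mem hγ hz hvz hn
  have key : ∀ j < n, orb ω' v z j = orb ω v z j := by
    intro j
    induction j with
    | zero => exact fun _ => rfl
    | succ j ih =>
      intro hj
      rw [orb, orb, ih (by omega), h (0, (orb ω v z j).2) (hm j (by omega))]
  exact ⟨z, hz, hvz, fun j hj => by rw [key j hj]; exact hn j hj⟩

theorem deep_link {ω : Om G} {π : V → V} (hγ : Clo G γ {v}) (hz : z ∈ γ) (hvz : G.Adj v z)
    (hδ : Clo G δ {z}) (hv : v ∉ δ) (hπ : ∀ y, G.Adj z y → ∃ L, Ret ω z y (π y) L) {b : V}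
    (hb : b ∈ δ) (hzb : G.Adj z b) (hl : ∀ j < n, (orb ω z b j).2 ≠ z) {j : ℕ}
    (hj : dep π (ω (0, z)) v j = b ∨ dep π (ω (0, z)) v j = π b) : ω ∈ Deep G (n + 1) v γ := by
  classical
  obtain ⟨b', hb', hzb', hl', e⟩ : ∃ b' ∈ δ, G.Adj z b' ∧ (∀ j < n, (orb ω z b' j).2 ≠ z) ∧
      dep π (ω (0, z)) v j = b' := by
    rcases hj with hj | hj
    · exact ⟨b, hb, hzb, hl, hj⟩
    · obtain ⟨L, hL⟩ := hπ b hzb
      have h1 : n ≤ L := not_lt.1 fun h => hl L h (congrArg Prod.snd hL.1)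
      obtain ⟨h2, h3⟩ := ret_symm hzb hL
      exact ⟨π b, ret_mem hδ hb hzb hL, h2, fun j hj => h3.2 j (by omega), hj⟩
  obtain ⟨K, -, hK⟩ := link_dep hπ hvz.symm j
  rw [e] at hK
  obtain ⟨K0, h0, h1, h2⟩ : ∃ K0, K0 ≤ K ∧ (orb ω v z K0).1 = v ∧
      ∀ t, K0 < t → t ≤ K → (orb ω v z t).1 ≠ v :=
    ⟨Nat.findGreatest (fun t => (orb ω v z t).1 = v) K, Nat.findGreatest_le K,
      Nat.findGreatest_spec (P := fun t => (orb ω v z t).1 = v) (Nat.zero_le K) rfl,
      fun t ht ht' => Nat.findGreatest_is_greatest ht ht'⟩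
  have h3 : K0 < K := lt_of_le_of_ne h0 fun h => by
    rw [h, hK] at h1
    exact hvz.ne h1.symm
  have h4 : ∀ s t, t + s = K → K0 < t → (orb ω v z t).1 ∈ γ := by
    intro s
    induction s with
    | zero =>
      intro t ht _
      rw [show t = K from ht, hK]
      exact hz
    | succ s ih =>
      intro t ht ht'
      exact (hγ _ (ih (t + 1) (by omega) (by omega)) _ (orb_adj ω hvz t).symm).resolve_right
        (h2 t ht' (by omega))
  refine ⟨(orb ω v z K0).2, h4 (K - (K0 + 1)) (K0 + 1) (by omega) (by omega), ?_, fun i hi => ?_⟩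
  · have := orb_adj ω hvz K0
    rwa [h1] at this
  · have h5 := orb_add ω v z K0 i
    rw [h1] at h5
    rw [h5]
    rcases lt_or_ge (K0 + i) K with h6 | h6
    · exact h2 (K0 + i + 1) (by omega) h6
    · obtain ⟨c, hc⟩ := Nat.exists_eq_add_of_le h6
      have h7 := orb_add ω v z K c
      rw [hK] at h7
      rw [hc, ← h7]
      exact fun h8 => hv (h8 ▸ orb_mem hδ hb' hzb' hl' c (by omega))

end Pool.Agent.P3fb035
end

-- part Pool.Agent.P.MP_3fb035_pr.QW5
section

/-! Deep trails: one step of the recursion. -/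

set_option autoImplicit false

open MeasureTheory Set
open scoped ENNReal symmDiff

namespace Pool.Agent.P3fb035

open Pool.Agent.Lib.GRW

variable {V : Type} {G : SimpleGraph V}
variable [G.LocallyFinite]

variable {v z : V} {γ δ : Set V} {n : ℕ}

variable [Countable V] [MeasurableSpace V] [DiscreteMeasurableSpace V]

theorem deep_meas (n : ℕ) (v : V) (γ : Set V) : MeasurableSet (Deep G n v γ) :=
  measurableSet_setOfPred.2 (.exists fun z => measurable_const.and (measurable_const.and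
    (.forall fun j => measurable_const.imp
      ((measurable_of_countable fun p : V × V => p.2 ≠ v).comp (meas_orb v z j)))))

theorem deep_step (he : ∀ v, Even (G.degree v)) (hf : ∀ᵐ ω ∂Pm G, AllFin ω) (hγ : Clo G γ {v})
    (hz : z ∈ γ) (hvz : G.Adj v z) (hδ : Clo G δ {z}) (hv : v ∉ δ) (n : ℕ) :
    2 / 3 * Pm G (Deep G n z δ) ≤ Pm G (Deep G n z δ ∩ Deep G (n + 1) v γ) := by
  have hzδ : z ∉ δ := fun h => (hδ z h v hvz.symm).elim hv fun e => hvz.ne e
  have hu : ∀ (ω : Om G) (r : Rk G z), ∀ i ∈ {i : ℕ × V | i.2 ∈ δ}, upd ω z r i = ω i :=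
    fun ω r i hi => upd_ne ω z r fun e => hzδ (by rwa [e] at hi)
  have hd : ∀ (ω : Om G) (r : Rk G z), upd ω z r ∈ Deep G n z δ ↔ ω ∈ Deep G n z δ := fun ω r =>
    ⟨deep_dep hδ n _ _ (hu ω r), deep_dep hδ n _ _ fun i hi => (hu ω r i hi).symm⟩
  have h1 : Pm G (Deep G n z δ) ≤ Pm G (Deep G n z δ ∩ {ω | Fin1 ω z}) :=
    measure_mono_ae (hf.mono fun ω hω h => ⟨h, hω z⟩)
  have h2 := resample_lb z ((deep_meas n z δ).inter (meas_fin1 z)) (deep_meas (n + 1) v γ)
    (fun ω r => and_congr (hd ω r) (fin1_upd r)) (c := 2 / 3) (by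
      rintro ω ⟨⟨b, hb, hzb, hl⟩, hω⟩
      obtain ⟨π, hπ, hR⟩ := exists_prs he hω
      refine (two_thirds (he z) hπ hvz.symm hzb).trans (measure_mono ?_)
      rintro r ⟨j, hj⟩
      refine deep_link (π := π) hγ hz hvz hδ hv
        (fun y hy => (hR y hy).imp fun L hL => (ret_upd r).2 hL) hb hzb (fun i hi => ?_) (j := j) ?_
      · rw [orb_upd r hl i hi.le]
        exact hl i hi
      · rwa [upd_self])
  exact ((mul_le_mul_right h1 _).trans h2).trans
    (measure_mono (inter_subset_inter_left _ inter_subset_left))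

end Pool.Agent.P3fb035
end

-- part Pool.Agent.P.MP_3fb035_pr.QW6
section

/-! Even degree and cut vertices: infinite trails exist. -/

set_option autoImplicit false

open MeasureTheory Set
open scoped ENNReal symmDiff

namespace Pool.Agent.P3fb035

open Pool.Agent.Lib.GRW

variable {V : Type} {G : SimpleGraph V}
variable [G.LocallyFinite]

omit [G.LocallyFinite] in
theorem two_ninths {p q r : ℝ} (hp : 2 / 9 ≤ p) (hq : 2 / 9 ≤ q) (h1 : 2 / 3 * p ≤ r)
    (h2 : 2 / 3 * q ≤ r) (h : 2 / 3 * p + 2 / 3 * q - p * q ≤ r) : 2 / 9 ≤ r := by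
  by_cases h3 : 1 / 3 ≤ p
  · linarith
  by_cases h4 : 1 / 3 ≤ q
  · linarith
  nlinarith [mul_nonneg (sub_nonneg.2 hp) (sub_nonneg.2 (not_le.1 h4).le)]

variable [Countable V] [MeasurableSpace V] [DiscreteMeasurableSpace V]

theorem deep_ge (hc : G.Preconnected) (ht : Tr G) (h2 : ¬Two G) (he : ∀ v, Even (G.degree v))
    (hf : ∀ᵐ ω ∂Pm G, AllFin ω) (n : ℕ) {v a : V} (ha : G.Adj v a) :
    2 / 9 ≤ Pm G (Deep G n v (Cp G {v} a)) := by
  induction n generalizing v a with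
  | zero =>
    have h0 : Deep G 0 v (Cp G {v} a) = univ :=
      eq_univ_of_forall fun ω => ⟨a, mem_cp _ _, ha, fun j hj => absurd hj (Nat.not_lt_zero j)⟩
    rw [h0, measure_univ]
    exact ENNReal.div_le_of_le_mul (by norm_num)
  | succ n ih =>
    obtain ⟨ω₀, hω₀⟩ := hf.exists
    obtain ⟨z, L, hr⟩ := hω₀ v a ha
    have hγ := cp_clo (G := G) {v} a
    have hz := (ret_symm ha hr).1
    have hne := ret_ne he ha hr
    have hzγ := ret_mem hγ (mem_cp _ _) ha hr
    obtain ⟨b, hab, hb, -⟩ := other_branch hc ht h2 ha.ne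
    obtain ⟨b', hzb, hb', -⟩ := other_branch hc ht h2 hz.ne
    have h3 : z ∉ Cp G {a} b := fun h =>
      (cp_clo {a} b z h v hz.symm).elim hb fun e => ha.ne e
    have h4 : a ∉ Cp G {z} b' := fun h =>
      (cp_clo {z} b' a h v ha.symm).elim hb' fun e => hz.ne e
    have hd : Disjoint (Cp G {a} b) (Cp G {z} b') := by
      refine disjoint_left.2 fun c h5 h6 => ?_
      have h7 := (cp_con (G := G) (W := {a}) hab.ne').sub_cp (W := {z})
        (disjoint_singleton_right.2 h3) h5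
      rw [cp_eq (W := {z}) hzb.ne' h6] at h7
      exact (cp_clo {z} b' b (h7 (mem_cp _ _)) a hab.symm).elim h4 fun e => hne e.symm
    have e1 := deep_step he hf hγ (mem_cp _ _) ha (cp_clo {a} b) hb n
    have e2 := deep_step he hf hγ hzγ hz (cp_clo {z} b') hb' n
    have e3 := dep_inter (fun i : ℕ × V => unif (Rk G i.2))
      (T := {i : ℕ × V | i.2 ∈ Cp G {a} b}) (T' := {i : ℕ × V | i.2 ∈ Cp G {z} b'})
      (disjoint_left.2 fun i h h' => disjoint_left.1 hd h h') (deep_dep (cp_clo {a} b) n)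
      (deep_dep (cp_clo {z} b') n) (deep_meas _ _ _) (deep_meas _ _ _)
    change Pm G _ = Pm G _ * Pm G _ at e3
    have e4 := ih hab
    have e5 := ih hzb
    generalize Deep G n a (Cp G {a} b) = D at e1 e3 e4
    have hm := deep_meas (G := G) n z (Cp G {z} b')
    generalize Deep G n z (Cp G {z} b') = D' at e2 e3 e5 hm
    have hm' := deep_meas (G := G) (n + 1) v (Cp G {v} a)
    generalize Deep G (n + 1) v (Cp G {v} a) = B at e1 e2 hm' ⊢
    have e6 := measure_union_add_inter (μ := Pm G) (D ∩ B) (hm.inter hm')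
    have e7 : Pm G (D ∩ B ∪ D' ∩ B) ≤ Pm G B :=
      measure_mono (union_subset inter_subset_right inter_subset_right)
    have e8 : Pm G (D ∩ B ∩ (D' ∩ B)) ≤ Pm G (D ∩ D') :=
      measure_mono (inter_subset_inter inter_subset_left inter_subset_left)
    have e9 : Pm G (D ∩ B) ≤ Pm G B := measure_mono inter_subset_right
    have e10 : Pm G (D' ∩ B) ≤ Pm G B := measure_mono inter_subset_right
    have c1 : ((2 : ℝ≥0∞) / 9).toReal = 2 / 9 := by simp [ENNReal.toReal_div]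
    have c2 : ((2 : ℝ≥0∞) / 3).toReal = 2 / 3 := by simp [ENNReal.toReal_div]
    have c3 : (2 : ℝ≥0∞) / 9 ≠ ∞ := ENNReal.div_ne_top (by simp) (by simp)
    have f1 := ENNReal.toReal_mono (measure_ne_top _ _) e1
    have f2 := ENNReal.toReal_mono (measure_ne_top _ _) e2
    have f3 := congrArg ENNReal.toReal e3
    have f4 := ENNReal.toReal_mono (measure_ne_top _ _) e4
    have f5 := ENNReal.toReal_mono (measure_ne_top _ _) e5
    have f6 := congrArg ENNReal.toReal e6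
    have f7 := ENNReal.toReal_mono (measure_ne_top _ _) e7
    have f8 := ENNReal.toReal_mono (measure_ne_top _ _) e8
    have f9 := ENNReal.toReal_mono (measure_ne_top _ _) e9
    have f10 := ENNReal.toReal_mono (measure_ne_top _ _) e10
    rw [ENNReal.toReal_add (measure_ne_top _ _) (measure_ne_top _ _),
      ENNReal.toReal_add (measure_ne_top _ _) (measure_ne_top _ _)] at f6
    rw [ENNReal.toReal_mul] at f1 f2 f3
    rw [c2] at f1 f2
    rw [c1] at f4 f5
    rw [← ENNReal.toReal_le_toReal c3 (measure_ne_top _ _), c1]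
    exact two_ninths f4 f5 (by linarith) (by linarith) (by linarith)

theorem cv_even (hc : G.Preconnected) (ht : Tr G) (h2 : ¬Two G) (he : ∀ v, Even (G.degree v)) :
    ¬∀ᵐ ω ∂Pm G, AllFin ω := by
  intro hf
  obtain ⟨v, -⟩ := not_forall.1 h2
  obtain ⟨a, -, ha, -⟩ := cut_all hc ht h2 v
  have h1 : Antitone fun n => Deep G n v (Cp G {v} a) :=
    fun n m hnm ω ⟨z, h1, h3, h4⟩ => ⟨z, h1, h3, fun j hj => h4 j (hj.trans_le hnm)⟩
  have h3 := h1.measure_iInter (μ := Pm G) (fun n => (deep_meas n v _).nullMeasurableSet)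
    ⟨0, measure_ne_top _ _⟩
  have h4 : Pm G (⋂ n, Deep G n v (Cp G {v} a)) = 0 := by
    refine measure_mono_null (t := {ω | ¬AllFin ω}) (fun ω hω h5 => ?_) (ae_iff.1 hf)
    choose! z L h6 using h5 v
    obtain ⟨y, -, h7, h8⟩ := mem_iInter.1 hω ((G.neighborFinset v).sup L + 1)
    exact h8 (L y) (Nat.lt_succ_of_le (Finset.le_sup ((G.mem_neighborFinset _ _).2 h7)))
      (by rw [(h6 y h7).1])
  have h5 : (2 : ℝ≥0∞) / 9 ≤ 0 := by
    rw [← h4, h3]
    exact le_iInf fun n => deep_ge hc ht h2 he hf n ha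
  simp at h5

end Pool.Agent.P3fb035
end

-- part Pool.Agent.P.MP_3fb035_pr.QS1
section

/-! The probability of a trajectory. -/

set_option autoImplicit false

open MeasureTheory Set
open scoped ENNReal symmDiff

namespace Pool.Agent.P3fb035

open Pool.Agent.Lib.GRW

variable {V : Type} {G : SimpleGraph V}
variable [Countable V] [MeasurableSpace V] [DiscreteMeasurableSpace V]
  {Ω : Type} [MeasurableSpace Ω] {P : Measure Ω} {X : ℕ → Ω → V}

private theorem qs1_step (D : ℕ) : (D + 3) ^ (D + 1) ≤ 3 * (D + 1) * (D + 2) ^ D := by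
  rcases Nat.lt_or_ge D 2 with h | h
  · interval_cases D <;> norm_num
  have hD : (2 : ℝ) ≤ D := by exact_mod_cast h
  have h1 : (1 + ((D + 2 : ℕ) : ℝ)⁻¹) ^ (D + 2) ≤ Real.exp 1 := Real.one_add_inv_pow_le_exp
  have h2 : Real.exp 1 ≤ 11 / 4 := Real.exp_one_lt_d9.le.trans (by norm_num)
  have h3 : (1 + ((D + 2 : ℕ) : ℝ)⁻¹) = ((D : ℝ) + 3) / (D + 2) := by
    push_cast
    field_simp
    ring
  rw [h3, div_pow, div_le_iff₀ (by positivity)] at h1
  have h4 : ((D : ℝ) + 3) ^ (D + 1) ≤ 3 * (D + 1) * ((D : ℝ) + 2) ^ D := by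
    refine le_of_mul_le_mul_right ?_ (show (0 : ℝ) < D + 3 by positivity)
    have h5 : (0 : ℝ) ≤ ((D : ℝ) + 2) ^ D := by positivity
    have h6 : 11 / 4 * ((D : ℝ) + 2) ^ 2 ≤ 3 * (D + 1) * (D + 3) := by nlinarith
    calc ((D : ℝ) + 3) ^ (D + 1) * (D + 3) = ((D : ℝ) + 3) ^ (D + 2) := by ring
      _ ≤ 11 / 4 * ((D : ℝ) + 2) ^ (D + 2) :=
          h1.trans (mul_le_mul_of_nonneg_right h2 (by positivity))
      _ = 11 / 4 * ((D : ℝ) + 2) ^ 2 * ((D : ℝ) + 2) ^ D := by ring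
      _ ≤ 3 * (D + 1) * (D + 3) * ((D : ℝ) + 2) ^ D := mul_le_mul_of_nonneg_right h6 h5
      _ = _ := by ring
  exact_mod_cast h4

private theorem qs1_full (D : ℕ) : (D + 2) ^ D ≤ ∏ i ∈ Finset.Ioc 0 D, (3 * i) := by
  induction D with
  | zero => simp
  | succ D ih =>
    rw [Finset.prod_Ioc_succ_top (Nat.zero_le D), mul_comm]
    exact (qs1_step D).trans (Nat.mul_le_mul_left _ ih)

omit [Countable V] [MeasurableSpace V] [DiscreteMeasurableSpace V] in
theorem pot_ge {d D a : ℕ} (hd : d ≠ 0) (hD : d ≤ D + 2) :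
    d ^ (D - a) ≤ ∏ i ∈ Finset.Ioc a D, (3 * i) := by
  rcases Nat.lt_or_ge D a with h | h
  · rw [Nat.sub_eq_zero_of_le h.le, Finset.Ioc_eq_empty (by omega)]
    simp
  rcases Nat.lt_or_ge (3 * (a + 1)) d with h' | h'
  · have h1 : ∏ i ∈ Finset.Ioc 0 a, (3 * i) ≤ d ^ a := by
      have := Finset.prod_le_pow_card (Finset.Ioc 0 a) (fun i => 3 * i) d fun i hi => by
        have := (Finset.mem_Ioc.1 hi).2
        omega
      rwa [Nat.card_Ioc, Nat.sub_zero] at this
    refine Nat.le_of_mul_le_mul_left ?_ (Nat.pow_pos (n := a) (Nat.pos_of_ne_zero hd))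
    calc d ^ a * d ^ (D - a) = d ^ D := by rw [← pow_add, Nat.add_sub_cancel' h]
      _ ≤ (D + 2) ^ D := Nat.pow_le_pow_left hD D
      _ ≤ ∏ i ∈ Finset.Ioc 0 D, (3 * i) := qs1_full D
      _ = (∏ i ∈ Finset.Ioc 0 a, (3 * i)) * ∏ i ∈ Finset.Ioc a D, (3 * i) :=
          (Finset.prod_Ioc_consecutive _ (Nat.zero_le a) h).symm
      _ ≤ _ := Nat.mul_le_mul_right _ h1
  · have := Finset.pow_card_le_prod (Finset.Ioc a D) (fun i => 3 * i) d fun i hi => by
      have := (Finset.mem_Ioc.1 hi).1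
      omega
    rwa [Nat.card_Ioc] at this

/-- the potential of one vertex -/
private noncomputable def qs1Psi (d D a : ℕ) : ℝ≥0∞ :=
  ∏ i ∈ Finset.Ioc a D, (3 * (i : ℝ≥0∞) * (d : ℝ≥0∞)⁻¹)

private theorem qs1_one_le {d D a : ℕ} (hd : d ≠ 0) (hD : d ≤ D + 2) : 1 ≤ qs1Psi d D a := by
  have h1 : ((d ^ (D - a) : ℕ) : ℝ≥0∞) ≤ ((∏ i ∈ Finset.Ioc a D, (3 * i) : ℕ) : ℝ≥0∞) :=
    Nat.cast_le.2 (pot_ge hd hD)
  have h2 : (d : ℝ≥0∞) * (d : ℝ≥0∞)⁻¹ = 1 :=
    ENNReal.mul_inv_cancel (Nat.cast_ne_zero.2 hd) (ENNReal.natCast_ne_top d)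
  push_cast at h1
  rw [qs1Psi, Finset.prod_mul_distrib, Finset.prod_const, Nat.card_Ioc]
  calc (1 : ℝ≥0∞) = (d : ℝ≥0∞) ^ (D - a) * (d : ℝ≥0∞)⁻¹ ^ (D - a) := by rw [← mul_pow, h2, one_pow]
    _ ≤ _ := mul_le_mul_left h1 _

private theorem qs1_psi_succ (d : ℕ) {D a : ℕ} (h : a + 1 ≤ D) :
    qs1Psi d D a = qs1Psi d D (a + 1) * (3 * ((a + 1 : ℕ) : ℝ≥0∞) * (d : ℝ≥0∞)⁻¹) := by
  rw [qs1Psi, qs1Psi, ← Finset.prod_Ioc_consecutive _ (Nat.le_succ a) h, Nat.Ioc_succ_singleton,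
    Finset.prod_singleton, mul_comm]

omit [Countable V] [MeasurableSpace V] [DiscreteMeasurableSpace V] in
private theorem qs1_dg_mono {d : ℕ} (hr : Reg G d) {A B : Set (Sym2 V)} (h : A ⊆ B) (v : V) :
    dg G A v ≤ dg G B v :=
  ncard_le_ncard (fun _ hw => ⟨hw.1, h hw.2⟩) ((hr v).1.subset fun _ hw => hw.1)

omit [Countable V] [MeasurableSpace V] [DiscreteMeasurableSpace V] in
private theorem qs1_dg_le {d : ℕ} (hr : Reg G d) (A : Set (Sym2 V)) (v : V) : dg G A v ≤ d :=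
  (ncard_le_ncard (t := G.neighborSet v) (fun _ hw => hw.1) (hr v).1).trans (hr v).2.le

omit [Countable V] [MeasurableSpace V] [DiscreteMeasurableSpace V] in
private theorem qs1_nx {d : ℕ} (hr : Reg G d) {U : Set (Sym2 V)} {v : V} (h : ¬ Exh G U v) :
    (nx G U v).ncard = d - dg G U v := by
  have e : G.neighborSet v = nx G U v ∪ {w | G.Adj v w ∧ s(v, w) ∈ U} := by
    ext w
    simp only [nx, h, or_false, SimpleGraph.mem_neighborSet, mem_union, mem_ofPred_eq]
    tauto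
  have h1 := (hr v).2
  rw [e, ncard_union_eq (disjoint_left.2 fun w hw hw' => (hw.2.resolve_right h) hw'.2)
    ((hr v).1.subset fun _ hw => hw.1) ((hr v).1.subset fun _ hw => hw.1)] at h1
  unfold dg
  omega

omit [Countable V] [MeasurableSpace V] [DiscreteMeasurableSpace V] in
private theorem qs1_gain {d : ℕ} (hr : Reg G d) (hd : d ≠ 0) {t s : ℕ} (hts : t ≤ s) {y : ℕ → V}
    {T : Finset V} (h0 : y s ∈ T) (h1 : y (s + 1) ∈ T) :
    ker G ∅ y s (y (s + 1)) * ∏ v ∈ T, qs1Psi d (d - dg G (us y t) v) (d - dg G (us y (s + 1)) v) ≤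
      (∏ v ∈ T, qs1Psi d (d - dg G (us y t) v) (d - dg G (us y s) v)) * (9 / (d : ℝ≥0∞)) := by
  classical
  have hc : (d : ℝ≥0∞) * (d : ℝ≥0∞)⁻¹ = 1 :=
    ENNReal.mul_inv_cancel (Nat.cast_ne_zero.2 hd) (ENNReal.natCast_ne_top d)
  rw [ker, empty_union]
  split_ifs with hw
  swap
  · rw [zero_mul]
    exact zero_le
  by_cases he : s(y s, y (s + 1)) ∈ us y s
  · have hx : Exh G (us y s) (y s) := hw.2.resolve_left (not_not.2 he)
    have e : nx G (us y s) (y s) = G.neighborSet (y s) := by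
      ext w
      simp only [nx, hx, or_true, and_true, SimpleGraph.mem_neighborSet, mem_ofPred_eq]
    rw [e, (hr _).2, us_succ, insert_eq_of_mem he, mul_comm, div_eq_mul_inv]
    exact mul_le_mul_right (le_mul_of_one_le_left' (by norm_num)) _
  · have hx : ¬ Exh G (us y s) (y s) := fun hx => he (hx _ hw.1)
    have hdg : ∀ v, dg G (us y (s + 1)) v =
        dg G (us y s) v + if v = y s ∨ v = y (s + 1) then 1 else 0 := fun v => by
      have := dg_erase (us_finite y (s + 1)) hw.1 (by rw [us_succ]; exact mem_insert _ _) v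
      rwa [us_succ, insert_sdiff_self_of_notMem he, ← us_succ] at this
    have hψ : ∀ v ∈ T, qs1Psi d (d - dg G (us y t) v) (d - dg G (us y (s + 1)) v) =
        qs1Psi d (d - dg G (us y t) v) (d - dg G (us y s) v) *
          if v = y s ∨ v = y (s + 1) then
            3 * ((d - dg G (us y s) v : ℕ) : ℝ≥0∞) * (d : ℝ≥0∞)⁻¹ else 1 := fun v _ => by
      have a := hdg v
      have b := qs1_dg_le hr (us y (s + 1)) v
      have c := qs1_dg_mono hr (us_mono y hts) v
      split_ifs at a ⊢ with hv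
      · have e : d - dg G (us y s) v = d - dg G (us y (s + 1)) v + 1 := by omega
        rw [e]
        exact qs1_psi_succ d (by omega)
      · rw [a, add_zero, mul_one]
    have hk : d - dg G (us y s) (y s) ≠ 0 := by
      have a := hdg (y s)
      have b := qs1_dg_le hr (us y (s + 1)) (y s)
      rw [if_pos (Or.inl rfl)] at a
      omega
    have hk' : ((d - dg G (us y s) (y s) : ℕ) : ℝ≥0∞)⁻¹ * ((d - dg G (us y s) (y s) : ℕ) : ℝ≥0∞) = 1 :=
      ENNReal.inv_mul_cancel (Nat.cast_ne_zero.2 hk) (ENNReal.natCast_ne_top _)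
    have hle : ((d - dg G (us y s) (y (s + 1)) : ℕ) : ℝ≥0∞) * (d : ℝ≥0∞)⁻¹ ≤ 1 := by
      rw [← hc]
      exact mul_le_mul_left (Nat.cast_le.2 (Nat.sub_le _ _)) _
    rw [Finset.prod_congr rfl hψ, Finset.prod_mul_distrib,
      Finset.prod_eq_mul_of_mem (y s) (y (s + 1)) h0 h1 hw.1.ne
        (fun v _ hv => if_neg (not_or.2 hv)), if_pos (Or.inl rfl), if_pos (Or.inr rfl),
      qs1_nx hr hx, mul_left_comm]
    refine mul_le_mul_right ?_ _
    generalize ((d - dg G (us y s) (y s) : ℕ) : ℝ≥0∞) = k at hk' ⊢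
    generalize ((d - dg G (us y s) (y (s + 1)) : ℕ) : ℝ≥0∞) = l at hle ⊢
    rw [div_eq_mul_inv]
    calc k⁻¹ * (3 * k * (d : ℝ≥0∞)⁻¹ * (3 * l * (d : ℝ≥0∞)⁻¹))
        = k⁻¹ * k * (9 * (d : ℝ≥0∞)⁻¹) * (l * (d : ℝ≥0∞)⁻¹) := by ring
      _ ≤ 1 * (9 * (d : ℝ≥0∞)⁻¹) * 1 := by rw [hk']; exact mul_le_mul_right hle _
      _ = _ := by rw [one_mul, mul_one]

omit [Countable V] [MeasurableSpace V] [DiscreteMeasurableSpace V] in
theorem pw {d : ℕ} (hr : Reg G d) (hd : d ≠ 0) {o : V} (h : IsWalk (ker G ∅) o P X) {t : ℕ}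
    {y : ℕ → V} (hy : ∀ v, dg G (us y t) v ≤ 2) (n : ℕ) :
    P (cyl X (t + n) y) ≤ P (cyl X t y) * (9 / (d : ℝ≥0∞)) ^ n := by
  classical
  have key : ∀ (T : Finset V) (m : ℕ), (∀ s ≤ t + m, y s ∈ T) →
      P (cyl X (t + m) y) * ∏ v ∈ T, qs1Psi d (d - dg G (us y t) v) (d - dg G (us y (t + m)) v) ≤
        P (cyl X t y) * (9 / (d : ℝ≥0∞)) ^ m := by
    intro T m
    induction m with
    | zero => intro _; simp [qs1Psi]
    | succ m ih =>
      intro hT
      rw [← add_assoc, h.cyl_succ, mul_assoc, pow_succ, ← mul_assoc (P (cyl X t y))]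
      refine (mul_le_mul_right (qs1_gain hr hd (Nat.le_add_right t m) (hT _ (by omega))
        (hT _ (by omega))) _).trans ?_
      rw [← mul_assoc]
      exact mul_le_mul_left (ih fun s hs => hT s (by omega)) _
  refine le_trans (le_mul_of_one_le_right' ?_)
    (key ((Finset.range (t + n + 1)).image y) n fun s hs =>
      Finset.mem_image_of_mem y (Finset.mem_range.2 (by omega)))
  refine Finset.one_le_prod' fun v _ => qs1_one_le hd ?_
  have := hy v
  omega

end Pool.Agent.P3fb035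
end

-- part Pool.Agent.P.MP_3fb035_pr.QS3
section

/-! Hitting probabilities; geodesics. -/

set_option autoImplicit false

open MeasureTheory Set
open scoped ENNReal symmDiff

namespace Pool.Agent.P3fb035

open Pool.Agent.Lib.GRW

variable {V : Type} {G : SimpleGraph V}
variable [Countable V] [MeasurableSpace V] [DiscreteMeasurableSpace V]
  {Ω : Type} [MeasurableSpace Ω] {P : Measure Ω} {X : ℕ → Ω → V}

variable {d : ℕ}

omit [Countable V] [MeasurableSpace V] [DiscreteMeasurableSpace V] in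
theorem qs3_walk (n : ℕ) : ∀ (y : ℕ → V) (a b : V), (∀ s, G.Adj (y s) (y (s + 1))) → y 0 = a →
    y n = b → ∃ p : G.Walk a b, p.length = n ∧ ∀ s ≤ n, p.getVert s = y s := by
  induction n with
  | zero =>
    rintro y _ _ _ rfl rfl
    exact ⟨.nil, rfl, fun s hs => by rw [Nat.le_zero.1 hs]; rfl⟩
  | succ n ih =>
    rintro y _ b hy rfl hb
    obtain ⟨p, h1, h2⟩ := ih (fun s => y (s + 1)) (y 1) b (fun s => hy _) rfl hb
    refine ⟨.cons (hy 0) p, by simp [h1], fun s hs => ?_⟩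
    cases s with
    | zero => rfl
    | succ s => exact h2 s (by omega)

theorem hit_le (hr : Reg G d) (hd : d ≠ 0) {o : V} (h : IsWalk (ker G ∅) o P X) {t : ℕ}
    {x : ℕ → V} (hx : ∀ v, dg G (us x t) v ≤ 2) (n : ℕ) (b : V) :
    P (cyl X t x ∩ {ω | X (t + n) ω = b}) ≤
      P (cyl X t x) * (({p : G.Walk (x t) b | p.length = n}.ncard : ℕ) * (9 / (d : ℝ≥0∞)) ^ n) := by
  classical
  let _ : G.LocallyFinite := fun v => (hr v).1.fintype
  let g : G.Walk (x t) b → ℕ → V := fun p s => if s ≤ t then x s else p.getVert (s - t)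
  have hg : ∀ p, ∀ s ≤ t, g p s = x s := fun p s hs => if_pos hs
  rw [← G.coe_finsetWalkLength_eq, ncard_coe_finset]
  calc _ ≤ P (⋃ p ∈ G.finsetWalkLength n (x t) b, cyl X (t + n) (g p)) := by
        refine measure_mono_ae ((ae_adj h).mono fun ω hω hm => ?_)
        obtain ⟨p, h1, h2⟩ := qs3_walk n (fun s => X (t + s) ω) (x t) b (fun s => hω.2 (t + s))
          (hm.1 t le_rfl) hm.2
        refine mem_iUnion₂.2 ⟨p, SimpleGraph.mem_finsetWalkLength_iff.2 h1, fun s hs => ?_⟩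
        by_cases hst : s ≤ t
        · rw [hg p s hst, hm.1 s hst]
        · simp only [g, if_neg hst]
          rw [h2 _ (by omega), show t + (s - t) = s by omega]
    _ ≤ ∑ p ∈ G.finsetWalkLength n (x t) b, P (cyl X (t + n) (g p)) :=
        measure_biUnion_finset_le _ _
    _ ≤ ∑ _p ∈ G.finsetWalkLength n (x t) b, P (cyl X t x) * (9 / (d : ℝ≥0∞)) ^ n := by
        refine Finset.sum_le_sum fun p _ => ?_
        rw [← cyl_congr (hg p)]
        exact pw hr hd h (by rw [us_congr (hg p)]; exact hx) n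
    _ = _ := by
        rw [Finset.sum_const, nsmul_eq_mul]
        ring

omit [Countable V] [MeasurableSpace V] [DiscreteMeasurableSpace V] in
theorem geodesic [Infinite V] (hl : LF G) (hc : G.Preconnected) (o : V) (t : ℕ) :
    ∃ x : ℕ → V, Val G ∅ o t x ∧ (∀ s, 1 ≤ s → s ≤ t → x s ≠ o) ∧ (∀ v, dg G (us x t) v ≤ 2) ∧
      ∀ p : G.Walk (x t) o, t ≤ p.length := by
  obtain ⟨u, hu⟩ := (ball_fin hl (finite_singleton o) t).exists_notMem
  obtain ⟨q, hq⟩ := (hc o u).exists_walk_length_eq_dist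
  have ht : t < q.length := by
    by_contra hlt
    refine hu ⟨q.reverse.getVert, q.reverse.length, by simpa using hlt, q.reverse.getVert_zero,
      q.reverse.getVert_length, fun s hs => q.reverse.adj_getVert_succ hs⟩
  have hi : ∀ {i j}, i ≤ t → j ≤ t → q.getVert i = q.getVert j → i = j := fun hi hj e =>
    (q.isPath_of_length_eq_dist hq).getVert_injOn (hi.trans ht.le) (hj.trans ht.le) e
  refine ⟨q.getVert, ⟨q.getVert_zero, fun s hs => ⟨q.adj_getVert_succ (hs.trans ht), Or.inl ?_⟩⟩,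
    fun s h1 h2 e => ?_, fun v => ?_, fun p => ?_⟩
  · rw [empty_union]
    rintro ⟨r, hr, e⟩
    rcases Sym2.eq_iff.1 e with ⟨-, e⟩ | ⟨e, -⟩
    · have := hi (by omega) (by omega) e
      omega
    · have := hi (by omega) (by omega) e
      omega
  · have := hi h2 (Nat.zero_le t) (e.trans q.getVert_zero.symm)
    omega
  · by_cases hv : ∃ i ≤ t, q.getVert i = v
    · obtain ⟨i, hi', rfl⟩ := hv
      refine (ncard_le_ncard (t := {q.getVert (i + 1), q.getVert (i - 1)}) ?_).trans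
        ((ncard_insert_le _ _).trans (by simp))
      rintro w ⟨-, r, hr, e⟩
      rcases Sym2.eq_iff.1 e with ⟨e1, rfl⟩ | ⟨rfl, e1⟩
      · rw [hi hr.le hi' e1]
        exact Or.inl rfl
      · rw [← hi (by omega) hi' e1]
        exact Or.inr rfl
    · rw [dg_zero fun b _ hb => hv (us_mem hb)]
      omega
  · have := SimpleGraph.dist_le (p.reverse.append (q.drop t))
    rw [SimpleGraph.Walk.length_append, SimpleGraph.Walk.length_reverse,
      SimpleGraph.Walk.drop_length] at this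
    omega

end Pool.Agent.P3fb035
end

-- part Pool.Agent.P.MP_3fb035_pr.QS2
section

/-! Graphs with small spectral radius. -/

set_option autoImplicit false

open MeasureTheory Set
open scoped ENNReal symmDiff

namespace Pool.Agent.P3fb035

open Pool.Agent.Lib.GRW

variable {V : Type} {G : SimpleGraph V}
variable [Countable V] [MeasurableSpace V] [DiscreteMeasurableSpace V]
  {Ω : Type} [MeasurableSpace Ω] {P : Measure Ω} {X : ℕ → Ω → V}

variable {d : ℕ}

omit [Countable V] [MeasurableSpace V] [DiscreteMeasurableSpace V] in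
theorem qs2_ne [Infinite V] (hr : Reg G d) (hc : G.Preconnected) (o : V) : d ≠ 0 := by
  obtain ⟨v, hv⟩ := exists_ne o
  obtain ⟨p⟩ := hc o v
  cases p with
  | nil => exact absurd rfl hv
  | cons h _ =>
    rw [← (hr o).2]
    exact Set.ncard_ne_zero_of_mem (show _ ∈ G.neighborSet o from h) (hr o).1

omit [Countable V] [MeasurableSpace V] [DiscreteMeasurableSpace V] in
theorem qs2_bound (hd : d ≠ 0) {θ : ℝ} (hw : Few G (θ * d)) (n : ℕ) (u v : V) :
    (({p : G.Walk u v | p.length = n}.ncard : ℕ) : ℝ≥0∞) * (9 / (d : ℝ≥0∞)) ^ n ≤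
      ENNReal.ofReal (θ * 9) ^ n := by
  have h0 : 0 ≤ θ * d := by simpa using (Nat.cast_nonneg _).trans (hw 1 u v)
  have h1 := ENNReal.ofReal_le_ofReal (hw n u v)
  rw [ENNReal.ofReal_natCast, ENNReal.ofReal_pow h0] at h1
  refine (mul_le_mul_left h1 _).trans (le_of_eq ?_)
  rw [← mul_pow, ENNReal.ofReal_mul' (Nat.cast_nonneg _), ENNReal.ofReal_natCast, mul_assoc,
    ENNReal.mul_div_cancel (Nat.cast_ne_zero.2 hd) (ENNReal.natCast_ne_top d),
    ENNReal.ofReal_mul' (by norm_num), ENNReal.ofReal_ofNat]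

theorem sr [Infinite V] (hr : Reg G d) (hc : G.Preconnected) {θ : ℝ} (hθ : θ < 1 / 9)
    (hw : Few G (θ * d)) {o : V} (h : IsWalk (ker G ∅) o P X) :
    P (pth X ⁻¹' Of o) = 0 ∧ P (pth X ⁻¹' Nv o) ≠ 0 := by
  have := h.1
  have hd := qs2_ne hr hc o
  have hr1 : ENNReal.ofReal (θ * 9) < 1 := ENNReal.ofReal_lt_one.2 (by linarith)
  have hs : ∑' n, ENNReal.ofReal (θ * 9) ^ n ≠ ∞ := by
    rw [ENNReal.tsum_geometric]
    exact ENNReal.inv_ne_top.2 (tsub_pos_iff_lt.2 hr1).ne'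
  constructor
  · have h1 : ∀ n, P {ω | X n ω = o} ≤ ENNReal.ofReal (θ * 9) ^ n := by
      intro n
      have h2 := hit_le hr hd h (t := 0) (x := fun _ => o) (fun v => by simp [us_zero, dg]) n o
      rw [h.cyl_start, one_mul, inter_comm, measure_inter_conull
        ((prob_compl_eq_zero_iff (h.meas_cyl _ _)).2 h.cyl_start), Nat.zero_add] at h2
      exact h2.trans (qs2_bound hd hw n o o)
    have h2 := measure_setOfPred_frequently_eq_zero (μ := P) (p := fun n ω => X n ω = o)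
      (ne_top_of_le_ne_top hs (ENNReal.tsum_le_tsum h1))
    simp only [Filter.frequently_atTop] at h2
    exact h2
  · intro h0
    obtain ⟨t, ht⟩ :=
      ((ENNReal.tendsto_sum_nat_add _ hs).eventually (gt_mem_nhds zero_lt_one)).exists
    obtain ⟨x, x1, x2, x3, x4⟩ := geodesic hr.lf hc o t
    have h1 : P (⋃ n : Fin t, cyl X t x ∩ {ω | X (t + n) ω = o}) = 0 := by
      refine measure_iUnion_null fun n => le_zero_iff.1 ((hit_le hr hd h x3 n o).trans ?_)
      have : {p : G.Walk (x t) o | p.length = n} = ∅ :=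
        eq_empty_of_forall_notMem fun p hp => absurd (hp ▸ x4 p) (not_le.2 n.2)
      simp [this]
    have h2 : cyl X t x ⊆ (pth X ⁻¹' Nv o ∪ ⋃ n : Fin t, cyl X t x ∩ {ω | X (t + n) ω = o}) ∪
        ⋃ k, cyl X t x ∩ {ω | X (t + (k + t)) ω = o} := by
      intro ω hω
      by_cases h3 : ω ∈ pth X ⁻¹' Nv o
      · exact Or.inl (Or.inl h3)
      obtain ⟨m, h4⟩ := not_forall.1 h3
      obtain ⟨h4, h5⟩ := Classical.not_imp.1 h4
      have h6 : X m ω = o := not_not.1 h5
      have h7 : t < m := lt_of_not_ge fun e => x2 m h4 e ((hω m e).symm.trans h6)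
      rcases lt_or_ge m (t + t) with e | e
      · exact Or.inl (Or.inr (mem_iUnion.2 ⟨⟨m - t, by omega⟩, hω,
          (congrArg (X · ω) (by simp only; omega)).trans h6⟩))
      · exact Or.inr (mem_iUnion.2 ⟨m - (t + t), hω,
          (congrArg (X · ω) (by omega)).trans h6⟩)
    have h3 := (measure_mono (μ := P) h2).trans (measure_union_le _ _)
    rw [measure_union_null h0 h1, zero_add] at h3
    have h4 := h3.trans ((measure_iUnion_le _).trans (ENNReal.tsum_le_tsum fun k =>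
      (hit_le hr hd h x3 (k + t) o).trans (mul_le_mul_right (qs2_bound hd hw _ _ _) _)))
    rw [ENNReal.tsum_mul_left] at h4
    have h5 := ENNReal.mul_lt_mul_right (cyl_ne_zero (hr.bd hd) h x1) (measure_ne_top P _) ht
    rw [mul_one] at h5
    exact absurd h4 (not_le.2 h5)

end Pool.Agent.P3fb035
end

-- part Pool.Agent.P.MP_3fb035_pr.QL0
section

/-! No three far points on a sphere. -/

set_option autoImplicit false

open MeasureTheory Set
open scoped ENNReal symmDiff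

namespace Pool.Agent.P3fb035

open Pool.Agent.Lib.GRW

variable {V : Type} {G : SimpleGraph V}

/-- a finite connected set `W` that separates the infinite sets `F` and `N` -/
structure Ql0Sp (G : SimpleGraph V) (W F N : Set V) : Prop where
  fin : W.Finite
  con : Con G W
  c1 : Clo G F W
  c2 : Clo G N W
  i1 : F.Infinite
  i2 : N.Infinite
  d1 : Disjoint F W
  d2 : Disjoint N W
  d : Disjoint F N
  cov : ∀ v, v ∈ W ∨ v ∈ F ∨ v ∈ N

theorem Ql0Sp.symm {W F N : Set V} (h : Ql0Sp G W F N) : Ql0Sp G W N F :=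
  ⟨h.fin, h.con, h.c2, h.c1, h.i2, h.i1, h.d2, h.d1, h.d.symm,
    fun v => (h.cov v).imp_right Or.symm⟩

theorem Ql0Sp.pre {W F N : Set V} (h : Ql0Sp G W F N) (φ : G ≃g G) :
    Ql0Sp G (φ ⁻¹' W) (φ ⁻¹' F) (φ ⁻¹' N) :=
  ⟨h.fin.preimage φ.injective.injOn, h.con.pre φ, h.c1.pre φ, h.c2.pre φ,
    h.i1.preimage (by rw [φ.surjective.range_eq]; exact subset_univ _),
    h.i2.preimage (by rw [φ.surjective.range_eq]; exact subset_univ _),
    h.d1.preimage φ, h.d2.preimage φ, h.d.preimage φ, fun v => h.cov (φ v)⟩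

theorem ql0_base (hc : G.Connected) (h2 : Ends G 2) :
    ∃ (W F N : Set V) (w : V), Ql0Sp G W F N ∧ w ∈ W := by
  obtain ⟨S, c, h1, h2⟩ := h2
  obtain ⟨w⟩ := hc.nonempty
  obtain ⟨W, w1, w2, -, w3⟩ := fin_sup (G := G) (S := univ) (A := insert w (S : Set V))
    (fun a _ b _ => cn_univ hc.preconnected a b) (S.finite_toSet.insert w) (subset_univ _)
  have hS : ∀ v, v ∉ W → v ∉ S := fun v hv h => hv (w2 (mem_insert_of_mem _ h))
  have cl : ∀ i, Clo G {v | v ∉ W ∧ c v = i} W := fun i a ha b hab => by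
    by_cases hb : b ∈ W
    · exact Or.inr hb
    · exact Or.inl ⟨hb, (h1 a b (hS a ha.1) (hS b hb) hab).symm.trans ha.2⟩
  have inf : ∀ i, {v | v ∉ W ∧ c v = i}.Infinite := fun i =>
    ((h2 i).sdiff w1).mono fun v hv => ⟨hv.2, hv.1.2⟩
  have dj : ∀ i, Disjoint {v | v ∉ W ∧ c v = i} W := fun i =>
    Set.disjoint_left.2 fun v hv => hv.1
  refine ⟨W, _, _, w, ⟨w1, w3, cl 0, cl 1, inf 0, inf 1, dj 0, dj 1,
    Set.disjoint_left.2 fun v h h' => absurd (h.2.symm.trans h'.2) (by decide), fun v => ?_⟩,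
    w2 (mem_insert _ _)⟩
  by_cases hv : v ∈ W
  · exact Or.inl hv
  · have : ∀ i : Fin 2, i = 0 ∨ i = 1 := by decide
    exact Or.inr ((this (c v)).imp (fun h => ⟨hv, h⟩) fun h => ⟨hv, h⟩)

theorem ql0_dist (hc : G.Connected) (φ : G ≃g G) (u v : V) :
    G.dist (φ u) (φ v) ≤ G.dist u v := by
  obtain ⟨p, hp⟩ := hc.exists_walk_length_eq_dist u v
  have h := SimpleGraph.dist_le (p.map φ.toHom)
  rwa [SimpleGraph.Walk.length_map, hp] at h

theorem ql0_all (hc : G.Connected) (ht : Tr G) (h2 : Ends G 2) : ∃ R : ℕ, ∀ x o : V,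
    R < G.dist o x → ∃ W F N : Set V, Ql0Sp G W F N ∧ x ∈ W ∧ (∀ y ∈ W, G.dist x y ≤ R) ∧
      o ∈ N := by
  obtain ⟨W, F, N, w, h, hw⟩ := ql0_base hc h2
  obtain ⟨R, hR⟩ := (h.fin.image (G.dist w)).bddAbove
  refine ⟨R, fun x o ho => ?_⟩
  obtain ⟨φ, hφ⟩ := ht x w
  have h1 : x ∈ φ ⁻¹' W := by rwa [mem_preimage, hφ]
  have h2 : ∀ y ∈ φ ⁻¹' W, G.dist x y ≤ R := fun y hy => by
    have := ql0_dist hc φ.symm (φ x) (φ y)
    rw [φ.symm_apply_apply, φ.symm_apply_apply, hφ] at this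
    exact this.trans (hR ⟨φ y, hy, rfl⟩)
  rcases (h.pre φ).cov o with h3 | h3 | h3
  · have := h2 o h3
    rw [G.dist_comm] at this
    omega
  · exact ⟨_, _, _, (h.pre φ).symm, h1, h2, h3⟩
  · exact ⟨_, _, _, h.pre φ, h1, h2, h3⟩

theorem ql0_geo (hc : G.Connected) (o : V) {u b : V} (p : G.Walk u b) (k : ℕ)
    (hk : G.dist o u ≤ k) : Cn G {y | G.dist o y + G.dist y b ≤ k + p.length} u b := by
  induction p generalizing k with
  | nil => exact Cn.rfl
  | @cons u v b h q ih =>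
    have h1 : G.dist o v ≤ k + 1 := by
      have := hc.dist_triangle (u := o) (v := u) (w := v)
      rw [SimpleGraph.dist_eq_one_iff_adj.2 h] at this
      omega
    have h2 := SimpleGraph.dist_le q
    have h3 := ih (k + 1) h1
    rw [SimpleGraph.Walk.length_cons, ← add_assoc, add_right_comm]
    exact (Cn.single h (add_le_add h1 h2)).trans h3

theorem ql0_near (hc : G.Connected) {R : ℕ} {o a b : V} {W F N W' F' N' : Set V}
    (s : Ql0Sp G W F N) (s' : Ql0Sp G W' F' N') (hb : b ∈ W') (ra : ∀ y ∈ W, G.dist a y ≤ R)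
    (rb : ∀ y ∈ W', G.dist b y ≤ R) (ho : o ∈ N) (e : G.dist o a = G.dist o b)
    (h : 2 * R < G.dist a b) : W' ⊆ N := by
  obtain ⟨p, hp⟩ := hc.exists_walk_length_eq_dist o b
  have h1 : b ∈ N := by
    refine clo_cn s.c2 (ql0_geo hc o p 0 (by simp)) (Set.disjoint_left.2 fun y hy hy' => ?_) ho
    have t0 : G.dist o y + G.dist y b ≤ 0 + p.length := hy
    have t1 := hc.dist_triangle (u := o) (v := y) (w := a)
    have t2 := hc.dist_triangle (u := a) (v := y) (w := b)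
    have t3 := ra y hy'
    rw [G.dist_comm (u := y) (v := a)] at t1
    omega
  refine fun y hy => clo_cn s.c2 (s'.con b hb y hy) (Set.disjoint_left.2 fun z hz hz' => ?_) h1
  have t2 := hc.dist_triangle (u := a) (v := z) (w := b)
  have t3 := ra z hz'
  have t4 := rb z hz
  rw [G.dist_comm (u := z) (v := b)] at t2
  omega

theorem ql0_far (hc : G.Connected) {R : ℕ} {o a b : V} {W F N W' F' N' : Set V}
    (s : Ql0Sp G W F N) (s' : Ql0Sp G W' F' N') (ha : a ∈ W) (hb : b ∈ W')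
    (ra : ∀ y ∈ W, G.dist a y ≤ R) (rb : ∀ y ∈ W', G.dist b y ≤ R) (ho : o ∈ N) (ho' : o ∈ N')
    (e : G.dist o a = G.dist o b) (h : 2 * R < G.dist a b) : F ⊆ N' := fun v hv => by
  have h1 := ql0_near hc s s' hb ra rb ho e h
  have h2 := ql0_near hc s' s ha rb ra ho' e.symm (by rwa [G.dist_comm])
  obtain ⟨w, hw, hp⟩ := to_sep hc.preconnected s.c1 ⟨a, ha⟩ hv
  exact clo_cn s'.c2 (hp.symm (Or.inl hv))
    ((disjoint_union_left.2 ⟨s.d, s.d2.symm⟩).mono_right h1) (h2 hw)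

theorem far_three (hc : G.Connected) (ht : Tr G) (h2 : Ends G 2) (h3 : ¬Ends G 3) :
    ∃ R : ℕ, ∀ (o : V) (n : ℕ), R < n → ∀ a b c, G.dist o a = n → G.dist o b = n →
      G.dist o c = n → G.dist a b ≤ R ∨ G.dist a c ≤ R ∨ G.dist b c ≤ R := by
  obtain ⟨R, hR⟩ := ql0_all hc ht h2
  refine ⟨2 * R, fun o n hn a b c ha hb hc' => ?_⟩
  by_contra hcon
  simp only [not_or, not_le] at hcon
  obtain ⟨hab, hac, hbc⟩ := hcon
  obtain ⟨Wa, Fa, Na, sa, a1, a2, a3⟩ := hR a o (by omega)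
  obtain ⟨Wb, Fb, Nb, sb, b1, b2, b3⟩ := hR b o (by omega)
  obtain ⟨Wc, Fc, Nc, sc, c1, c2, c3⟩ := hR c o (by omega)
  have h1 := ql0_far hc sa sb a1 b1 a2 b2 a3 b3 (ha.trans hb.symm) hab
  have h2 := ql0_far hc sc sa c1 a1 c2 a2 c3 a3 (hc'.trans ha.symm) (by rwa [G.dist_comm])
  have h4 := ql0_far hc sc sb c1 b1 c2 b2 c3 b3 (hc'.trans hb.symm) (by rwa [G.dist_comm])
  refine h3 (ends_of_three (sa.fin.union sb.fin) (sa.c1.mono subset_union_left)
    (sb.c1.mono subset_union_right) (sb.d.symm.mono_left h1) sa.i1 sb.i1 (sc.i1.mono ?_))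
  rintro v hv (h | h)
  · exact Set.disjoint_left.1 sa.d h (h2 hv)
  · exact Set.disjoint_left.1 sb.d h (h4 hv)

end Pool.Agent.P3fb035
end

-- part Pool.Agent.P.MP_3fb035_pr.QL1
section

/-! Graphs with two ends have linear growth. -/

set_option autoImplicit false

open MeasureTheory Set
open scoped ENNReal symmDiff

namespace Pool.Agent.P3fb035

open Pool.Agent.Lib.GRW

variable {V : Type} {G : SimpleGraph V}

theorem ql1_union {A : Set V} (hA : A.Finite) (f : V → Set V) (k : ℕ)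
    (h : ∀ u, (f u).ncard ≤ k) : (⋃ u ∈ A, f u).ncard ≤ A.ncard * k := by
  induction A, hA using Set.Finite.induction_on with
  | empty => simp
  | @insert a s ha hs ih =>
    rw [biUnion_insert, ncard_insert_of_notMem ha hs, add_mul, one_mul, add_comm (s.ncard * k)]
    exact (ncard_union_le _ _).trans (Nat.add_le_add (h a) ih)

theorem ball_card {d : ℕ} (hb : Bd G d) (hc : G.Connected) (n : ℕ) (o : V) :
    {v | G.dist o v ≤ n}.Finite ∧ {v | G.dist o v ≤ n}.ncard ≤ (d + 1) ^ n := by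
  induction n with
  | zero =>
    have e : {v | G.dist o v ≤ 0} = {o} := by
      ext v
      simp only [mem_setOf_eq, Nat.le_zero, hc.dist_eq_zero_iff, mem_singleton_iff]
      exact eq_comm
    rw [e]; simp
  | succ n ih =>
    have hs : {v | G.dist o v ≤ n + 1} ⊆
        ⋃ u ∈ {v | G.dist o v ≤ n}, insert u (G.neighborSet u) := by
      intro v hv
      obtain ⟨p, hp⟩ := hc.exists_walk_length_eq_dist v o
      rw [mem_setOf_eq, SimpleGraph.dist_comm, ← hp] at hv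
      cases p with
      | nil => exact mem_biUnion (by simp) (mem_insert _ _)
      | @cons _ u _ h q =>
        refine mem_biUnion (x := u) ?_ (mem_insert_of_mem _ h.symm)
        rw [mem_setOf_eq, SimpleGraph.dist_comm]
        have := SimpleGraph.dist_le q
        rw [SimpleGraph.Walk.length_cons] at hv
        omega
    have hf : (⋃ u ∈ {v | G.dist o v ≤ n}, insert u (G.neighborSet u)).Finite :=
      ih.1.biUnion fun u _ => (hb u).1.insert u
    refine ⟨hf.subset hs, (ncard_le_ncard hs hf).trans ?_⟩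
    refine (ql1_union ih.1 _ (d + 1) fun u =>
      (ncard_insert_le _ _).trans (Nat.succ_le_succ (hb u).2.1)).trans ?_
    rw [pow_succ]
    exact Nat.mul_le_mul_right _ ih.2

theorem lg {d : ℕ} (hb : Bd G d) (hc : G.Connected) (ht : Tr G) (h2 : Ends G 2) (h3 : ¬Ends G 3)
    (o : V) : ∃ C : ℕ, ∀ n, {v | G.dist o v ≤ n}.Finite ∧
      {v | G.dist o v ≤ n}.ncard ≤ C * (n + 1) := by
  obtain ⟨R, hR⟩ := far_three hc ht h2 h3
  have hS : ∀ n, {v | G.dist o v = n}.ncard ≤ 2 * (d + 1) ^ R := by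
    intro n
    have key : ∃ a b, {v | G.dist o v = n} ⊆ {v | G.dist a v ≤ R} ∪ {v | G.dist b v ≤ R} := by
      rcases le_or_gt n R with h | h
      · exact ⟨o, o, fun v hv => Or.inl (le_trans (le_of_eq hv) h)⟩
      by_cases h1 : ∃ a b, G.dist o a = n ∧ G.dist o b = n ∧ R < G.dist a b
      · obtain ⟨a, b, ha, hb', hab⟩ := h1
        refine ⟨a, b, fun c hc' => ?_⟩
        rcases hR o n h a b c ha hb' hc' with e | e
        · omega
        · exact e
      · rcases eq_empty_or_nonempty {v | G.dist o v = n} with e | ⟨a, ha⟩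
        · exact ⟨o, o, by rw [e]; exact empty_subset _⟩
        · refine ⟨a, a, fun c hc' => Or.inl ?_⟩
          by_contra h4
          exact h1 ⟨a, c, ha, hc', not_le.1 h4⟩
    obtain ⟨a, b, hab⟩ := key
    have ha := ball_card hb hc R a
    have hb' := ball_card hb hc R b
    have h4 := (ncard_le_ncard hab (ha.1.union hb'.1)).trans (ncard_union_le _ _)
    omega
  refine ⟨2 * (d + 1) ^ R, fun n => ⟨(ball_card hb hc n o).1, ?_⟩⟩
  induction n with
  | zero =>
    have e : {v | G.dist o v ≤ 0} = {v | G.dist o v = 0} := by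
      ext v; simp only [mem_setOf_eq, Nat.le_zero]
    rw [e, zero_add, mul_one]
    exact hS 0
  | succ n ih =>
    have e : {v | G.dist o v ≤ n + 1} = {v | G.dist o v ≤ n} ∪ {v | G.dist o v = n + 1} := by
      ext v; simp only [mem_setOf_eq, mem_union]; omega
    rw [e, mul_add _ (n + 1) 1, mul_one]
    exact (ncard_union_le _ _).trans (Nat.add_le_add ih (hS _))

end Pool.Agent.P3fb035
end

-- part Pool.Agent.P.MP_3fb035_pr.QL2
section

/-! Linear growth gives recurrence of the simple random walk. -/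

set_option autoImplicit false

open MeasureTheory Set
open scoped ENNReal symmDiff

namespace Pool.Agent.P3fb035

open Pool.Agent.Lib.GRW

variable {V : Type} {G : SimpleGraph V}
variable [G.LocallyFinite]

variable [Countable V] [MeasurableSpace V] [DiscreteMeasurableSpace V]

theorem ql2_meas (u v : V) (n : ℕ) : MeasurableSet {ω : Om G | Ys u ω n = v} :=
  meas_Ys u (measurableSet_setOfPred.2 (meas_eq n v))

theorem ck (u v : V) (n m : ℕ) : Pm G {ω | Ys u ω (n + m) = v} =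
    ∑' y, Pm G {ω | Ys u ω n = y} * Pm G {ω | Ys y ω m = v} := by
  have h : {ω : Om G | Ys u ω (n + m) = v} =
      ⋃ y, {ω | Ys u ω n = y ∧ (fun k => Ys u ω (n + k)) ∈ {z : ℕ → V | z m = v}} := by
    ext ω
    exact ⟨fun e => mem_iUnion.2 ⟨_, rfl, e⟩, fun e => (mem_iUnion.1 e).elim fun _ e' => e'.2⟩
  rw [h, measure_iUnion]
  · exact tsum_congr fun y => markov' u y n (measurableSet_setOfPred.2 (meas_eq m v))
  · intro y y' hne
    exact disjoint_left.2 fun ω e e' => hne (e.1.symm.trans e'.1)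
  · exact fun y => (ql2_meas u y n).inter (ql2_meas u v (n + m))

omit [Countable V] [MeasurableSpace V] [DiscreteMeasurableSpace V] in
theorem ql2_one (hG : ∀ v, ∃ w, G.Adj v w) {d : ℕ} (hd : ∀ v, G.degree v = d) (u v : V) :
    Pm G {ω | Ys u ω 1 = v} = Pm G {ω | Ys v ω 1 = u} := by
  have h1 := Ys_one hG u v
  have h2 := Ys_one hG v u
  rw [hd] at h1 h2
  refine h1.trans (Eq.trans ?_ h2.symm)
  by_cases h : G.Adj u v
  · rw [if_pos h, if_pos h.symm]
  · rw [if_neg h, if_neg fun h' => h h'.symm]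

theorem p_symm (hG : ∀ v, ∃ w, G.Adj v w) {d : ℕ} (hd : ∀ v, G.degree v = d) (n : ℕ) (u v : V) :
    Pm G {ω | Ys u ω n = v} = Pm G {ω | Ys v ω n = u} := by
  induction n generalizing u v with
  | zero =>
    congr 1
    ext ω
    exact eq_comm
  | succ n ih =>
    rw [ck u v n 1, add_comm n 1, ck v u 1 n]
    exact tsum_congr fun y => by rw [ih u y, ql2_one hG hd y v, mul_comm]

omit [Countable V] [MeasurableSpace V] [DiscreteMeasurableSpace V] in
theorem ql2_walk (hG : ∀ v, ∃ w, G.Adj v w) (o : V) (ω : Om G) (n : ℕ) :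
    ∃ p : G.Walk o (Ys o ω n), p.length = n := by
  induction n with
  | zero => exact ⟨.nil, rfl⟩
  | succ n ih =>
    obtain ⟨p, hp⟩ := ih
    exact ⟨p.concat (hop_spec hG (ω (n + 1, Ys o ω n))).1, by
      rw [SimpleGraph.Walk.length_concat, hp]⟩

theorem ql2_green (a : V) (h : Pm G (Ys a ⁻¹' Nv a) ≠ 0) :
    ∑' n, Pm G {ω | Ys a ω n = a} ≠ ∞ := by
  have h1 : ∑' n, Pm G {ω | Ys a ω n = a ∧ (fun m => Ys a ω (n + m)) ∈ Nv a} ≠ ∞ := by
    rw [← measure_iUnion]
    · exact measure_ne_top _ _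
    · intro n n' hne
      refine disjoint_left.2 fun ω h h' => ?_
      rcases lt_or_gt_of_ne hne with e | e
      · exact h.2 (n' - n) (by omega) ((congrArg (Ys a ω) (by omega)).trans h'.1)
      · exact h'.2 (n - n') (by omega) ((congrArg (Ys a ω) (by omega)).trans h.1)
    · exact fun n => (meas_Ys a (measurableSet_setOfPred.2 (meas_eq n a))).inter
        ((measurable_pi_lambda _ fun m => (measurable_pi_apply (n + m)).comp (meas_Ys a))
          (meas_Nv a))
  simp only [markov' a a _ (meas_Nv a), ENNReal.tsum_mul_right] at h1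
  exact fun e => h1 (by rw [e, ENNReal.top_mul h])

theorem ql2_lower (hG : ∀ v, ∃ w, G.Adj v w) {d : ℕ} (hd : ∀ v, G.degree v = d) (o : V) (n : ℕ)
    (B : Finset V) (hB : ∀ v, G.dist o v ≤ n → v ∈ B) :
    1 ≤ (B.card : ℝ) * (Pm G {ω | Ys o ω (n + n) = o}).toReal := by
  have h1 : ∑ y ∈ B, Pm G {ω | Ys o ω n = y} = 1 := by
    rw [← measure_biUnion_finset (f := fun y => {ω : Om G | Ys o ω n = y}) (fun y _ y' _ hne =>
      disjoint_left.2 fun ω e e' => hne (Eq.trans (Eq.symm e) e')) fun y _ => ql2_meas o y n]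
    have : (⋃ y ∈ B, {ω : Om G | Ys o ω n = y}) = univ := by
      refine eq_univ_of_forall fun ω => mem_iUnion₂.2 ⟨Ys o ω n, hB _ ?_, rfl⟩
      obtain ⟨p, hp⟩ := ql2_walk hG o ω n
      exact (SimpleGraph.dist_le p).trans hp.le
    rw [this, measure_univ]
  have h2 : ∑ y ∈ B, (Pm G {ω | Ys o ω n = y}).toReal = 1 := by
    rw [← ENNReal.toReal_sum fun y _ => measure_ne_top _ _, h1, ENNReal.toReal_one]
  have h3 : ∑ y ∈ B, Pm G {ω | Ys o ω n = y} * Pm G {ω | Ys o ω n = y} ≤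
      Pm G {ω | Ys o ω (n + n) = o} := by
    rw [ck o o n n]
    refine le_trans (le_of_eq (Finset.sum_congr rfl fun y _ => ?_)) (ENNReal.sum_le_tsum B)
    rw [p_symm hG hd n y o]
  have h4 := ENNReal.toReal_mono (measure_ne_top _ _) h3
  rw [ENNReal.toReal_sum fun y _ => ENNReal.mul_ne_top (measure_ne_top _ _) (measure_ne_top _ _)]
    at h4
  simp only [← sq, ENNReal.toReal_pow] at h4
  have h5 := sq_sum_le_card_mul_sum_sq (s := B) (f := fun y => (Pm G {ω | Ys o ω n = y}).toReal)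
  rw [h2, one_pow] at h5
  exact h5.trans (mul_le_mul_of_nonneg_left h4 (Nat.cast_nonneg _))

theorem srw_rec (hG : ∀ v, ∃ w, G.Adj v w) {d : ℕ} (hd : ∀ v, G.degree v = d) (o : V) {C : ℕ}
    (hC : ∀ n, {v | G.dist o v ≤ n}.Finite ∧ {v | G.dist o v ≤ n}.ncard ≤ C * (n + 1)) :
    Pm G (Ys o ⁻¹' Nv o) = 0 := by
  by_contra h
  have h1 := ENNReal.summable_toReal (ql2_green o h)
  have h2 : Summable fun n : ℕ => (C : ℝ) * (Pm G {ω | Ys o ω (n + n) = o}).toReal :=
    (h1.comp_injective (i := fun n : ℕ => n + n) fun a b e => by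
      simp only at e
      omega).mul_left _
  have h3 : Summable fun n : ℕ => 1 / ((n + 1 : ℕ) : ℝ) := by
    refine Summable.of_nonneg_of_le (fun n => by positivity) (fun n => ?_) h2
    have h4 := ql2_lower hG hd o n (hC n).1.toFinset fun v hv => (hC n).1.mem_toFinset.2 hv
    have h5 : (((hC n).1.toFinset.card : ℕ) : ℝ) ≤ (C : ℝ) * ((n + 1 : ℕ) : ℝ) := by
      have := (hC n).2
      rw [ncard_eq_toFinset_card _ (hC n).1] at this
      exact_mod_cast this
    have h6 := h4.trans (mul_le_mul_of_nonneg_right h5 ENNReal.toReal_nonneg)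
    rw [div_le_iff₀ (by positivity)]
    linarith
  exact Real.not_summable_one_div_natCast
    ((summable_nat_add_iff (f := fun n : ℕ => 1 / (n : ℝ)) 1).1 h3)

end Pool.Agent.P3fb035
end

-- part Pool.Agent.P.MP_3fb035_pr.QM1
section

/-! The mass transport principle. -/

set_option autoImplicit false

open MeasureTheory Set
open scoped ENNReal symmDiff

namespace Pool.Agent.P3fb035

open Pool.Agent.Lib.GRW

variable {V : Type} {G : SimpleGraph V}

theorem qm1_sum {S : Set V} (hS : S.Finite) (hne : S.Nonempty) (c : ℝ≥0∞) :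
    ∑' x, S.indicator (fun _ => c * (S.ncard : ℝ≥0∞)⁻¹) x = c := by
  have h0 : (S.ncard : ℝ≥0∞) ≠ 0 := Nat.cast_ne_zero.2 ((ncard_pos hS).2 hne).ne'
  rw [← _root_.tsum_subtype, ENNReal.tsum_set_const, ← hS.cast_ncard_eq, ENat.toENNReal_coe,
    mul_left_comm, ENNReal.mul_inv_cancel h0 (ENNReal.natCast_ne_top _), mul_one]

theorem qm1_move (ψ : G ≃g G) (a b y : V) :
    {c | ∃ φ : G ≃g G, φ a = ψ b ∧ φ y = c}.ncard = {c | ∃ φ : G ≃g G, φ a = b ∧ φ y = c}.ncard := by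
  rw [← ncard_image_of_injective {c | ∃ φ : G ≃g G, φ a = b ∧ φ y = c} ψ.injective]
  congr 1
  ext c
  constructor
  · rintro ⟨φ, h1, rfl⟩
    exact ⟨ψ.symm (φ y), ⟨φ.trans ψ.symm, by simp [h1], rfl⟩, by simp⟩
  · rintro ⟨_, ⟨φ, h1, rfl⟩, rfl⟩
    exact ⟨φ.trans ψ, by simp [h1], rfl⟩

theorem qm1_eq (hu : Unimod G) (ψ : G ≃g G) {o u v : V} (h1 : ψ v = o) (h2 : ψ o = u) :
    {c | ∃ φ : G ≃g G, φ u = o ∧ φ o = c}.ncard = {c | ∃ φ : G ≃g G, φ v = o ∧ φ o = c}.ncard := by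
  have e : {c | ∃ φ : G ≃g G, φ u = o ∧ φ o = c} = {c | ∃ φ : G ≃g G, φ o = o ∧ φ v = c} := by
    ext c
    constructor
    · rintro ⟨φ, k1, k2⟩
      exact ⟨ψ.trans φ, by simp [h2, k1], by simp [h1, k2]⟩
    · rintro ⟨φ, k1, k2⟩
      refine ⟨ψ.symm.trans φ, ?_, ?_⟩
      · rw [← h2]; simp [k1]
      · rw [← k2, ← h1]; simp
  rw [e, hu o v, ← qm1_move ψ v v o, h1]

theorem mtp (hl : LF G) (hc : G.Preconnected) (ht : Tr G) (hu : Unimod G) {F : V → V → ℝ≥0∞}
    (hF : ∀ (φ : G ≃g G) (u v : V), F (φ u) (φ v) = F u v) (o : V) :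
    ∑' v, F o v = ∑' u, F u o := by
  let A : V → Set V := fun v => {c | ∃ φ : G ≃g G, φ v = o ∧ φ o = c}
  have fin : ∀ v, (A v).Finite := fun v => fb hl hc v o o
  have ne : ∀ v, (A v).Nonempty := fun v => by
    obtain ⟨φ, h⟩ := ht v o
    exact ⟨φ o, φ, h, rfl⟩
  have sy : ∀ u v, u ∈ A v → v ∈ A u := by
    rintro u v ⟨φ, h1, h2⟩
    exact ⟨φ.symm, by rw [← h2]; simp, by rw [← h1]; simp⟩
  have key : ∀ v u, (A v).indicator (fun _ => F o v * ((A v).ncard : ℝ≥0∞)⁻¹) u =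
      (A u).indicator (fun _ => F u o * ((A u).ncard : ℝ≥0∞)⁻¹) v := by
    intro v u
    by_cases h : u ∈ A v
    · rw [indicator_of_mem h, indicator_of_mem (sy u v h)]
      obtain ⟨φ, h1, h2⟩ := h
      have e := hF φ o v
      rw [h1, h2] at e
      rw [e, qm1_eq hu φ h1 h2]
    · rw [indicator_of_notMem h, indicator_of_notMem fun k => h (sy v u k)]
  calc ∑' v, F o v
      = ∑' v, ∑' u, (A v).indicator (fun _ => F o v * ((A v).ncard : ℝ≥0∞)⁻¹) u :=
        tsum_congr fun v => (qm1_sum (fin v) (ne v) _).symm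
    _ = ∑' u, ∑' v, (A u).indicator (fun _ => F u o * ((A u).ncard : ℝ≥0∞)⁻¹) v := by
        rw [ENNReal.tsum_comm]
        exact tsum_congr fun u => tsum_congr fun v => key v u
    _ = ∑' u, F u o := tsum_congr fun u => qm1_sum (fin u) (ne u) _

end Pool.Agent.P3fb035
end

-- part Pool.Agent.P.MP_3fb035_pr.QM6
section

/-! Automorphisms act on the sample space. -/

set_option autoImplicit false

open MeasureTheory Set
open scoped ENNReal symmDiff

namespace Pool.Agent.P3fb035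

open Pool.Agent.Lib.GRW

variable {V : Type} {G : SimpleGraph V}
variable [G.LocallyFinite]

omit [G.LocallyFinite] in
theorem qm6_adj (φ : G ≃g G) {v w : V} (h : φ v = w) (u : V) :
    G.Adj v (φ.symm u) ↔ G.Adj w u := by
  rw [← φ.map_adj_iff, h, RelIso.apply_symm_apply]

theorem qm6_deg (φ : G ≃g G) {v w : V} (h : φ v = w) : G.degree w = G.degree v := by
  subst h
  exact φ.degree_eq v

/-- transport of an ordering along an automorphism -/
def qm6Tr (φ : G ≃g G) {v w : V} (h : φ v = w) (r : Rk G v) : Rk G w :=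
  ⟨fun u => r.1 (φ.symm u), fun u hu => by
      rw [qm6_deg φ h]
      exact r.out _ (by rwa [qm6_adj φ h]),
    fun u hu => by
      rw [qm6_deg φ h]
      exact r.lt _ (by rwa [qm6_adj φ h]),
    fun u u' hu hu' e => φ.symm.injective
      (r.inj _ _ (by rwa [qm6_adj φ h]) (by rwa [qm6_adj φ h]) e)⟩

/-- the transport as an equivalence -/
def qm6Eq (φ : G ≃g G) {v w : V} (h : φ v = w) : Rk G v ≃ Rk G w where
  toFun := qm6Tr φ h
  invFun := qm6Tr φ.symm (by rw [← h, RelIso.symm_apply_apply])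
  left_inv r := Rk.ext' G (funext fun u => congrArg r.1 (φ.symm_apply_apply u))
  right_inv r := Rk.ext' G (funext fun u => congrArg r.1 (φ.apply_symm_apply u))

theorem qm6_unif {α β : Type} [Finite α] [Nonempty α] [MeasurableSpace α]
    [DiscreteMeasurableSpace α] [Finite β] [Nonempty β] [MeasurableSpace β]
    [DiscreteMeasurableSpace β] (e : α ≃ β) : MeasurePreserving e (unif α) (unif β) := by
  refine ⟨Measurable.of_discrete, Measure.ext_of_singleton fun a => ?_⟩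
  rw [Measure.map_apply Measurable.of_discrete (measurableSet_singleton a)]
  have : e ⁻¹' {a} = {e.symm a} := by
    ext b
    simp [Equiv.eq_symm_apply]
  rw [this, unif_singleton, unif_singleton, Nat.card_congr e]

theorem qm6_par (φ : G ≃g G) {v w u : V} (r : Rk G v) (r' : Rk G w) (h : φ v = w)
    (e : ∀ z, r'.1 (φ z) = r.1 z) (hu : G.Adj v u) : par r' (φ u) = φ (par r u) := by
  have h1 : G.Adj w (φ u) := by rw [← h, φ.map_adj_iff]; exact hu
  have h2 := par_spec r hu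
  have h3 := par_spec r' h1
  have h4 : G.Adj w (φ (par r u)) := by rw [← h, φ.map_adj_iff]; exact h2.1
  refine r'.inj _ _ h3.1 h4 ?_
  have h5 := qm6_deg φ h
  have h6 := e u
  have h7 := e (par r u)
  omega

theorem exists_act (φ : G ≃g G) : ∃ T : Om G → Om G, MeasurePreserving T (Pm G) (Pm G) ∧
    ∀ ω a b k, G.Adj a b →
      orb (T ω) (φ a) (φ b) k = (φ (orb ω a b k).1, φ (orb ω a b k).2) := by
  let e : ∀ i : ℕ × V, Rk G (φ.symm i.2) ≃ Rk G i.2 := fun i => qm6Eq φ (φ.apply_symm_apply i.2)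
  refine ⟨fun ω i => e i (ω (i.1, φ.symm i.2)), ?_, ?_⟩
  · have h1 : MeasurePreserving (fun (ω : Om G) (i : ℕ × V) => ω (i.1, φ.symm i.2)) (Pm G)
        (Measure.infinitePi fun i : ℕ × V => unif (Rk G (φ.symm i.2))) :=
      ⟨measurable_pi_lambda _ fun i => measurable_pi_apply (i.1, φ.symm i.2),
        Measure.map_infinitePi_infinitePi_of_inj (P := fun i : ℕ × V => unif (Rk G i.2))
          (f := fun i : ℕ × V => (i.1, φ.symm i.2)) fun i j h => by
            simp only [Prod.mk.injEq] at h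
            exact Prod.ext h.1 (φ.symm.injective h.2)⟩
    have h2 : MeasurePreserving (fun (ω : ∀ i : ℕ × V, Rk G (φ.symm i.2)) (i : ℕ × V) => e i (ω i))
        (Measure.infinitePi fun i : ℕ × V => unif (Rk G (φ.symm i.2))) (Pm G) := by
      refine ⟨measurable_pi_lambda _ fun j =>
        (qm6_unif (e j)).measurable.comp (measurable_pi_apply j), ?_⟩
      rw [Measure.infinitePi_map_pi _ fun j => (qm6_unif (e j)).measurable, Pm]
      congr 1
      funext j
      exact (qm6_unif (e j)).map_eq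
    exact h2.comp h1
  · intro ω a b k hab
    induction k with
    | zero => rfl
    | succ k ih =>
      rw [orb, orb, ih]
      refine Prod.ext rfl (qm6_par φ _ _ rfl (fun z => ?_) (orb_adj ω hab k).symm)
      have h1 : ∀ v v' : V, v' = v → (ω (0, v')).1 = (ω (0, v)).1 := by
        rintro v _ rfl
        rfl
      change (ω (0, φ.symm (φ (orb ω a b k).2))).1 (φ.symm (φ z)) = _
      rw [h1 _ _ (φ.symm_apply_apply _), φ.symm_apply_apply]

end Pool.Agent.P3fb035
end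

-- part Pool.Agent.P.MP_3fb035_pr.QM2
section

/-! Automorphisms act on the sample space. -/

set_option autoImplicit false

open MeasureTheory Set
open scoped ENNReal symmDiff

namespace Pool.Agent.P3fb035

open Pool.Agent.Lib.GRW

variable {V : Type} {G : SimpleGraph V}
variable [G.LocallyFinite]

theorem qm2_mem (φ : G ≃g G) {ω ω' : Om G} (h : ∀ a b k, G.Adj a b →
    orb ω' (φ a) (φ b) k = (φ (orb ω a b k).1, φ (orb ω a b k).2)) {a v : V} (hav : G.Adj a v)
    (x y : V) : (x, y) ∈ Ob ω' (φ a) (φ v) ↔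
      ∃ x' y', (x', y') ∈ Ob ω a v ∧ φ x' = x ∧ φ y' = y := by
  constructor
  · rintro ⟨k, hk⟩
    rw [h a v k hav, Prod.mk.injEq] at hk
    exact ⟨_, _, ⟨k, rfl⟩, hk.1, hk.2⟩
  · rintro ⟨x', y', ⟨k, hk⟩, rfl, rfl⟩
    exact ⟨k, by rw [h a v k hav, hk]⟩

theorem mass_act (φ : G ≃g G) {ω ω' : Om G} (h : ∀ a b k, G.Adj a b →
    orb ω' (φ a) (φ b) k = (φ (orb ω a b k).1, φ (orb ω a b k).2)) (v u : V) :
    mass ω' (φ v) (φ u) = mass ω v u := by
  classical
  unfold mass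
  rw [← φ.toEquiv.tsum_eq]
  refine tsum_congr fun a => ?_
  have e0 : φ.toEquiv a = φ a := rfl
  rw [e0]
  by_cases hav : G.Adj a v
  · have inj : Function.Injective φ := φ.injective
    have e1 : {b | (b, φ v) ∈ Ob ω' (φ a) (φ v)} = φ '' {b | (b, v) ∈ Ob ω a v} := by
      ext b
      simp only [mem_ofPred_eq, qm2_mem φ h hav, mem_image]
      constructor
      · rintro ⟨x, y, hxy, rfl, e⟩
        exact ⟨x, inj e ▸ hxy, rfl⟩
      · rintro ⟨x, hx, rfl⟩
        exact ⟨x, v, hx, rfl, rfl⟩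
    have e2 : {z | (φ u, z) ∈ Ob ω' (φ a) (φ v)} = φ '' {z | (u, z) ∈ Ob ω a v} := by
      ext b
      simp only [mem_ofPred_eq, qm2_mem φ h hav, mem_image]
      constructor
      · rintro ⟨x, y, hxy, e, rfl⟩
        exact ⟨y, inj e ▸ hxy, rfl⟩
      · rintro ⟨y, hy, rfl⟩
        exact ⟨u, y, hy, rfl, rfl⟩
    have e3 : Prod.fst '' Ob ω' (φ a) (φ v) = φ '' (Prod.fst '' Ob ω a v) := by
      ext b
      constructor
      · rintro ⟨⟨x, y⟩, hxy, rfl⟩
        obtain ⟨x', y', h', rfl, rfl⟩ := (qm2_mem φ h hav x y).1 hxy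
        exact ⟨x', ⟨(x', y'), h', rfl⟩, rfl⟩
      · rintro ⟨_, ⟨⟨x, y⟩, hxy, rfl⟩, rfl⟩
        exact ⟨(φ x, φ y), (qm2_mem φ h hav _ _).2 ⟨x, y, hxy, rfl, rfl⟩, rfl⟩
    rw [if_pos hav, if_pos (φ.map_adj_iff.2 hav), Jn, Jn, e1, e2, e3,
      ncard_image_of_injective _ inj, ncard_image_of_injective _ inj,
      ncard_image_of_injective _ inj]
  · rw [if_neg hav, if_neg fun e => hav (φ.map_adj_iff.1 e)]

variable [Countable V] [MeasurableSpace V] [DiscreteMeasurableSpace V]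

theorem qm2_meas (a v : V) (e : V × V) : Measurable fun ω : Om G => e ∈ Ob ω a v :=
  Measurable.exists fun k =>
    (Measurable.of_discrete (f := fun p : V × V => p = e)).comp (meas_orb a v k)

theorem meas_Jn (a v : V) : Measurable fun ω : Om G => Jn ω a v :=
  measurable_ncard.comp (measurable_set_iff.2 fun b => qm2_meas a v (b, v))

theorem meas_mass (v u : V) : Measurable fun ω : Om G => mass ω v u := by
  classical
  unfold mass
  refine Measurable.ennreal_tsum fun a => ?_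
  by_cases hav : G.Adj a v
  · simp only [if_pos hav]
    have hc : Measurable fun n : ℕ => (n : ℝ≥0∞) := Measurable.of_discrete
    have h2 : Measurable fun ω : Om G => {z | (u, z) ∈ Ob ω a v}.ncard :=
      measurable_ncard.comp (measurable_set_iff.2 fun z => qm2_meas a v (u, z))
    have h3 : Measurable fun ω : Om G => (Prod.fst '' Ob ω a v).ncard := by
      refine measurable_ncard.comp (measurable_set_iff.2 fun x => ?_)
      have : (fun ω : Om G => x ∈ Prod.fst '' Ob ω a v) = fun ω => ∃ y, (x, y) ∈ Ob ω a v := by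
        funext ω
        simp
      rw [this]
      exact Measurable.exists fun y => qm2_meas a v (x, y)
    exact ((hc.comp (meas_Jn a v)).inv.mul (hc.comp h2)).mul (hc.comp h3).inv
  · simp only [if_neg hav]
    exact measurable_const

end Pool.Agent.P3fb035
end

-- part Pool.Agent.P.MP_3fb035_pr.QM5
section

/-! Closed trails; incoming mass. -/

set_option autoImplicit false

open MeasureTheory Set
open scoped ENNReal symmDiff

namespace Pool.Agent.P3fb035

open Pool.Agent.Lib.GRW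

variable {V : Type} {G : SimpleGraph V}
variable [G.LocallyFinite]

variable {ω : Om G} {a b : V}

theorem ob_period (hf : AllFin ω) (hab : G.Adj a b) : ∃ n ≥ 1, orb ω a b n = (a, b) := by
  have h1 : ∀ m, ∃ K ≥ m, (orb ω a b K).2 = b := by
    intro m
    induction m with
    | zero => exact ⟨0, le_rfl, rfl⟩
    | succ m ih =>
      obtain ⟨K, hK, e⟩ := ih
      obtain ⟨z', L, hL, -⟩ := hf _ _ (orb_adj ω hab (K + 1))
      rw [orb_add] at hL
      exact ⟨K + 1 + L, by omega, by rw [hL]; exact e⟩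
  have h2 : {K | (orb ω a b K).2 = b}.Infinite :=
    infinite_of_forall_exists_gt fun m => (h1 (m + 1)).imp fun K hK => ⟨hK.2, hK.1⟩
  obtain ⟨K, hK, K', hK', hlt, e⟩ := h2.exists_lt_map_eq_of_mapsTo
    (f := fun K => (orb ω a b K).1) (t := G.neighborSet b)
    (fun K hK => by have := (orb_adj ω hab K).symm; rwa [hK] at this) (toFinite _)
  have h3 := orb_rev (ω := ω) hab (le_refl K)
  have h4 := orb_rev (ω := ω) hab hlt.le
  rw [← Prod.ext e (hK.trans hK'.symm), h3, Nat.sub_self] at h4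
  exact ⟨K' - K, by omega, (Prod.swap_injective h4).symm⟩

theorem qm5_per {n : ℕ} (h : orb ω a b n = (a, b)) (q k : ℕ) :
    orb ω a b (n * q + k) = orb ω a b k := by
  induction q with
  | zero => rw [mul_zero, zero_add]
  | succ q ih => rw [mul_add, mul_one, add_comm (n * q), add_assoc, ← orb_add, h, ih]

theorem ob_fin (hf : AllFin ω) (hab : G.Adj a b) : (Ob ω a b).Finite := by
  obtain ⟨n, hn, h⟩ := ob_period hf hab
  refine ((finite_Iio n).image (orb ω a b)).subset ?_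
  rintro _ ⟨k, rfl⟩
  exact ⟨k % n, Nat.mod_lt _ hn, by rw [← qm5_per h (k / n), Nat.div_add_mod]⟩

theorem ob_eq (hf : AllFin ω) (hab : G.Adj a b) {e : V × V} (he : e ∈ Ob ω a b) :
    Ob ω e.1 e.2 = Ob ω a b := by
  obtain ⟨n, hn, h⟩ := ob_period hf hab
  obtain ⟨K, rfl⟩ := he
  refine Subset.antisymm ?_ ?_ <;> rintro _ ⟨k, rfl⟩
  · exact ⟨K + k, (orb_add ..).symm⟩
  · have := Nat.le_mul_of_pos_left K hn
    exact ⟨n * K - K + k, by rw [orb_add, ← qm5_per h K k]; congr 1; omega⟩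

theorem qm5_adj (hab : G.Adj a b) {e : V × V} (he : e ∈ Ob ω a b) : G.Adj e.1 e.2 := by
  obtain ⟨K, rfl⟩ := he
  exact orb_adj ω hab K

theorem qm5_snd (hf : AllFin ω) (hab : G.Adj a b) :
    Prod.snd '' Ob ω a b = Prod.fst '' Ob ω a b := by
  obtain ⟨n, hn, h⟩ := ob_period hf hab
  refine Subset.antisymm ?_ ?_ <;> rintro _ ⟨_, ⟨k, rfl⟩, rfl⟩
  · exact ⟨_, ⟨k + 1, rfl⟩, rfl⟩
  · refine ⟨_, ⟨n - 1 + k, rfl⟩, ?_⟩
    rw [← qm5_per h 1 k, show n * 1 + k = n - 1 + k + 1 by omega]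
    rfl

open Classical in
theorem qm5_tsum {S : Set V} (hS : S.Finite) (c : ℝ≥0∞) :
    ∑' x, (if x ∈ S then c else 0) = S.ncard * c := by
  rw [tsum_eq_sum (s := hS.toFinset) fun x hx => if_neg (by simpa using hx),
    Finset.sum_congr rfl fun x hx => if_pos (by simpa using hx), Finset.sum_const, nsmul_eq_mul,
    ncard_eq_toFinset_card S hS]

theorem qm5_one {S : Set V} (hS : S.Finite) (h : S.Nonempty) :
    (S.ncard : ℝ≥0∞) * (S.ncard : ℝ≥0∞)⁻¹ = 1 :=
  ENNReal.mul_inv_cancel (Nat.cast_ne_zero.2 ((ncard_pos hS).2 h).ne') (ENNReal.natCast_ne_top _)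

theorem mass_in [Countable V] (hf : AllFin ω) (u : V) : ∑' v, mass ω v u = G.degree u := by
  classical
  have h1 : ∀ v, mass ω v u = ∑ z ∈ G.neighborFinset u, ∑' a, if a ∈ {b | (b, v) ∈ Ob ω u z} then
      (({b | (b, v) ∈ Ob ω u z}.ncard : ℕ) : ℝ≥0∞)⁻¹ *
        (((Prod.fst '' Ob ω u z).ncard : ℕ) : ℝ≥0∞)⁻¹ else 0 := by
    intro v
    rw [← Summable.tsum_finsetSum fun _ _ => ENNReal.summable]
    refine tsum_congr fun a => ?_
    split_ifs with ha
    · have h2 : {z | (u, z) ∈ Ob ω a v} =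
          ↑((G.neighborFinset u).filter fun z => (u, z) ∈ Ob ω a v) := by
        ext z
        simpa using fun h => qm5_adj ha h
      rw [h2, ncard_coe_finset, Finset.card_filter, Nat.cast_sum, Finset.mul_sum, Finset.sum_mul]
      refine Finset.sum_congr rfl fun z hz => ?_
      rw [SimpleGraph.mem_neighborFinset] at hz
      by_cases h3 : (u, z) ∈ Ob ω a v
      · have h4 : Ob ω u z = Ob ω a v := ob_eq hf ha h3
        rw [if_pos h3, h4, if_pos ⟨0, rfl⟩, Nat.cast_one, mul_one, Jn]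
      · rw [if_neg h3, Nat.cast_zero, mul_zero, zero_mul, if_neg]
        exact fun h4 => h3 ((ob_eq hf hz h4).ge ⟨0, rfl⟩)
    · exact (Finset.sum_eq_zero fun z hz => if_neg fun h =>
        ha (qm5_adj ((G.mem_neighborFinset u z).1 hz) h)).symm
  rw [tsum_congr h1, Summable.tsum_finsetSum fun _ _ => ENNReal.summable,
    ← G.card_neighborFinset_eq_degree, Finset.card_eq_sum_ones, Nat.cast_sum]
  refine Finset.sum_congr rfl fun z hz => ?_
  rw [SimpleGraph.mem_neighborFinset] at hz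
  have h2 := (ob_fin hf hz).image Prod.fst
  rw [Nat.cast_one, ← qm5_one h2 ⟨_, _, ⟨0, rfl⟩, rfl⟩, ← qm5_tsum h2]
  refine tsum_congr fun v => ?_
  have h3 : {b | (b, v) ∈ Ob ω u z}.Finite := h2.subset fun b hb => ⟨_, hb, rfl⟩
  rw [qm5_tsum h3, ← mul_assoc]
  split_ifs with hv
  · rw [← qm5_snd hf hz] at hv
    obtain ⟨e, he, rfl⟩ := hv
    rw [qm5_one h3 ⟨e.1, he⟩, one_mul]
  · rw [← qm5_snd hf hz] at hv
    rw [show {b | (b, v) ∈ Ob ω u z} = ∅ from eq_empty_of_forall_notMem fun b hb =>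
      hv ⟨_, hb, rfl⟩, ncard_empty, Nat.cast_zero, zero_mul, zero_mul]

end Pool.Agent.P3fb035
end

-- part Pool.Agent.P.MP_3fb035_pr.QM3
section

/-! Incoming and outgoing mass. -/

set_option autoImplicit false

open MeasureTheory Set
open scoped ENNReal symmDiff

namespace Pool.Agent.P3fb035

open Pool.Agent.Lib.GRW

variable {V : Type} {G : SimpleGraph V}
variable [G.LocallyFinite]

variable {ω : Om G} {a b : V}

theorem qm3_iso (he : ∀ v, Even (G.degree v)) (hf : AllFin ω) {δ : ℝ} (hδ : Iso G δ)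
    (hab : G.Adj a b) : ((Ob ω a b).ncard : ℝ) ≤ δ / 2 * (Prod.fst '' Ob ω a b).ncard := by
  classical
  have hO := ob_fin hf hab
  have hS := hO.image Prod.fst
  have h1 := hδ hS.toFinset
  rw [← ncard_eq_toFinset_card _ hS] at h1
  have h2 : ∀ e ∈ Ob ω a b, e.1 ∈ hS.toFinset ∧ e.2 ∈ hS.toFinset ∧ G.Adj e.1 e.2 := by
    rintro _ ⟨k, rfl⟩
    exact ⟨hS.mem_toFinset.2 ⟨_, ⟨k, rfl⟩, rfl⟩, hS.mem_toFinset.2 ⟨_, ⟨k + 1, rfl⟩, rfl⟩,
      orb_adj ω hab k⟩
  have h3 : Disjoint hO.toFinset (hO.toFinset.image Prod.swap) := by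
    refine Finset.disjoint_left.2 fun e h g => ?_
    obtain ⟨e', h', rfl⟩ := Finset.mem_image.1 g
    rw [hO.mem_toFinset] at h h'
    rw [← ob_eq hf hab h'] at h
    obtain ⟨j, hj⟩ := h
    exact orb_pal he (h2 _ h').2.2 j hj
  have h4 : hO.toFinset ∪ hO.toFinset.image Prod.swap ⊆ hS.toFinset.biUnion fun x =>
      (hS.toFinset.filter fun w => G.Adj x w).image fun w => (x, w) := by
    intro e h
    have h5 : e.1 ∈ hS.toFinset ∧ e.2 ∈ hS.toFinset ∧ G.Adj e.1 e.2 := by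
      rcases Finset.mem_union.1 h with h | h
      · exact h2 e (hO.mem_toFinset.1 h)
      · obtain ⟨e', h', rfl⟩ := Finset.mem_image.1 h
        have := h2 e' (hO.mem_toFinset.1 h')
        exact ⟨this.2.1, this.1, this.2.2.symm⟩
    exact Finset.mem_biUnion.2 ⟨e.1, h5.1,
      Finset.mem_image.2 ⟨e.2, Finset.mem_filter.2 h5.2, rfl⟩⟩
  have h5 := (Finset.card_le_card h4).trans Finset.card_biUnion_le
  rw [Finset.card_union_of_disjoint h3, Finset.card_image_of_injective _ Prod.swap_injective,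
    ← ncard_eq_toFinset_card _ hO] at h5
  have h6 : (Ob ω a b).ncard + (Ob ω a b).ncard ≤
      ∑ v ∈ hS.toFinset, {w | w ∈ hS.toFinset ∧ G.Adj v w}.ncard :=
    h5.trans (Finset.sum_le_sum fun x _ => Finset.card_image_le.trans (by
      rw [← ncard_coe_finset, Finset.coe_filter]))
  have h7 : (((Ob ω a b).ncard + (Ob ω a b).ncard : ℕ) : ℝ) ≤ _ := (Nat.cast_le.2 h6).trans h1
  push_cast at h7
  linarith

theorem qm3_sum {O : Set (V × V)} (hO : O.Finite) :
    ∑' u, (({z | (u, z) ∈ O}.ncard : ℕ) : ℝ≥0∞) ≤ O.ncard := by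
  classical
  rw [tsum_eq_sum (s := hO.toFinset.image Prod.fst), ← Nat.cast_sum, Nat.cast_le,
    ncard_eq_toFinset_card _ hO, Finset.card_eq_sum_card_image Prod.fst]
  · refine Finset.sum_le_sum fun u _ => ?_
    rw [← ncard_coe_finset]
    refine ncard_le_ncard_of_injOn (fun z => (u, z)) (fun z hz => ?_)
      (fun _ _ _ _ h => congrArg Prod.snd h) (Finset.finite_toSet _)
    exact Finset.mem_coe.2 (Finset.mem_filter.2 ⟨hO.mem_toFinset.2 hz, rfl⟩)
  · intro u hu
    rw [show {z | (u, z) ∈ O} = ∅ from eq_empty_of_forall_notMem fun z hz =>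
      hu (Finset.mem_image.2 ⟨_, hO.mem_toFinset.2 hz, rfl⟩)]
    simp

open Classical in
theorem mass_out [Countable V] (he : ∀ v, Even (G.degree v)) (hf : AllFin ω) {δ : ℝ}
    (hδ : Iso G δ) (v : V) : ∑' u, mass ω v u ≤
      ENNReal.ofReal (δ / 2) * ∑' a, if G.Adj a v then (Jn ω a v : ℝ≥0∞)⁻¹ else 0 := by
  simp only [mass]
  rw [ENNReal.tsum_comm, ← ENNReal.tsum_mul_left]
  refine ENNReal.tsum_le_tsum fun a => ?_
  split_ifs with h
  · rw [ENNReal.tsum_mul_right, ENNReal.tsum_mul_left, mul_assoc, mul_comm]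
    refine mul_le_mul_left (ENNReal.div_le_of_le_mul ((qm3_sum (ob_fin hf h)).trans ?_)) _
    rw [← ENNReal.ofReal_natCast, ← ENNReal.ofReal_natCast (ncard (Prod.fst '' _)),
      ← ENNReal.ofReal_mul' (Nat.cast_nonneg _)]
    exact ENNReal.ofReal_le_ofReal (qm3_iso he hf hδ h)
  · simp

end Pool.Agent.P3fb035
end

-- part Pool.Agent.P.MP_3fb035_pr.QW3
section

/-! The mean of the inverse cycle length. -/

set_option autoImplicit false

open MeasureTheory Set
open scoped ENNReal symmDiff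

namespace Pool.Agent.P3fb035

open Pool.Agent.Lib.GRW

variable {V : Type} {G : SimpleGraph V}
variable [G.LocallyFinite]

variable {w a : V} {π : V → V}

/-- the central binomial probabilities -/
noncomputable def qw3a (m : ℕ) : ℝ := ∏ i ∈ Finset.range m, (2 * (i : ℝ) + 1) / (2 * i + 2)

theorem qw3a_pos (m : ℕ) : 0 < qw3a m := Finset.prod_pos fun i _ => by positivity

theorem qw3a_succ (m : ℕ) : ((m : ℝ) + 1) * qw3a (m + 1) = (m + 1 / 2) * qw3a m := by
  rw [qw3a, Finset.prod_range_succ, ← qw3a]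
  field_simp

theorem qw3_sum (k : ℕ) : ∑ j ∈ Finset.range k, qw3a (k - (j + 1)) / ((j : ℝ) + 1) =
    2 * qw3a k * ∑ i ∈ Finset.range k, 1 / (2 * (i : ℝ) + 1) := by
  induction k with
  | zero => simp
  | succ k ih =>
    have hk : (k : ℝ) + 1 ≠ 0 := by positivity
    refine mul_left_cancel₀ hk ?_
    have e : ∀ j ∈ Finset.range k, ((k : ℝ) + 1) * (qw3a (k + 1 - (j + 1)) / ((j : ℝ) + 1)) =
        (k + 1 / 2) * (qw3a (k - (j + 1)) / ((j : ℝ) + 1)) + (qw3a (k - j) - qw3a (k - (j + 1))) := by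
      intro j hj
      obtain ⟨m, rfl⟩ := Nat.exists_eq_add_of_lt (Finset.mem_range.1 hj)
      have e1 : j + m + 1 + 1 - (j + 1) = m + 1 := by omega
      have e2 : j + m + 1 - (j + 1) = m := by omega
      have e3 : j + m + 1 - j = m + 1 := by omega
      have hj1 : (j : ℝ) + 1 ≠ 0 := by positivity
      rw [e1, e2, e3]
      push_cast
      field_simp
      linear_combination 2 * qw3a_succ m
    rw [Finset.sum_range_succ, mul_add, Finset.mul_sum, Finset.sum_congr rfl e,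
      Finset.sum_add_distrib, ← Finset.mul_sum, ih,
      Finset.sum_range_sub' (fun j => qw3a (k - j)) k, Finset.sum_range_succ, Nat.sub_self,
      Nat.sub_self, Nat.sub_zero, mul_div_cancel₀ _ hk]
    have h1 := qw3a_succ k
    have h2 : (2 * (k : ℝ) + 1) * (1 / (2 * (k : ℝ) + 1)) = 1 := by field_simp
    linear_combination (-2 * (∑ i ∈ Finset.range k, 1 / (2 * (i : ℝ) + 1) + 1 / (2 * (k : ℝ) + 1))) *
      h1 - qw3a k * h2

omit [G.LocallyFinite] in
theorem ewens_sum {k : ℕ} (hk : k ≠ 0) {q p : ℕ → ℝ} (h0 : q 0 = 1)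
    (h1 : ∀ j < k, q (j + 1) = q j - p j) (h2 : ∀ j < k, q j = (2 * ((k : ℝ) - j) - 1) * p j) :
    q k = 0 ∧ ∑ j ∈ Finset.range k, p j / (j + 1) =
      (∑ i ∈ Finset.range k, 1 / (2 * (i : ℝ) + 1)) / k := by
  have hk0 : (0 : ℝ) < k := by positivity
  have ha := qw3a_pos k
  have st : ∀ j m, k = j + m + 1 → q j * (k * qw3a k) = (m + 1) * qw3a (m + 1) →
      p j * (k * qw3a k) = qw3a m / 2 := fun j m e h => by
    have e1 : (k : ℝ) = j + m + 1 := by exact_mod_cast e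
    rw [h2 j (by omega), qw3a_succ] at h
    refine mul_left_cancel₀ (show 2 * (m : ℝ) + 1 ≠ 0 by positivity) ?_
    linear_combination h - 2 * p j * (k * qw3a k) * e1
  have hq : ∀ j m, k = j + m → q j * (k * qw3a k) = m * qw3a m := by
    intro j
    induction j with
    | zero =>
      intro m e
      rw [h0, e]
      simp
    | succ j ih =>
      intro m e
      have h3 := st j m (by omega) (by exact_mod_cast ih (m + 1) (by omega))
      have e1 : (k : ℝ) = j + 1 + m := by exact_mod_cast e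
      rw [h1 j (by omega), h2 j (by omega)]
      linear_combination 2 * (m : ℝ) * h3 + 2 * p j * (k * qw3a k) * e1
  refine ⟨?_, ?_⟩
  · have := hq k 0 rfl
    rw [Nat.cast_zero, zero_mul] at this
    exact (mul_eq_zero.1 this).resolve_right (by positivity)
  · have e : ∀ j ∈ Finset.range k, p j / (j + 1) =
        qw3a (k - (j + 1)) / ((j : ℝ) + 1) / (2 * (k * qw3a k)) := by
      intro j hj
      obtain ⟨m, hm⟩ := Nat.exists_eq_add_of_lt (Finset.mem_range.1 hj)
      have h3 := st j m hm (by exact_mod_cast hq j (m + 1) (by omega))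
      rw [show k - (j + 1) = m by omega, show qw3a m = 2 * (p j * (k * qw3a k)) by linarith]
      field_simp
    rw [Finset.sum_congr rfl e, ← Finset.sum_div, qw3_sum]
    field_simp

theorem inv_arr {k : ℕ} (hk : G.degree w = 2 * k) (hπ : Prs G w π) (ha : G.Adj w a) :
    ∫⁻ r, (((Arr π r a).ncard : ℕ) : ℝ≥0∞)⁻¹ ∂unif (Rk G w) ≤
      ENNReal.ofReal ((∑ i ∈ Finset.range k, 1 / (2 * (i : ℝ) + 1)) / k) := by
  classical
  have hk0 : k ≠ 0 := by
    rintro rfl
    have := (G.degree_pos_iff_exists_adj w).2 ⟨a, ha⟩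
    omega
  let A : ℕ → Set (Rk G w) := fun j => {r | ∀ l < j, dep π r a l ≠ π a}
  let C : ℕ → Set (Rk G w) := fun j => {r | (∀ l < j, dep π r a l ≠ π a) ∧ dep π r a j = π a}
  have hm : ∀ s : Set (Rk G w), MeasurableSet s := fun _ => trivial
  obtain ⟨e1, e2⟩ := ewens_sum hk0 (q := fun j => (unif (Rk G w)).real (A j))
    (p := fun j => (unif (Rk G w)).real (C j)) (by simp [A]) (fun j _ => by
      have e : A j = A (j + 1) ∪ C j := by
        ext r
        simp only [A, C, mem_union, mem_ofPred_eq, Nat.forall_lt_succ_right]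
        tauto
      have hd : Disjoint (A (j + 1)) (C j) :=
        disjoint_left.2 fun r h1 h2 => h1 j j.lt_succ_self h2.2
      rw [e, measureReal_union hd (hm _)]
      ring) (fun j hj => by
      have e := congrArg ENNReal.toReal (close_prob hk hπ ha hj)
      rw [ENNReal.toReal_mul, ENNReal.toReal_natCast] at e
      have e' : ((2 * (k - j) - 1 : ℕ) : ℝ) = 2 * ((k : ℝ) - j) - 1 := by
        rw [Nat.cast_sub (by omega), Nat.cast_mul, Nat.cast_sub hj.le]
        simp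
      rw [e'] at e
      exact e)
  have hn : unif (Rk G w) (A k) = 0 := (measureReal_eq_zero_iff (measure_ne_top _ _)).1 e1
  rw [← e2, ENNReal.ofReal_sum_of_nonneg fun j _ => by positivity]
  calc ∫⁻ r, (((Arr π r a).ncard : ℕ) : ℝ≥0∞)⁻¹ ∂unif (Rk G w)
      ≤ ∫⁻ r, ∑ j ∈ Finset.range k, (C j).indicator (fun _ => (((j + 1 : ℕ) : ℝ≥0∞))⁻¹) r
          ∂unif (Rk G w) := by
        refine lintegral_mono_ae ?_
        filter_upwards [measure_eq_zero_iff_ae_notMem.1 hn] with r hr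
        have hex : ∃ l, dep π r a l = π a := dep_close hπ ha r
        have hlt : Nat.find hex < k := by
          by_contra h
          exact hr fun l hl => Nat.find_min hex (by omega)
        have hc : r ∈ C (Nat.find hex) := ⟨fun l hl => Nat.find_min hex hl, Nat.find_spec hex⟩
        refine le_trans ?_ (Finset.single_le_sum (f := fun j => (C j).indicator
          (fun _ => (((j + 1 : ℕ) : ℝ≥0∞))⁻¹) r) (fun _ _ => zero_le) (Finset.mem_range.2 hlt))
        rw [indicator_of_mem hc, arr_card hπ ha r hc.2 hc.1]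
    _ = _ := by
        rw [lintegral_finsetSum _ fun j _ => measurable_const.indicator (hm _)]
        refine Finset.sum_congr rfl fun j _ => ?_
        rw [lintegral_indicator_const (hm _), ENNReal.ofReal_div_of_pos (by positivity),
          ofReal_measureReal (measure_ne_top _ _), ← Nat.cast_succ, ENNReal.ofReal_natCast,
          ENNReal.div_eq_inv_mul]

end Pool.Agent.P3fb035
end

-- part Pool.Agent.P.MP_3fb035_pr.QM4
section

/-! An isoperimetric criterion for infinite trails. -/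

set_option autoImplicit false

open MeasureTheory Set
open scoped ENNReal symmDiff

namespace Pool.Agent.P3fb035

open Pool.Agent.Lib.GRW

variable {V : Type} {G : SimpleGraph V}
variable [G.LocallyFinite]

variable [Countable V] [MeasurableSpace V] [DiscreteMeasurableSpace V]

theorem inv_Jn (he : ∀ v, Even (G.degree v)) (hf : ∀ᵐ ω ∂Pm G, AllFin ω) {k : ℕ} {a v : V}
    (hk : G.degree v = 2 * k) (ha : G.Adj a v) :
    ∫⁻ ω, (Jn ω a v : ℝ≥0∞)⁻¹ ∂Pm G ≤
      ENNReal.ofReal ((∑ i ∈ Finset.range k, 1 / (2 * (i : ℝ) + 1)) / k) := by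
  have hm : Measurable fun ω : Om G => (Jn ω a v : ℝ≥0∞)⁻¹ :=
    (Measurable.of_discrete (f := fun n : ℕ => (n : ℝ≥0∞)⁻¹)).comp (meas_Jn a v)
  have h1 : ∫⁻ ω, (Jn ω a v : ℝ≥0∞)⁻¹ ∂Pm G =
      ∫⁻ ω, {ω : Om G | Fin1 ω v}.indicator (fun ω => (Jn ω a v : ℝ≥0∞)⁻¹) ω ∂Pm G := by
    refine lintegral_congr_ae (hf.mono fun ω hω => ?_)
    exact (indicator_of_mem (s := {ω : Om G | Fin1 ω v}) (hω v)
      fun ω => (Jn ω a v : ℝ≥0∞)⁻¹).symm
  rw [h1, resample v (hm.indicator (meas_fin1 v))]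
  refine (lintegral_mono fun ω => ?_).trans (le_of_eq (by
    rw [lintegral_const, measure_univ, mul_one]))
  by_cases hω : Fin1 ω v
  · obtain ⟨π, hπ, hr⟩ := exists_prs he hω
    refine le_trans (le_of_eq (lintegral_congr fun r => ?_)) (inv_arr hk hπ ha.symm)
    rw [indicator_of_mem (s := {ω : Om G | Fin1 ω v}) ((fin1_upd r).2 hω), Jn,
      link_arr (π := π) (fun z hz => (hr z hz).imp fun L hL => (ret_upd r).2 hL) ha.symm, upd_self]
  · refine le_trans (le_of_eq ((lintegral_congr fun r => ?_).trans lintegral_zero)) zero_le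
    exact indicator_of_notMem (s := {ω : Om G | Fin1 ω v}) (fun h => hω ((fin1_upd r).1 h)) _

theorem cheeger (hc : G.Connected) (ht : Tr G) (hu : Unimod G) {k : ℕ}
    (hk : ∀ v, G.degree v = 2 * k) {δ : ℝ} (hδ : Iso G δ)
    (hlt : δ * ∑ i ∈ Finset.range k, 1 / (2 * (i : ℝ) + 1) < 2 * k) :
    ¬∀ᵐ ω ∂Pm G, AllFin ω := by
  classical
  intro hf
  obtain ⟨o⟩ := hc.nonempty
  have he : ∀ v, Even (G.degree v) := fun v => by rw [hk v]; exact even_two_mul k
  have hk0 : k ≠ 0 := by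
    rintro rfl
    simp at hlt
  have hkp : (0 : ℝ) < k := by exact_mod_cast Nat.pos_of_ne_zero hk0
  have hl : LF G := fun v => (G.neighborSet v).toFinite
  have hF : ∀ (φ : G ≃g G) (u v : V),
      ∫⁻ ω, mass ω (φ u) (φ v) ∂Pm G = ∫⁻ ω, mass ω u v ∂Pm G := by
    intro φ u v
    obtain ⟨T, hT, h⟩ := exists_act φ
    rw [← hT.lintegral_comp (meas_mass (φ u) (φ v))]
    exact lintegral_congr fun ω => mass_act φ (h ω) u v
  have h1 := mtp hl hc.preconnected ht hu (F := fun u v => ∫⁻ ω, mass ω u v ∂Pm G) hF o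
  rw [← lintegral_tsum fun v => (meas_mass o v).aemeasurable,
    ← lintegral_tsum fun v => (meas_mass v o).aemeasurable] at h1
  have h2 : ∫⁻ ω, ∑' v, mass ω v o ∂Pm G = ((2 * k : ℕ) : ℝ≥0∞) := by
    rw [lintegral_congr_ae (hf.mono fun ω hω => mass_in hω o), lintegral_const, measure_univ,
      mul_one, hk]
  have hm : ∀ a, Measurable fun ω : Om G => if G.Adj a o then (Jn ω a o : ℝ≥0∞)⁻¹ else 0 := by
    intro a
    split_ifs
    · exact (Measurable.of_discrete (f := fun n : ℕ => (n : ℝ≥0∞)⁻¹)).comp (meas_Jn a o)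
    · exact measurable_const
  set H : ℝ := ∑ i ∈ Finset.range k, 1 / (2 * (i : ℝ) + 1) with hH
  have hH0 : 0 ≤ H := Finset.sum_nonneg fun i _ => by positivity
  have h3 : ∑' a, ∫⁻ ω, (if G.Adj a o then (Jn ω a o : ℝ≥0∞)⁻¹ else 0) ∂Pm G ≤
      ((2 * k : ℕ) : ℝ≥0∞) * ENNReal.ofReal (H / k) := by
    rw [tsum_eq_sum (s := G.neighborFinset o) fun a ha => by
      rw [SimpleGraph.mem_neighborFinset, G.adj_comm] at ha
      simp only [if_neg ha, lintegral_zero]]
    rw [← hk o, ← SimpleGraph.card_neighborFinset_eq_degree, ← nsmul_eq_mul]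
    refine Finset.sum_le_card_nsmul _ _ _ fun a ha => ?_
    rw [SimpleGraph.mem_neighborFinset, G.adj_comm] at ha
    simp only [if_pos ha]
    exact inv_Jn he hf (hk o) ha
  have h4 : ∫⁻ ω, ∑' v, mass ω o v ∂Pm G ≤
      ENNReal.ofReal (δ / 2) * (((2 * k : ℕ) : ℝ≥0∞) * ENNReal.ofReal (H / k)) := by
    refine (lintegral_mono_ae (hf.mono fun ω hω => mass_out he hω hδ o)).trans ?_
    rw [lintegral_const_mul' _ _ ENNReal.ofReal_ne_top, lintegral_tsum fun a => (hm a).aemeasurable]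
    exact mul_le_mul_right h3 _
  rw [h1, h2, ← ENNReal.ofReal_natCast, ← ENNReal.ofReal_mul (Nat.cast_nonneg _),
    ← ENNReal.ofReal_mul' (by positivity)] at h4
  have h5 : δ / 2 * (((2 * k : ℕ) : ℝ) * (H / k)) = δ * H := by
    push_cast
    field_simp
  rw [h5] at h4
  refine absurd h4 (not_le.2 ((ENNReal.ofReal_lt_ofReal_iff ?_).2 ?_))
  · push_cast
    positivity
  · push_cast
    exact hlt

end Pool.Agent.P3fb035
end

-- part Pool.Agent.P.MP_3fb035_pr.QZ
section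

/-! Assembly. -/

set_option autoImplicit false

open MeasureTheory Set
open scoped ENNReal symmDiff

namespace Pool.Agent.P3fb035

open Pool.Agent.Lib.GRW

variable {V : Type} {G : SimpleGraph V}

theorem reg_of_tr [G.LocallyFinite] (ht : Tr G) (o : V) : Reg G (G.degree o) := fun v => by
  obtain ⟨φ, rfl⟩ := ht o v
  refine ⟨Set.toFinite _, ?_⟩
  rw [← φ.degree_eq o, ← SimpleGraph.card_neighborSet_eq_degree, ← Nat.card_eq_fintype_card,
    Nat.card_coe_set_eq]

theorem deg_of_tr [G.LocallyFinite] (ht : Tr G) (o v : V) : G.degree v = G.degree o := by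
  obtain ⟨φ, rfl⟩ := ht o v
  exact φ.degree_eq o

section
variable [Infinite V] [Countable V] [MeasurableSpace V] [DiscreteMeasurableSpace V]
  {Ω : Type} [MeasurableSpace Ω] {P : Measure Ω} {X : ℕ → Ω → V} {d : ℕ} {o : V}

theorem odd_cut (hr : Reg G d) (hd : Odd d) (hc : G.Preconnected) (ht : Tr G) (h2 : ¬Two G)
    (h : IsWalk (ker G ∅) o P X) (h0 : P (pth X ⁻¹' Of o) ≠ 1) :
    P (pth X ⁻¹' Of o) = 0 ∧ P (pth X ⁻¹' Nv o) ≠ 0 := by
  have hb := hr.bd hd.pos.ne'
  obtain ⟨a, ha, hB⟩ := bad_of h h0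
  have hβ := cp_clo (G := G) {o} a
  have hv : o ∉ Cp G {o} a := fun e => disjoint_left.1 (cp_disj (W := {o}) ha) e rfl
  obtain ⟨b, hob, -, hba⟩ := other_branch hc ht h2 ha
  refine ⟨a0cv hb hc ht hβ hv ((nofin hc ht hob.ne').mono
    (disjoint_left.1 (cp_disj_cp (W := {o}) ha hob.ne' hba).symm)) hB h, ?_⟩
  obtain ⟨N, y, n, E, q, h1, h3, h4, h5, h6, h7, h8, h9, h10, h11, h12, h13, h14⟩ :=
    seal_all hr hd hc ht h2 ha
  obtain ⟨Ω', _, P', X', h'⟩ := exists_ker hb ∅ y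
  rw [(law_tr ht h h').2]
  exact refl_world hb (bd_ct hb h1 h3 h4 h5) h3 h6 hβ hv h7 h8 hB h9 h10 h11 h12 h13 h14 h'

theorem odd_pos (hr : Reg G d) (hd : Odd d) (hc : G.Preconnected) (ht : Tr G)
    (h : IsWalk (ker G ∅) o P X) (h0 : P (pth X ⁻¹' Of o) = 0) : P (pth X ⁻¹' Nv o) ≠ 0 := by
  have hb := hr.bd hd.pos.ne'
  by_cases h2 : Two G
  · by_cases hE : Ends G 2
    · obtain ⟨W, C₁, C₂, w₀, h1, -, h3, h4, h5, -, h7, ⟨n, E, w, h8, h9, h10, h11, h12⟩, -⟩ :=
        cuts2 hr hd hc h2 hE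
      obtain ⟨Ω', _, P', X', h'⟩ := exists_ker hb ∅ w₀
      rcases t2m hb hc h1 h3 h4 h7 h8 h9 h10 h11 h12 h' ((law_tr ht h h').1 ▸ h0) with hg | hg
      · exact b1 hb hc ht hg h5.1 h
      · exact b1 hb hc ht hg h5.2 h
    · obtain ⟨W, F, n, E, w, h1, h3, h4, h5, h6, h7, h8, h9, h10⟩ := pocket hr hd hc h2 hE o
      exact b2 hb hc h1 h3 h4 h5 h6 h7 h8 h9 h10 h h0
  · exact (odd_cut hr hd hc ht h2 h (by rw [h0]; exact zero_ne_one)).2

theorem odd_two (hr : Reg G d) (hd : Odd d) (hc : G.Preconnected) (ht : Tr G) (hE : Ends G 2)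
    (h3 : ¬Ends G 3) (h : IsWalk (ker G ∅) o P X) (h0 : P (pth X ⁻¹' Of o) ≠ 1) :
    P (pth X ⁻¹' Of o) = 0 := by
  have hb := hr.bd hd.pos.ne'
  by_cases h2 : Two G
  · obtain ⟨W, C₁, C₂, w₀, -, h1, h4, -, h5, h6, -, -, h7⟩ := cuts2 hr hd hc h2 hE
    rcases t3 hb hc ht h3 (h4.1 h1) (h4.2 h1) h6 (h7 h3) h h0 with hg | hg
    · exact a0 hb hc ht hg h5.1 h
    · exact a0 hb hc ht hg h5.2 h
  · exact (odd_cut hr hd hc ht h2 h h0).1

theorem even_nv [G.LocallyFinite] (hc : G.Connected) (ht : Tr G) (he : ∀ v, Even (G.degree v))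
    (hf : ¬∀ᵐ ω ∂Pm G, AllFin ω) (h : IsWalk (ker G ∅) o P X) : P (pth X ⁻¹' Nv o) ≠ 0 :=
  fun h0 => hf (fin_ae (exists_adj hc) he fun v =>
    ((law_tr ht h (isWalk_of_grw (isGRW_Xm (exists_adj hc) v))).2.symm.trans h0))

end

/-- exactly two ends, or a cut vertex, or spectral radius below `1 / 9` -/
def Cls (G : SimpleGraph V) [G.LocallyFinite] (o : V) : Prop :=
  (Ends G 2 ∧ ¬Ends G 3) ∨ (∃ v a b : V, a ≠ v ∧ b ≠ v ∧ ∀ p : G.Walk a b, v ∈ p.support) ∨
    ∃ θ : ℝ, θ < 1 / 9 ∧ Few G (θ * G.degree o)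

variable [Infinite V] [G.LocallyFinite] {Ω : Type} [MeasurableSpace Ω] {P : Measure Ω}
  {X : ℕ → Ω → V} {o : V}

theorem zero_one_cls (hc : G.Connected) (hG : (∀ v, Even (G.degree v)) ∨ (Tr G ∧ Cls G o))
    (h : IsGRW G o P X) :
    P {ω | {t | X t ω = o}.Infinite} = 0 ∨ P {ω | {t | X t ω = o}.Infinite} = 1 := by
  by_cases he : ∀ v, Even (G.degree v)
  · exact even_zero_one hc he h
  obtain ⟨ht, hC⟩ := hG.resolve_left he
  have := countable_of_connected hc
  let : MeasurableSpace V := ⊤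
  have : DiscreteMeasurableSpace V := ⟨fun _ => trivial⟩
  have hd : Odd (G.degree o) := Nat.not_even_iff_odd.1 fun e => he fun v => deg_of_tr ht o v ▸ e
  have hr := reg_of_tr ht o
  have hw := isWalk_of_grw h
  have e : {ω | {t | X t ω = o}.Infinite} = pth X ⁻¹' Of o := Set.ext fun ω => (of_iff _ o).symm
  rw [e]
  refine (or_iff_not_imp_right).2 fun h0 => ?_
  rcases hC with ⟨h2, h3⟩ | h2 | ⟨θ, h2, h3⟩
  · exact odd_two hr hd hc.preconnected ht h2 h3 hw h0
  · exact (odd_cut hr hd hc.preconnected ht (not_two h2) hw h0).1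
  · exact (sr hr hc.preconnected h2 h3 hw).1

theorem return_cls (hc : G.Connected) (ht : Tr G) (h : IsGRW G o P X)
    (hG : (Odd (G.degree o) ∧ (P {ω | {t | X t ω = o}.Infinite} = 0 ∨
        P {ω | {t | X t ω = o}.Infinite} = 1)) ∨ Cls G o ∨
      (Unimod G ∧ ∃ (k : ℕ) (δ : ℝ), G.degree o = 2 * k ∧ Iso G δ ∧
        δ * ∑ i ∈ Finset.range k, 1 / (2 * (i : ℝ) + 1) < 2 * k)) :
    P {ω | {t | X t ω = o}.Infinite} = 1 ↔ P {ω | ∃ t, 1 ≤ t ∧ X t ω = o} = 1 := by
  have := countable_of_connected hc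
  let : MeasurableSpace V := ⊤
  have : DiscreteMeasurableSpace V := ⟨fun _ => trivial⟩
  have := h.1
  have hr := reg_of_tr ht o
  have hw := isWalk_of_grw h
  have e : {ω | {t | X t ω = o}.Infinite} = pth X ⁻¹' Of o := Set.ext fun ω => (of_iff _ o).symm
  refine ⟨fun h3 => le_antisymm prob_le_one (h3 ▸ measure_mono fun ω hω => ?_), fun hB => ?_⟩
  · obtain ⟨t, ht, h4⟩ := hω.exists_gt 0
    exact ⟨t, h4, ht⟩
  have hN : P (pth X ⁻¹' Nv o) = 0 := (ret_iff hw).1 hB
  rcases (G.degree o).even_or_odd with hd | hd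
  · have he : ∀ v, Even (G.degree v) := fun v => deg_of_tr ht o v ▸ hd
    rcases hG with hG | (⟨h2, h3⟩ | h2 | ⟨θ, h2, h3⟩) | ⟨hu, k, δ, hk, h2, h3⟩
    · exact absurd hG.1 (Nat.not_odd_iff_even.2 hd)
    · have hY := isWalk_Ys (exists_adj hc) o
      obtain ⟨C, hC⟩ := lg (hr.bd ((G.degree_pos_iff_exists_adj o).2 (exists_adj hc o)).ne') hc ht
        h2 h3 o
      exact (even_return hc he ht h hY).2
        ⟨hB, (ret_iff hY).2 (srw_rec (exists_adj hc) (deg_of_tr ht o) o hC)⟩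
    · exact absurd hN (even_nv hc ht he (cv_even hc.preconnected ht (not_two h2) he) hw)
    · exact absurd hN (sr hr hc.preconnected h2 h3 hw).2
    · exact absurd hN (even_nv hc ht he
        (cheeger hc ht hu (fun v => (deg_of_tr ht o v).trans hk) h2 h3) hw)
  · have h01 : P {ω | {t | X t ω = o}.Infinite} = 0 ∨ P {ω | {t | X t ω = o}.Infinite} = 1 := by
      rcases hG with hG | hG | ⟨-, k, -, hk, -⟩
      · exact hG.2
      · exact zero_one_cls hc (Or.inr ⟨ht, hG⟩) h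
      · exact absurd hd (Nat.not_odd_iff_even.2 ⟨k, by omega⟩)
    exact h01.resolve_left fun h0 => odd_pos hr hd hc.preconnected ht hw (e ▸ h0) hN

end Pool.Agent.P3fb035
end
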