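import Pool.Agent.K.MP_3fb035_pr.C0

-- part Pool.Agent.P.MP_3fb035_pr.CuA
section

/-! Parity of unions of components of a finite vertex set. -/

set_option autoImplicit false

open Set
open scoped symmDiff

namespace Pool.Agent.P3fb035

variable {V : Type} {G : SimpleGraph V} {C K A N : Set V} {c c' s y v : V}

/-- `K` is a union of components of `C` -/
def ClS (G : SimpleGraph V) (C K : Set V) : Prop :=
  K ⊆ C ∧ ∀ a ∈ K, ∀ b ∈ C, G.Adj a b → b ∈ K

/-- every union of components of `C` has an even number of points outside `A` -/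
def Par (G : SimpleGraph V) (C A : Set V) : Prop := ∀ K, ClS G C K → Even (K \ A).ncard

/-- the component of `c` in `C` -/
def Bl (G : SimpleGraph V) (C : Set V) (c : V) : Set V := {q | Cn G C c q}

theorem bl_mem (C : Set V) (c : V) : c ∈ Bl G C c := Cn.rfl

theorem bl_cls (hc : c ∈ C) : ClS G C (Bl G C c) :=
  ⟨fun _ hq => (Cn.mem hq).elim (fun e => e ▸ hc) id,
    fun _ ha _ hb hab => Cn.trans ha (Cn.single hab hb)⟩

theorem ClS.cn (h : ClS G C K) {a b : V} (hab : Cn G C a b) (ha : a ∈ K) : b ∈ K := by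
  induction hab with
  | refl => exact ha
  | tail _ h2 ih => exact h.2 _ ih _ h2.2 h2.1

theorem bl_con (C : Set V) (c : V) : Con G (Bl G C c) := by
  refine con_of_base (bl_mem C c) fun a ha => ?_
  have ha' : Cn G C c a := ha
  induction ha' with
  | refl => exact Cn.rfl
  | tail h1 h2 ih => exact (ih h1).trans (Cn.single h2.1 ha)

theorem ClS.union {K' : Set V} (h : ClS G C K) (h' : ClS G C K') : ClS G C (K ∪ K') :=
  ⟨union_subset h.1 h'.1, fun a ha b hb hab =>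
    ha.elim (fun e => Or.inl (h.2 a e b hb hab)) fun e => Or.inr (h'.2 a e b hb hab)⟩

theorem even_erase (hK : K.Finite) (hc : c ∈ K) : Even (K \ {c}).ncard ↔ ¬Even K.ncard := by
  rw [← Set.ncard_sdiff_singleton_add_one hc hK, Nat.even_add_one, not_not]

theorem even_toggle (hK : K.Finite) (A : Set V) (c : V) :
    Even (K \ (A ∆ {c})).ncard ↔ (Even (K \ A).ncard ↔ c ∉ K) := by
  by_cases hc : c ∈ K
  · by_cases hA : c ∈ A
    · have e : K \ A = (K \ (A ∆ {c})) \ {c} := by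
        ext q; by_cases hq : q = c <;> simp [Set.mem_symmDiff, hq, hA]
      have : c ∈ K \ (A ∆ {c}) := by simp [Set.mem_symmDiff, hc, hA]
      rw [e, even_erase (hK.subset sdiff_subset) this]; simp [hc]
    · have e : K \ (A ∆ {c}) = (K \ A) \ {c} := by
        ext q; by_cases hq : q = c <;> simp [Set.mem_symmDiff, hq, hA]
      rw [e, even_erase (hK.subset sdiff_subset) ⟨hc, hA⟩]; simp [hc]
  · have e : K \ (A ∆ {c}) = K \ A := by
      ext q; by_cases hq : q = c <;> simp [Set.mem_symmDiff, hq, hc]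
    rw [e]; simp [hc]

theorem emp_sd (A : Set V) : (∅ : Set V) ∆ A = A := by ext q; simp [Set.mem_symmDiff]

theorem par_one (hC : C.Finite) :
    Par G C {c} ↔ ∀ K, ClS G C K → (Even K.ncard ↔ c ∉ K) := by
  refine forall₂_congr fun K hK => ?_
  have := even_toggle (hC.subset hK.1) ∅ c
  simpa [emp_sd] using this

theorem par_zero : Par G C ∅ ↔ ∀ K, ClS G C K → Even K.ncard := by simp [Par]

theorem Par.add (h : Par G C A) (hv : v ∉ C) : Par G (insert v C) (insert v A) := fun K hK => by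
  have e : K \ insert v A = (K \ {v}) \ A := by ext q; simp; tauto
  rw [e]
  refine h _ ⟨fun q hq => (hK.1 hq.1).resolve_left hq.2, fun a ha b hb hab =>
    ⟨hK.2 a ha.1 b (Or.inr hb) hab, fun e => hv (e ▸ hb)⟩⟩

theorem Par.move (hC : C.Finite) (h : Par G C A) (hc : c ∈ C) (hcc : Cn G C c c') :
    Par G C ((A ∆ {c}) ∆ {c'}) := fun K hK => by
  have hf := hC.subset hK.1
  have e : c ∈ K ↔ c' ∈ K := ⟨hK.cn hcc, hK.cn (hcc.symm hc)⟩
  rw [even_toggle hf, even_toggle hf, e]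
  simp [h K hK]

theorem Par.move_one (hC : C.Finite) (h : Par G C {c}) (hc : c ∈ C) (hcc : Cn G C c c') :
    Par G C {c'} := by
  simpa [emp_sd] using h.move hC hc hcc

/-- a new point next to the odd component makes all components even -/
theorem Par.join (hC : C.Finite) (h : Par G C {c}) (hc : c ∈ C) (hv : v ∉ C) (ha : G.Adj c v) :
    Par G (insert v C) ∅ := by
  have h1 := (h.add hv).move (hC.insert v) (Or.inr hc) (Cn.single ha (mem_insert _ _))
  have hne : c ≠ v := ha.ne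
  convert h1 using 1
  ext q; by_cases h2 : q = c <;> by_cases h3 : q = v <;> simp_all [Set.mem_symmDiff]

/-- removing a point with at most two neighbours from an even component -/
theorem Par.erase (hC : C.Finite) (h : Par G C ∅) (hy : y ∈ C) {z₁ z₂ : V}
    (hN : ∀ z ∈ C, G.Adj y z → z = z₁ ∨ z = z₂) :
    ∃ c ∈ C \ {y}, G.Adj c y ∧ Par G (C \ {y}) {c} := by
  rw [par_zero] at h
  have hD : (C \ {y}).Finite := hC.subset sdiff_subset
  have h0 : ∀ K, ClS G (C \ {y}) K → (∀ z ∈ K, ¬G.Adj y z) → Even K.ncard := fun K hK hz =>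
    h K ⟨fun q hq => (hK.1 hq).1, fun a ha b hb hab => hK.2 a ha b
      ⟨hb, fun e => hz a ha (by rw [show b = y from e] at hab; exact hab.symm)⟩ hab⟩
  have h1 : ∀ K, ClS G (C \ {y}) K → (∀ z ∈ C, G.Adj y z → z ∈ K) → ¬Even K.ncard :=
    fun K hK hz => by
    have hyK : y ∉ K := fun e => (hK.1 e).2 rfl
    have h2 := h (insert y K) ⟨insert_subset hy fun q hq => (hK.1 hq).1, fun a ha b hb hab => by
      by_cases e : b = y
      · exact Or.inl e
      · exact Or.inr (ha.elim (fun e' => hz b hb (e' ▸ hab)) fun e' => hK.2 a e' b ⟨hb, e⟩ hab)⟩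
    rwa [Set.ncard_insert_of_notMem hyK (hD.subset hK.1), Nat.even_add_one] at h2
  -- the main case: `p` has an odd component, every other neighbour equals `q`
  have main : ∀ p q : V, p ∈ C → G.Adj y p → (∀ z ∈ C, G.Adj y z → z = p ∨ z = q) →
      ¬Even (Bl G (C \ {y}) p).ncard → ∃ c ∈ C \ {y}, G.Adj c y ∧ Par G (C \ {y}) {c} := by
    intro p q hp hyp hN' ho
    have hp' : p ∈ C \ {y} := ⟨hp, hyp.ne'⟩
    refine ⟨p, hp', hyp.symm, (par_one hD).2 fun K hK => ?_⟩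
    have hB := bl_cls (G := G) hp'
    by_cases hpK : p ∈ K
    · simp only [hpK, not_true, iff_false]
      have hsub : Bl G (C \ {y}) p ⊆ K := fun r hr => hK.cn hr hpK
      by_cases hall : ∀ z ∈ C, G.Adj y z → z ∈ K
      · exact h1 K hK hall
      · have hcl : ClS G (C \ {y}) (K \ Bl G (C \ {y}) p) :=
          ⟨fun r hr => hK.1 hr.1, fun a ha b hb hab => ⟨hK.2 a ha.1 b hb hab, fun e =>
            ha.2 (hB.2 b e a (hK.1 ha.1) hab.symm)⟩⟩
        have he := h0 _ hcl fun z hz hyz => by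
          push Not at hall
          obtain ⟨z', h3, h4, h5⟩ := hall
          rcases hN' z (hK.1 hz.1).1 hyz with e | e
          · exact hz.2 (e ▸ bl_mem _ _)
          · rcases hN' z' h3 h4 with e' | e'
            · exact h5 (e' ▸ hpK)
            · exact h5 (e' ▸ e ▸ hz.1)
        rw [← Set.ncard_sdiff_add_ncard_of_subset hsub (hD.subset hK.1), Nat.even_add]
        simp [he, ho]
    · simp only [hpK, not_false_eq_true, iff_true]
      by_cases hno : ∀ z ∈ K, ¬G.Adj y z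
      · exact h0 K hK hno
      · push Not at hno
        obtain ⟨z, hz, hyz⟩ := hno
        have hzq : z = q := (hN' z (hK.1 hz).1 hyz).resolve_left fun e => hpK (e ▸ hz)
        have hdj : Disjoint K (Bl G (C \ {y}) p) := disjoint_left.2 fun r hr hr' =>
          hpK (hK.cn (Cn.symm hr' hp') hr)
        have h3 := h1 _ (hK.union hB) fun z' h3 h4 => (hN' z' h3 h4).elim
          (fun e => Or.inr (e ▸ bl_mem _ _)) fun e => Or.inl (e ▸ hzq ▸ hz)
        rw [Set.ncard_union_eq hdj (hD.subset hK.1) (hD.subset hB.1), Nat.even_add] at h3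
        tauto
  by_contra hcon
  have hev : ∀ z ∈ C, G.Adj y z → Even (Bl G (C \ {y}) z).ncard := fun z hz hyz => by
    by_contra ho
    rcases hN z hz hyz with e | e
    · exact hcon (main z z₂ hz hyz (e ▸ hN) ho)
    · exact hcon (main z z₁ hz hyz (fun w h3 h4 => e ▸ (hN w h3 h4).symm) ho)
  have hemp : ClS G (C \ {y}) ∅ := ⟨empty_subset _, fun _ h => h.elim⟩
  by_cases a1 : z₁ ∈ C ∧ G.Adj y z₁ <;> by_cases a2 : z₂ ∈ C ∧ G.Adj y z₂
  · have b1 := bl_cls (G := G) (C := C \ {y}) (c := z₁) ⟨a1.1, a1.2.ne'⟩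
    have b2 := bl_cls (G := G) (C := C \ {y}) (c := z₂) ⟨a2.1, a2.2.ne'⟩
    by_cases hm : z₂ ∈ Bl G (C \ {y}) z₁
    · exact h1 _ b1 (fun z h3 h4 => (hN z h3 h4).elim (fun e => e ▸ bl_mem _ _) fun e => e ▸ hm)
        (hev _ a1.1 a1.2)
    · refine h1 _ (b1.union b2) (fun z h3 h4 => (hN z h3 h4).elim
        (fun e => Or.inl (e ▸ bl_mem _ _)) fun e => Or.inr (e ▸ bl_mem _ _)) ?_
      have hdj : Disjoint (Bl G (C \ {y}) z₁) (Bl G (C \ {y}) z₂) := disjoint_left.2 fun r hr hr' =>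
        hm (b1.cn (Cn.symm hr' ⟨a2.1, a2.2.ne'⟩) hr)
      rw [Set.ncard_union_eq hdj (hD.subset b1.1) (hD.subset b2.1)]
      exact (hev _ a1.1 a1.2).add (hev _ a2.1 a2.2)
  · exact h1 _ (bl_cls (c := z₁) ⟨a1.1, a1.2.ne'⟩) (fun z h3 h4 => (hN z h3 h4).elim
      (fun e => e ▸ bl_mem _ _) fun e => (a2 (e ▸ ⟨h3, h4⟩)).elim) (hev _ a1.1 a1.2)
  · exact h1 _ (bl_cls (c := z₂) ⟨a2.1, a2.2.ne'⟩) (fun z h3 h4 => (hN z h3 h4).elim
      (fun e => (a1 (e ▸ ⟨h3, h4⟩)).elim) fun e => e ▸ bl_mem _ _) (hev _ a2.1 a2.2)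
  · exact h1 _ hemp (fun z h3 h4 => (hN z h3 h4).elim (fun e => (a1 (e ▸ ⟨h3, h4⟩)).elim)
      fun e => (a2 (e ▸ ⟨h3, h4⟩)).elim) (by simp)

/-- removing a point that does not cut the odd component -/
theorem Par.good (hC : C.Finite) (h : Par G C {c}) (hc : c ∈ C) (hs : s ∈ Bl G C c)
    (hcon : Con G (Bl G C c \ {s})) : Par G (C \ {s}) ∅ := by
  have hB := bl_cls (G := G) hc
  have h' := (par_one hC).1 (h.move_one hC hc hs)
  refine par_zero.2 fun K hK => ?_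
  have hsK : s ∉ K := fun e => (hK.1 e).2 rfl
  by_cases hno : ∀ z ∈ K, ¬G.Adj s z
  · exact (h' K ⟨fun q hq => (hK.1 hq).1, fun a ha b hb hab => hK.2 a ha b
      ⟨hb, fun e => hno a ha (by rw [show b = s from e] at hab; exact hab.symm)⟩ hab⟩).2 hsK
  · push Not at hno
    obtain ⟨z, hz, hsz⟩ := hno
    have hz' : z ∈ Bl G C c \ {s} := ⟨hB.2 s hs z (hK.1 hz).1 hsz, hsz.ne'⟩
    have h2 := h' (insert s K) ⟨insert_subset (hB.1 hs) fun q hq => (hK.1 hq).1,
      fun a ha b hb hab => by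
        by_cases e : b = s
        · exact Or.inl e
        · refine Or.inr (ha.elim (fun e' => ?_) fun e' => hK.2 a e' b ⟨hb, e⟩ hab)
          exact hK.cn ((hcon z hz' b ⟨hB.2 s hs b hb (e' ▸ hab), e⟩).mono
            (sdiff_subset_sdiff_left hB.1)) hz⟩
    rw [Set.ncard_insert_of_notMem hsK (hC.subset fun q hq => (hK.1 hq).1),
      Nat.even_add_one] at h2
    simpa using h2

/-- a point of `N` that does not cut `K` -/
theorem non_cut (hK : K.Finite) (hcon : Con G K) (hN : N ⊆ K) (hne : N.Nonempty)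
    (h : ∀ t ∈ N, ∀ q ∈ K \ {t}, ∃ t' ∈ N \ {t}, Cn G (K \ {t}) q t') :
    ∃ t ∈ N, Con G (K \ {t}) := by
  obtain ⟨ρ, hρ⟩ := hne
  by_cases h1 : (N \ {ρ}).Nonempty
  swap
  · exact ⟨ρ, hρ, fun a ha => (h1 ((h ρ hρ a ha).imp fun _ e => e.1)).elim⟩
  let D : V → Set V := fun t => {q | q ∈ K ∧ ¬Cn G (K \ {t}) ρ q}
  obtain ⟨t, ht, hmin⟩ := Set.exists_min_image (N \ {ρ}) (fun t => (D t).ncard)
    ((hK.subset hN).subset sdiff_subset) h1
  have hρt : ρ ∈ K \ {t} := ⟨hN hρ, fun e => ht.2 (Eq.symm e)⟩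
  refine ⟨t, ht.1, con_of_base hρt fun q hq => ?_⟩
  by_contra hq'
  obtain ⟨t', ht', hc⟩ := h t ht.1 q hq
  have h2 : ¬Cn G (K \ {t}) ρ t' := fun e => hq' (e.trans (hc.symm hq))
  have h3 : ∀ p, Cn G (K \ {t}) ρ p → Cn G (K \ {t'}) ρ p := fun p hp => by
    induction hp with
    | refl => exact Cn.rfl
    | tail a1 a2 ih =>
      exact ih.trans (Cn.single a2.1 ⟨a2.2.1, fun e => h2 (e ▸ Relation.ReflTransGen.tail a1 a2)⟩)
  have h4 : ∀ p, Cn G K ρ p → Cn G (K \ {t}) ρ p ∨ Cn G (K \ {t'}) ρ t := fun p hp => by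
    induction hp with
    | refl => exact Or.inl Cn.rfl
    | @tail b p a1 a2 ih =>
      rcases ih with ih | ih
      · by_cases e : p = t
        · exact Or.inr ((h3 _ ih).trans (Cn.single (e ▸ a2.1) ⟨hN ht.1, fun e' => ht'.2 (Eq.symm e')⟩))
        · exact Or.inl (ih.trans (Cn.single a2.1 ⟨a2.2, e⟩))
      · exact Or.inr ih
  have h5 : ¬Cn G (K \ {t}) ρ t := fun e => (Cn.mem e).elim ht.2 fun e' => e'.2 rfl
  have h6 := (h4 t (hcon ρ (hN hρ) t (hN ht.1))).resolve_left h5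
  have h7 : D t' ⊂ D t := ⟨fun p hp => ⟨hp.1, fun e => hp.2 (h3 p e)⟩,
    fun e => (e ⟨hN ht.1, h5⟩).2 h6⟩
  exact absurd (hmin t' ⟨ht'.1, fun e => h2 (e ▸ Cn.rfl)⟩)
    (not_le.2 (Set.ncard_lt_ncard h7 (hK.subset fun _ e => e.1)))

/-- a connected set stays connected when the neighbours of the removed point stay joined -/
theorem con_erase (hcon : Con G K) {t : V}
    (h : ∀ p ∈ K, ∀ q ∈ K, G.Adj t p → G.Adj t q → Cn G (K \ {t}) p q) : Con G (K \ {t}) := by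
  intro a ha b hb
  have h1 : ∀ p, Cn G K a p → (p ≠ t ∧ Cn G (K \ {t}) a p) ∨
      (p = t ∧ ∃ r ∈ K, G.Adj t r ∧ Cn G (K \ {t}) a r) := fun p hp => by
    induction hp with
    | refl => exact Or.inl ⟨ha.2, Cn.rfl⟩
    | @tail p q a1 a2 ih =>
      have hp : p ∈ K := (Cn.mem a1).elim (fun e => e ▸ ha.1) id
      rcases ih with ⟨e, ih⟩ | ⟨e, r, hr, h2, h3⟩
      · by_cases e' : q = t
        · exact Or.inr ⟨e', p, hp, (e' ▸ a2.1).symm, ih⟩
        · exact Or.inl ⟨e', ih.trans (Cn.single a2.1 ⟨a2.2, e'⟩)⟩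
      · exact Or.inl ⟨(e ▸ a2.1).ne', h3.trans (h r hr q a2.2 h2 (e ▸ a2.1))⟩
  exact ((h1 b (hcon a ha.1 b hb.1)).resolve_right fun e => hb.2 e.1).2

end Pool.Agent.P3fb035
end

-- part Pool.Agent.P.MP_3fb035_pr.CuB
section

/-! Static description of states in a cubic graph. -/

set_option autoImplicit false

open Set
open scoped symmDiff

namespace Pool.Agent.P3fb035

variable {V : Type} {G : SimpleGraph V} {H H' : Set (Sym2 V)} {a b c p q s v x y : V}

/-- the exhausted vertices -/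
def CC (G : SimpleGraph V) (H : Set (Sym2 V)) : Set V := {v | Exh G H v}

/-- joined by edges of `H` -/
def Rch (G : SimpleGraph V) (H : Set (Sym2 V)) (a b : V) : Prop :=
  Relation.ReflTransGen (fun p q => G.Adj p q ∧ s(p, q) ∈ H) a b

/-- a finite connected set of edges through `a` -/
structure Ba (G : SimpleGraph V) (H : Set (Sym2 V)) (a : V) : Prop where
  fin : H.Finite
  edg : ∀ p q, s(p, q) ∈ H → G.Adj p q
  con : ∀ p q, s(p, q) ∈ H → Rch G H a p

/-- two leaves, even components -/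
structure SA (G : SimpleGraph V) (H : Set (Sym2 V)) (a x : V) : Prop where
  ba : Ba G H a
  ne : x ≠ a
  da : dg G H a = 1
  dx : dg G H x = 1
  oth : ∀ v, v ≠ a → v ≠ x → dg G H v ≠ 1
  par : Par G (CC G H) ∅

/-- one leaf, the component of `c` is the only odd one -/
structure SB (G : SimpleGraph V) (H : Set (Sym2 V)) (a c : V) : Prop where
  ba : Ba G H a
  ex : Exh G H c
  da : dg G H a = 1
  oth : ∀ v, v ≠ a → dg G H v ≠ 1
  par : Par G (CC G H) {c}

theorem Rch.rfl : Rch G H a a := Relation.ReflTransGen.refl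

theorem Rch.trans (h : Rch G H a b) (h' : Rch G H b c) : Rch G H a c :=
  Relation.ReflTransGen.trans h h'

theorem Rch.single (h : G.Adj a b) (he : s(a, b) ∈ H) : Rch G H a b :=
  Relation.ReflTransGen.single ⟨h, he⟩

theorem Rch.mono (h : Rch G H a b) (hH : H ⊆ H') : Rch G H' a b := by
  induction h with
  | refl => exact Rch.rfl
  | tail _ h2 ih => exact ih.trans (Rch.single h2.1 (hH h2.2))

theorem Rch.symm (h : Rch G H a b) : Rch G H b a := by
  induction h with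
  | refl => exact Rch.rfl
  | tail _ h2 ih => exact (Rch.single h2.1.symm (Sym2.eq_swap ▸ h2.2)).trans ih

/-- a path of exhausted vertices that avoids `s` -/
theorem rch_of_cn {S : Set V} (h : Cn G S p q) (hp : p ≠ s) (hS : S ⊆ CC G H \ {s}) (y : V) :
    Rch G (H \ {s(s, y)}) p q := by
  induction h with
  | refl => exact Rch.rfl
  | @tail u w a1 a2 ih =>
    have hu : u ≠ s := (Cn.mem a1).elim (fun e => e ▸ hp) fun e => (hS e).2
    refine ih.trans (Rch.single a2.1 ⟨Sym2.eq_swap ▸ (hS a2.2).1 u a2.1.symm, fun e => ?_⟩)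
    rcases Sym2.eq_iff.1 e with e | e
    · exact hu e.1
    · exact (hS a2.2).2 e.2

theorem rch_erase (hsy : Rch G (H \ {s(s, y)}) s y) (h : Rch G H a p) :
    Rch G (H \ {s(s, y)}) a p := by
  induction h with
  | refl => exact Rch.rfl
  | @tail u w _ a2 ih =>
    by_cases e : s(u, w) = s(s, y)
    · rcases Sym2.eq_iff.1 e with e | e
      · exact (e.1 ▸ ih).trans (e.2 ▸ hsy)
      · exact (e.1 ▸ ih).trans (e.2 ▸ hsy.symm)
    · exact ih.trans (Rch.single a2.1 ⟨a2.2, e⟩)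

theorem Rch.edge (h : Rch G H a b) (hab : a ≠ b) : ∃ p, G.Adj b p ∧ s(b, p) ∈ H := by
  cases h with
  | refl => exact (hab (Eq.refl _)).elim
  | tail _ h2 => exact ⟨_, h2.1.symm, Sym2.eq_swap ▸ h2.2⟩

theorem Ba.erase (h : Ba G H a) (hsy : Rch G (H \ {s(s, y)}) s y) : Ba G (H \ {s(s, y)}) a :=
  ⟨h.fin.subset sdiff_subset, fun p q e => h.edg p q e.1, fun p q e => rch_erase hsy (h.con p q e.1)⟩

theorem Ba.root (h : Ba G H a) (he : s(x, y) ∈ H) : Ba G H x :=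
  ⟨h.fin, h.edg, fun p q e => (h.con x y he).symm.trans (h.con p q e)⟩

theorem Ba.insert (h : Ba G H a) (hp : Rch G H a p) (hpq : G.Adj p q) :
    Ba G (insert s(p, q) H) a := by
  have h1 := hp.mono (subset_insert s(p, q) H)
  refine ⟨h.fin.insert _, fun u w e => e.elim (fun e => ?_) (h.edg u w), fun u w e =>
    e.elim (fun e => ?_) fun e => (h.con u w e).mono (subset_insert _ _)⟩
  · rcases Sym2.eq_iff.1 e with e | e
    · exact e.1 ▸ e.2 ▸ hpq
    · exact e.1 ▸ e.2 ▸ hpq.symm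
  · rcases Sym2.eq_iff.1 e with e | e
    · exact e.1 ▸ h1
    · exact e.1 ▸ h1.trans (Rch.single hpq (mem_insert _ _))

theorem dg_one (h : dg G H x = 1) :
    ∃ y, G.Adj x y ∧ s(x, y) ∈ H ∧ ∀ z, G.Adj x z → s(x, z) ∈ H → z = y := by
  obtain ⟨y, hy⟩ := Set.ncard_eq_one.1 h
  have : y ∈ {w | G.Adj x w ∧ s(x, w) ∈ H} := hy ▸ rfl
  exact ⟨y, this.1, this.2, fun z h1 h2 => by
    have : z ∈ {w | G.Adj x w ∧ s(x, w) ∈ H} := ⟨h1, h2⟩
    rwa [hy] at this⟩

theorem dg_ne_zero (hH : H.Finite) (hab : G.Adj a b) (he : s(a, b) ∈ H) : dg G H a ≠ 0 := by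
  rw [dg_erase hH hab he a]; simp

open Classical in
theorem dg_insert (hH : H.Finite) (hab : G.Adj a b) (he : s(a, b) ∉ H) (v : V) :
    dg G (insert s(a, b) H) v = dg G H v + if v = a ∨ v = b then 1 else 0 := by
  rw [dg_erase (hH.insert _) hab (mem_insert _ _) v, insert_sdiff_self_of_notMem he]

theorem dg_le (hr : Reg G 3) (H : Set (Sym2 V)) (v : V) : dg G H v ≤ 3 :=
  (hr v).2 ▸ Set.ncard_le_ncard (fun _ e => e.1) (hr v).1

theorem exh_iff (hr : Reg G 3) : Exh G H v ↔ dg G H v = 3 := by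
  refine ⟨dg_exh hr, fun h z hz => ?_⟩
  have : {w | G.Adj v w ∧ s(v, w) ∈ H} = G.neighborSet v :=
    Set.eq_of_subset_of_ncard_le (fun _ e => e.1) ((hr v).2.trans h.symm).le (hr v).1
  exact (show z ∈ {w | G.Adj v w ∧ s(v, w) ∈ H} from this ▸ hz).2

theorem cc_fin (hr : Reg G 3) (hH : H.Finite) : (CC G H).Finite :=
  (vx_fin hH).subset fun v hv => by
    obtain ⟨z, hz⟩ := (hr.bd (by norm_num) v).2.2
    exact ⟨z, hv z hz⟩

theorem cc_erase (hab : G.Adj a b) : CC G (H \ {s(a, b)}) = (CC G H \ {a}) \ {b} := by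
  ext v
  refine ⟨fun h => ⟨⟨fun z hz => (h z hz).1, fun e => ?_⟩, fun e => ?_⟩, fun h z hz =>
    ⟨h.1.1 z hz, fun e => ?_⟩⟩
  · obtain rfl : v = a := e
    exact (h b hab).2 rfl
  · obtain rfl : v = b := e
    exact (h a hab.symm).2 Sym2.eq_swap
  · rcases Sym2.eq_iff.1 e with e | e
    · exact h.1.2 e.1
    · exact h.2 e.1

theorem nbrs (hr : Reg G 3) (h : G.Adj y x) : ∃ z₁ z₂, G.Adj y z₁ ∧ G.Adj y z₂ ∧ z₁ ≠ z₂ ∧
    z₁ ≠ x ∧ z₂ ≠ x ∧ ∀ z, G.Adj y z → z = x ∨ z = z₁ ∨ z = z₂ := by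
  have h1 : (G.neighborSet y \ {x}).ncard = 2 := by
    have := Set.ncard_sdiff_singleton_add_one (show x ∈ G.neighborSet y from h) (hr y).1
    rw [(hr y).2] at this; omega
  obtain ⟨z₁, z₂, h2, h3⟩ := Set.ncard_eq_two.1 h1
  have a1 : z₁ ∈ G.neighborSet y \ {x} := h3 ▸ Or.inl rfl
  have a2 : z₂ ∈ G.neighborSet y \ {x} := h3 ▸ Or.inr rfl
  refine ⟨z₁, z₂, a1.1, a2.1, h2, a1.2, a2.2, fun z hz => or_iff_not_imp_left.2 fun e => ?_⟩
  have : z ∈ G.neighborSet y \ {x} := ⟨hz, e⟩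
  rwa [h3] at this

theorem SA.symm (h : SA G H a x) : SA G H x a := by
  obtain ⟨y, -, h2, -⟩ := dg_one h.dx
  exact ⟨h.ba.root h2, h.ne.symm, h.dx, h.da, fun v h3 h4 => h.oth v h4 h3, h.par⟩

theorem SB.move (hr : Reg G 3) (h : SB G H a c) (hc : Cn G (CC G H) c b) : SB G H a b :=
  ⟨h.ba, (Cn.mem hc).elim (fun e => e ▸ h.ex) id, h.da, h.oth,
    h.par.move_one (cc_fin hr h.ba.fin) h.ex hc⟩

/-- removing a non-bridge at a good vertex -/
theorem SB.red (hr : Reg G 3) (h : SB G H a c) (hs : Exh G H s) (hg : Par G (CC G H \ {s}) ∅)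
    (hsy : G.Adj s y) (hb : Rch G (H \ {s(s, y)}) s y) :
    (¬Exh G H y ∧ SA G (H \ {s(s, y)}) a y) ∨
      (Exh G H y ∧ ∃ c', G.Adj c' y ∧ SB G (H \ {s(s, y)}) a c') := by
  have hf := h.ba.fin
  have hd := dg_erase hf hsy (hs y hsy)
  have h3 := (exh_iff hr).1 hs
  have hsa : s ≠ a := fun e => by have := h.da; rw [← e] at this; omega
  have hy0 : dg G (H \ {s(s, y)}) y ≠ 0 := by
    obtain ⟨p, h1, h2⟩ := hb.edge hsy.ne
    exact dg_ne_zero (hf.subset sdiff_subset) h1 h2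
  have hy := hd y
  simp only [or_true, if_true] at hy
  have hya : y ≠ a := fun e => by have := h.da; rw [← e] at this; omega
  have hda : dg G (H \ {s(s, y)}) a = 1 := by
    have := hd a; rw [if_neg (not_or.2 ⟨hsa.symm, hya.symm⟩), h.da] at this; omega
  have hot : ∀ v, v ≠ a → v ≠ y → dg G (H \ {s(s, y)}) v ≠ 1 := fun v h1 h2 => by
    have := hd v
    by_cases e : v = s
    · rw [if_pos (Or.inl e), e] at this; rw [e]; omega
    · rw [if_neg (not_or.2 ⟨e, h2⟩)] at this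
      have := h.oth v h1; omega
  by_cases hx : Exh G H y
  · obtain ⟨z₁, z₂, -, -, -, -, -, h4⟩ := nbrs hr hsy.symm
    obtain ⟨c', h5, h6, h7⟩ := hg.erase ((cc_fin hr hf).subset sdiff_subset) (y := y)
      ⟨hx, hsy.ne'⟩ (z₁ := z₁) (z₂ := z₂) fun z hz e => (h4 z e).resolve_left hz.2
    rw [← cc_erase hsy] at h5 h7
    refine Or.inr ⟨hx, c', h6, h.ba.erase hb, h5, hda, fun v h1 => ?_, h7⟩
    by_cases e : v = y
    · have := (exh_iff hr).1 hx; rw [e]; omega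
    · exact hot v h1 e
  · refine Or.inl ⟨hx, h.ba.erase hb, hya, hda, ?_, hot, ?_⟩
    · have := h.oth y hya; have := dg_le hr H y; have := mt (exh_iff hr).2 hx; omega
    · rwa [cc_erase hsy, sdiff_singleton_eq_self fun e => hx e.1]

/-- removing the edge at the second leaf -/
theorem SA.red (hr : Reg G 3) (h : SA G H a x) : ∃ y, G.Adj y x ∧ s(y, x) ∈ H ∧
    ((y = a ∧ H \ {s(y, x)} = ∅) ∨ SA G (H \ {s(y, x)}) a y ∨
      (y ≠ a ∧ ∃ c', G.Adj c' y ∧ SB G (H \ {s(y, x)}) a c')) := by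
  have hf := h.ba.fin
  obtain ⟨y, h1, h2, h3⟩ := dg_one h.dx
  have h2' : s(y, x) ∈ H := Sym2.eq_swap ▸ h2
  refine ⟨y, h1.symm, h2', ?_⟩
  by_cases hya : y = a
  · subst hya
    obtain ⟨z, -, -, h4⟩ := dg_one h.da
    have h5 : ∀ p, Rch G H y p → p = y ∨ p = x := fun p hp => by
      induction hp with
      | refl => exact Or.inl rfl
      | tail _ a2 ih =>
        rcases ih with rfl | rfl
        · exact Or.inr ((h4 _ a2.1 a2.2).trans (h4 _ h1.symm h2').symm)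
        · exact Or.inl (h3 _ a2.1 a2.2)
    refine Or.inl ⟨rfl, eq_empty_of_forall_notMem fun e he => ?_⟩
    induction e using Sym2.ind with
    | _ p q =>
      have h6 := h.ba.edg p q he.1
      rcases h5 p (h.ba.con p q he.1) with rfl | rfl
      · exact he.2 (by rw [(h4 _ h6 he.1).trans (h4 _ h1.symm h2').symm]; rfl)
      · exact he.2 (by rw [h3 _ h6 he.1]; exact Sym2.eq_swap)
  right
  have hd := dg_erase hf h1.symm h2'
  have hx0 : dg G (H \ {s(y, x)}) x = 0 := by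
    have := hd x; rw [if_pos (Or.inr rfl), h.dx] at this; omega
  have h5 : ∀ p, Rch G H a p → (p = x ∧ Rch G (H \ {s(y, x)}) a y) ∨
      (p ≠ x ∧ Rch G (H \ {s(y, x)}) a p) := fun p hp => by
    induction hp with
    | refl => exact Or.inr ⟨h.ne.symm, Rch.rfl⟩
    | @tail u w _ a2 ih =>
      rcases ih with ⟨rfl, ih⟩ | ⟨e, ih⟩
      · exact Or.inr ⟨a2.1.ne', h3 _ a2.1 a2.2 ▸ ih⟩
      · by_cases e' : w = x
        · subst e'
          exact Or.inl ⟨rfl, h3 _ a2.1.symm (Sym2.eq_swap ▸ a2.2) ▸ ih⟩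
        · refine Or.inr ⟨e', ih.trans (Rch.single a2.1 ⟨a2.2, fun e'' => ?_⟩)⟩
          rcases Sym2.eq_iff.1 e'' with e'' | e''
          · exact e' e''.2
          · exact e e''.1
  have hba : Ba G (H \ {s(y, x)}) a := ⟨hf.subset sdiff_subset, fun p q e => h.ba.edg p q e.1,
    fun p q e => ((h5 p (h.ba.con p q e.1)).resolve_left fun e' =>
      dg_ne_zero (hf.subset sdiff_subset) (h.ba.edg p q e.1) e (e'.1 ▸ hx0)).2⟩
  have hda : dg G (H \ {s(y, x)}) a = 1 := by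
    have := hd a; rw [if_neg (not_or.2 ⟨Ne.symm hya, h.ne.symm⟩), h.da] at this; omega
  have hot : ∀ v, v ≠ a → v ≠ y → dg G (H \ {s(y, x)}) v ≠ 1 := fun v a1 a2 => by
    by_cases e : v = x
    · rw [e]; omega
    · have := hd v; rw [if_neg (not_or.2 ⟨a2, e⟩)] at this
      have := h.oth v a1 e; omega
  have hy := hd y
  rw [if_pos (Or.inl rfl)] at hy
  have hxC : x ∉ CC G H := fun e => by have := (exh_iff hr).1 e; have := h.dx; omega
  have hcc : CC G (H \ {s(y, x)}) = CC G H \ {y} := by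
    rw [cc_erase h1.symm, sdiff_singleton_eq_self fun e => hxC e.1]
  by_cases hx : Exh G H y
  · obtain ⟨z₁, z₂, -, -, -, -, -, h4⟩ := nbrs hr h1.symm
    obtain ⟨c', h6, h7, h8⟩ := h.par.erase (cc_fin hr hf) (y := y) hx (z₁ := z₁) (z₂ := z₂)
      fun z hz e => (h4 z e).resolve_left fun e' => hxC (e' ▸ hz)
    rw [← hcc] at h6 h8
    refine Or.inr ⟨hya, c', h7, hba, h6, hda, fun v a1 => ?_, h8⟩
    by_cases e : v = y
    · have := (exh_iff hr).1 hx; rw [e]; omega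
    · exact hot v a1 e
  · refine Or.inl ⟨hba, hya, hda, ?_, hot, ?_⟩
    · have := h.oth y hya h1.ne'; have := dg_le hr H y; have := mt (exh_iff hr).2 hx; omega
    · rw [hcc, sdiff_singleton_eq_self hx]; exact h.par

end Pool.Agent.P3fb035
end

-- part Pool.Agent.P.MP_3fb035_pr.CuC
section

/-! States of type `SA` and `SB` are reached without a return. -/

set_option autoImplicit false

open Set
open scoped symmDiff

namespace Pool.Agent.P3fb035

variable {V : Type} {G : SimpleGraph V} {H H' : Set (Sym2 V)} {a b c p q s v x y : V}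

theorem ne_edge (hu : p ≠ s) (hw : q ≠ s) : s(p, q) ∉ ({s(s, y)} : Set (Sym2 V)) := fun e =>
  (Sym2.eq_iff.1 e).elim (fun e => hu e.1) fun e => hw e.2

theorem ne_edge' (hq : G.Adj s q) (hw : q ≠ y) : s(s, q) ∉ ({s(s, y)} : Set (Sym2 V)) := fun e =>
  (Sym2.eq_iff.1 e).elim (fun e => hw e.2) fun e => hq.ne' e.2

theorem SB.nex (hr : Reg G 3) (h : SB G H a c) : ¬Exh G H a := fun e => by
  have := (exh_iff hr).1 e; have := h.da; omega

/-- the far side of a bridge to an incomplete vertex contains the leaf -/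
theorem SB.far (hr : Reg G 3) (h : SB G H a c) (hs : Exh G H s) (hg : Par G (CC G H \ {s}) ∅)
    (hp : G.Adj s p) (hpx : ¬Exh G H p) (hb : ¬Rch G (H \ {s(s, p)}) s p) :
    Rch G (H \ {s(s, p)}) p a := by
  classical
  by_contra ha
  have hf := h.ba.fin
  let D : Set V := {w | Rch G (H \ {s(s, p)}) p w}
  have hsD : s ∉ D := fun e => hb (Rch.symm e)
  let J : Set (Sym2 V) := {e | e ∈ H \ {s(s, p)} ∧ ∃ u ∈ D, u ∈ e}
  have hJ : J.Finite := hf.subset fun e he => he.1.1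
  have h1 : ∀ v ∈ D, dg G J v = dg G (H \ {s(s, p)}) v := fun v hv =>
    congrArg ncard (Set.ext fun w => and_congr_right fun _ =>
      ⟨fun e => e.1, fun e => ⟨e, v, hv, Sym2.mem_mk_left _ _⟩⟩)
  have h2 : ∀ v ∉ D, dg G J v = 0 := fun v hv => dg_zero fun w hw e => by
    obtain ⟨e1, u, hu, e2⟩ := e
    rcases Sym2.mem_iff.1 e2 with rfl | rfl
    · exact hv hu
    · exact hv (Rch.trans hu (Rch.single hw e1).symm)
  have hd := dg_erase hf hp (hs p hp)
  have hcl : ClS G (CC G H \ {s}) (CC G H ∩ D) :=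
    ⟨fun u hu => ⟨hu.1, fun e => hsD (e ▸ hu.2)⟩, fun u hu w hw huw => ⟨hw.1, Rch.trans hu.2
      (Rch.single huw ⟨hu.1 w huw, ne_edge (fun e => hsD (e ▸ hu.2)) hw.2⟩)⟩⟩
  have h3 := par_zero.1 hg _ hcl
  have h4 := handshake (G := G) hJ
  have e : {v | Odd (dg G J v)} = insert p (CC G H ∩ D) := by
    ext v
    simp only [mem_ofPred_eq, mem_insert_iff, Nat.odd_iff]
    by_cases hv : v ∈ D
    · rw [h1 v hv]
      have a1 := hd v
      have a2 := h.oth v fun e => ha (e ▸ hv)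
      have a3 := dg_le hr H v
      have a4 := exh_iff (H := H) (v := v) hr
      by_cases e : v = p
      · rw [if_pos (Or.inr e)] at a1
        have := mt a4.2 (e ▸ hpx)
        have a5 := dg_ne_zero hf hp.symm (Sym2.eq_swap ▸ hs p hp)
        rw [← e] at a5
        exact iff_of_true (by omega) (Or.inl e)
      · rw [if_neg (not_or.2 ⟨fun e' : v = s => hsD (e' ▸ hv), e⟩)] at a1
        simp only [e, false_or, mem_inter_iff, hv, and_true]
        exact Iff.trans (by omega) a4.symm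
    · rw [h2 v hv]
      exact iff_of_false (by omega) fun e => e.elim (fun e => hv (e ▸ Rch.rfl)) fun e => hv e.2
  rw [e, Set.ncard_insert_of_notMem (fun e => hpx e.1)
    ((cc_fin hr hf).subset inter_subset_left), Nat.even_add_one] at h4
  exact h4 h3

theorem SB.nonbr (hr : Reg G 3) (h : SB G H a c) (hs : s ∈ Bl G (CC G H) c)
    (hcon : Con G (Bl G (CC G H) c \ {s})) : ∃ y, G.Adj s y ∧ Rch G (H \ {s(s, y)}) s y := by
  have hB := bl_cls (G := G) (C := CC G H) (c := c) h.ex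
  have hx : Exh G H s := hB.1 hs
  have hg := h.par.good (cc_fin hr h.ba.fin) h.ex hs hcon
  have c1 : ∀ p q, G.Adj s p → G.Adj s q → p ≠ q → Exh G H p → Exh G H q →
      ∃ y, G.Adj s y ∧ Rch G (H \ {s(s, y)}) s y := fun p q hp hq hne h1 h2 =>
    ⟨p, hp, Rch.trans (Rch.single hq ⟨hx q hq, ne_edge' hq hne.symm⟩) (rch_of_cn
      (hcon q ⟨hB.2 s hs q h2 hq, hq.ne'⟩ p ⟨hB.2 s hs p h1 hp, hp.ne'⟩) hq.ne'
      (sdiff_subset_sdiff_left hB.1) p)⟩
  have c2 : ∀ p q, G.Adj s p → G.Adj s q → p ≠ q → ¬Exh G H p → ¬Exh G H q →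
      ∃ y, G.Adj s y ∧ Rch G (H \ {s(s, y)}) s y := fun p q hp hq hne h1 h2 => by
    by_contra hn
    have b1 : ¬Rch G (H \ {s(s, p)}) s p := fun e => hn ⟨p, hp, e⟩
    have b2 : ¬Rch G (H \ {s(s, q)}) s q := fun e => hn ⟨q, hq, e⟩
    have h3 : ∀ w, Rch G (H \ {s(s, q)}) q w → Rch G (H \ {s(s, p)}) q w := fun w hw => by
      induction hw with
      | refl => exact Rch.rfl
      | tail a1 a2 ih =>
        have a3 := Relation.ReflTransGen.tail a1 a2
        exact ih.trans (Rch.single a2.1 ⟨a2.2.1, ne_edge (fun e => b2 (Rch.symm (e ▸ a1)))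
          fun e => b2 (Rch.symm (by rwa [e] at a3))⟩)
    exact b1 (Rch.trans (Rch.single hq ⟨hx q hq, ne_edge' hq hne.symm⟩)
      ((h3 a (h.far hr hx hg hq h2 b2)).trans (h.far hr hx hg hp h1 b1).symm))
  obtain ⟨z, hz⟩ := (hr.bd (by norm_num) s).2.2
  obtain ⟨z₁, z₂, h1, h2, h3, h4, h5, -⟩ := nbrs hr hz
  by_cases e0 : Exh G H z <;> by_cases e1 : Exh G H z₁ <;> by_cases e2 : Exh G H z₂
  · exact c1 _ _ h1 h2 h3 e1 e2
  · exact c1 _ _ h1 hz h4 e1 e0
  · exact c1 _ _ h2 hz h5 e2 e0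
  · exact c2 _ _ h1 h2 h3 e1 e2
  · exact c1 _ _ h1 h2 h3 e1 e2
  · exact c2 _ _ h2 hz h5 e2 e0
  · exact c2 _ _ h1 hz h4 e1 e0
  · exact c2 _ _ h1 h2 h3 e1 e2

/-- the state `(H, x)` is reached from `a` without a return -/
def Rc (G : SimpleGraph V) (a : V) (H : Set (Sym2 V)) (x : V) : Prop :=
  ∃ n, Run G {a}ᶜ n ∅ a H x

theorem Rc.step (h : Rc G a H y) (hx : x ∈ nx G H y) (ha : x ≠ a) :
    Rc G a (insert s(y, x) H) x := by
  obtain ⟨n, h⟩ := h
  have := h.trans (Run.one (by rwa [empty_union]) ha)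
  rw [union_singleton] at this
  exact ⟨_, this⟩

theorem Rc.fresh (h : Rc G a (H \ {s(y, x)}) y) (hyx : G.Adj y x) (he : s(y, x) ∈ H) (ha : x ≠ a) :
    Rc G a H x := by
  have := h.step ⟨hyx, Or.inl fun e => e.2 rfl⟩ ha
  rwa [insert_sdiff_singleton, insert_eq_of_mem he] at this

theorem Rc.out (h : Rc G a H c) (hc : Exh G H c) (hy : G.Adj c y) (ha : y ≠ a) : Rc G a H y := by
  have := h.step ⟨hy, Or.inr hc⟩ ha
  rwa [insert_eq_of_mem (hc y hy)] at this

theorem Rc.walk (h : Rc G a H c) (hc : Exh G H c) (ha : ¬Exh G H a) (hp : Cn G (CC G H) c p) :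
    Rc G a H p := by
  induction hp with
  | refl => exact h
  | tail h1 h2 ih =>
    exact ih.out ((Cn.mem h1).elim (fun e => e ▸ hc) id) h2.1 fun e => ha (e ▸ h2.2)

theorem thmS (hr : Reg G 3) (a : V) (n : ℕ) : ∀ H : Set (Sym2 V), H.ncard = n →
    (∀ x, SA G H a x → Rc G a H x) ∧ ∀ c, SB G H a c → Rc G a H c := by
  induction n using Nat.strong_induction_on with
  | _ n ih =>
    intro H hn
    have hlt : ∀ e ∈ H, H.Finite → (H \ {e}).ncard < n := fun e he hf =>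
      hn ▸ Set.ncard_sdiff_singleton_lt_of_mem he hf
    refine ⟨fun x h => ?_, fun c h => ?_⟩
    · obtain ⟨y, h1, h2, h3⟩ := h.red hr
      have ih' := ih _ (hlt _ h2 h.ba.fin) _ rfl
      refine Rc.fresh ?_ h1 h2 h.ne
      rcases h3 with ⟨rfl, h3⟩ | h3 | ⟨h3, c', h4, h5⟩
      · exact h3 ▸ ⟨0, Run.nil _ _⟩
      · exact ih'.1 _ h3
      · exact (ih'.2 _ h5).out h5.ex h4 h3
    · have hB := bl_cls (G := G) (C := CC G H) (c := c) h.ex
      have hf := cc_fin hr h.ba.fin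
      obtain ⟨s, hs, hcon⟩ := non_cut (hf.subset hB.1) (bl_con _ c) subset_rfl ⟨c, bl_mem _ c⟩
        fun t _ q hq => ⟨q, hq, Cn.rfl⟩
      obtain ⟨y, hy, hb⟩ := h.nonbr hr hs hcon
      have hx : Exh G H s := hB.1 hs
      have ih' := ih _ (hlt _ (hx y hy) h.ba.fin) _ rfl
      have h1 : Rc G a (H \ {s(s, y)}) y := by
        rcases h.red hr hx (h.par.good hf h.ex hs hcon) hy hb with ⟨-, h1⟩ | ⟨h1, c', h2, h3⟩
        · exact ih'.1 _ h1
        · exact (ih'.2 _ h3).out h3.ex h2 fun e => h.nex hr (e ▸ h1)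
      rw [Sym2.eq_swap] at h1
      exact (h1.fresh hy.symm (Sym2.eq_swap ▸ hx y hy) fun e => h.nex hr (e ▸ hx)).walk hx
        (h.nex hr) (Cn.symm hs h.ex)

theorem SA.rc (hr : Reg G 3) (h : SA G H a x) : Rc G a H x := (thmS hr a _ H rfl).1 x h

end Pool.Agent.P3fb035
end

-- part Pool.Agent.P.MP_3fb035_pr.CuD
section

/-! The invariant of a run in a cubic graph. -/

set_option autoImplicit false

open Set
open scoped symmDiff

namespace Pool.Agent.P3fb035

variable {V : Type} {G : SimpleGraph V} {H H' : Set (Sym2 V)} {a b c o p q s u v w x y : V}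
  {α β A C : Set V}

theorem sd_one (hv : v ∉ A) : insert v A = A ∆ {v} := by
  ext q; by_cases e : q = v <;> simp [Set.mem_symmDiff, e, hv]

theorem sd_emp (A : Set V) : A ∆ ∅ = A := by ext q; simp [Set.mem_symmDiff]

theorem Par.join' (hC : C.Finite) (h : Par G C (A ∆ {c})) (hA : A ⊆ C) (hc : c ∈ C) (hv : v ∉ C)
    (ha : G.Adj c v) : Par G (insert v C) A := by
  have h1 := (h.add hv).move (hC.insert v) (Or.inr hc) (Cn.single ha (mem_insert _ _))
  have hne : c ≠ v := ha.ne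
  have hvA : v ∉ A := fun e => hv (hA e)
  convert h1 using 1
  ext q; by_cases h2 : q = c <;> by_cases h3 : q = v <;> simp_all [Set.mem_symmDiff]

theorem exh_insert (h1 : u ≠ x) (h2 : u ≠ w) : Exh G (insert s(x, w) H) u ↔ Exh G H u :=
  ⟨fun h z hz => (h z hz).resolve_left fun e => (Sym2.eq_iff.1 e).elim (fun e => h1 e.1)
    fun e => h2 e.1, fun h => h.mono (subset_insert _ _)⟩

theorem cc_ins (hw : ¬Exh G H w) (hx : ¬Exh G (insert s(x, w) H) x) :
    CC G (insert s(x, w) H) \ {w} = CC G H := by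
  ext u
  refine ⟨fun h => (exh_insert (fun e : u = x => hx (by subst e; exact h.1)) h.2).1 h.1, fun h =>
    ⟨Exh.mono h (subset_insert _ _), fun e => hw (e ▸ h)⟩⟩

theorem cc_ins' (hxw : G.Adj x w) (hw : ¬Exh G H w) (hx : Exh G (insert s(x, w) H) x) :
    CC G (insert s(x, w) H) \ {w} = insert x (CC G H) := by
  ext u
  refine ⟨fun h => or_iff_not_imp_left.2 fun e => (exh_insert e h.2).1 h.1, fun h => h.elim
    (fun e : u = x => by subst e; exact ⟨hx, hxw.ne⟩) fun h => ⟨Exh.mono h (subset_insert _ _), fun e => hw (e ▸ h)⟩⟩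

/-- an anchor for `v` -/
def An (G : SimpleGraph V) (H : Set (Sym2 V)) (v : V) (α : Set V) : Prop :=
  (α = ∅ ∧ ¬Exh G H v) ∨ ∃ c, α = {c} ∧ Exh G H c ∧ (c = v ∨ G.Adj c v)

theorem An.sub (h : An G H v α) : α ⊆ CC G H := by
  rcases h with ⟨rfl, -⟩ | ⟨c, rfl, h, -⟩
  · exact empty_subset _
  · exact singleton_subset_iff.2 h

theorem An.mono (h : An G H v α) (hH : H ⊆ H') (hv : α = ∅ → ¬Exh G H' v) : An G H' v α :=
  h.imp (fun e => ⟨e.1, hv e.1⟩) fun ⟨c, h1, h2, h3⟩ => ⟨c, h1, h2.mono hH, h3⟩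

/-- the invariant -/
structure Iv (G : SimpleGraph V) (o : V) (H : Set (Sym2 V)) (x : V) (α β : Set V) : Prop where
  ba : Ba G H o
  rx : Rch G H o x
  ao : An G H o α
  ax : An G H x β
  par : Par G (CC G H) (α ∆ β)
  ev : ∀ u, ¬Exh G H u → (Even (dg G H u) ↔ ((u = o ∧ α = ∅) ↔ (u = x ∧ β = ∅)))

theorem Iv.step (hr : Reg G 3) (h : Iv G o H x α β) (hw : w ∈ nx G H x) :
    ∃ α' β', Iv G o (insert s(x, w) H) w α' β' := by
  classical
  have hf := cc_fin hr h.ba.fin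
  have hxw : G.Adj x w := hw.1
  by_cases hx : Exh G H x
  · rw [insert_eq_of_mem (hx w hxw)]
    obtain ⟨c, rfl, h1, h2⟩ := h.ax.resolve_left fun e => e.2 hx
    have h3 : Cn G (CC G H) c x := h2.elim (fun e => e ▸ Cn.rfl) fun e => Cn.single e hx
    refine ⟨α, {x}, h.ba, h.rx.trans (Rch.single hxw (hx w hxw)), h.ao,
      Or.inr ⟨x, rfl, hx, Or.inr hxw⟩, ?_, fun u hu => ?_⟩
    · simpa using h.par.move hf h1 h3
    · simpa using h.ev u hu
  have he : s(x, w) ∉ H := hw.2.resolve_right hx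
  have hw' : ¬Exh G H w := fun e => he (Sym2.eq_swap ▸ e x hxw.symm)
  have hd := dg_insert h.ba.fin hxw he
  have hdx : dg G (insert s(x, w) H) x = dg G H x + 1 := by simpa using hd x
  have hdw : dg G (insert s(x, w) H) w = dg G H w + 1 := by simpa using hd w
  have hsub := subset_insert s(x, w) H
  have ex := h.ev x hx
  have ew := h.ev w hw'
  simp only [hxw.ne', false_and, iff_false] at ew
  have hle := dg_le hr (insert s(x, w) H) x
  have hE := exh_iff (H := insert s(x, w) H) (v := x) hr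
  -- leaving `x`
  obtain ⟨γ, g1, g2, g3, g4, g5⟩ : ∃ γ : Set V, Par G (CC G (insert s(x, w) H) \ {w}) γ ∧ w ∉ γ ∧
      (x ≠ o → γ = α) ∧ (o ≠ w → An G (insert s(x, w) H) o γ) ∧
      (¬Exh G (insert s(x, w) H) x → (Even (dg G H x + 1) ↔ ¬(x = o ∧ γ = ∅))) := by
    have hwα : w ∉ α := fun e => hw' (h.ao.sub e)
    rcases h.ax with ⟨rfl, -⟩ | ⟨c, rfl, h1, h2⟩
    · have hp : Par G (CC G H) α := sd_emp α ▸ h.par
      simp only [and_self, iff_true] at ex
      by_cases hx' : Exh G (insert s(x, w) H) x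
      · obtain ⟨rfl, rfl⟩ := ex.1 ⟨1, by have := hE.1 hx'; omega⟩
        refine ⟨{x}, ?_, hxw.ne', fun e => (e rfl).elim,
          fun _ => Or.inr ⟨x, rfl, hx', Or.inl rfl⟩, fun e => (e hx').elim⟩
        rw [cc_ins' hxw hw' hx']
        simpa using hp.add hx
      · refine ⟨α, (cc_ins hw' hx').symm ▸ hp, hwα, fun _ => rfl, fun e => h.ao.mono hsub
          fun e' e'' => ?_, fun _ => by rw [Nat.even_add_one, ex]⟩
        by_cases e3 : o = x
        · exact hx' (e3 ▸ e'')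
        · exact (h.ao.resolve_right fun ⟨c, e4, _⟩ => by simp [e'] at e4).2
            ((exh_insert e3 e).1 e'')
    · have hcx : G.Adj c x := h2.resolve_left fun e => hx (e ▸ h1)
      simp only [singleton_ne_empty, and_false, iff_false] at ex
      by_cases hx' : Exh G (insert s(x, w) H) x
      · have h3 := ex.1 ⟨1, by have := hE.1 hx'; omega⟩
        refine ⟨α, ?_, hwα, fun _ => rfl, fun e => h.ao.mono hsub fun e' e'' => ?_,
          fun e => (e hx').elim⟩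
        · rw [cc_ins' hxw hw' hx']
          exact h.par.join' hf h.ao.sub h1 hx hcx
        · exact (h.ao.resolve_right fun ⟨c, e4, _⟩ => by simp [e'] at e4).2
            ((exh_insert (fun e3 => h3 ⟨e3.symm, e'⟩) e).1 e'')
      · have h3 := dg_ne_zero h.ba.fin hcx.symm (Sym2.eq_swap ▸ h1 x hcx)
        have h4 := mt hE.2 hx'
        have h5 : dg G H x = 1 := by omega
        rw [h5] at ex
        obtain ⟨rfl, rfl⟩ : x = o ∧ α = ∅ := by simpa using ex
        refine ⟨{c}, ?_, fun e => hw' (e ▸ h1), fun e => (e rfl).elim,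
          fun _ => Or.inr ⟨c, rfl, h1.mono hsub, Or.inr hcx⟩, fun _ => by simp [h5]⟩
        rw [cc_ins hw' hx']
        simpa [emp_sd] using h.par
  have g6 : ∀ u, u ≠ x → ((u = o ∧ γ = ∅) ↔ (u = o ∧ α = ∅)) := fun u hu =>
    and_congr_right fun e => by rw [g3 fun e' => hu (e.trans e'.symm)]
  have g7 : ∀ u, u ≠ w → ¬Exh G (insert s(x, w) H) u →
      (Even (dg G (insert s(x, w) H) u) ↔ ¬(u = o ∧ γ = ∅)) := fun u h1 h2 => by
    by_cases e : u = x
    · rw [e, hdx]; exact g5 (e ▸ h2)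
    · have := h.ev u fun e' => h2 (e'.mono hsub)
      rw [hd u, if_neg (not_or.2 ⟨e, h1⟩), g6 u e]
      simpa [e] using this
  rw [← g6 w hxw.ne'] at ew
  have hba := h.ba.insert h.rx hxw
  have hrx := (h.rx.mono hsub).trans (Rch.single hxw (mem_insert _ _))
  have hao : (o = w → γ = ∅ → ¬Exh G (insert s(x, w) H) o) → An G (insert s(x, w) H) o γ :=
    fun k => by
      by_cases e : o = w
      · have e' := g3 fun e' => hxw.ne (e'.trans e)
        exact e' ▸ h.ao.mono hsub fun e3 => k e (e'.trans e3)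
      · exact g4 e
  by_cases hw2 : Exh G (insert s(x, w) H) w
  · have h1 := ew.1 ⟨1, by have := (exh_iff hr).1 hw2; omega⟩
    refine ⟨γ, {w}, hba, hrx, hao fun e e' _ => h1 ⟨e.symm, e'⟩,
      Or.inr ⟨w, rfl, hw2, Or.inl rfl⟩, ?_, fun u hu => ?_⟩
    · have := g1.add (v := w) fun e => e.2 rfl
      rwa [insert_sdiff_singleton, insert_eq_of_mem (show w ∈ CC G _ from hw2), sd_one g2] at this
    · simpa using g7 u (fun e => hu (e ▸ hw2)) hu
  · refine ⟨γ, ∅, hba, hrx, hao fun e _ => e ▸ hw2, Or.inl ⟨rfl, hw2⟩, ?_, fun u hu => ?_⟩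
    · rwa [sdiff_singleton_eq_self hw2, ← sd_emp γ] at g1
    · by_cases e : u = w
      · rw [e, hdw, Nat.even_add_one, ew]; simp
      · simpa [e] using g7 u e hu

theorem Iv.run (hr : Reg G 3) {S : Set V} {n : ℕ} {E : Set (Sym2 V)} (hR : Run G S n H x E p)
    (h : Iv G o H x α β) : ∃ α' β', Iv G o (H ∪ E) p α' β' := by
  induction hR generalizing α β with
  | nil U v => exact ⟨α, β, by rwa [union_empty]⟩
  | cons hw _ _ ih =>
    obtain ⟨_, _, h1⟩ := h.step hr hw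
    obtain ⟨α', β', h2⟩ := ih h1
    exact ⟨α', β', by rwa [union_insert, ← insert_union]⟩

theorem iv_zero (hr : Reg G 3) (o : V) : Iv G o ∅ o ∅ ∅ := by
  have h : ∀ v, ¬Exh G ∅ v := fun v e => by
    obtain ⟨z, hz⟩ := (hr.bd (by norm_num) v).2.2
    exact e z hz
  refine ⟨⟨finite_empty, fun _ _ e => e.elim, fun _ _ e => e.elim⟩, Rch.rfl, Or.inl ⟨rfl, h o⟩,
    Or.inl ⟨rfl, h o⟩, fun K hK => ?_, fun u _ => ?_⟩
  · rw [eq_empty_of_forall_notMem (s := K) fun q hq => h q (hK.1 hq)]; simp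
  · rw [dg_zero fun _ _ => notMem_empty _]; simp

/-- the state at a fresh vertex -/
theorem fresh_state (hr : Reg G 3) {S : Set V} {n : ℕ} (hR : Run G S n ∅ o H x) (hx : x ≠ o)
    (hd : dg G H x = 1) : SA G H o x ∨ ∃ c, (c = o ∨ G.Adj c o) ∧ SB G H x c := by
  obtain ⟨α, β, h⟩ := (iv_zero hr o).run hr hR
  rw [empty_union] at h
  have hn : ¬Exh G H x := fun e => by have := (exh_iff hr).1 e; omega
  obtain rfl : β = ∅ := by simpa [hd, hx] using h.ev x hn
  have h1 : ∀ v, v ≠ x → ¬(v = o ∧ α = ∅) → dg G H v ≠ 1 := fun v a1 a2 a3 => by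
    have := h.ev v fun e => by have := (exh_iff hr).1 e; omega
    simp [a1, a2, a3] at this
  have hp : Par G (CC G H) α := sd_emp α ▸ h.par
  rcases h.ao with ⟨rfl, h2⟩ | ⟨c, rfl, h2, h3⟩
  · refine Or.inl ⟨h.ba, hx, ?_, hd, fun v a1 a2 => h1 v a2 fun e => a1 e.1, hp⟩
    have a1 := h.ev o h2
    have a2 := dg_le hr H o
    have a3 := mt (exh_iff hr).2 h2
    simp only [and_self, hx.symm, false_and, iff_false, not_true, Nat.even_iff] at a1
    omega
  · obtain ⟨y, -, a1, -⟩ := dg_one hd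
    exact Or.inr ⟨c, h3, h.ba.root a1, h2, hd, fun v a2 => h1 v a2 (by simp), hp⟩

end Pool.Agent.P3fb035
end

-- part Pool.Agent.P.MP_3fb035_pr.CuE
section

/-! Local surgery on states of a cubic graph. -/

set_option autoImplicit false

open Set
open scoped symmDiff

namespace Pool.Agent.P3fb035

variable {V : Type} {G : SimpleGraph V} {H H' : Set (Sym2 V)} {a b c o p q s t u v w x y : V}
  {W W₀ : Set V}

theorem ag_insert (hv : v ∈ W) (hw : w ∈ W) : Ag G Wᶜ H (insert s(v, w) H) := fun _ ha _ _ =>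
  ⟨Or.inr, fun h => h.resolve_left fun e => (Sym2.eq_iff.1 e).elim (fun e => ha (e.1 ▸ hv))
    fun e => ha (e.1 ▸ hw)⟩

theorem ag_erase (hv : v ∈ W) (hw : w ∈ W) : Ag G Wᶜ H (H \ {s(v, w)}) := fun _ ha _ _ =>
  ⟨fun h => ⟨h, fun e => (Sym2.eq_iff.1 e).elim (fun e => ha (e.1 ▸ hv))
    fun e => ha (e.1 ▸ hw)⟩, fun h => h.1⟩

theorem fill (hr : Reg G 3) (hf : W₀.Finite) (hc : Con G W₀) (hs : W₀ ⊆ W)
    (hN : ∀ a ∈ W₀, ∀ b, G.Adj a b → b ∈ W) (hx : x ∉ W) (n : ℕ) :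
    ∀ (H : Set (Sym2 V)) (c : V), (W₀ \ CC G H).ncard = n → SB G H x c →
      (∃ u ∈ W₀, c = u ∨ G.Adj c u) → ∃ H' w, Ag G Wᶜ H H' ∧
        ((w ∈ W ∧ SA G H' x w) ∨ (SB G H' x w ∧ W₀ ⊆ Bl G (CC G H') w)) := by
  classical
  induction n using Nat.strong_induction_on with
  | _ n ih =>
    intro H c hn h ⟨u, hu, hcu⟩
    by_cases hK : W₀ ⊆ Bl G (CC G H) c
    · exact ⟨H, c, Ag.rfl, Or.inr ⟨h, hK⟩⟩
    have hB := bl_cls (G := G) (C := CC G H) (c := c) h.ex
    obtain ⟨c', v, h1, h2, h3, h4⟩ : ∃ c' v, c' ∈ Bl G (CC G H) c ∧ v ∉ Bl G (CC G H) c ∧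
        v ∈ W₀ ∧ G.Adj c' v := by
      by_cases e : u ∈ Bl G (CC G H) c
      · obtain ⟨z, a1, a2⟩ := not_subset.1 hK
        obtain ⟨p, q, b1, b2, b3, -, b4⟩ := exit_edge (hc u hu z a1) e a2
        exact ⟨p, q, b1, b2, b3, b4⟩
      · exact ⟨c, u, bl_mem _ c, e, hu, hcu.resolve_left fun e' => e (e' ▸ bl_mem _ c)⟩
    have h' := h.move hr h1
    have hv : ¬Exh G H v := fun e => h2 (hB.2 c' h1 v e h4)
    obtain ⟨w, hvw, he⟩ : ∃ w, G.Adj v w ∧ s(v, w) ∉ H := by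
      by_contra e
      exact hv fun z hz => by_contra fun e' => e ⟨z, hz, e'⟩
    have hw : ¬Exh G H w := fun e => he (Sym2.eq_swap ▸ e v hvw.symm)
    have hwW := hN v h3 w hvw
    have hvx : v ≠ x := fun e => hx (e ▸ hs h3)
    have hwx : w ≠ x := fun e => hx (e ▸ hwW)
    have hcv : s(v, c') ∈ H := Sym2.eq_swap ▸ h'.ex v h4
    have hd := dg_insert h.ba.fin hvw he
    have hdv : dg G (insert s(v, w) H) v = 3 := by
      have := dg_ne_zero h.ba.fin h4.symm hcv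
      have := h.oth v hvx; have := dg_le hr H v; have := mt (exh_iff hr).2 hv
      rw [hd v, if_pos (Or.inl rfl)]; omega
    have hdw : dg G (insert s(v, w) H) w = dg G H w + 1 := by simpa using hd w
    have hv' := (exh_iff hr).2 hdv
    have hba := h.ba.insert (h.ba.con v c' hcv) hvw
    have hp := h'.par.join (cc_fin hr h.ba.fin) h'.ex hv h4
    rw [← cc_ins' hvw hw hv'] at hp
    have hdx : dg G (insert s(v, w) H) x = 1 := by
      rw [hd x, if_neg (not_or.2 ⟨hvx.symm, hwx.symm⟩), h.da]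
    have hot : ∀ z, z ≠ x → z ≠ w → dg G (insert s(v, w) H) z ≠ 1 := fun z a1 a2 => by
      by_cases e : z = v
      · rw [e]; omega
      · rw [hd z, if_neg (not_or.2 ⟨e, a2⟩)]; exact h.oth z a1
    have hag : Ag G Wᶜ H (insert s(v, w) H) := ag_insert (hs h3) hwW
    by_cases hw' : Exh G (insert s(v, w) H) w
    · have a1 := hp.add (v := w) fun e => e.2 rfl
      rw [insert_sdiff_singleton, insert_eq_of_mem (show w ∈ CC G _ from hw'),
        insert_empty_eq] at a1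
      obtain ⟨H', w', a2, a3⟩ := ih _ (hn ▸ Set.ncard_lt_ncard (s := W₀ \ CC G (insert s(v, w) H))
        ⟨fun z hz => ⟨hz.1, fun e => hz.2 (Exh.mono e (subset_insert _ _))⟩,
          fun e => (e ⟨h3, hv⟩).2 hv'⟩ (hf.subset sdiff_subset)) _ w rfl
        ⟨hba, hw', hdx, fun z hz => by
          by_cases e : z = w
          · have := (exh_iff hr).1 hw'; rw [e]; omega
          · exact hot z hz e, a1⟩ ⟨v, h3, Or.inr hvw.symm⟩
      exact ⟨H', w', hag.trans a2, a3⟩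
    · rw [sdiff_singleton_eq_self hw'] at hp
      refine ⟨_, w, hag, Or.inl ⟨hwW, hba, hwx, hdx, ?_, hot, hp⟩⟩
      have := h.oth w hwx; have := dg_le hr (insert s(v, w) H) w; have := mt (exh_iff hr).2 hw'
      omega

/-- a path of exhausted vertices that avoids `s` uses no edge at `s` -/
theorem rch_av {S : Set V} (h : Cn G S p q) (hp : p ≠ s) (hS : S ⊆ CC G H \ {s}) :
    Rch G (H \ {e | s ∈ e}) p q := by
  induction h with
  | refl => exact Rch.rfl
  | @tail u w a1 a2 ih =>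
    have hu : u ≠ s := (Cn.mem a1).elim (fun e => e ▸ hp) fun e => (hS e).2
    exact ih.trans (Rch.single a2.1 ⟨Sym2.eq_swap ▸ (hS a2.2).1 u a2.1.symm, fun e =>
      (Sym2.mem_iff.1 e).elim hu.symm fun e => (hS a2.2).2 e.symm⟩)

theorem carve_last (hr : Reg G 3) {K : Set V} (hK : K ⊆ CC G H) (hp : p ∈ K) (hpq : G.Adj p q)
    (hpt : G.Adj p t) (hN : ∀ z, G.Adj p z → z ∈ K) (hcon : Con G (K \ {p})) :
    Rch G ((H \ {s(p, q)}) \ {s(t, p)}) t p := by
  obtain ⟨r, h1, h2, h3⟩ : ∃ r, G.Adj p r ∧ r ≠ q ∧ r ≠ t := by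
    obtain ⟨z₁, z₂, a1, a2, a3, a4, a5, -⟩ := nbrs hr hpq
    by_cases e : z₁ = t
    · exact ⟨z₂, a2, a5, fun e' => a3 (e.trans e'.symm)⟩
    · exact ⟨z₁, a1, a4, e⟩
  have h4 := rch_av (H := H) (hcon t ⟨hN t hpt, hpt.ne'⟩ r ⟨hN r h1, h1.ne'⟩) hpt.ne'
    (sdiff_subset_sdiff_left hK)
  have h5 : s(p, r) ∈ (H \ {s(p, q)}) \ {s(t, p)} :=
    ⟨⟨hK hp r h1, ne_edge' h1 h2⟩, by rw [Sym2.eq_swap (a := t)]; exact ne_edge' h1 h3⟩
  refine Rch.trans (h4.mono fun e he => ⟨⟨he.1, fun e' => he.2 ?_⟩, fun e' => he.2 ?_⟩)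
    (Rch.single h1 h5).symm
  · rw [show e = s(p, q) from e']; exact Sym2.mem_mk_left _ _
  · rw [show e = s(t, p) from e']; exact Sym2.mem_mk_right _ _

theorem carve (hr : Reg G 3) (h : SB G H x c) (hK : W₀ ⊆ Bl G (CC G H) c) (hoy : G.Adj o y)
    (hT : ∀ t, G.Adj o t ∨ G.Adj y t →
      t ∈ W₀ ∧ ∀ p q, G.Adj t p → G.Adj t q → Cn G (W₀ \ {t}) p q) :
    ∃ H' p, p ∈ W₀ ∧ SA G H' x p ∧ Ag G W₀ᶜ H H' := by
  have hB := bl_cls (G := G) (C := CC G H) (c := c) h.ex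
  have hcon : ∀ t, G.Adj o t ∨ G.Adj y t → Con G (Bl G (CC G H) c \ {t}) := fun t ht =>
    con_erase (bl_con _ c) fun p _ q _ h1 h2 =>
      ((hT t ht).2 p q h1 h2).mono (sdiff_subset_sdiff_left hK)
  have ho := (hT o (Or.inr hoy.symm)).1
  have hy := (hT y (Or.inl hoy)).1
  have hox : Exh G H o := hB.1 (hK ho)
  have hb : Rch G (H \ {s(o, y)}) o y := by
    obtain ⟨z, -, a1, -, -, a2, -⟩ := nbrs hr hoy
    exact Rch.trans (Rch.single a1 ⟨hox z a1, ne_edge' a1 a2⟩) (rch_of_cn (hcon o (Or.inr hoy.symm)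
      z ⟨hK (hT z (Or.inl a1)).1, a1.ne'⟩ y ⟨hK hy, hoy.ne'⟩) a1.ne'
      (sdiff_subset_sdiff_left hB.1) y)
  obtain ⟨-, c', h1, h2⟩ := (h.red hr hox (h.par.good (cc_fin hr h.ba.fin) h.ex (hK ho)
    (hcon o (Or.inr hoy.symm))) hoy hb).resolve_left fun e => e.1 (hB.1 (hK hy))
  have hcc := cc_erase (H := H) hoy
  have hB' := bl_cls (G := G) (C := CC G (H \ {s(o, y)})) (c := c') h2.ex
  have hsub : Bl G (CC G (H \ {s(o, y)})) c' ⊆ Bl G (CC G H) c := fun z hz =>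
    hB.cn (Cn.mono hz fun r hr => (hcc ▸ hr).1.1)
      (hB.2 y (hK hy) c' (Exh.mono h2.ex sdiff_subset) h1.symm)
  have hf := cc_fin hr h2.ba.fin
  obtain ⟨t, ⟨ht, ht'⟩, hct⟩ := non_cut (hf.subset hB'.1) (bl_con _ c')
    (N := {t | t ∈ Bl G (CC G (H \ {s(o, y)})) c' ∧ (G.Adj o t ∨ G.Adj y t)}) (fun _ e => e.1)
    ⟨c', bl_mem _ c', Or.inr h1.symm⟩ fun t ht q hq => by
      have a0 : o ∉ Bl G (CC G (H \ {s(o, y)})) c' := fun e => (hcc ▸ hB'.1 e).1.2 rfl
      obtain ⟨p, r, a1, a2, a3, -, a4⟩ := exit_edge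
        (A := {r | Cn G (Bl G (CC G (H \ {s(o, y)})) c' \ {t}) q r})
        (hcon t ht.2 q ⟨hsub hq.1, hq.2⟩ o ⟨hK ho, fun e => a0 (e ▸ ht.1)⟩) Cn.rfl
        fun e => (Cn.mem e).elim (fun e' => a0 (e' ▸ hq.1)) fun e' => a0 e'.1
      have a5 : p ∈ Bl G (CC G (H \ {s(o, y)})) c' \ {t} := (Cn.mem a1).elim (fun e => e ▸ hq) id
      refine ⟨p, ⟨⟨a5.1, ?_⟩, a5.2⟩, a1⟩
      by_contra a6
      refine a2 (Cn.trans a1 (Cn.single a4 ⟨hB'.2 p a5.1 r ?_ a4, a3.2⟩))
      rw [hcc]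
      exact ⟨⟨hB.1 a3.1, fun e => a6 (Or.inl (e ▸ a4.symm))⟩, fun e => a6 (Or.inr (e ▸ a4.symm))⟩
  have htx := hB'.1 ht
  have hg := h2.par.good hf h2.ex ht hct
  have htW := (hT t ht').1
  obtain ⟨p, a1, a2, a3, a4⟩ : ∃ p ∈ W₀, G.Adj t p ∧ ¬Exh G (H \ {s(o, y)}) p ∧
      Rch G ((H \ {s(o, y)}) \ {s(t, p)}) t p := by
    rcases ht' with e | e
    · exact ⟨o, ho, e.symm, fun e' => (e' y hoy).2 rfl, carve_last hr hB.1 (hK ho) hoy e
        (fun z hz => hK (hT z (Or.inl hz)).1) (hcon o (Or.inr hoy.symm))⟩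
    · refine ⟨y, hy, e.symm, fun e' => (e' o hoy.symm).2 Sym2.eq_swap, ?_⟩
      rw [Sym2.eq_swap (a := o)]
      exact carve_last hr hB.1 (hK hy) hoy.symm e
        (fun z hz => hK (hT z (Or.inr hz)).1) (hcon y (Or.inl hoy))
  exact ⟨_, p, a1, ((h2.red hr htx hg a2 a4).resolve_right fun e => a3 e.1).2,
    (ag_erase ho hy).trans (ag_erase htW a1)⟩

/-- every state at a fresh vertex far away can be changed near `o` into one without returns -/
theorem surgery (hr : Reg G 3) (hc : G.Preconnected) (h2 : Two G) (o : V) :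
    ∃ W : Set V, W.Finite ∧ o ∈ W ∧ ∀ n H x, Run G univ n ∅ o H x → x ∉ W → dg G H x = 1 →
      ∃ H', ∃ o' ∈ W, Rc G o' H' x ∧ Ag G Wᶜ H H' := by
  obtain ⟨y, hy⟩ := (hr.bd (by norm_num) o).2.2
  have h1 : ∀ t : V, ∃ B : Set V, B.Finite ∧ G.neighborSet t ⊆ B ∧ B ⊆ {t}ᶜ ∧ Con G B :=
    fun t => fin_sup (h2.con t) (hr t).1 fun z hz => hz.ne'
  choose B b1 b2 b3 b4 using h1
  have hT : (G.neighborSet o ∪ G.neighborSet y).Finite := (hr o).1.union (hr y).1
  obtain ⟨W₀, w1, w2, -, w3⟩ := fin_sup (G := G) (S := univ) (fun a _ b _ => cn_univ hc a b)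
    (hT.union (hT.biUnion fun t _ => b1 t)) (subset_univ _)
  have ho : o ∈ W₀ := w2 (Or.inl (Or.inr hy.symm))
  refine ⟨W₀ ∪ {b | ∃ a ∈ W₀, G.Adj a b}, w1.union (nb_fin hr.lf w1), Or.inl ho,
    fun n H x hR hx hd => ?_⟩
  rcases fresh_state hr hR (fun e => hx (e ▸ Or.inl ho)) hd with h | ⟨c, h3, h⟩
  · exact ⟨H, o, Or.inl ho, h.rc hr, Ag.rfl⟩
  obtain ⟨H', w, a1, ⟨a2, a3⟩ | ⟨a2, a3⟩⟩ := fill hr w1 w3 (W := W₀ ∪ {b | ∃ a ∈ W₀, G.Adj a b})
    subset_union_left (fun a ha b hb => Or.inr ⟨a, ha, hb⟩) hx _ H c rfl h ⟨o, ho, h3⟩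
  · exact ⟨H', w, a2, a3.symm.rc hr, a1⟩
  obtain ⟨H'', p, c1, c2, c3⟩ := carve hr a2 a3 hy fun t ht => ⟨w2 (Or.inl ht), fun p q hp hq =>
    (b4 t p (b2 t hp) q (b2 t hq)).mono fun z hz => ⟨w2 (Or.inr (mem_biUnion ht hz)), b3 t hz⟩⟩
  exact ⟨H'', p, Or.inl c1, c2.symm.rc hr, a1.trans (c3.mono (compl_subset_compl.2 subset_union_left))⟩

end Pool.Agent.P3fb035
end

-- part Pool.Agent.P.MP_3fb035_pr.CuF
section

/-! Cubic vertex-transitive graphs: almost sure return forces recurrence. -/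

set_option autoImplicit false

open MeasureTheory Set
open scoped ENNReal

namespace Pool.Agent.P3fb035

open Pool.Agent.Lib.GRW

variable {V : Type} {G : SimpleGraph V}

section
variable [Countable V] [MeasurableSpace V] [DiscreteMeasurableSpace V]
  {Ω : Type} [MeasurableSpace Ω] {P : Measure Ω} {X : ℕ → Ω → V} {d : ℕ} {o : V}

/-- escape from a finite set, seen at a fresh vertex -/
theorem fresh_esc (hb : Bd G d) (hc : G.Preconnected) (h : IsWalk (ker G ∅) o P X)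
    (h0 : P (pth X ⁻¹' Of o) ≠ 1) {W : Set V} (hW : W.Finite) :
    ∃ n E x, Run G univ n ∅ o E x ∧ x ∉ W ∧ dg G E x = 1 ∧ Qe G W E x ≠ 0 := by
  have := h.1
  let A : ℕ → Set (ℕ → V) := fun m => {y | (∀ s ≤ m, y s ≠ y (m + 1)) ∧ ∀ s > m, y s ∉ W}
  obtain ⟨m, hm⟩ : ∃ m, P (cyl X 0 (fun _ => o) ∩ pth X ⁻¹' A m) ≠ 0 := by
    by_contra hn
    push Not at hn
    refine h0 ((prob_compl_eq_zero_iff (h.meas_pre (meas_Of o))).1
      (measure_eq_zero_iff_ae_notMem.2 ?_))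
    filter_upwards [measure_eq_zero_iff_ae_notMem.1 (measure_iUnion_null hn), ae_ev hb hc h o,
      ae_adj h] with ω h1 h2 h3 h4
    obtain ⟨T, hT⟩ := h2 h4 W hW
    obtain ⟨T', hT'⟩ := h2 h4 _ ((finite_le_nat T).image (pth X ω))
    classical
    have h5 : ∃ t, pth X ω t ∉ pth X ω '' {s | s ≤ T} := ⟨T' + 1, hT' _ (Nat.lt_succ_self _)⟩
    have h6 := Nat.find_spec h5
    have h7 : T < Nat.find h5 := not_le.1 fun e => h6 ⟨_, e, rfl⟩
    obtain ⟨m, hm⟩ : ∃ m, Nat.find h5 = m + 1 := ⟨Nat.find h5 - 1, by omega⟩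
    refine h1 (mem_iUnion.2 ⟨m, fun s hs => ?_, fun s hs e => ?_, fun s hs => hT s (by omega)⟩)
    · obtain rfl : s = 0 := by omega
      exact h3.1
    · exact Nat.find_min h5 (m := s) (by omega) (by rw [e, ← hm]; exact h6)
  obtain ⟨y, -, h1⟩ := cyl_split (Nat.zero_le (m + 1)) hm
  obtain ⟨ω, h2, h3, h4⟩ := nonempty_of_measure_ne_zero h1
  have h5 : ∀ s ≤ m + 1, pth X ω s = y s := h2
  have h6 : P (cyl X (m + 1) y ∩ pth X ⁻¹' {z | ∀ s > m + 1, z s ∉ W}) ≠ 0 := fun e =>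
    h1 (le_antisymm (e ▸ measure_mono fun ω' hω' =>
      ⟨hω'.1, fun s hs => hω'.2.2 s (by omega)⟩) zero_le)
  rw [q_cyl h, mul_ne_zero_iff, empty_union] at h6
  have h7 := val_of_ne_zero h h6.1
  obtain ⟨E, h8, h9⟩ := run_of (G := G) (U := ∅) (S := univ) (n := m + 1) (t := 0) (y := y)
    fun s _ hs => ⟨h7.2 s (by omega), mem_univ _⟩
  rw [us_zero, Nat.zero_add, empty_union] at h8 h9
  rw [h7.1, ← h9] at h8
  refine ⟨_, _, _, h8, h5 _ le_rfl ▸ h4 _ (Nat.lt_succ_self m), ?_, h6.2⟩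
  refine Set.ncard_eq_one.2 ⟨y m, Set.ext fun w => ⟨fun ⟨_, s, hs, e⟩ => ?_, fun e => ?_⟩⟩
  · have a1 : ∀ r ≤ m, y r ≠ y (m + 1) := fun r hr => by
      rw [← h5 r (by omega), ← h5 _ le_rfl]; exact h3 r hr
    rcases Sym2.eq_iff.1 e with e | e
    · exact (a1 s (by omega) e.1).elim
    · obtain rfl : s = m := by_contra fun e' => a1 (s + 1) (by omega) e.2
      exact e.1.symm
  · obtain rfl : w = y m := e
    exact ⟨(h7.2 m (Nat.lt_succ_self m)).1.symm, m, Nat.lt_succ_self m, Sym2.eq_swap⟩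

theorem cubic_nv [Infinite V] (hr : Reg G 3) (hc : G.Preconnected) (ht : Tr G)
    (h : IsWalk (ker G ∅) o P X) (h0 : P (pth X ⁻¹' Of o) ≠ 1) : P (pth X ⁻¹' Nv o) ≠ 0 := by
  by_cases h2 : Two G
  swap
  · exact (odd_cut hr (by decide) hc ht h2 h h0).2
  have hb := hr.bd (by norm_num)
  obtain ⟨W, w1, -, w2⟩ := surgery hr hc h2 o
  obtain ⟨n, E, x, h3, h4, h5, h6⟩ := fresh_esc hb hc h h0 w1
  obtain ⟨H', o', h7, ⟨m, h8⟩, h9⟩ := w2 n E x h3 h4 h5
  obtain ⟨Ω', _, P', X', h'⟩ := exists_ker hb ∅ o'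
  rw [(law_tr ht h h').2]
  rw [Qe_loc (G' := G) h4 (fun _ _ _ => Iff.rfl) h9, ← empty_union H'] at h6
  exact nv_of_es hb h' (mul_ne_zero (pow_ne_zero m (ENNReal.inv_ne_zero.2
    (ENNReal.natCast_ne_top 3))) h6) ⟨m, H', x, h8, h4, le_rfl⟩ (fun e => e rfl) h7

end

theorem return_cubic [Infinite V] [G.LocallyFinite] {Ω : Type} [MeasurableSpace Ω] {P : Measure Ω}
    {X : ℕ → Ω → V} {o : V} (hc : G.Connected) (ht : Tr G) (h : IsGRW G o P X)
    (hd : G.degree o = 3) :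
    P {ω | {t | X t ω = o}.Infinite} = 1 ↔ P {ω | ∃ t, 1 ≤ t ∧ X t ω = o} = 1 := by
  have := countable_of_connected hc
  let : MeasurableSpace V := ⊤
  have : DiscreteMeasurableSpace V := ⟨fun _ => trivial⟩
  have := h.1
  have hw := isWalk_of_grw h
  have e : {ω | {t | X t ω = o}.Infinite} = pth X ⁻¹' Of o := Set.ext fun ω => (of_iff _ o).symm
  refine ⟨fun h3 => le_antisymm prob_le_one (h3 ▸ measure_mono fun ω hω => ?_), fun hB => ?_⟩
  · obtain ⟨t, ht, h4⟩ := hω.exists_gt 0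
    exact ⟨t, h4, ht⟩
  · by_contra h0
    exact cubic_nv (hd ▸ reg_of_tr ht o) hc.preconnected ht hw (e ▸ h0) ((ret_iff hw).1 hB)

end Pool.Agent.P3fb035
end
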